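import Pool.Agent.Lib.MP_e97e2b_nt.RT.ZLa
import Pool.Agent.Lib.MP_33b3f9_ag.M4.CL.ZL

/-! The trick of Zarhin in matrix form. -/

set_option autoImplicit false

namespace Pool.Agent.RT

open Matrix
open scoped Kronecker

variable {m R : Type} [Fintype m] [DecidableEq m] [CommRing R]

/-- Two times four copies. -/
abbrev ZI (m : Type) : Type := (Fin 4 × m) ⊕ (Fin 4 × m)

/-- Four copies of `A` and four copies of `A'`. -/
def zlD (A A' : Matrix m m R) : Matrix (ZI m) (ZI m) R :=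
  fromBlocks ((1 : Matrix (Fin 4) (Fin 4) R) ⊗ₖ A) 0 0 ((1 : Matrix (Fin 4) (Fin 4) R) ⊗ₖ A')

/-- The coordinates in the lattice of Zarhin. -/
def zlQ (Ω : Matrix m m R) (F : Matrix (Fin 4) (Fin 4) R) : Matrix (ZI m) (ZI m) R :=
  fromBlocks ((1 : Matrix (Fin 4) (Fin 4) R) ⊗ₖ Ω) 0 (-(F ⊗ₖ (1 : Matrix m m R))) 1

omit [DecidableEq m] in
theorem zlD_mul (A A' B B' : Matrix m m R) : zlD A A' * zlD B B' = zlD (A * B) (A' * B') := by
  simp [zlD, fromBlocks_multiply, ← mul_kronecker_mul]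

omit [Fintype m] [DecidableEq m] in
theorem zlD_tr (A A' : Matrix m m R) : (zlD A A')ᵀ = zlD Aᵀ A'ᵀ := by
  simp [zlD, fromBlocks_transpose, ← kroneckerMap_transpose]

omit [Fintype m] [DecidableEq m] in
theorem zlD_smul (c : R) (A A' : Matrix m m R) : zlD (c • A) (c • A') = c • zlD A A' := by
  simp [zlD, fromBlocks_smul, kronecker_smul]

omit [Fintype m] in
theorem zlD_one : zlD (1 : Matrix m m R) 1 = 1 := by simp [zlD]

omit [Fintype m] [DecidableEq m] in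
theorem zlD_map {S : Type} [CommRing S] (f : R →+* S) (A A' : Matrix m m R) :
    (zlD A A').map f = zlD (A.map f) (A'.map f) := by
  ext (a | a) (b | b) <;> simp [zlD, one_apply, apply_ite f]

omit [Fintype m] in
theorem zlQ_map {S : Type} [CommRing S] (f : R →+* S) (Ω : Matrix m m R)
    (F : Matrix (Fin 4) (Fin 4) R) : (zlQ Ω F).map f = zlQ (Ω.map f) (F.map f) := by
  ext (a | a) (b | b) <;> simp [zlQ, one_apply, apply_ite f]

theorem zlD_unit {A A' : Matrix m m R} (h : IsUnit A.det) (h' : IsUnit A'.det) :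
    IsUnit (zlD A A').det := by
  rw [zlD, det_fromBlocks_zero₂₁, det_kronecker, det_kronecker, det_one, one_pow, one_mul, one_mul]
  exact (h.pow _).mul (h'.pow _)

omit [DecidableEq m] in
theorem zlD_vec (A A' : Matrix m m R) (z : m → R) :
    zlD A A' *ᵥ Sum.elim (fun _ => 0) (fun a => z a.2) =
      Sum.elim (fun _ => 0) fun a => (A' *ᵥ z) a.2 := by
  ext (a | a) <;> simp [zlD, mulVec, dotProduct, Fintype.sum_prod_type, one_apply]

theorem zlQ_comm {Ω A A' : Matrix m m R} (h : A * Ω = Ω * A') (F : Matrix (Fin 4) (Fin 4) R) :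
    zlD A A' * zlQ Ω F = zlQ Ω F * zlD A' A' := by
  simp [zlD, zlQ, fromBlocks_multiply, ← mul_kronecker_mul, h]

theorem zl_cancel [IsDomain R] {n : Type} {B : Matrix m m R} (hB : B.det ≠ 0) {X Y : Matrix m n R}
    (h : B * X = B * Y) : X = Y := by
  have := congrArg (B.adjugate * ·) h
  simp only [← Matrix.mul_assoc, adjugate_mul, Matrix.smul_mul, Matrix.one_mul] at this
  ext i j
  exact mul_left_cancel₀ hB (congrFun (congrFun this i) j)

theorem zl_core {Ω : Matrix m m ℤ} (ha : Ωᵀ = -Ω) (hd : Ω.det ≠ 0) :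
    ∃ (n : ℕ) (F : Matrix (Fin 4) (Fin 4) ℤ) (U V P : Matrix (ZI m) (ZI m) ℤ), n ≠ 0 ∧
      U * V = 1 ∧ V * U = 1 ∧ zlQ Ω F * P = (n : ℤ) • 1 ∧ P * zlQ Ω F = (n : ℤ) • 1 ∧
      (U * zlQ Ω F)ᵀ * -J (Fin 4 × m) ℤ * (U * zlQ Ω F) = zlD Ω Ω := by
  obtain ⟨s, hs⟩ := Nat.exists_eq_succ_of_ne_zero (mul_self_ne_zero.2 (Int.natAbs_ne_zero.2 hd))
  have hs' : Ω.det * Ω.det = s + 1 := by rw [← Int.natAbs_mul_self, hs]; rfl
  obtain ⟨T, h1, h2⟩ : ∃ T, Ω * T = ((s : ℤ) + 1) • 1 ∧ T * Ω = ((s : ℤ) + 1) • 1 :=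
    ⟨Ω.det • Ω.adjugate, by rw [Matrix.mul_smul, mul_adjugate, smul_smul, hs'],
      by rw [Matrix.smul_mul, adjugate_mul, smul_smul, hs']⟩
  have h3 : Tᵀ = -T := zl_cancel hd (by
    have := congrArg transpose h2
    rw [transpose_mul, ha, transpose_smul, transpose_one, Matrix.neg_mul, ← h1] at this
    rw [Matrix.mul_neg, ← this, neg_neg])
  obtain ⟨F, h4, h5⟩ := M4.CL.zl_quat s
  obtain ⟨U, V, h6, h7, h8⟩ := zl_darb (ι := Fin 4 × m)
    (Ψ := fromBlocks (-(1 ⊗ₖ T)) (-(Fᵀ ⊗ₖ 1)) (F ⊗ₖ 1) (1 ⊗ₖ Ω))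
    (Φ := fromBlocks (-(1 ⊗ₖ Ω)) (-(Fᵀ ⊗ₖ 1)) (F ⊗ₖ 1) (1 ⊗ₖ T))
    (by
      simp only [fromBlocks_transpose, transpose_neg, ← kroneckerMap_transpose, transpose_one, ha,
        h3, transpose_transpose, fromBlocks_neg, neg_neg]
      congr 1 <;> ext <;> simp)
    (by
      simp only [fromBlocks_multiply, Matrix.neg_mul, Matrix.mul_neg, neg_neg, ← mul_kronecker_mul,
        h1, h2, h4, h5, Matrix.one_mul, Matrix.mul_one, kronecker_smul, smul_kronecker,
        one_kronecker_one, ← fromBlocks_one]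
      congr 1 <;> module)
  refine ⟨s + 1, F, U, V, fromBlocks (1 ⊗ₖ T) 0 (F ⊗ₖ T) (((s : ℤ) + 1) • 1), s.succ_ne_zero, h6,
    h7, ?_, ?_, ?_⟩
  · rw [← fromBlocks_one, fromBlocks_smul]
    simp only [zlQ, fromBlocks_multiply, Matrix.neg_mul, ← mul_kronecker_mul, h1, kronecker_smul,
      Matrix.one_mul, Matrix.mul_one, one_kronecker_one, Matrix.mul_zero, Matrix.zero_mul,
      Nat.cast_succ]
    congr 1 <;> module
  · rw [← fromBlocks_one, fromBlocks_smul]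
    simp only [zlQ, fromBlocks_multiply, Matrix.mul_neg, ← mul_kronecker_mul, h2, kronecker_smul,
      Matrix.one_mul, Matrix.mul_one, one_kronecker_one, Matrix.mul_zero, Matrix.zero_mul,
      Matrix.smul_mul, Nat.cast_succ]
    congr 1 <;> module
  · rw [transpose_mul, Matrix.mul_assoc _ Uᵀ, Matrix.mul_assoc, ← Matrix.mul_assoc _ U, h8]
    have e1 : (1 : Matrix (Fin 4) (Fin 4) ℤ) ⊗ₖ (-Ω) = -(1 ⊗ₖ Ω) := by ext; simp
    simp only [zlQ, zlD, fromBlocks_multiply, fromBlocks_transpose, transpose_neg,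
      ← kroneckerMap_transpose, transpose_one, transpose_zero, ha, e1, Matrix.neg_mul,
      Matrix.mul_neg, neg_neg, ← mul_kronecker_mul, h2, h4, Matrix.one_mul, Matrix.mul_one,
      kronecker_smul, smul_kronecker, one_kronecker_one, Matrix.mul_zero,
      Matrix.zero_mul, Matrix.mul_add, Matrix.mul_smul]
    congr 1 <;> module

theorem zl_bas (l : ℕ) [Fact l.Prime] (W : Submodule (ZMod l) (m → ZMod l)) :
    ∃ B B' : Matrix m m ℤ, B * B' = (l : ℤ) • 1 ∧ B' * B = (l : ℤ) • 1 ∧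
      ∀ w, B'.map (Int.cast : ℤ → ZMod l) *ᵥ w = 0 ↔ w ∈ W := by
  have hl : (l : ℤ) ≠ 0 := Nat.cast_ne_zero.2 (Fact.out : l.Prime).ne_zero
  let π : (m → ℤ) →ₗ[ℤ] (m → ZMod l) := (Int.castAddHom (ZMod l)).toIntLinearMap.compLeft m
  have hπ (n : m → ℤ) : π n = fun i => (n i : ZMod l) := rfl
  have h0 (n : m → ℤ) : π ((l : ℤ) • n) = 0 := by ext i; simp [hπ]
  have hM (n : m → ℤ) : (l : ℤ) • n ∈ (W.restrictScalars ℤ).comap π := by
    rw [Submodule.mem_comap, h0]; exact zero_mem _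
  obtain ⟨B, hB, h⟩ := M4.CL.exists_basis_mat _ hl hM
  choose k hk using fun j => (h _).1 (hM (Pi.single j 1))
  have e : B * (Matrix.of k)ᵀ = (l : ℤ) • 1 := by
    ext i j
    have := congrFun (hk j) i
    simp only [Pi.smul_apply, mulVec, dotProduct] at this
    simp [mul_apply, ← this, Pi.single_apply, one_apply]
  have e' : (Matrix.of k)ᵀ * B = (l : ℤ) • 1 := zl_cancel hB (by
    rw [← Matrix.mul_assoc, e, Matrix.smul_mul, Matrix.mul_smul, Matrix.one_mul, Matrix.mul_one])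
  refine ⟨B, _, e, e', fun w => ?_⟩
  generalize (Matrix.of k)ᵀ = B' at e e'
  choose n hn using fun i => ZMod.intCast_surjective (w i)
  obtain rfl : π n = w := funext hn
  have e2 : B'.map (Int.cast : ℤ → ZMod l) *ᵥ π n = π (B' *ᵥ n) := by
    ext i
    simp [hπ, mulVec, dotProduct]
  rw [e2]
  refine ⟨fun h1 => ?_, fun h1 => ?_⟩
  · choose c hc using fun i => (ZMod.intCast_zmod_eq_zero_iff_dvd _ _).1 (congrFun h1 i)
    have h2 : B' *ᵥ n = (l : ℤ) • c := funext hc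
    refine (h n).2 ⟨c, smul_right_injective _ hl ?_⟩
    beta_reduce
    rw [← mulVec_smul, ← h2, mulVec_mulVec, e, smul_mulVec, one_mulVec]
  · obtain ⟨c, rfl⟩ := (h n).1 h1
    rw [mulVec_mulVec, e', smul_mulVec, one_mulVec, h0]

theorem zl_rep [IsDomain R] [Nonempty m] {Ω B B' ρ ρ' : Matrix m m R} {l χ : R} (hl : l ≠ 0)
    (h1 : B * B' = l • 1) (h2 : B' * B = l • 1) (hd : Ω.det ≠ 0) (hρ : IsUnit ρ.det)
    (hs : ρᵀ * Ω * ρ = χ • Ω) (h : l • ρ' = B' * ρ * B) :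
    ρ' * B' = B' * ρ ∧ IsUnit ρ'.det ∧
      ∃ A : Matrix m m R, IsUnit A.det ∧ A * (Bᵀ * Ω * B) = Bᵀ * Ω * B * ρ' := by
  have hc {X Y : Matrix m m R} (e : l • X = l • Y) : X = Y := by
    ext i j
    exact mul_left_cancel₀ hl (congrFun (congrFun e i) j)
  have k1 : ρ' * B' = B' * ρ := hc (by
    rw [← Matrix.smul_mul, h, Matrix.mul_assoc, h1, Matrix.mul_smul, Matrix.mul_one])
  have k2 : B * ρ' = ρ * B := hc (by
    rw [← Matrix.mul_smul, h, ← Matrix.mul_assoc, ← Matrix.mul_assoc, h1, Matrix.smul_mul,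
      Matrix.smul_mul, Matrix.one_mul])
  have k3 : B.det ≠ 0 := fun e => by
    have := congrArg det h2
    rw [det_mul, e, mul_zero, det_smul, det_one, mul_one] at this
    exact pow_ne_zero _ hl this.symm
  have k4 : IsUnit ρ'.det := by
    have := congrArg det k2
    rw [det_mul, det_mul, mul_comm] at this
    rwa [mul_right_cancel₀ k3 this]
  have k5 : IsUnit (χ ^ Fintype.card m) := by
    have := congrArg det hs
    rw [det_mul, det_mul, det_smul, det_transpose, mul_right_comm] at this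
    rw [← mul_right_cancel₀ hd this]
    exact hρ.mul hρ
  have k6 : IsUnit ρ'ᵀ.det := by rwa [det_transpose]
  have k7 : ρ'ᵀ * (Bᵀ * Ω * B * ρ') = χ • (Bᵀ * Ω * B) := by
    rw [Matrix.mul_assoc _ B, k2, ← Matrix.mul_assoc, ← Matrix.mul_assoc ρ'ᵀ, ← transpose_mul, k2, transpose_mul, ← Matrix.smul_mul,
      ← Matrix.mul_smul, ← hs]
    simp only [Matrix.mul_assoc]
  refine ⟨k1, k4, χ • ρ'ᵀ⁻¹, ?_, ?_⟩
  · rw [det_smul]
    exact k5.mul (isUnit_nonsing_inv_det _ k6)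
  · rw [Matrix.smul_mul, ← Matrix.mul_smul, ← k7, nonsing_inv_mul_cancel_left _ _ k6]

end Pool.Agent.RT
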