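import Pool.Agent.Lib.MP_e97e2b_nt.RT.Defs
import Pool.Agent.Lib.MP_e97e2b_nt.RT.ZLb

/-! The lattice of Zarhin that belongs to a subspace of the `l`-torsion. -/

set_option autoImplicit false

namespace Pool.Agent.RT

open Matrix Polynomial RG RG.B2
open _root_.M4 (InH Hol U rz XX bz ee E Th hf Gam)
open _root_.M4.B2 (psi kk res cj norm_aut IsFrob OO)
open _root_.M4.Un (Rv Ty Gr)

noncomputable section

section aux

variable {m R : Type}

/-- Eight copies as two times four copies. -/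
def zlE (m : Type) : ZI m ≃ Fin 8 × m :=
  (Equiv.sumProdDistrib _ _ _).symm.trans ((finSumFinEquiv (m := 4) (n := 4)).prodCongr (.refl m))

theorem zl_d8 [CommRing R] (A : Matrix m m R) :
    d8 A = (zlD A A).submatrix (zlE m).symm (zlE m).symm := by
  ext a b
  obtain ⟨a, rfl⟩ := (zlE m).surjective a
  obtain ⟨b, rfl⟩ := (zlE m).surjective b
  rw [submatrix_apply, Equiv.symm_apply_apply, Equiv.symm_apply_apply]
  rcases a with ⟨i, a⟩ | ⟨i, a⟩ <;> rcases b with ⟨j, b⟩ | ⟨j, b⟩ <;>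
    simp [d8, zlD, zlE, one_apply, -finSumFinEquiv_apply_left, -finSumFinEquiv_apply_right]

theorem zl_E {ι : Type} [Fintype ι] [DecidableEq ι] (x y : ι ⊕ ι → ℝ) :
    E x y = x ⬝ᵥ (-J ι ℤ).map (Int.castRingHom ℝ) *ᵥ y := by
  simp [E, J, dotProduct, mulVec, one_apply, sub_eq_add_neg, Finset.sum_add_distrib]

variable [Fintype m] [DecidableEq m] [CommRing R]

theorem zl_map {a b : Type} [Fintype b] [DecidableEq a] {A : Matrix a b ℤ} {B : Matrix b a ℤ}
    {c : ℤ} (h : A * B = c • 1) :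
    A.map (Int.castRingHom R) * B.map (Int.castRingHom R) = (c : R) • 1 := by
  rw [← Matrix.map_mul, h]
  ext i j
  simp only [map_apply, Matrix.smul_apply, one_apply, smul_eq_mul, eq_intCast]
  split_ifs <;> simp

theorem zl_R [IsDomain R] [CharZero R] [Nonempty m] {Ω B B' : Matrix m m ℤ} {l : ℤ} (hl : l ≠ 0)
    (h1 : B * B' = l • 1) (h2 : B' * B = l • 1) (hd : Ω.det ≠ 0) {U V : Matrix (ZI m) (ZI m) ℤ}
    (h3 : U * V = 1) (h4 : V * U = 1) (F : Matrix (Fin 4) (Fin 4) ℤ) (ρ : GL m R) {χ : R}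
    (hs : ρ.1ᵀ * Ω.map (Int.castRingHom R) * ρ.1 = χ • Ω.map (Int.castRingHom R))
    {ρ' : Matrix m m R}
    (h : (l : R) • ρ' = B'.map (Int.castRingHom R) * ρ.1 * B.map (Int.castRingHom R)) :
    ρ' * B'.map (Int.castRingHom R) = B'.map (Int.castRingHom R) * ρ.1 ∧
    ∃ (A : Matrix m m R) (S : GL (ZI m) R),
      S.1 = U.map (Int.castRingHom R) * zlD A ρ' * V.map (Int.castRingHom R) ∧
      S.1 * ((U * zlQ (Bᵀ * Ω * B) F * zlD B' B').submatrix id (zlE m).symm).map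
        (Int.castRingHom R) = ((U * zlQ (Bᵀ * Ω * B) F * zlD B' B').submatrix id (zlE m).symm).map
        (Int.castRingHom R) * d8 ρ.1 := by
  obtain ⟨k1, k2, A, k3, k4⟩ := zl_rep (Int.cast_ne_zero.2 hl) (zl_map h1) (zl_map h2) (by
    rw [← RingHom.mapMatrix_apply, ← RingHom.map_det]
    simpa using hd) ((isUnit_iff_isUnit_det _).1 ρ.isUnit) hs h
  have k5 : U.map (Int.castRingHom R) * V.map (Int.castRingHom R) = 1 := by
    simpa using zl_map (R := R) (h3.trans (one_smul ℤ _).symm)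
  have k6 : V.map (Int.castRingHom R) * U.map (Int.castRingHom R) = 1 := by
    simpa using zl_map (R := R) (h4.trans (one_smul ℤ _).symm)
  obtain ⟨S, hS⟩ := (isUnit_iff_isUnit_det
      (U.map (Int.castRingHom R) * zlD A ρ' * V.map (Int.castRingHom R))).2 (by
    rw [det_mul, det_mul]
    exact ((isUnit_det_of_right_inverse k5).mul (zlD_unit k3 k2)).mul
      (isUnit_det_of_right_inverse k6))
  refine ⟨k1, A, S, hS, ?_⟩
  rw [hS, zl_d8, ← submatrix_map, submatrix_mul_equiv, ← submatrix_id_id (_ * V.map _),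
    ← submatrix_mul _ _ _ _ _ Function.bijective_id]
  congr 1
  simp only [Matrix.map_mul, zlQ_map, zlD_map, transpose_map, Matrix.mul_assoc, zlD_mul]
  rw [← Matrix.mul_assoc (V.map _), k6, Matrix.one_mul, ← Matrix.mul_assoc (zlD A ρ'),
    ← Matrix.mul_assoc _ (Ω.map _), zlQ_comm k4, Matrix.mul_assoc, zlD_mul, k1]

end aux

variable {g : ℕ}

theorem z_lat (hg : 1 ≤ g) {Ω : Matrix (κ g) (κ g) ℤ} (ha : Ωᵀ = -Ω) (hd : Ω.det ≠ 0) (l : ℕ)
    [Fact l.Prime] (W : Submodule (ZMod l) (κ g → ZMod l)) {x : κ g → ZMod l} (hx : x ∉ W) :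
    ∃ (_ : Dim) (G : Matrix ν (Fin 8 × κ g) ℤ) (H : Matrix (Fin 8 × κ g) ν ℤ) (N D : ℕ)
      (y : ν → ZMod l), Fintype.card ι = 8 * g ∧ N ≠ 0 ∧ D ≠ 0 ∧ G * H = (D : ℤ) • 1 ∧
      H * G = (D : ℤ) • 1 ∧
      (∀ a b, E (G.map (Int.cast : ℤ → ℝ) *ᵥ a) (G.map (Int.cast : ℤ → ℝ) *ᵥ b) =
        (N : ℝ) ^ 2 * (a ⬝ᵥ (d8 Ω).map (Int.cast : ℤ → ℝ) *ᵥ b)) ∧ y ≠ 0 ∧
      (∀ (q : ℕ) [Fact q.Prime], q ≠ l → ∀ (ρ : GL (κ g) ℤ_[q]) (χ : ℤ_[q]),
        ρ.1ᵀ * Ω.map (Int.cast : ℤ → ℤ_[q]) * ρ.1 = χ • Ω.map (Int.cast : ℤ → ℤ_[q]) →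
        ∃ R : GL ν ℤ_[q], R.1 * G.map (Int.cast : ℤ → ℤ_[q]) =
          G.map (Int.cast : ℤ → ℤ_[q]) * d8 ρ.1) ∧
      ∀ (ρ : GL (κ g) ℤ_[l]) (χ : ℤ_[l]),
        ρ.1ᵀ * Ω.map (Int.cast : ℤ → ℤ_[l]) * ρ.1 = χ • Ω.map (Int.cast : ℤ → ℤ_[l]) →
        (∀ w ∈ W, bar ρ.1 *ᵥ w ∈ W) →
        ∃ R : GL ν ℤ_[l], R.1 * G.map (Int.cast : ℤ → ℤ_[l]) =
          G.map (Int.cast : ℤ → ℤ_[l]) * d8 ρ.1 ∧
          ∀ c : ZMod l, bar ρ.1 *ᵥ x - c • x ∈ W → bar R.1 *ᵥ y = c • y := by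
  have : Nonempty (κ g) := ⟨.inl ⟨0, hg⟩⟩
  have hp : l.Prime := Fact.out
  have hl : (l : ℤ) ≠ 0 := Nat.cast_ne_zero.2 hp.ne_zero
  obtain ⟨B, B', h1, h2, hW⟩ := zl_bas l W
  have hB : B.det ≠ 0 := fun e => by
    have := congrArg det h2
    rw [det_mul, e, mul_zero, det_smul, det_one, mul_one] at this
    exact pow_ne_zero _ hl this.symm
  obtain ⟨n, F, U, V, P, hn, h3, h4, h5, h6, h7⟩ := zl_core (Ω := Bᵀ * Ω * B)
    (by rw [transpose_mul, transpose_mul, transpose_transpose, ha, Matrix.neg_mul, Matrix.mul_neg,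
      Matrix.mul_assoc])
    (by rw [det_mul, det_mul, det_transpose]; exact mul_ne_zero (mul_ne_zero hB hd) hB)
  have k4 : V.map (Int.castRingHom (ZMod l)) * U.map (Int.castRingHom (ZMod l)) = 1 := by
    simpa using zl_map (R := ZMod l) (h4.trans (one_smul ℤ _).symm)
  have hb {a b : Type} (M : Matrix a b ℤ) :
      (M.map (Int.castRingHom ℤ_[l])).map PadicInt.toZMod = M.map (Int.castRingHom (ZMod l)) := by
    ext i j
    simp
  refine ⟨⟨Fin 4 × κ g, inferInstance, inferInstance, inferInstance⟩,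
    (U * zlQ (Bᵀ * Ω * B) F * zlD B' B').submatrix id (zlE _).symm,
    (zlD B B * P * V).submatrix (zlE _).symm id, l, l * n,
    U.map (Int.castRingHom (ZMod l)) *ᵥ Sum.elim (fun _ => 0)
      fun a => (B'.map (Int.castRingHom (ZMod l)) *ᵥ x) a.2,
    ?_, hp.ne_zero, mul_ne_zero hp.ne_zero hn, ?_, ?_, fun a b => ?_, fun e => hx ?_,
    fun q _ hq ρ χ hs => ?_, fun ρ χ hs hρ => ?_⟩
  · change Fintype.card (Fin 4 × κ g) = _
    simp only [Fintype.card_prod, Fintype.card_sum, Fintype.card_fin]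
    omega
  · change (_ * _ : Matrix (ZI (κ g)) (ZI (κ g)) ℤ) = _ • (1 : Matrix (ZI (κ g)) (ZI (κ g)) ℤ)
    rw [submatrix_mul_equiv, submatrix_id_id, Matrix.mul_assoc (zlD B B),
      Matrix.mul_assoc _ (zlD _ _), ← Matrix.mul_assoc (zlD B' B'), zlD_mul, h2, zlD_smul, zlD_one, Matrix.smul_mul,
      Matrix.one_mul, Matrix.mul_smul, Matrix.mul_assoc U, ← Matrix.mul_assoc _ P, h5,
      Matrix.smul_mul, Matrix.one_mul, Matrix.mul_smul, h3, smul_smul, Nat.cast_mul]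
  · change (zlD B B * P * V).submatrix _ id * (_ : Matrix (ZI (κ g)) (ZI (κ g)) ℤ).submatrix id _ = _
    rw [← submatrix_mul _ _ _ _ _ Function.bijective_id, Matrix.mul_assoc U, Matrix.mul_assoc _ V,
      ← Matrix.mul_assoc V, h4, Matrix.one_mul, Matrix.mul_assoc _ P, ← Matrix.mul_assoc P, h6,
      Matrix.smul_mul, Matrix.one_mul, Matrix.mul_smul, zlD_mul, h1, zlD_smul, zlD_one, smul_smul,
      submatrix_smul, Pi.smul_apply, Pi.smul_apply, submatrix_one_equiv, Nat.cast_mul, mul_comm]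
  · have k1 : (U * zlQ (Bᵀ * Ω * B) F * zlD B' B')ᵀ * -J (Fin 4 × κ g) ℤ *
        (U * zlQ (Bᵀ * Ω * B) F * zlD B' B') = ((l : ℤ) * l) • zlD Ω Ω := by
      rw [transpose_mul, Matrix.mul_assoc (zlD B' B')ᵀ, Matrix.mul_assoc (zlD B' B')ᵀ,
        ← Matrix.mul_assoc _ _ (zlD B' B'), h7, zlD_tr, zlD_mul, zlD_mul, Matrix.mul_assoc _ B, h1,
        ← Matrix.mul_assoc, ← Matrix.mul_assoc, ← transpose_mul, h1, ← zlD_smul]
      simp only [transpose_smul, transpose_one, Matrix.smul_mul, Matrix.mul_smul, Matrix.one_mul,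
        Matrix.mul_one, smul_smul]
    generalize U * zlQ (Bᵀ * Ω * B) F * zlD B' B' = G at k1
    change E (ι := Fin 4 × κ g) ((G.submatrix id (zlE _).symm).map (Int.castRingHom ℝ) *ᵥ a)
      ((G.submatrix id (zlE _).symm).map (Int.castRingHom ℝ) *ᵥ b) = _
    rw [zl_E, mulVec_mulVec, ← vecMul_transpose, ← dotProduct_mulVec, mulVec_mulVec,
      ← Matrix.mul_assoc, ← transpose_map, ← Matrix.map_mul, ← Matrix.map_mul, transpose_submatrix,
      ← submatrix_id_id (-J _ ℤ), ← submatrix_mul _ _ _ _ _ Function.bijective_id,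
      ← submatrix_mul _ _ _ _ _ Function.bijective_id, k1, submatrix_smul, Pi.smul_apply,
      Pi.smul_apply, ← zl_d8, ← smul_eq_mul ((l : ℝ) ^ 2), ← dotProduct_smul, ← smul_mulVec]
    congr 2
    ext i j
    simp only [map_apply, Matrix.smul_apply, smul_eq_mul, sq, map_mul, eq_intCast,
      Int.cast_natCast]
  · have k1 := congrArg (V.map (Int.castRingHom (ZMod l)) *ᵥ ·) e
    simp only [mulVec_mulVec, k4, one_mulVec, mulVec_zero] at k1
    exact (hW x).1 (funext fun i => congrFun k1 (.inr (0, i)))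
  · have k1 : IsUnit ((l : ℤ) : ℤ_[q]) := by
      rw [PadicInt.isUnit_iff, Int.cast_natCast, PadicInt.norm_natCast_eq_one_iff]
      exact (Nat.coprime_primes Fact.out hp).2 hq
    obtain ⟨-, -, S, -, k2⟩ := zl_R hl h1 h2 hd h3 h4 F ρ hs (ρ' := k1.unit⁻¹.1 • _)
      (by rw [smul_smul, k1.mul_val_inv, one_smul])
    exact ⟨S, k2⟩
  · have k0 : (B'.map (Int.castRingHom ℤ_[l]) * ρ.1 * B.map (Int.castRingHom ℤ_[l])).map
        PadicInt.toZMod = 0 := by
      rw [Matrix.map_mul, Matrix.map_mul, hb, hb]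
      refine Matrix.toLin'.injective (LinearMap.ext fun w => ?_)
      rw [toLin'_apply, toLin'_apply, zero_mulVec, ← mulVec_mulVec, ← mulVec_mulVec]
      refine (hW _).2 (hρ _ ((hW _).1 ?_))
      rw [mulVec_mulVec]
      exact (congrArg (· *ᵥ w) (zl_map h2)).trans (by simp)
    have k1 (i j) : (l : ℤ_[l]) ∣
        (B'.map (Int.castRingHom ℤ_[l]) * ρ.1 * B.map (Int.castRingHom ℤ_[l])) i j := by
      rw [← Ideal.mem_span_singleton, ← PadicInt.maximalIdeal_eq_span_p, ← PadicInt.ker_toZMod]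
      exact congrFun (congrFun k0 i) j
    choose ρ' k1 using k1
    obtain ⟨k2, A, S, k3, k5⟩ := zl_R hl h1 h2 hd h3 h4 F ρ hs (ρ' := Matrix.of ρ')
      (Matrix.ext fun i j => by simpa using (k1 i j).symm)
    refine ⟨S, k5, fun c hc => ?_⟩
    have k6 := congrArg (·.map PadicInt.toZMod) k2
    simp only [Matrix.map_mul, hb] at k6
    have k7 : (Matrix.of ρ').map PadicInt.toZMod *ᵥ B'.map (Int.castRingHom (ZMod l)) *ᵥ x =
        c • B'.map (Int.castRingHom (ZMod l)) *ᵥ x := by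
      rw [mulVec_mulVec, k6, ← mulVec_mulVec, ← mulVec_smul, ← sub_eq_zero, ← mulVec_sub]
      exact (hW _).2 hc
    change (S.1.map PadicInt.toZMod : Matrix (ZI (κ g)) (ZI (κ g)) (ZMod l)) *ᵥ _ = _
    rw [k3, Matrix.map_mul, Matrix.map_mul, hb, hb, zlD_map, mulVec_mulVec, Matrix.mul_assoc, k4,
      Matrix.mul_one, ← mulVec_mulVec, zlD_vec, k7, ← mulVec_smul (U.map _)]
    congr 1
    ext (a | a) <;> simp

end

end Pool.Agent.RT
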