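import Pool.Agent.Lib.MP_e97e2b_nt.RT.An0
import Pool.Agent.Lib.MP_e97e2b_nt.Abel

/- The sum over the sparse set. -/

namespace Pool.Agent.RT

open NumberField Pool.Agent.Lib.MP_e97e2b_nt

lemma s_class (l Y : ℕ) (c : ZMod l) :
    ((Finset.Ioc 0 Y).filter fun n : ℕ => (n : ZMod l) = c).card ≤ Y / l + 1 := by
  rw [← Finset.card_range (Y / l + 1)]
  refine Finset.card_le_card_of_injOn (fun n => n / l) ?_ ?_
  · intro n hn
    have h := (Finset.mem_Ioc.1 (Finset.mem_filter.1 hn).1).2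
    have h2 : n / l ≤ Y / l := Nat.div_le_div_right h
    simp only [Finset.coe_range, Set.mem_Iio]
    omega
  · intro n hn m hm h
    have h1 := (Finset.mem_filter.1 hn).2
    have h2 := (Finset.mem_filter.1 hm).2
    have h3 : n % l = m % l := (ZMod.natCast_eq_natCast_iff' n m l).1 (h1.trans h2.symm)
    have h4 : n / l = m / l := h
    rw [← Nat.div_add_mod n l, ← Nat.div_add_mod m l, h3, h4]

open Classical in
lemma s_count (R l : ℕ) (hl : l.Prime) (S : Finset (ZMod l)) (h0 : 0 ∉ S) (Y : ℕ) :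
    ((Finset.Ioc 0 Y).filter fun n : ℕ => ∃ a : ZMod l, a ^ 2 = n ∧ ∃ t : ℤ,
      t ^ 2 ≤ (R : ℤ) ^ 2 * n ∧ ∃ b ∈ S, (t : ZMod l) = b * a).card ≤
      (2 * (R * (Y.sqrt + 1)) + 1) * S.card * (Y / l + 1) := by
  set T : ℕ := R * (Y.sqrt + 1) with hT
  refine le_trans (Finset.card_le_card (t := ((Finset.Icc (-(T : ℤ)) T) ×ˢ S).biUnion fun p =>
        (Finset.Ioc 0 Y).filter fun n : ℕ => (n : ZMod l) = ((p.1 : ZMod l) * p.2⁻¹) ^ 2) ?_) ?_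
  · intro n hn
    obtain ⟨hn1, a, ha, t, ht, b, hb, htb⟩ := Finset.mem_filter.1 hn
    have := Fact.mk hl
    have hb0 : b ≠ 0 := fun h => h0 (h ▸ hb)
    have hnY : n ≤ Y := (Finset.mem_Ioc.1 hn1).2
    have hs : Y ≤ (Y.sqrt + 1) ^ 2 := (Nat.lt_succ_sqrt' Y).le
    have h1 : (n : ℤ) ≤ ((Y.sqrt : ℤ) + 1) ^ 2 := by exact_mod_cast hnY.trans hs
    have h2 : t ^ 2 ≤ (T : ℤ) ^ 2 := by
      rw [hT]
      push_cast
      rw [mul_pow]
      exact ht.trans (mul_le_mul_of_nonneg_left h1 (sq_nonneg _))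
    have h3 := abs_le_of_sq_le_sq' h2 (Int.natCast_nonneg T)
    refine Finset.mem_biUnion.2 ⟨(t, b), Finset.mem_product.2 ⟨Finset.mem_Icc.2 h3, hb⟩, ?_⟩
    refine Finset.mem_filter.2 ⟨hn1, ?_⟩
    rw [← ha]
    simp only [htb]
    rw [mul_comm b a, mul_assoc, mul_inv_cancel₀ hb0, mul_one]
  refine Finset.card_biUnion_le.trans ?_
  refine (Finset.sum_le_card_nsmul _ _ (Y / l + 1) fun p _ => s_class l Y _).trans ?_
  rw [smul_eq_mul, Finset.card_product, Int.card_Icc]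
  have : ((T : ℤ) + 1 - -(T : ℤ)).toNat = 2 * T + 1 := by omega
  rw [this]

lemma s_real (R l k Y : ℕ) (hl : l.Prime) (y : ℝ) (hy : 1 ≤ y) (hY : (Y : ℝ) ≤ y)
    (hYl : (Y : ℝ) ≤ (l : ℝ) ^ (19 / 10 : ℝ)) :
    (((2 * (R * (Y.sqrt + 1)) + 1) * k * (Y / l + 1) : ℕ) : ℝ) ≤
      ((4 * R + 1) * k * 2 : ℝ) * y ^ (39 / 40 : ℝ) := by
  have hy0 : 0 < y := by linarith
  have hl0 : (0 : ℝ) < l := by exact_mod_cast hl.pos
  have hY0 : (0 : ℝ) ≤ Y := Nat.cast_nonneg _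
  have ha1 : 1 ≤ y ^ (1 / 2 : ℝ) := Real.one_le_rpow hy (by norm_num)
  have hb1 : 1 ≤ y ^ (19 / 40 : ℝ) := Real.one_le_rpow hy (by norm_num)
  have h1 : (Y.sqrt : ℝ) ≤ y ^ (1 / 2 : ℝ) := by
    rw [← Real.sqrt_eq_rpow]
    refine Real.le_sqrt_of_sq_le ?_
    have : Y.sqrt ^ 2 ≤ Y := Nat.sqrt_le' Y
    exact le_trans (by exact_mod_cast this) hY
  have h2 : ((Y / l : ℕ) : ℝ) ≤ y ^ (19 / 40 : ℝ) := by
    refine Nat.cast_div_le.trans ?_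
    rw [div_le_iff₀ hl0]
    have e1 : (Y : ℝ) = (Y : ℝ) ^ (9 / 19 : ℝ) * (Y : ℝ) ^ (10 / 19 : ℝ) := by
      rw [← Real.rpow_add' hY0 (by norm_num)]
      norm_num
    have e2 : (Y : ℝ) ^ (10 / 19 : ℝ) ≤ l := by
      refine (Real.rpow_le_rpow hY0 hYl (by norm_num)).trans ?_
      rw [← Real.rpow_mul hl0.le]
      norm_num
    have e3 : (Y : ℝ) ^ (9 / 19 : ℝ) ≤ y ^ (19 / 40 : ℝ) :=
      (Real.rpow_le_rpow hY0 hY (by norm_num)).trans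
        (Real.rpow_le_rpow_of_exponent_le hy (by norm_num))
    rw [e1]
    exact mul_le_mul e3 e2 (Real.rpow_nonneg hY0 _) (Real.rpow_nonneg hy0.le _)
  have e : y ^ (39 / 40 : ℝ) = y ^ (1 / 2 : ℝ) * y ^ (19 / 40 : ℝ) := by
    rw [← Real.rpow_add hy0]
    norm_num
  have hR : (0 : ℝ) ≤ R := Nat.cast_nonneg _
  have hk : (0 : ℝ) ≤ k := Nat.cast_nonneg _
  have h3 : (2 * ((R : ℝ) * ((Y.sqrt : ℝ) + 1)) + 1) ≤ (4 * R + 1) * y ^ (1 / 2 : ℝ) := by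
    have := mul_le_mul_of_nonneg_left (add_le_add h1 ha1) hR
    nlinarith
  have h4 : (((Y / l : ℕ) : ℝ) + 1) ≤ 2 * y ^ (19 / 40 : ℝ) := by linarith
  push_cast
  calc (2 * ((R : ℝ) * ((Y.sqrt : ℝ) + 1)) + 1) * k * (((Y / l : ℕ) : ℝ) + 1)
      ≤ ((4 * R + 1) * y ^ (1 / 2 : ℝ)) * k * (2 * y ^ (19 / 40 : ℝ)) :=
        mul_le_mul (mul_le_mul_of_nonneg_right h3 hk) h4 (by positivity) (by positivity)
    _ = ((4 * R + 1) * k * 2 : ℝ) * y ^ (39 / 40 : ℝ) := by rw [e]; ring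

open Classical in
theorem good_sum (R : ℕ) : ∃ C : ℝ, ∀ l : ℕ, l.Prime → ∀ S : Finset (ZMod l), 0 ∉ S →
    S.card ≤ R ^ R → ∀ N : ℕ, (N : ℝ) ≤ (l : ℝ) ^ (19 / 10 : ℝ) →
    ∑ n ∈ Finset.Ioc 0 N, (if ∃ a : ZMod l, a ^ 2 = n ∧ ∃ t : ℤ, t ^ 2 ≤ (R : ℤ) ^ 2 * n ∧
      ∃ b ∈ S, (t : ZMod l) = b * a then (n : ℝ) ^ (-(99 / 100) : ℝ) else 0) ≤ C := by
  set M : ℝ := ((4 * R + 1) * ((R ^ R : ℕ) : ℝ) * 2 : ℝ) with hM
  have hM0 : 0 ≤ M := by positivity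
  refine ⟨(2 + 99 / 100 / (3 / 200)) * M + 1, fun l hl S h0 hS N hN => ?_⟩
  rcases Nat.eq_zero_or_pos N with rfl | hN0
  · simp only [Finset.Ioc_self, Finset.sum_empty]
    positivity
  set P : ℕ → Prop := fun n => ∃ a : ZMod l, a ^ 2 = n ∧ ∃ t : ℤ, t ^ 2 ≤ (R : ℤ) ^ 2 * n ∧
      ∃ b ∈ S, (t : ZMod l) = b * a with hP
  set f : ℕ → ℝ := fun n => if P n ∧ n ≤ N then 1 else 0 with hf
  have hb : ∀ y : ℝ, 1 ≤ y → |Sm f y| ≤ M * y ^ (39 / 40 : ℝ) := by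
    intro y hy
    have e : Sm f y = (((Finset.Ioc 0 (min ⌊y⌋₊ N)).filter P).card : ℝ) := by
      unfold Sm
      rw [hf, Finset.sum_boole]
      congr 2
      ext n
      simp only [Finset.mem_filter, Finset.mem_Ioc, le_min_iff]
      tauto
    rw [e, abs_of_nonneg (Nat.cast_nonneg _)]
    have h1 := s_count R l hl S h0 (min ⌊y⌋₊ N)
    have h2 := s_real R l (R ^ R) (min ⌊y⌋₊ N) hl y hy
      (le_trans (by exact_mod_cast min_le_left _ _) (Nat.floor_le (by linarith)))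
      (le_trans (by exact_mod_cast min_le_right _ _) hN)
    refine le_trans ?_ h2
    exact_mod_cast h1.trans (Nat.mul_le_mul_right _ (Nat.mul_le_mul_left _ hS))
  have h := ab_diff f M (3 / 200) (99 / 100) (by norm_num) (by norm_num) hM0 (39 / 40)
    (by norm_num) 1 N one_pos (by exact_mod_cast hN0) hb
  rw [ab_Sm_nat, ab_Sm_one, Real.one_rpow, mul_one] at h
  have h1 : f 1 * ((1 : ℕ) : ℝ) ^ (-(99 / 100) : ℝ) ≤ 1 := by
    rw [Nat.cast_one, Real.one_rpow, mul_one, hf]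
    dsimp only
    split_ifs <;> norm_num
  have e : ∑ n ∈ Finset.Ioc 0 N, (if P n then (n : ℝ) ^ (-(99 / 100) : ℝ) else 0) =
      ∑ n ∈ Finset.Ioc 0 N, f n * (n : ℝ) ^ (-(99 / 100) : ℝ) := by
    refine Finset.sum_congr rfl fun n hn => ?_
    have hn2 := (Finset.mem_Ioc.1 hn).2
    rw [hf]
    by_cases hp : P n
    · simp only [hp, hn2, and_self, if_true, one_mul]
    · simp only [hp, false_and, if_false, zero_mul]
  have h2 := (abs_le.1 h).2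
  refine le_trans (le_of_eq e) ?_
  linarith

end Pool.Agent.RT
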