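import Pool.Agent.Lib.MP_e97e2b_nt.RT.AnE1
import Pool.Agent.Lib.MP_e97e2b_nt.RT.AnS

/- Positivity and Rankin's bound. -/

namespace Pool.Agent.RT

open NumberField IsDedekindDomain Pool.Agent.Lib.MP_e97e2b_nt Finset

variable (K : Type) [Field K] [NumberField K]

lemma e2_one_lt (v : HeightOneSpectrum (𝓞 K)) {f : ℕ} (hf : 1 ≤ f) :
    1 < Ideal.absNorm v.asIdeal ^ f := Nat.one_lt_pow (by omega) (eu_one_lt K v)

lemma e2_Pos_pow {F : ArithmeticFunction ℝ} (h : eu_Pos F) (e : ℕ) : eu_Pos (F ^ e) := by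
  induction e with
  | zero => rw [pow_zero]; exact eu_Pos_one
  | succ e ih => rw [pow_succ]; exact ih.mul h

lemma e2_W_pow (N : ℕ) {F : ArithmeticFunction ℝ} (h : eu_Pos F) {B : ℝ}
    (hB : eu_W N F ≤ Real.exp B) (e : ℕ) : eu_W N (F ^ e) ≤ Real.exp (e * B) := by
  have := eu_W_prod N (range e) (fun _ => F) (fun _ => B) (fun _ _ => h) fun _ _ => hB
  rwa [prod_const, sum_const, card_range, nsmul_eq_mul] at this

lemma e2_tw_pow {χ : ℕ → ℝ} (h : eu_CM χ) (F : ArithmeticFunction ℝ) (e : ℕ) :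
    tw (F ^ e) χ = tw F χ ^ e := by
  induction e with
  | zero => rw [pow_zero, pow_zero, eu_tw_one h]
  | succ e ih => rw [pow_succ, pow_succ, eu_tw_mul h, ih]

theorem chF_pos {l k : ℕ} {χ : MulChar (ZMod l) ℂ} (hχ : Chr l k χ) (n : ℕ) :
    0 ≤ chF K l k χ n := by
  obtain ⟨S, f, e, -, hf, hE⟩ := chF_euler K hχ n
  rw [hE n le_rfl]
  exact eu_Pos_prod S _ (fun v _ => e2_Pos_pow
    (eu_Pos_of (e2_one_lt K v (hf v).1) (eu_NN_geo zero_le_one)) _) n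

theorem chF_one {l k : ℕ} {χ : MulChar (ZMod l) ℂ} (hχ : Chr l k χ) : chF K l k χ 1 = 1 := by
  obtain ⟨S, f, e, -, -, hE⟩ := chF_euler K hχ 1
  rw [hE 1 le_rfl]
  have hm : ∀ F G : ArithmeticFunction ℝ, F 1 = 1 → G 1 = 1 → (F * G) 1 = 1 := fun F G a b => by
    rw [ArithmeticFunction.mul_apply_one, a, b, mul_one]
  refine prod_induction _ (fun F : ArithmeticFunction ℝ => F 1 = 1) hm (by simp) fun v _ => ?_
  induction e v with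
  | zero => simp
  | succ j ih =>
    rw [pow_succ]
    refine hm _ _ ih ?_
    rw [eu_G, ArithmeticFunction.ofPowerSeries_apply_one]
    simp [eu_geo]

lemma e2_zeta : ∃ Z : ℝ, ∀ N : ℕ, ∑ n ∈ Ioc 0 N, ((n : ℝ) ^ (-(99 / 100) : ℝ)) ^ 2 ≤ Z := by
  have hs : Summable fun n : ℕ => (n : ℝ) ^ (-(99 / 50) : ℝ) :=
    Real.summable_nat_rpow.2 (by norm_num)
  refine ⟨∑' n : ℕ, (n : ℝ) ^ (-(99 / 50) : ℝ), fun N => ?_⟩
  refine le_trans (le_of_eq (sum_congr rfl fun n _ => ?_))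
    (hs.sum_le_tsum (Ioc 0 N) fun n _ => Real.rpow_nonneg (Nat.cast_nonneg n) _)
  rw [← Real.rpow_natCast, ← Real.rpow_mul (Nat.cast_nonneg n)]
  norm_num

open Classical in
lemma e2_sum_full (N : ℕ) :
    ∑ n ∈ Ioc 0 N, (if ∃ x y : ℕ, n = x ^ 2 * y ^ 3 then (n : ℝ) ^ (-(99 / 100) : ℝ) else 0) ≤
      (∑ n ∈ Ioc 0 N, ((n : ℝ) ^ (-(99 / 100) : ℝ)) ^ 2) *
        ∑ n ∈ Ioc 0 N, ((n : ℝ) ^ (-(99 / 100) : ℝ)) ^ 2 := by
  rw [← sum_filter, sum_mul_sum, ← sum_product']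
  have h1 : (Ioc 0 N).filter (fun n => ∃ x y : ℕ, n = x ^ 2 * y ^ 3) ⊆
      (Ioc 0 N ×ˢ Ioc 0 N).image fun p => p.1 ^ 2 * p.2 ^ 3 := by
    intro n hn
    obtain ⟨hn1, x, y, rfl⟩ := mem_filter.1 hn
    obtain ⟨a, b⟩ := mem_Ioc.1 hn1
    have hx : 0 < x := Nat.pos_of_ne_zero fun e => by simp [e] at a
    have hy : 0 < y := Nat.pos_of_ne_zero fun e => by simp [e] at a
    refine mem_image.2 ⟨(x, y), mem_product.2 ⟨mem_Ioc.2 ⟨hx, ?_⟩, mem_Ioc.2 ⟨hy, ?_⟩⟩, rfl⟩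
    · exact (Nat.le_of_dvd a ⟨x * y ^ 3, by ring⟩).trans b
    · exact (Nat.le_of_dvd a ⟨x ^ 2 * y ^ 2, by ring⟩).trans b
  refine (sum_le_sum_of_subset_of_nonneg h1
    fun n _ _ => Real.rpow_nonneg (Nat.cast_nonneg n) _).trans ?_
  refine (sum_image_le_of_nonneg fun n _ => Real.rpow_nonneg (Nat.cast_nonneg n) _).trans ?_
  refine sum_le_sum fun p hp => ?_
  have hcm := eu_CM_rpow (-(99 / 100))
  have e : ((p.1 ^ 2 * p.2 ^ 3 : ℕ) : ℝ) ^ (-(99 / 100) : ℝ) =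
      ((p.1 : ℝ) ^ (-(99 / 100) : ℝ)) ^ 2 * ((p.2 : ℝ) ^ (-(99 / 100) : ℝ)) ^ 3 :=
    (hcm.mul _ _).trans (congrArg₂ (· * ·) (hcm.pow p.1 2) (hcm.pow p.2 3))
  have h2 : (1 : ℝ) ≤ p.2 := by exact_mod_cast (mem_Ioc.1 (mem_product.1 hp).2).1
  rw [e]
  exact mul_le_mul_of_nonneg_left (pow_le_pow_of_le_one (by positivity)
    (Real.rpow_le_one_of_one_le_of_nonpos h2 (by norm_num)) (by norm_num)) (by positivity)

lemma e2_sum_small (N p0 l : ℕ) :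
    ∑ n ∈ Ioc 0 N, (if n ≤ p0 ∨ n = 2 ∨ n = l then (1 : ℝ) else 0) ≤ p0 + 2 := by
  rw [sum_boole]
  have h : (Ioc 0 N).filter (fun n => n ≤ p0 ∨ n = 2 ∨ n = l) ⊆ insert l (insert 2 (Ioc 0 p0)) := by
    intro n hn
    obtain ⟨h1, h2⟩ := mem_filter.1 hn
    simp only [mem_insert, mem_Ioc] at h1 ⊢
    omega
  have h1 := (card_le_card h).trans (card_insert_le _ _)
  have h2 := card_insert_le 2 (Ioc 0 p0)
  rw [Nat.card_Ioc] at h2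
  exact_mod_cast (by omega : _ ≤ p0 + 2)

lemma e2_r_le {q : ℕ} (hq : 1 < q) : (q : ℝ) ^ (-(99 / 100) : ℝ) ≤ 2 / 3 :=
  (Real.rpow_le_rpow_of_exponent_le (by exact_mod_cast hq.le) (by norm_num)).trans (eu_r_le hq)

open Classical in
/-- The majorant of the local terms. -/
noncomputable def e2_h (l R p0 : ℕ) (S : Finset (ZMod l)) (n : ℕ) : ℝ :=
  ((n : ℝ) ^ (-(99 / 100) : ℝ)) ^ 2 +
    (if ∃ x y : ℕ, n = x ^ 2 * y ^ 3 then (n : ℝ) ^ (-(99 / 100) : ℝ) else 0) +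
    (if n ≤ p0 ∨ n = 2 ∨ n = l then (1 : ℝ) else 0) +
    (if ∃ a : ZMod l, a ^ 2 = n ∧ ∃ t : ℤ, t ^ 2 ≤ (R : ℤ) ^ 2 * n ∧
      ∃ b ∈ S, (t : ZMod l) = b * a then (n : ℝ) ^ (-(99 / 100) : ℝ) else 0)

lemma e2_local {l k R p0 : ℕ} (hl : l.Prime) {χ : MulChar (ZMod l) ℂ} (hχ : Chr l k χ)
    {S : Finset (ZMod l)} (hB : Bad K l (2 * k + 2) R p0 S) (v : HeightOneSpectrum (𝓞 K)) {f : ℕ}
    (h1 : 1 ≤ f) (h2 : χ (Ideal.absNorm v.asIdeal : ℕ) ≠ 0 →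
      χ (Ideal.absNorm v.asIdeal : ℕ) ≠ 1 → 2 ≤ f) :
    (((Ideal.absNorm v.asIdeal : ℕ) : ℝ) ^ (-(99 / 100) : ℝ)) ^ f ≤
      e2_h l R p0 S (Ideal.absNorm v.asIdeal) := by
  have hr := e2_r_le (eu_one_lt K v)
  have := v.isMaximal
  obtain ⟨p, j, hj, -, hp, hq⟩ := Ideal.exists_prime_and_absNorm_eq_pow v.asIdeal
  have hD : Deg1 K (Ideal.absNorm v.asIdeal) := ⟨v.asIdeal, v.isPrime, rfl⟩
  generalize Ideal.absNorm v.asIdeal = q at *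
  have hr0 : 0 ≤ (q : ℝ) ^ (-(99 / 100) : ℝ) := Real.rpow_nonneg (Nat.cast_nonneg q) _
  unfold e2_h
  generalize (q : ℝ) ^ (-(99 / 100) : ℝ) = r at *
  have hr1 : r ≤ 1 := by linarith
  have a1 : r ^ f ≤ r := pow_le_of_le_one hr0 hr1 (by omega)
  have a2 : 0 ≤ r ^ 2 := sq_nonneg r
  split_ifs with c1 c2 c3 c3 c2 c3 c3 <;> try linarith
  rw [add_zero, add_zero, add_zero]
  refine pow_le_pow_of_le_one hr0 hr1 ?_
  have hj1 : j = 1 := by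
    by_contra hj1
    apply c1
    obtain ⟨i, rfl | rfl⟩ := Nat.even_or_odd' j
    · exact ⟨p ^ i, 1, by rw [hq]; ring⟩
    · obtain ⟨i, rfl⟩ : ∃ i', i = i' + 1 := ⟨i - 1, by omega⟩
      exact ⟨p ^ i, p, by rw [hq]; ring⟩
  rw [hj1, pow_one] at hq
  subst hq
  have n2 : ¬ q ∣ l := fun h => c2 (Or.inr (Or.inr ((Nat.prime_dvd_prime_iff_eq hp hl).1 h)))
  refine h2 (MulChar.apply_ne_zero_iff.2 (ZMod.isUnit_prime_of_not_dvd hp n2)) fun h => c3 ?_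
  refine hB q hp (by omega) (fun hd => ?_) hD (hχ.ker _ h)
  rcases (Nat.Prime.dvd_mul hp).1 hd with h | h
  · exact c2 (Or.inr (Or.inl ((Nat.prime_dvd_prime_iff_eq hp Nat.prime_two).1 h)))
  · exact n2 h

theorem rankinM (k R p0 : ℕ) : ∃ C : ℝ, ∀ l : ℕ, l.Prime → ∀ χ : MulChar (ZMod l) ℂ, Chr l k χ →
    ∀ S : Finset (ZMod l), 0 ∉ S → S.card ≤ R ^ R → Bad K l (2 * k + 2) R p0 S →
    Sm (chF K l k χ) ((l : ℝ) ^ (19 / 10 : ℝ)) ≤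
      C * ((l : ℝ) ^ (19 / 10 : ℝ)) ^ (99 / 100 : ℝ) := by
  classical
  obtain ⟨Z, hZ⟩ := e2_zeta
  obtain ⟨C0, hC0⟩ := good_sum R
  refine ⟨Real.exp (3 * (2 * k + 2) * (Module.finrank ℚ K * (Z + Z * Z + (p0 + 2) + C0))),
    fun l hl χ hχ S hS0 hSc hB => ?_⟩
  have hl0 : (0 : ℝ) < l := by exact_mod_cast hl.pos
  set x := (l : ℝ) ^ (19 / 10 : ℝ) with hx
  have hx0 : 0 < x := Real.rpow_pos_of_pos hl0 _
  set N := ⌊x⌋₊ with hN
  have hNx : (N : ℝ) ≤ x := Nat.floor_le hx0.le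
  obtain ⟨T, f, e, hT1, hf, hT⟩ := chF_euler K hχ N
  have hcm := eu_CM_rpow (-(99 / 100))
  have h1 := hT.tw fun n => (n : ℝ) ^ (-(99 / 100) : ℝ)
  rw [eu_tw_prod hcm, prod_congr rfl fun v _ => by
    rw [e2_tw_pow hcm, eu_tw_G hcm (e2_one_lt K v (hf v).1), one_mul]] at h1
  have hp : ∀ v : HeightOneSpectrum (𝓞 K), eu_Pos (eu_G (Ideal.absNorm v.asIdeal ^ f v)
      (((Ideal.absNorm v.asIdeal ^ f v : ℕ) : ℝ) ^ (-(99 / 100) : ℝ))) := fun v =>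
    eu_Pos_of (e2_one_lt K v (hf v).1) (eu_NN_geo (Real.rpow_nonneg (Nat.cast_nonneg _) _))
  have h2 := eu_W_prod N T _ (fun v => 3 * (2 * k + 2) * e2_h l R p0 S (Ideal.absNorm v.asIdeal))
    (fun v _ => e2_Pos_pow (hp v) (e v)) fun v _ => by
      refine (e2_W_pow N (hp v) (eu_W_G N (e2_one_lt K v (hf v).1)
        (Real.rpow_nonneg (Nat.cast_nonneg _) _) (e2_r_le (e2_one_lt K v (hf v).1))) (e v)).trans
        (Real.exp_le_exp.2 ?_)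
      have b1 : (e v : ℝ) ≤ 2 * k + 2 := by exact_mod_cast (hf v).2.1
      have b2 := e2_local K hl hχ hB v (hf v).1 (hf v).2.2
      rw [← show ((Ideal.absNorm v.asIdeal ^ f v : ℕ) : ℝ) ^ (-(99 / 100) : ℝ) = _ from
        hcm.pow _ (f v)] at b2
      have b3 : 0 ≤ ((Ideal.absNorm v.asIdeal ^ f v : ℕ) : ℝ) ^ (-(99 / 100) : ℝ) :=
        Real.rpow_nonneg (Nat.cast_nonneg _) _
      have b4 := mul_le_mul b1 b2 b3 (by positivity)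
      linarith
  have h5 := eu_sum_norm K T N hT1 (e2_h l R p0 S) fun n => by
    unfold e2_h
    split_ifs <;> positivity
  have h6 : ∑ n ∈ Ioc 0 N, e2_h l R p0 S n ≤ Z + Z * Z + (p0 + 2) + C0 := by
    unfold e2_h
    rw [sum_add_distrib, sum_add_distrib, sum_add_distrib]
    have z0 : 0 ≤ ∑ n ∈ Ioc 0 N, ((n : ℝ) ^ (-(99 / 100) : ℝ)) ^ 2 :=
      sum_nonneg fun n _ => sq_nonneg _
    exact add_le_add (add_le_add (add_le_add (hZ N) ((e2_sum_full N).trans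
      (mul_le_mul (hZ N) (hZ N) z0 (z0.trans (hZ N))))) (e2_sum_small N p0 l))
      (hC0 l hl S hS0 hSc N hNx)
  have h8 := mul_le_mul_of_nonneg_left h6 (Nat.cast_nonneg (α := ℝ) (Module.finrank ℚ K))
  rw [← mul_sum] at h2
  have h9 := h2.trans (Real.exp_le_exp.2 (mul_le_mul_of_nonneg_left (h5.trans h8)
    (by positivity : (0 : ℝ) ≤ 3 * (2 * k + 2))))
  refine le_trans ?_ (mul_le_mul_of_nonneg_right h9 (Real.rpow_nonneg hx0.le _))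
  unfold Sm eu_W
  rw [sum_mul]
  refine sum_le_sum fun n hn => ?_
  obtain ⟨hn0, hnN⟩ := mem_Ioc.1 hn
  have hn1 : (0 : ℝ) < n := by exact_mod_cast hn0
  have hn2 : (n : ℝ) ≤ x := le_trans (by exact_mod_cast hnN) hNx
  rw [← h1 n hnN, tw_apply, mul_assoc]
  refine le_mul_of_one_le_right (chF_pos K hχ n) ?_
  rw [Real.rpow_neg hn1.le, ← div_eq_inv_mul, one_le_div (Real.rpow_pos_of_pos hn1 _)]
  exact Real.rpow_le_rpow hn1.le hn2 (by norm_num)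

end Pool.Agent.RT
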