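import Pool.Agent.Lib.MP_e97e2b_nt.RT.AnH

/- The value at 1 of the real factor is small when few primes split. -/

namespace Pool.Agent.RT

open Pool.Agent.Lib.MP_e97e2b_nt

lemma u_tw {a : ArithmeticFunction ℝ} (ha : ∀ n, 0 ≤ a n) {f : ℕ → ℝ} (hf : ∀ n, |f n| ≤ 1)
    (n : ℕ) : |tw a f n| ≤ a n := by
  rw [tw_apply, abs_mul, abs_of_nonneg (ha n)]
  exact mul_le_of_le_one_right (ha n) (hf n)

lemma u_ab {a b : ArithmeticFunction ℝ} {D ε X t : ℝ} (ha : ∀ n, 0 ≤ a n) (hb : ∀ n, |b n| ≤ a n)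
    (hD : 0 ≤ D) (hε : 0 < ε) (hS : ∀ t : ℝ, 1 ≤ t → |Sm a t| ≤ D * t) (hX : 1 ≤ X)
    (ht : t ≤ X) : Sm (fun n => |siW b 1 n|) t ≤ (3 + (1 + ε) / ε) * D * X ^ ε := by
  have h := up_W a D ε 0 hε le_rfl hD ha hS X hX
  rw [zero_add, zero_sub] at h
  refine le_trans ?_ h
  refine le_trans (Finset.sum_le_sum (g := fun m : ℕ => a m * (m : ℝ) ^ (-1 : ℝ)) fun n _ => ?_)
    (Finset.sum_le_sum_of_subset_of_nonneg (Finset.Ioc_subset_Ioc_right (Nat.floor_le_floor ht))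
      fun n _ _ => mul_nonneg (ha n) (by positivity))
  rw [si_W_apply, abs_mul, abs_of_nonneg (a := (n : ℝ) ^ _) (by positivity)]
  exact mul_le_mul_of_nonneg_right (hb n) (by positivity)

theorem upperM (κ θ C δ τ : ℝ) (k : ℕ) (hκ : 0 < κ) (hθ : 0 < θ) (hδ : 0 < δ)
    (hτ0 : 0 ≤ τ) (hτ : (2 * k + 1) * τ ≤ 93 / 50) :
    ∃ C' δ' l0 : ℝ, 0 < δ' ∧ ∀ (a : ArithmeticFunction ℝ) (η : ℕ → ℝ) (c s : ℕ → ℕ → ℝ) (l : ℝ),
    l0 ≤ l → (∀ n, 0 ≤ a n) → (∀ x : ℝ, 1 ≤ x → |Sm a x - κ * x| ≤ C * x ^ (1 - θ)) →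
    Can a η C θ δ τ l → (∀ j < k, Can a (c j) C θ δ τ l) → (∀ j < k, Can a (s j) C θ δ τ l) →
    (∀ n, 0 ≤ anF a η c s k n) → anF a η c s k 1 = 1 →
    Sm (anF a η c s k) (l ^ (19 / 10 : ℝ)) ≤ C * (l ^ (19 / 10 : ℝ)) ^ (99 / 100 : ℝ) →
    Lv (tw a η) 1 ≤ C' * l ^ (-δ') := by
  by_cases hC : C < 0
  · refine ⟨0, 1, 0, one_pos, fun a η c s l _ _ h0 => ?_⟩
    have := (abs_nonneg _).trans (h0 1 le_rfl)
    rw [Real.one_rpow] at this
    linarith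
  rw [not_lt] at hC
  obtain ⟨δ1, d0, d1, d2, d3⟩ : ∃ δ1 : ℝ, 0 < δ1 ∧ δ1 ≤ δ / 2 ∧ δ1 ≤ θ / 25 ∧ δ1 ≤ 19 / 1000 :=
    ⟨min (δ / 2) (min (θ / 25) (19 / 1000)), by positivity, min_le_left _ _,
      (min_le_right _ _).trans (min_le_left _ _), (min_le_right _ _).trans (min_le_right _ _)⟩
  obtain ⟨N, hN⟩ : ∃ N : ℕ, N = (2 * k + 3) * k + (k + 2) := ⟨_, rfl⟩
  obtain ⟨ε, e0, e1⟩ : ∃ ε : ℝ, 0 < ε ∧ ε * 2 * N = δ1 / 2 := by
    have : (0 : ℝ) < N := by exact_mod_cast (by omega : 0 < N)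
    exact ⟨δ1 / (4 * N), by positivity, by field_simp; ring⟩
  obtain ⟨KE, hKE⟩ : ∃ KE : ℝ, KE = C + (2 + 2 / (δ / (2 * (1 + δ)) * θ)) * C := ⟨_, rfl⟩
  obtain ⟨K1, hK1⟩ : ∃ K1 : ℝ, K1 = (3 + (1 + ε / 2) / (ε / 2)) * (κ + C) := ⟨_, rfl⟩
  obtain ⟨K2, hK2⟩ : ∃ K2 : ℝ, K2 = (3 + (1 + ε * θ / 4) / (ε * θ / 4)) * (κ + C) / (ε * θ / 4) := ⟨_, rfl⟩
  obtain ⟨K4, hK4⟩ : ∃ K4 : ℝ, K4 = 2 * ((2 + 2 / θ) * C) := ⟨_, rfl⟩
  have k3 : 0 ≤ (2 + 2 / (δ / (2 * (1 + δ)) * θ)) * C := by positivity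
  have kE : 0 ≤ KE := by linarith
  have k1 : 0 ≤ K1 := hK1 ▸ by positivity
  have k2 : 0 ≤ K2 := hK2 ▸ by positivity
  have k4 : 0 ≤ K4 := hK4 ▸ by positivity
  obtain ⟨K, hK⟩ : ∃ K : ℝ, K = 1 + (κ + C) + KE + K1 + K2 := ⟨_, rfl⟩
  have hK1' : 1 ≤ K := by linarith
  obtain ⟨M, hM⟩ : ∃ M : ℝ, M = (18 * K ^ 2) ^ N := ⟨_, rfl⟩
  have hM0 : 0 ≤ M := hM ▸ by positivity
  refine ⟨128 ^ k * M * ((2 * C + 3 * KE) / κ), δ1 / 2, max 1 ((32 * M * K4) ^ 2), by positivity,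
    fun a η c s l hl0 ha h0 hη hc hs hpos hone hrk => ?_⟩
  have hl : 1 ≤ l := (le_max_left _ _).trans hl0
  have hlp : 0 < l := by linarith
  have mono : ∀ {x y : ℝ}, x ≤ y → l ^ x ≤ l ^ y := fun h => Real.rpow_le_rpow_of_exponent_le hl h
  have one : ∀ {x : ℝ}, 0 ≤ x → 1 ≤ l ^ x := fun h => Real.one_le_rpow hl h
  have hD : 0 ≤ κ + C := by linarith
  have hS : ∀ t : ℝ, 1 ≤ t → |Sm a t| ≤ (κ + C) * t := by
    intro t ht
    have h := h0 t ht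
    have h4 := Real.rpow_le_rpow_of_exponent_le ht (show 1 - θ ≤ 1 by linarith)
    rw [Real.rpow_one] at h4
    have h5 := mul_le_mul_of_nonneg_left h4 hC
    have h6 : 0 ≤ κ * t := by positivity
    rw [abs_le] at h ⊢
    constructor <;> linarith [h.1, h.2]
  obtain ⟨P, hP⟩ : ∃ P : ℝ, P = K * l ^ ε := ⟨_, rfl⟩
  have hKP : K ≤ P := hP ▸ le_mul_of_one_le_right (by linarith) (one e0.le)
  have hP1 : 1 ≤ P := hK1'.trans hKP
  have hle : ∀ {x : ℝ}, x ≤ K → x * l ^ ε ≤ P := fun h =>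
    hP ▸ mul_le_mul_of_nonneg_right h (by positivity)
  obtain ⟨R, hR⟩ : ∃ R : ℝ, R = 18 * P ^ 2 := ⟨_, rfl⟩
  have hP2 : P ≤ P ^ 2 := le_self_pow₀ hP1 two_ne_zero
  have hR1 : 1 ≤ R := by linarith
  have hRN : R ^ N = M * l ^ (δ1 / 2) := by
    rw [hR, hP, mul_pow K, ← mul_assoc, mul_pow, ← Real.rpow_natCast (l ^ ε),
      ← Real.rpow_natCast (_ ^ ((2 : ℕ) : ℝ)), ← Real.rpow_mul hlp.le, ← Real.rpow_mul hlp.le,
      Nat.cast_ofNat, e1, hM]
  obtain ⟨E, hE⟩ : ∃ E : ℝ, E = KE * l ^ (-(δ / 2)) := ⟨_, rfl⟩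
  have hE0 : 0 ≤ E := hE ▸ by positivity
  have hEP : E ≤ P := hE.trans_le <| (mul_le_of_le_one_right kE
    (Real.rpow_le_one_of_one_le_of_nonpos hl (by linarith))).trans (by linarith)
  obtain ⟨y, hy⟩ : ∃ y : ℝ, y = l ^ (1 / 25 : ℝ) := ⟨_, rfl⟩
  obtain ⟨z, hz⟩ : ∃ z : ℝ, z = l ^ (93 / 50 : ℝ) := ⟨_, rfl⟩
  have hy1 : 1 ≤ y := hy ▸ one (by norm_num)
  have hz1 : 1 ≤ z := hz ▸ one (by norm_num)
  have hyz : y * z = l ^ (19 / 10 : ℝ) := by
    rw [hy, hz, ← Real.rpow_add hlp]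
    norm_num
  have hX1 : 1 ≤ y * z := one_le_mul_of_one_le_of_one_le hy1 hz1
  have hab : ∀ b : ArithmeticFunction ℝ, (∀ n, |b n| ≤ a n) → ∀ t, t ≤ y * z →
      Sm (fun n => |siW b 1 n|) t ≤ P := fun b hb t ht => by
    refine (u_ab ha hb hD (half_pos e0) hS hX1 ht).trans (le_trans ?_ (hle (x := K1) (by linarith)))
    rw [hyz, ← Real.rpow_mul hlp.le, ← hK1]
    exact mul_le_mul_of_nonneg_left (mono (by linarith)) k1
  have hY1 : 1 ≤ l ^ τ := one hτ0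
  have hlev : ∀ f, Can a f C θ δ τ l → Lev (tw a f) (l ^ τ) (y * z) (Lv (tw a f) 1) E P :=
    fun f hf => by
    refine ⟨fun t ht _ => (hf.s2 t ht).trans ?_, fun t ht _ => ?_, hab _ (u_tw ha hf.bd)⟩
    · rw [mul_right_comm, hE]
      exact mul_le_mul_of_nonneg_right (mul_le_mul (by linarith) (mono (by linarith))
        (by positivity) kE) (by linarith)
    · exact (up_tail (tw a f) θ C δ l t hθ hδ hC hl (hY1.trans ht) hf.s1
        fun x hx => hf.s2 x (ht.trans hx)).trans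
          (hE ▸ mul_le_mul_of_nonneg_right (by linarith) (by positivity))
  have hτ' : τ ≤ 93 / 50 := by linarith only [hτ, mul_nonneg (Nat.cast_nonneg (α := ℝ) k) hτ0]
  have hYX : l ^ τ ≤ y * z := hyz ▸ mono (by linarith)
  have hρ : 32 * R ^ (k + 2) * (K4 / l) ≤ 1 := by
    have a1 : R ^ (k + 2) ≤ M * Real.sqrt l := by
      refine (pow_le_pow_right₀ hR1 (by omega : k + 2 ≤ N)).trans ?_
      rw [hRN, Real.sqrt_eq_rpow]
      exact mul_le_mul_of_nonneg_left (mono (by linarith)) hM0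
    have a2 : 32 * M * K4 ≤ Real.sqrt l := Real.le_sqrt_of_sq_le ((le_max_right _ _).trans hl0)
    have a3 := mul_le_mul_of_nonneg_right a2 (Real.sqrt_nonneg l)
    rw [Real.mul_self_sqrt hlp.le] at a3
    have a4 := mul_le_mul_of_nonneg_right a1 k4
    rw [← mul_div_assoc, div_le_one hlp]
    linarith
  have hlow := h_low (η := η) (c := c) (s := s) ha hP1 (hR ▸ hρ) (fun h h1 h2 => by
      obtain ⟨A, a1, a2⟩ := h_a ha hD h1 h2 hS
      exact ⟨A, a1, a2.trans (div_le_div_of_nonneg_right (by linarith) h1.le)⟩)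
    (fun f => Can a f C θ δ τ l) (fun f hf => ⟨((hlev f hf).abs_le hYX).trans (by linarith),
      fun h h1 h2 => by
        obtain ⟨T, t1, t2⟩ := h_lip (ε := ε * θ / 4) (Y := l ^ (2 / θ)) ha (u_tw ha hf.bd) hD hS hθ
          (by positivity) hf.s1 h1 h2 (by positivity) (one (by positivity))
        refine ⟨T, t1, t2.trans (add_le_add ?_ (le_of_eq ?_))⟩
        · rw [← Real.rpow_mul hlp.le,
            show 2 / θ * (ε * θ / 4 + ε * θ / 4) = ε by field_simp; ring, ← hK2]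
          exact mul_le_mul_of_nonneg_left (hle (x := K2) (by linarith)) h1.le
        · rw [← Real.rpow_mul hlp.le, show 2 / θ * -θ = -(2 : ℕ) by field_simp; norm_num,
            Real.rpow_neg hlp.le, Real.rpow_natCast, hK4]
          field_simp⟩) hη hc hs hpos hone
  rw [← hR] at hlow
  obtain ⟨Dj, hDj⟩ : ∃ Dj : ℕ → ℝ, ∀ j, Lv (tw a (c j)) 1 * Lv (tw a (c j)) 1 +
    Lv (tw a (s j)) 1 * Lv (tw a (s j)) 1 = Dj j := ⟨_, fun _ => rfl⟩
  simp only [hDj] at hlow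
  have hG := (Lev.prod (W := fun j => anW a (c j) (s j)) (D := Dj) (E := 6 * E * P)
    (B := 6 * P ^ 2) ((hlev η hη).mono (by positivity) le_rfl
      (by linarith only [mul_le_mul_of_nonneg_left hP1 hE0, hE0]) (by linarith only [hP1, hP2])) hY1
    (one_le_mul_of_one_le_of_one_le hY1 hY1) (by positivity)
    (by linarith only [mul_le_mul_of_nonneg_right hEP (zero_le_one.trans hP1)]) k fun j hj =>
      hDj j ▸ (hlev _ (hc j hj)).pair (hlev _ (hs j hj)) hY1 hE0 hEP).mono (Y' := z)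
    (E' := R ^ k * (6 * E * P)) (B' := R ^ (k + 1)) (by positivity) (by
      rw [← Real.rpow_add hlp, ← Real.rpow_natCast, ← Real.rpow_mul hlp.le, ← Real.rpow_add hlp,
        hz]
      exact mono (by linarith)) (by rw [hR, ← mul_assoc 3]; norm_num)
    (pow_le_pow_left₀ (by positivity) (by linarith) _)
  have hmain := hG.main hκ.le hθ.le hy1 hz1 (by positivity) hC h0
    (hab a (fun n => (abs_of_nonneg (ha n)).le) y (le_mul_of_one_le_right (by linarith) hz1))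
  generalize Lv (tw a η) 1 = L0 at hmain ⊢
  obtain ⟨u, hu⟩ : ∃ u : ℝ, u = l ^ (-δ1) := ⟨_, rfl⟩
  have hu0 : 0 < u := hu ▸ by positivity
  have b0 : Sm (anF a η c s k) (y * z) ≤ C * u * (y * z) := by
    rw [hyz]
    refine hrk.trans ?_
    rw [mul_assoc, hu, ← Real.rpow_mul hlp.le, ← Real.rpow_add hlp]
    exact mul_le_mul_of_nonneg_left (mono (by linarith)) hC
  have hRk : 1 ≤ R ^ (k + 1) := one_le_pow₀ hR1
  have b1 : R ^ k * (6 * E * P) * P ≤ KE * u * R ^ (k + 1) := by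
    have a1 : E ≤ KE * u := hE ▸ hu ▸ mul_le_mul_of_nonneg_left (mono (by linarith)) kE
    have a2 : E * (6 * P ^ 2) ≤ KE * u * R := mul_le_mul a1 (by linarith) (by positivity)
      (by positivity)
    have a3 := mul_le_mul_of_nonneg_left a2 (by positivity : 0 ≤ R ^ k)
    rw [pow_succ]
    linarith
  have b2 : C * y ^ (-θ) * R ^ (k + 1) ≤ C * u * R ^ (k + 1) := by
    rw [hy, ← Real.rpow_mul hlp.le, hu]
    exact mul_le_mul_of_nonneg_right (mul_le_mul_of_nonneg_left (mono (by linarith)) hC)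
      (by positivity)
  have b3 : ∀ x, x ≤ P → x * (R ^ k * (6 * E * P)) ≤ KE * u * R ^ (k + 1) := fun x hx =>
    (mul_le_mul_of_nonneg_right hx (by positivity)).trans (by linarith)
  have b4 : κ * (L0 * ∏ j ∈ Finset.range k, Dj j) ≤ (2 * C + 3 * KE) * u * R ^ (k + 1) := by
    refine le_of_mul_le_mul_right ?_ (by linarith : 0 < y * z)
    have a1 := add_le_add (add_le_add (add_le_add b1 b2) (b3 (κ + C) (by linarith)))
      (b3 κ (by linarith))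
    have a2 := mul_le_mul_of_nonneg_right a1 (by linarith : 0 ≤ y * z)
    have a3 := mul_le_mul_of_nonneg_left hRk (by positivity : 0 ≤ C * u * (y * z))
    have a4 : Sm (⇑(a * (tw a η * ∏ j ∈ Finset.range k, anW a (c j) (s j)))) (y * z) ≤
      C * u * (y * z) := b0
    linarith
  by_cases hL : L0 ≤ 0
  · exact hL.trans (by positivity)
  have b5 : 1 ≤ (128 * R ^ (2 * k + 3)) ^ k * ∏ j ∈ Finset.range k, Dj j := by
    conv_rhs => rw [← Finset.card_range k, ← Finset.prod_const, Finset.card_range,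
      ← Finset.prod_mul_distrib]
    exact Finset.one_le_prod fun j hj => hlow j (Finset.mem_range.1 hj)
  have b6 : L0 * ∏ j ∈ Finset.range k, Dj j ≤ (2 * C + 3 * KE) / κ * u * R ^ (k + 1) := by
    rw [div_mul_eq_mul_div, div_mul_eq_mul_div, le_div_iff₀ hκ]
    linarith
  calc L0 ≤ (128 * R ^ (2 * k + 3)) ^ k * (L0 * ∏ j ∈ Finset.range k, Dj j) := by
        have := mul_le_mul_of_nonneg_left b5 (not_le.1 hL).le
        linarith
    _ ≤ (128 * R ^ (2 * k + 3)) ^ k * ((2 * C + 3 * KE) / κ * u * (R ^ (k + 1) * R)) :=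
        mul_le_mul_of_nonneg_left (b6.trans (mul_le_mul_of_nonneg_left
          (le_mul_of_one_le_right (by positivity) hR1) (by positivity))) (by positivity)
    _ = 128 ^ k * ((2 * C + 3 * KE) / κ) * (R ^ N * u) := by rw [hN]; ring
    _ = _ := by
        rw [hRN, hu, mul_assoc M, ← Real.rpow_add hlp, show δ1 / 2 + -δ1 = -(δ1 / 2) by ring]
        ring

end Pool.Agent.RT
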