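import Pool.Agent.Lib.MP_e97e2b_nt.RT.An0

/- Characters of given even order. -/

namespace Pool.Agent.RT

open NumberField Pool.Agent.Lib.MP_e97e2b_nt

theorem exists_chr {l k : ℕ} (hl : l.Prime) (h2 : l ≠ 2) (h : 2 * k + 2 ∣ l - 1) :
    ∃ χ : MulChar (ZMod l) ℂ, Chr l k χ := by
  have : Fact l.Prime := ⟨hl⟩
  have hm : 2 * k + 2 ≠ 0 := by omega
  obtain ⟨χ, hχ⟩ := MulChar.exists_mulChar_orderOf (ZMod l) (R := ℂ) (n := 2 * k + 2)
    (by rwa [ZMod.card]) (Complex.isPrimitiveRoot_exp _ hm)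
  obtain ⟨g, hg⟩ := IsCyclic.exists_generator (α := (ZMod l)ˣ)
  have hp : ∀ j, j ≠ 0 → (χ ^ j = 1 ↔ χ g ^ j = 1) := fun j hj => by
    rw [MulChar.eq_iff hg, MulChar.pow_apply' _ hj, MulChar.one_apply_coe]
  have hne : ∀ j, 0 < j → j < 2 * k + 2 → χ ^ j ≠ 1 := fun j h0 h1 =>
    pow_ne_one_of_lt_orderOf h0.ne' (hχ ▸ h1)
  have hpw : χ ^ (2 * k + 2) = 1 := hχ ▸ pow_orderOf_eq_one χ
  refine ⟨χ, hpw, hne, fun n => ?_, fun x hx => ?_⟩
  · have hk : ringChar (ZMod l) ≠ 2 := by rw [ZMod.ringChar_zmod_n]; exact h2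
    let q : MulChar (ZMod l) ℂ := (quadraticChar (ZMod l)).ringHomComp (Int.castRingHom ℂ)
    have hq1 : q ≠ 1 := (MulChar.ringHomComp_ne_one_iff (RingHom.injective_int _)).2
      (quadraticChar_ne_one hk)
    have hq2 : q ^ 2 = 1 := ((quadraticChar_isQuadratic _).comp _).sq_eq_one
    have key : ∀ ψ : MulChar (ZMod l) ℂ, ψ ≠ 1 → ψ ^ 2 = 1 → ψ g = -1 := fun ψ h1 h2 => by
      have a1 : ψ g ^ 2 = 1 := by rw [← MulChar.pow_apply' _ two_ne_zero, h2, MulChar.one_apply_coe]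
      refine (mul_self_eq_one_iff.1 (by rw [← sq, a1])).resolve_left fun a2 => h1 ?_
      rw [MulChar.eq_iff hg, a2, MulChar.one_apply_coe]
    have e : χ ^ (k + 1) = q := by
      rw [MulChar.eq_iff hg, key q hq1 hq2, key _ (hne _ (by omega) (by omega))
        (by rw [← pow_mul, ← hpw]; congr 1; ring)]
    rw [e, chi, ← jacobiSym.legendreSym.to_jacobiSym, legendreSym]
    simp [q]
  · have hx0 : x ≠ 0 := by
      rintro rfl
      rw [MulChar.map_zero] at hx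
      exact zero_ne_one hx
    obtain ⟨i, hi⟩ := mem_powers_iff_mem_zpowers.2 (hg (Units.mk0 x hx0))
    have hi' : (g : ZMod l) ^ i = x := congrArg Units.val hi
    obtain ⟨j, rfl⟩ : 2 * k + 2 ∣ i := by
      by_cases h0 : i = 0
      · simp [h0]
      rw [← hχ, orderOf_dvd_iff_pow_eq_one, hp i h0, ← map_pow, hi', hx]
    rw [← hi', ← pow_mul, mul_right_comm, Nat.mul_div_cancel' h, pow_mul,
      ZMod.pow_card_sub_one_eq_one g.ne_zero, one_pow]

end Pool.Agent.RT
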