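import Pool.Agent.Lib.MP_e97e2b_nt.RT.AnC
import Pool.Agent.Lib.MP_e97e2b_nt.RT.AnE2
import Pool.Agent.Lib.MP_e97e2b_nt.RT.AnU
import Pool.Agent.Lib.MP_e97e2b_nt.RT.AnX

namespace Pool.Agent.RT

open NumberField Pool.Agent.Lib.MP_e97e2b_nt

theorem an_main (K : Type) [Field K] [NumberField K] (m R p0 : ℕ) (hm : 2 ≤ m) (hm2 : 2 ∣ m)
    (hd : (m - 1) * Module.finrank ℚ K < 8) :
    ∃ l0 : ℕ, ∀ l : ℕ, l.Prime → l0 < l → m ∣ l - 1 → ∀ S : Finset (ZMod l), 0 ∉ S →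
      S.card ≤ R ^ R → ¬ Bad K l m R p0 S := by
  by_contra hcon
  push Not at hcon
  obtain ⟨k, rfl⟩ : ∃ k, m = 2 * k + 2 := ⟨m / 2 - 1, by omega⟩
  obtain ⟨κ, C0, hκ, h0⟩ := sharp0 K
  obtain ⟨C1, l1, h1⟩ := sharp1 K
  obtain ⟨δ, C2, l2, hδ, h2⟩ := canC K (2 * k + 2) hm (1 / 100) (by norm_num)
  obtain ⟨C3, h3⟩ := rankinM K k R p0
  have hd1 : (1 : ℝ) ≤ Module.finrank ℚ K := by exact_mod_cast Module.finrank_pos
  have hd7 : (2 * k + 1 : ℝ) * Module.finrank ℚ K ≤ 7 := by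
    exact_mod_cast (by simpa using Nat.lt_succ_iff.1 hd : (2 * k + 1) * Module.finrank ℚ K ≤ 7)
  set θ : ℝ := 1 / (2 * (Module.finrank ℚ K : ℝ)) with hθdef
  have hθ : 0 < θ := by positivity
  have hθ' : θ ≤ 1 / 2 := one_div_le_one_div_of_le (by norm_num) (by linarith)
  set C : ℝ := |C0| + |C1| + |C2| + |C3| with hC
  have a0 := abs_nonneg C0
  have a1 := abs_nonneg C1
  have a2 := abs_nonneg C2
  have a3 := abs_nonneg C3
  have b0 : C0 ≤ C := by linarith [le_abs_self C0]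
  have b1 : C1 ≤ C := by linarith [le_abs_self C1]
  have b2 : C2 ≤ C := by linarith [le_abs_self C2]
  have b3 : C3 ≤ C := by linarith [le_abs_self C3]
  obtain ⟨C', δ', l3, hδ', hup⟩ := upperM κ θ C δ (Module.finrank ℚ K / 4 + 1 / 100) k hκ hθ hδ
    (by positivity) (by nlinarith [Nat.cast_nonneg (α := ℝ) k])
  set bad : Set ℕ := {l | l.Prime ∧ l1 + l2 + ⌈l3⌉₊ + 2 < l ∧ 2 * k + 2 ∣ l - 1 ∧
    ∃ S : Finset (ZMod l), 0 ∉ S ∧ S.card ≤ R ^ R ∧ Bad K l (2 * k + 2) R p0 S} with hbad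
  have hinf : bad.Infinite := by
    refine Set.infinite_of_forall_exists_gt fun n => ?_
    obtain ⟨l, hl, hlt, hb⟩ := hcon (n + l1 + l2 + ⌈l3⌉₊ + 2)
    exact ⟨l, ⟨hl, by omega, hb⟩, by omega⟩
  have S0 : ∀ D : ℝ, C ≤ D → ∀ x : ℝ, 1 ≤ x → |Sm (cnt K) x - κ * x| ≤ D * x ^ (1 - θ) := by
    intro D hD x hx
    refine (h0 x hx).trans ?_
    gcongr
    linarith
  have S1 : ∀ D : ℝ, C ≤ D → ∀ M, Adm l1 M → ∀ x : ℝ, 1 ≤ x →
      |Sm (tw (cnt K) fun n => chi M n) x| ≤ D * M * x ^ (1 - θ) := by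
    intro D hD M hM x hx
    refine (h1 M hM x hx).trans ?_
    gcongr
    linarith
  have hCD : C ≤ C + |C'| := by linarith [abs_nonneg C']
  refine siegel (cnt K) κ θ (C + |C'|) δ' hκ hθ hθ' hδ' (fun l n => chi l n) bad hinf
    (cnt_nonneg K) (cnt_one K) (fun l n => abs_chi_le _ _) (fun l => by simpa using chi_one l)
    (S0 _ hCD) ?_ ?_ (fun l _ n => pos2 K l n) (fun l _ l' _ n => pos4 K l l' n) ?_
  · intro l hl x hx
    exact S1 _ hCD l (Or.inl ⟨hl.1, by have := hl.2.1; omega⟩) x hx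
  · intro l hl l' hl' hne x hx
    have := S1 _ hCD (l * l') (Or.inr ⟨l, l', hl.1, hl'.1, hne, by have := hl.2.1; omega,
      by have := hl'.2.1; omega, rfl⟩) x hx
    simpa only [chi_mul_right l l' hl.1.ne_zero hl'.1.ne_zero, Nat.cast_mul] using this
  · rintro l ⟨hl, hl0, hdv, S, hS0, hS1, hB⟩
    have hl1 : (1 : ℝ) ≤ l := by exact_mod_cast hl.one_lt.le
    obtain ⟨χ, hχ⟩ := exists_chr hl (by omega) hdv
    have hc : ∀ j ≤ k, ∀ u : ℂ, ‖u‖ ≤ 1 → Can (cnt K) (fun n => rc (χ ^ (j + 1)) u n) C θ δ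
        (Module.finrank ℚ K / 4 + 1 / 100) l := fun j hj u hu => by
      have h := h2 l hl (by omega) hdv _ (hχ.ne (j + 1) (by omega) (by omega))
        (by rw [← pow_mul, mul_comm, pow_mul, hχ.pw, one_pow]) u hu
      refine ⟨h.bd, fun x hx => (h.s1 x hx).trans ?_, fun x hx => (h.s2 x hx).trans ?_⟩
      · gcongr
      · have : 0 ≤ x := le_trans (by positivity) hx
        gcongr
    have hη := hc k le_rfl 1 (by simp)
    simp only [rc, hχ.half, one_mul, Complex.ofReal_re] at hη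
    refine (hup (cnt K) _ _ _ l ((Nat.le_ceil l3).trans (by exact_mod_cast (by omega)))
      (cnt_nonneg K) (S0 _ le_rfl) hη (fun j hj => hc j hj.le 1 (by simp))
      (fun j hj => hc j hj.le (-Complex.I) (by simp)) (chF_pos K hχ) (chF_one K hχ)
      ((h3 l hl χ hχ S hS0 hS1 hB).trans ?_)).trans ?_
    · gcongr
    · gcongr
      linarith [le_abs_self C']

end Pool.Agent.RT
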