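import Pool.Agent.Lib.MP_e97e2b_nt.ABasic

/- Definitions for the analytic part: characters of even order modulo a prime. -/

namespace Pool.Agent.RT

open NumberField Pool.Agent.Lib.MP_e97e2b_nt

/-- `p` is the norm of a prime ideal. -/
def Deg1 (K : Type) [Field K] [NumberField K] (p : ℕ) : Prop :=
  ∃ P : Ideal (𝓞 K), P.IsPrime ∧ Ideal.absNorm P = p

/-- The conclusion of the geometric analysis at the prime `l`. -/
def Bad (K : Type) [Field K] [NumberField K] (l m R p0 : ℕ) (S : Finset (ZMod l)) : Prop :=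
  ∀ p : ℕ, p.Prime → p0 < p → ¬ p ∣ 2 * l → Deg1 K p → (p : ZMod l) ^ ((l - 1) / m) = 1 →
    ∃ a : ZMod l, a ^ 2 = p ∧ ∃ t : ℤ, t ^ 2 ≤ (R : ℤ) ^ 2 * p ∧ ∃ b ∈ S, (t : ZMod l) = b * a

/-- The real part of `u ψ(n)`. -/
noncomputable def rc {l : ℕ} (ψ : MulChar (ZMod l) ℂ) (u : ℂ) (n : ℤ) : ℝ :=
  (u * ψ (n : ZMod l)).re

/-- The character `ψ ∘ norm` on the residue ring. -/
noncomputable def etaC (K : Type) [Field K] [NumberField K] {l : ℕ} (ψ : MulChar (ZMod l) ℂ)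
    (x : RM K l) : ℂ :=
  ψ ((Algebra.norm ℤ (Quotient.out x : 𝓞 K) : ℤ) : ZMod l)

/-- Cancellation in the twist of `a` by `f`. -/
structure Can (a : ArithmeticFunction ℝ) (f : ℕ → ℝ) (C θ δ τ l : ℝ) : Prop where
  bd : ∀ n, |f n| ≤ 1
  s1 : ∀ x : ℝ, 1 ≤ x → |Sm (tw a f) x| ≤ C * l * x ^ (1 - θ)
  s2 : ∀ x : ℝ, l ^ τ ≤ x → |Sm (tw a f) x| ≤ C * x * l ^ (-δ)

/-- The product of the twists by a complex character and by its conjugate. -/
noncomputable def anW (a : ArithmeticFunction ℝ) (c s : ℕ → ℝ) : ArithmeticFunction ℝ :=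
  tw a c * tw a c + tw a s * tw a s

/-- The product of all twists. -/
noncomputable def anF (a : ArithmeticFunction ℝ) (η : ℕ → ℝ) (c s : ℕ → ℕ → ℝ) (k : ℕ) :
    ArithmeticFunction ℝ :=
  a * (tw a η * ∏ j ∈ Finset.range k, anW a (c j) (s j))

/-- A character of order `2 k + 2`. -/
structure Chr (l k : ℕ) (χ : MulChar (ZMod l) ℂ) : Prop where
  pw : χ ^ (2 * k + 2) = 1
  ne : ∀ j, 0 < j → j < 2 * k + 2 → χ ^ j ≠ 1
  half : ∀ n : ℤ, (χ ^ (k + 1)) (n : ZMod l) = ((chi l n : ℝ) : ℂ)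
  ker : ∀ x : ZMod l, χ x = 1 → x ^ ((l - 1) / (2 * k + 2)) = 1

/-- The coefficients of the product of the `L`-functions of all powers of `χ ∘ norm`. -/
noncomputable def chF (K : Type) [Field K] [NumberField K] (l k : ℕ) (χ : MulChar (ZMod l) ℂ) :
    ArithmeticFunction ℝ :=
  anF (cnt K) (fun n => chi l n) (fun j n => rc (χ ^ (j + 1)) 1 n)
    (fun j n => rc (χ ^ (j + 1)) (-Complex.I) n) k

lemma norm_psi_le {l : ℕ} (ψ : MulChar (ZMod l) ℂ) (x : ZMod l) : ‖ψ x‖ ≤ 1 :=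
  DirichletCharacter.norm_le_one ψ x

lemma abs_rc_le {l : ℕ} (ψ : MulChar (ZMod l) ℂ) {u : ℂ} (hu : ‖u‖ ≤ 1) (n : ℤ) :
    |rc ψ u n| ≤ 1 := by
  refine (Complex.abs_re_le_norm _).trans ?_
  rw [norm_mul]
  exact mul_le_one₀ hu (norm_nonneg _) (norm_psi_le ψ _)

end Pool.Agent.RT
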