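import Pool.Agent.Lib.MP_e97e2b_nt.RT.AnW
import Pool.Agent.Lib.MP_e97e2b_nt.Burgess

/- Burgess bound for `ψ ∘ norm` on an ideal lattice. -/

namespace Pool.Agent.RT

open NumberField Pool.Agent.Lib.MP_e97e2b_nt

variable {K : Type} [Field K] [NumberField K]

open Classical in
/-- The averaging step. -/
lemma b_avg (e : (Fin (Module.finrank ℚ K) → ℤ) →+ 𝓞 K) (l : ℕ) [Fintype (RM K l)]
    (ψ : MulChar (ZMod l) ℂ) (u : ℂ) (hu : ‖u‖ ≤ 1)
    (F : (Fin (Module.finrank ℚ K) → ℝ) → ℝ) (hF : ∀ x, |F x| ≤ 1) (H : ℝ) (N B r : ℕ)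
    (T : Finset (Fin (Module.finrank ℚ K) → ℤ))
    (hT : ∀ a ∈ T, IsUnit (Ideal.Quotient.mk (Ideal.span {(l : 𝓞 K)}) (e a)))
    (τ E M : ℝ) (hτ : 0 < τ)
    (hE : ((((box K N ×ˢ T) ×ˢ (box K N ×ˢ T)).filter fun z =>
          e z.1.1 * e z.2.2 - e z.2.1 * e z.1.2 ∈ Ideal.span {(l : 𝓞 K)}).card : ℝ) ≤ E)
    (hM : ∑ x : RM K l, ‖∑ b ∈ Finset.range B, etaC K ψ (x + (b : RM K l))‖ ^ (2 * r) ≤ M) :
    |∑ a ∈ T, ∑ b ∈ Finset.range B, ∑ v ∈ box K N,
        rc ψ u (Algebra.norm ℤ (e (v + b • a))) * F (fun i => (v i : ℝ) / H)| ≤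
      τ * ((box K N).card * T.card) + B * Real.sqrt (E * (M / τ ^ (2 * r))) := by
  set π := Ideal.Quotient.mk (Ideal.span {(l : 𝓞 K)}) with hπ
  set x : (Fin (Module.finrank ℚ K) → ℤ) × (Fin (Module.finrank ℚ K) → ℤ) → RM K l :=
    fun p => π (e p.1) * Ring.inverse (π (e p.2)) with hx
  set S : RM K l → ℂ := fun y => ∑ b ∈ Finset.range B, etaC K ψ (y + (b : RM K l)) with hS
  have heta : ∀ y, ‖etaC K ψ y‖ ≤ 1 := fun y => norm_psi_le _ _
  have hSB : ∀ y, |‖S y‖| ≤ B := by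
    intro y
    rw [abs_norm]
    calc ‖S y‖ ≤ ∑ b ∈ Finset.range B, ‖etaC K ψ (y + (b : RM K l))‖ := norm_sum_le _ _
      _ ≤ ∑ _b ∈ Finset.range B, (1 : ℝ) := Finset.sum_le_sum (fun b _ => heta _)
      _ = B := by simp
  have hE' : ((((box K N ×ˢ T) ×ˢ (box K N ×ˢ T)).filter
      (fun z => x z.1 = x z.2)).card : ℝ) ≤ E := by
    refine le_trans ?_ hE
    refine Nat.cast_le.mpr (Finset.card_le_card (fun z hz => ?_))
    obtain ⟨hz1, hz2⟩ := Finset.mem_filter.mp hz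
    refine Finset.mem_filter.mpr ⟨hz1, ?_⟩
    obtain ⟨hz3, hz4⟩ := Finset.mem_product.mp hz1
    have u1 := Ring.inverse_mul_cancel _ (hT _ (Finset.mem_product.mp hz3).2)
    have u2 := Ring.inverse_mul_cancel _ (hT _ (Finset.mem_product.mp hz4).2)
    rw [← Ideal.Quotient.eq, map_mul, map_mul]
    simp only [hx] at hz2
    linear_combination (π (e z.1.2) * π (e z.2.2)) * hz2 - π (e z.1.1) * π (e z.2.2) * u1 +
      π (e z.2.1) * π (e z.1.2) * u2
  have hc := bu_count (box K N ×ˢ T) x (fun y => ‖S y‖) B τ E M r hSB (Nat.cast_nonneg _) hτ hE' hM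
  rw [Finset.card_product, Nat.cast_mul] at hc
  refine le_trans ?_ hc
  have e1 : ∑ a ∈ T, ∑ b ∈ Finset.range B, ∑ v ∈ box K N,
        rc ψ u (Algebra.norm ℤ (e (v + b • a))) * F (fun i => (v i : ℝ) / H) =
      ∑ p ∈ box K N ×ˢ T, F (fun i => (p.1 i : ℝ) / H) *
        (u * etaC K ψ (π (e p.2)) * S (x p)).re := by
    rw [Finset.sum_product_right]
    refine Finset.sum_congr rfl (fun a ha => ?_)
    rw [Finset.sum_comm]
    refine Finset.sum_congr rfl (fun v _ => ?_)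
    simp only [hS]
    rw [Finset.mul_sum, Complex.re_sum, Finset.mul_sum]
    refine Finset.sum_congr rfl (fun b _ => ?_)
    have u1 := Ring.inverse_mul_cancel _ (hT a ha)
    have e2 : π (e (v + b • a)) = π (e a) * (x (v, a) + (b : RM K l)) := by
      simp only [hx]
      rw [map_add, map_nsmul, map_add, map_nsmul, nsmul_eq_mul]
      linear_combination (-π (e v)) * u1
    rw [rc, ← etaC_mk, e2, etaC_mul, mul_assoc, mul_comm]
  rw [e1]
  refine le_trans (Finset.abs_sum_le_sum_abs _ _) (Finset.sum_le_sum (fun p _ => ?_))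
  rw [abs_mul, abs_norm]
  refine (mul_le_of_le_one_left (abs_nonneg _) (hF _)).trans
    ((Complex.abs_re_le_norm _).trans ?_)
  rw [norm_mul, norm_mul]
  exact mul_le_of_le_one_left (norm_nonneg _) (mul_le_one₀ hu (norm_nonneg _) (heta _))

theorem burgess_latC (c : Ideal (𝓞 K)) (e : (Fin (Module.finrank ℚ K) → ℤ) →+ 𝓞 K)
    (he : Lat c e) (ρ ε : ℝ) (hε : 0 < ε) (m : ℕ) (hm : 2 ≤ m) :
    ∃ (δ C : ℝ) (l0 : ℕ), 0 < δ ∧ ∀ l : ℕ, l.Prime → l0 < l → m ∣ l - 1 →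
    ∀ ψ : MulChar (ZMod l) ℂ, ψ ≠ 1 → ψ ^ m = 1 → ∀ u : ℂ, ‖u‖ ≤ 1 →
    ∀ (Λ : ℝ) (F : (Fin (Module.finrank ℚ K) → ℝ) → ℝ), 1 ≤ Λ → Wt ρ Λ F →
    ∀ H : ℝ, (l : ℝ) ^ (1 / 4 + ε) ≤ H →
    |LS (fun v => rc ψ u (Algebra.norm ℤ (e v))) F H| ≤
      C * Λ * H ^ Module.finrank ℚ K * (l : ℝ) ^ (-δ) := by
  classical
  obtain ⟨ε', hε0, hε1, hεε⟩ : ∃ ε' : ℝ, 0 < ε' ∧ ε' ≤ 1 / 4 ∧ ε' ≤ ε :=
    ⟨min ε (1 / 4), lt_min hε (by norm_num), min_le_right _ _, min_le_left _ _⟩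
  have hd1 : 1 ≤ (Module.finrank ℚ K) := Module.finrank_pos
  obtain ⟨r, hr⟩ : ∃ r : ℕ, 2 * ((Module.finrank ℚ K) : ℝ) / ε' < r := exists_nat_gt _
  have hdpos : (0 : ℝ) < (Module.finrank ℚ K) := by exact_mod_cast hd1
  have hr0 : (0 : ℝ) < r := lt_trans (by positivity) hr
  have hβ : ((Module.finrank ℚ K) : ℝ) / (2 * r) ≤ ε' / 4 := by
    rw [div_lt_iff₀ hε0] at hr
    rw [div_le_iff₀ (by positivity)]
    linarith
  obtain ⟨Cm, lm, hmo⟩ := momentC (K := K) r m hm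
  obtain ⟨Ce, le, hCe, hen⟩ := energy c e he
  obtain ⟨Cs, hs⟩ := LS_shift (ι := Fin (Module.finrank ℚ K)) ρ
  set R : ℝ := |ρ| + 2 with hR
  have hR2 : 2 ≤ R := by linarith [abs_nonneg ρ]
  obtain ⟨l1, hl1⟩ : ∃ l1 : ℕ, ∀ l : ℕ, l1 ≤ l → Ce * R ≤ (l : ℝ) ^ ε' := by
    have h := ((tendsto_rpow_atTop hε0).comp tendsto_natCast_atTop_atTop).eventually_ge_atTop
      (Ce * R)
    exact Filter.eventually_atTop.mp h
  set C5 : ℝ := (2 * Ce * |Cm| * R ^ (Module.finrank ℚ K) * (2 ^ (Module.finrank ℚ K) + R ^ (Module.finrank ℚ K)) * (1 + 4 / ε') + 1) * Ce with hC5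
  have hC50 : 0 ≤ C5 := by positivity
  refine ⟨ε' / (8 * (r + 1)), |Cs| + (3 * R) ^ (Module.finrank ℚ K) + C5, max (max lm le) l1, by positivity, ?_⟩
  intro l hl hl0 hml ψ hψ hψm u hu Λ F hΛ hF H hH
  have hlm : lm < l := lt_of_le_of_lt (le_trans (le_max_left _ _) (le_max_left _ _)) hl0
  have hle : le < l := lt_of_le_of_lt (le_trans (le_max_right _ _) (le_max_left _ _)) hl0
  have hW := hl1 l (le_trans (le_max_right _ _) hl0.le)
  set L : ℝ := (l : ℝ) with hL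
  have hL1 : 1 ≤ L := by rw [hL]; exact_mod_cast hl.one_lt.le
  have hL0 : 0 < L := by linarith
  have mono : ∀ {x y : ℝ}, x ≤ y → L ^ x ≤ L ^ y :=
    fun h => Real.rpow_le_rpow_of_exponent_le hL1 h
  have hH' : L ^ (1 / 4 + ε') ≤ H := le_trans (mono (by linarith)) hH
  have hH1 : 1 ≤ H := le_trans (Real.one_le_rpow hL1 (by linarith)) hH'
  have hH0 : 0 < H := by linarith
  set τ : ℝ := L ^ (-(ε' / (8 * (r + 1)))) with hτ
  have hτ0 : 0 < τ := Real.rpow_pos_of_pos hL0 _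
  -- the parameters
  set B : ℕ := ⌈L ^ (((Module.finrank ℚ K) : ℝ) / (2 * r))⌉₊ with hB
  have hβ1 : 1 ≤ L ^ (((Module.finrank ℚ K) : ℝ) / (2 * r)) := Real.one_le_rpow hL1 (by positivity)
  have hB1 : L ^ (((Module.finrank ℚ K) : ℝ) / (2 * r)) ≤ B := Nat.le_ceil _
  have hB2 : (B : ℝ) ≤ 2 * L ^ (ε' / 4) := by
    have := Nat.ceil_lt_add_one (le_trans zero_le_one hβ1)
    have h2 := mono hβ
    linarith
  have hB0 : (0 : ℝ) < B := by linarith
  have hBl : B ≤ l := by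
    refine Nat.ceil_le.mpr ?_
    have := mono (x := ((Module.finrank ℚ K) : ℝ) / (2 * r)) (y := 1) (by linarith)
    rwa [Real.rpow_one] at this
  set N : ℕ := ⌈(|ρ| + 1) * H⌉₊ with hN
  have hN1 : (|ρ| + 1) * H ≤ N := Nat.le_ceil _
  have hN2 : (N : ℝ) ≤ R * H := by
    have := Nat.ceil_lt_add_one (a := (|ρ| + 1) * H) (by positivity)
    rw [hR]
    linarith [add_mul (|ρ| + 1) 1 H]
  have hHN : H ≤ N := (le_mul_of_one_le_left hH0.le (by linarith [abs_nonneg ρ])).trans hN1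
  set y : ℝ := L ^ (1 / 2 + ε' / 2) / H with hy
  have hy0 : 0 ≤ y := by positivity
  have hyH : y * H = L ^ (1 / 2 + ε' / 2) := by rw [hy]; field_simp
  have hy1 : y ≤ L ^ (1 / 4 - ε' / 2) := by
    rw [hy, div_le_iff₀ hH0]
    have : L ^ (1 / 2 + ε' / 2) = L ^ (1 / 4 - ε' / 2) * L ^ (1 / 4 + ε') := by
      rw [← Real.rpow_add hL0]
      congr 1
      ring
    rw [this]
    exact mul_le_mul_of_nonneg_left hH' (by positivity)
  set A : ℕ := max 1 ⌊y⌋₊ with hA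
  have hA1 : 1 ≤ A := le_max_left _ _
  have hA1' : (1 : ℝ) ≤ A := by exact_mod_cast hA1
  have hAc : A = 1 ∨ (A : ℝ) ≤ y := by
    rcases le_total ⌊y⌋₊ 1 with h | h
    · exact Or.inl (max_eq_left h)
    · right
      rw [hA, max_eq_right h]
      exact Nat.floor_le hy0
  have hA2 : (A : ℝ) ≤ L ^ (1 / 4 - ε' / 2) := by
    rcases hAc with h | h
    · rw [h, Nat.cast_one]
      exact Real.one_le_rpow hL1 (by linarith)
    · linarith
  have hA3 : y ≤ 2 * A := by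
    have a1 := Nat.lt_floor_add_one y
    have a2 : ((⌊y⌋₊ : ℕ) : ℝ) ≤ A := by exact_mod_cast le_max_right 1 ⌊y⌋₊
    linarith
  have hAH : L ^ (1 / 2 + ε' / 2) ≤ 2 * (A * H) := by
    rw [← hyH, ← mul_assoc]
    exact mul_le_mul_of_nonneg_right hA3 hH0.le
  have hAN : A ≤ N := by
    have : (A : ℝ) ≤ N := le_trans hA2 (le_trans (mono (by linarith)) (le_trans hH' hHN))
    exact_mod_cast this
  have hcond : A = 1 ∨ Ce * N * A ≤ L := by
    rcases hAc with h | h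
    · exact Or.inl h
    · right
      have a1 : (N : ℝ) * A ≤ R * L ^ (1 / 2 + ε' / 2) := by
        rw [← hyH]
        calc (N : ℝ) * A ≤ (R * H) * y := mul_le_mul hN2 h (by positivity) (by positivity)
          _ = _ := by ring
      have a2 : L ^ ε' * L ^ (1 / 2 + ε' / 2) ≤ L := by
        rw [← Real.rpow_add hL0]
        have := mono (x := ε' + (1 / 2 + ε' / 2)) (y := 1) (by linarith)
        rwa [Real.rpow_one] at this
      calc Ce * N * A = Ce * (N * A) := by ring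
        _ ≤ Ce * (R * L ^ (1 / 2 + ε' / 2)) := mul_le_mul_of_nonneg_left a1 (by linarith)
        _ = (Ce * R) * L ^ (1 / 2 + ε' / 2) := by ring
        _ ≤ L ^ ε' * L ^ (1 / 2 + ε' / 2) := mul_le_mul_of_nonneg_right hW (by positivity)
        _ ≤ L := a2
  obtain ⟨T, hT1, hT2, hT3, hT4⟩ := hen l hl hle A N hA1 hAN hcond
  have hT0 : (0 : ℝ) < T.card := by
    have : (0 : ℝ) < (A : ℝ) ^ (Module.finrank ℚ K) := by positivity
    by_contra h
    have h0 : (T.card : ℝ) = 0 := le_antisymm (not_lt.mp h) (Nat.cast_nonneg _)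
    rw [h0, mul_zero] at hT1
    linarith
  -- the shift error
  have hσ : Ce * A * B ≤ τ * H := by
    have a1 : (A : ℝ) * B ≤ L ^ (1 / 4 - ε' / 2) * (2 * L ^ (ε' / 4)) :=
      mul_le_mul hA2 hB2 hB0.le (by positivity)
    have a2 : 2 * Ce ≤ L ^ ε' := by
      linarith [mul_le_mul_of_nonneg_left hR2 (zero_le_one.trans hCe)]
    have a3 : L ^ ε' * (L ^ (1 / 4 - ε' / 2) * L ^ (ε' / 4)) ≤ τ * L ^ (1 / 4 + ε') := by
      rw [hτ, ← Real.rpow_add hL0, ← Real.rpow_add hL0, ← Real.rpow_add hL0]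
      refine mono ?_
      have : ε' / (8 * (r + 1)) ≤ ε' / 8 :=
        div_le_div_of_nonneg_left hε0.le (by norm_num) (by linarith)
      linarith
    calc Ce * A * B = Ce * (A * B) := by ring
      _ ≤ Ce * (L ^ (1 / 4 - ε' / 2) * (2 * L ^ (ε' / 4))) :=
          mul_le_mul_of_nonneg_left a1 (by linarith)
      _ = (2 * Ce) * (L ^ (1 / 4 - ε' / 2) * L ^ (ε' / 4)) := by ring
      _ ≤ L ^ ε' * (L ^ (1 / 4 - ε' / 2) * L ^ (ε' / 4)) :=
          mul_le_mul_of_nonneg_right a2 (by positivity)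
      _ ≤ τ * L ^ (1 / 4 + ε') := a3
      _ ≤ τ * H := mul_le_mul_of_nonneg_left hH' hτ0.le
  have hτ1 : τ ≤ 1 := Real.rpow_le_one_of_one_le_of_nonpos hL1 (by
    have : 0 ≤ ε' / (8 * (r + 1)) := by positivity
    linarith)
  set g : (Fin (Module.finrank ℚ K) → ℤ) → ℝ := fun v => rc ψ u (Algebra.norm ℤ (e v)) with hg
  have hshift : ∀ a ∈ T, ∀ b ∈ Finset.range B,
      |LS g F H - ∑ v ∈ box K N, rc ψ u (Algebra.norm ℤ (e (v + b • a))) *
        F (fun i => (v i : ℝ) / H)| ≤ |Cs| * Λ * H ^ (Module.finrank ℚ K) * τ := by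
    intro a ha b hb
    have hb' : (b : ℝ) ≤ B := by exact_mod_cast (Finset.mem_range.mp hb).le
    have h1 := hs Λ F (by linarith) hF H (τ * H) hH1 (by positivity)
      (mul_le_of_le_one_left hH0.le hτ1) g
      (fun v => abs_rc_le ψ hu _) (b • a) (fun i => by
        rw [Pi.smul_apply, nsmul_eq_mul, Int.cast_mul, abs_mul, Int.cast_natCast,
          Nat.abs_cast]
        calc (b : ℝ) * |(a i : ℝ)| ≤ B * (Ce * A) :=
              mul_le_mul hb' (hT2 a ha i) (abs_nonneg _) hB0.le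
          _ = Ce * A * B := by ring
          _ ≤ _ := hσ)
    rw [bu_box ρ Λ F hF H hH0 N hN1 (fun v => g (v + b • a)), Fintype.card_fin,
      mul_div_assoc, div_self hH0.ne', mul_one] at h1
    refine le_trans h1 ?_
    have : 0 ≤ Λ * H ^ (Module.finrank ℚ K) * τ := by positivity
    linarith [mul_le_mul_of_nonneg_right (le_abs_self Cs) this]
  have : Finite (RM K l) := Nat.finite_of_card_ne_zero (by
    rw [card_RM]; exact pow_ne_zero _ hl.ne_zero)
  let _ : Fintype (RM K l) := Fintype.ofFinite _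
  have hM : ∑ x : RM K l, ‖∑ b ∈ Finset.range B, etaC K ψ (x + (b : RM K l))‖ ^ (2 * r) ≤
      2 * |Cm| * (B : ℝ) ^ (2 * r) * Real.sqrt (L ^ (Module.finrank ℚ K)) := by
    have h1 := hmo l hl hlm hml ψ hψ hψm B hBl
    rw [finsum_eq_sum_of_fintype] at h1
    refine le_trans h1 ?_
    have a0 : 0 ≤ Real.sqrt (L ^ (Module.finrank ℚ K)) := Real.sqrt_nonneg _
    have a1 : Real.sqrt (L ^ (Module.finrank ℚ K)) ≤ (B : ℝ) ^ r := by
      have b1 : Real.sqrt (L ^ (Module.finrank ℚ K)) = (L ^ (((Module.finrank ℚ K) : ℝ) / (2 * r))) ^ r := by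
        rw [Real.sqrt_eq_rpow, ← Real.rpow_natCast, ← Real.rpow_natCast,
          ← Real.rpow_mul hL0.le, ← Real.rpow_mul hL0.le]
        congr 1
        field_simp
      rw [b1]
      exact pow_le_pow_left₀ (by positivity) hB1 r
    have a2 : (B : ℝ) ^ r * L ^ (Module.finrank ℚ K) ≤ (B : ℝ) ^ (2 * r) * Real.sqrt (L ^ (Module.finrank ℚ K)) := by
      have b1 : L ^ (Module.finrank ℚ K) = Real.sqrt (L ^ (Module.finrank ℚ K)) * Real.sqrt (L ^ (Module.finrank ℚ K)) :=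
        (Real.mul_self_sqrt (by positivity)).symm
      have b2 : (B : ℝ) ^ (2 * r) = (B : ℝ) ^ r * (B : ℝ) ^ r := by rw [two_mul, pow_add]
      rw [b2]
      nth_rewrite 1 [b1]
      rw [mul_assoc]
      exact mul_le_mul_of_nonneg_left (mul_le_mul_of_nonneg_right a1 a0) (by positivity)
    have a3 : 0 ≤ (B : ℝ) ^ r * L ^ (Module.finrank ℚ K) + (B : ℝ) ^ (2 * r) * Real.sqrt (L ^ (Module.finrank ℚ K)) := by positivity
    calc Cm * ((B : ℝ) ^ r * L ^ (Module.finrank ℚ K) + (B : ℝ) ^ (2 * r) * Real.sqrt (L ^ (Module.finrank ℚ K)))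
        ≤ |Cm| * ((B : ℝ) ^ r * L ^ (Module.finrank ℚ K) + (B : ℝ) ^ (2 * r) * Real.sqrt (L ^ (Module.finrank ℚ K))) :=
          mul_le_mul_of_nonneg_right (le_abs_self Cm) a3
      _ ≤ |Cm| * (2 * ((B : ℝ) ^ (2 * r) * Real.sqrt (L ^ (Module.finrank ℚ K)))) :=
          mul_le_mul_of_nonneg_left (by linarith) (abs_nonneg _)
      _ = _ := by ring
  have havg := b_avg e l ψ u hu F hF.bdd H N B r T hT3 (τ * B) _ _ (by positivity) hT4 hM
  have hnum := bu_num (Module.finrank ℚ K) r hd1 ε' R Ce |Cm| L H A N B T.card hε0 hε1 (by linarith) hCe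
    (abs_nonneg _) hL1 hH1 hA1' (Nat.cast_nonneg _) hN2 hB0 hAH hT1
  have hbox : ((box K N).card : ℝ) ≤ (3 * R) ^ (Module.finrank ℚ K) * H ^ (Module.finrank ℚ K) := by
    rw [bu_card_box, ← mul_pow]
    refine pow_le_pow_left₀ (by positivity) ?_ (Module.finrank ℚ K)
    linarith [mul_le_mul hR2 hH1 zero_le_one (zero_le_two.trans hR2)]
  set Y : (Fin (Module.finrank ℚ K) → ℤ) → ℕ → ℝ := fun a b => ∑ v ∈ box K N,
    rc ψ u (Algebra.norm ℤ (e (v + b • a))) * F (fun i => (v i : ℝ) / H) with hY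
  have hdiff : |∑ a ∈ T, ∑ b ∈ Finset.range B, (LS g F H - Y a b)| ≤
      T.card * (B * (|Cs| * Λ * H ^ (Module.finrank ℚ K) * τ)) := by
    refine le_trans (Finset.abs_sum_le_sum_abs _ _) ?_
    rw [← nsmul_eq_mul, ← Finset.sum_const]
    refine Finset.sum_le_sum (fun a ha => ?_)
    refine le_trans (Finset.abs_sum_le_sum_abs _ _) ?_
    refine le_trans (Finset.sum_le_sum (fun b hb => hshift a ha b hb)) ?_
    rw [Finset.sum_const, Finset.card_range, nsmul_eq_mul]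
  have hsum : ∑ a ∈ T, ∑ b ∈ Finset.range B, (LS g F H - Y a b) =
      T.card * (B * LS g F H) - ∑ a ∈ T, ∑ b ∈ Finset.range B, Y a b := by
    simp only [Finset.sum_sub_distrib, Finset.sum_const, Finset.card_range, nsmul_eq_mul]
  rw [hsum] at hdiff
  have hY2 : |∑ a ∈ T, ∑ b ∈ Finset.range B, Y a b| ≤
      T.card * (B * ((3 * R) ^ (Module.finrank ℚ K) * H ^ (Module.finrank ℚ K) * τ + C5 * H ^ (Module.finrank ℚ K) * τ)) := by
    refine le_trans havg ?_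
    have a1 := mul_le_mul_of_nonneg_left hnum hB0.le
    have a2 : τ * B * ((box K N).card * T.card) ≤ τ * B * ((3 * R) ^ (Module.finrank ℚ K) * H ^ (Module.finrank ℚ K) * T.card) :=
      mul_le_mul_of_nonneg_left (mul_le_mul_of_nonneg_right hbox hT0.le) (by positivity)
    calc _ ≤ τ * B * ((3 * R) ^ (Module.finrank ℚ K) * H ^ (Module.finrank ℚ K) * T.card) + B * (T.card * (C5 * H ^ (Module.finrank ℚ K) * τ)) :=
          add_le_add a2 a1
      _ = _ := by ring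
  have hfin : T.card * (B * |LS g F H|) ≤
      T.card * (B * (|Cs| * Λ * H ^ (Module.finrank ℚ K) * τ + ((3 * R) ^ (Module.finrank ℚ K) * H ^ (Module.finrank ℚ K) * τ + C5 * H ^ (Module.finrank ℚ K) * τ))) := by
    have a1 : |(T.card : ℝ) * (B * LS g F H)| = T.card * (B * |LS g F H|) := by
      rw [abs_mul, abs_mul, Nat.abs_cast, Nat.abs_cast]
    have a2 := abs_sub_abs_le_abs_sub ((T.card : ℝ) * (B * LS g F H))
      (∑ a ∈ T, ∑ b ∈ Finset.range B, Y a b)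
    rw [a1] at a2
    linarith
  have hfin2 := le_of_mul_le_mul_left (le_of_mul_le_mul_left hfin hT0) hB0
  refine le_trans hfin2 ?_
  have a1 : 0 ≤ ((3 * R) ^ (Module.finrank ℚ K) + C5) * (H ^ (Module.finrank ℚ K) * τ) := by positivity
  linarith [mul_le_mul_of_nonneg_right hΛ a1]

end Pool.Agent.RT
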