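import Pool.Agent.Lib.MP_e97e2b_nt.RT.An0
import Pool.Agent.Lib.MP_e97e2b_nt.Geo

/- Sums over ideals as lattice sums. -/

namespace Pool.Agent.RT

open NumberField Pool.Agent.Lib.MP_e97e2b_nt

section

open NumberField.mixedEmbedding NumberField.Units

variable {K : Type} [Field K] [NumberField K]

open scoped Classical in
lemma g_point {c : Ideal (𝓞 K)} {e : (Fin (Module.finrank ℚ K) → ℤ) →+ 𝓞 K}
    (h : Lat c e) {Λ : ℝ} {U : ℝ → ℝ} (hU : Bump Λ U) {T : ℝ} (hT : 0 < T) {f : ℤ → ℝ}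
    (A : Finset (Ideal (𝓞 K))) (hA : ∀ a, a ∈ A ↔ Ideal.absNorm a ∈ Finset.Ioc 0 ⌊2 * T⌋₊)
    (s : ℤ) (hs : s = 1 ∨ s = -1) {g : (Fin (Module.finrank ℚ K) → ℤ) → ℝ}
    (hg : ∀ v (n : ℕ), Algebra.norm ℤ (e v) = s * (Ideal.absNorm c : ℕ) * n → g v = f n)
    (v : Fin (Module.finrank ℚ K) → ℤ) :
    g v * ge_Fm e s U (fun i => (v i : ℝ) /
        ((Ideal.absNorm c * T) ^ (1 / (Module.finrank ℚ K : ℝ)))) =
    if 0 < s * Algebra.norm ℤ (e v) then
      ∑ a ∈ A, f (Ideal.absNorm a : ℕ) * U (Ideal.absNorm a / T) *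
        (if a * c = Ideal.span {e v} then ge_phi (mixedEmbedding K (e v : 𝓞 K)) else 0)
    else 0 := by
  have key := ge_point h hU hT (f := fun _ => 1) (fun _ _ => (mul_one _).symm) (one_pow 2) A hA s
    hs v
  simp only [one_mul] at key
  rw [key]
  by_cases hpos : 0 < s * Algebra.norm ℤ (e v)
  · rw [if_pos hpos, if_pos hpos, Finset.mul_sum]
    refine Finset.sum_congr rfl fun a _ => ?_
    by_cases ha : a * c = Ideal.span {e v}
    · have h1 : |Algebra.norm ℤ (e v)| = (Ideal.absNorm c : ℕ) * (Ideal.absNorm a : ℕ) := by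
        rw [← Int.natCast_natAbs, ← Ideal.absNorm_span_singleton, ← ha, map_mul, Nat.cast_mul,
          mul_comm]
      rw [hg v (Ideal.absNorm a), mul_assoc]
      rcases hs with rfl | rfl
      · rw [one_mul, ← h1, abs_of_pos (by linarith)]
      · rw [mul_assoc, ← h1, abs_of_neg (by linarith), neg_one_mul, neg_neg]
    · simp only [if_neg ha, mul_zero]
  · rw [if_neg hpos, if_neg hpos, mul_zero]

open scoped Classical in
lemma g_class {c : Ideal (𝓞 K)} {e : (Fin (Module.finrank ℚ K) → ℤ) →+ 𝓞 K}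
    (h : Lat c e) {Λ : ℝ} {U : ℝ → ℝ} (hU : Bump Λ U) {T : ℝ} (hT : 0 < T) {f : ℤ → ℝ}
    (A : Finset (Ideal (𝓞 K))) (hA : ∀ a, a ∈ A ↔ Ideal.absNorm a ∈ Finset.Ioc 0 ⌊2 * T⌋₊)
    {g g' : (Fin (Module.finrank ℚ K) → ℤ) → ℝ}
    (hg : ∀ v (n : ℕ), Algebra.norm ℤ (e v) = 1 * (Ideal.absNorm c : ℕ) * n → g v = f n)
    (hg' : ∀ v (n : ℕ), Algebra.norm ℤ (e v) = -1 * (Ideal.absNorm c : ℕ) * n → g' v = f n) :
    LS g (ge_Fm e 1 U) ((Ideal.absNorm c * T) ^ (1 / (Module.finrank ℚ K : ℝ))) +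
      LS g' (ge_Fm e (-1) U) ((Ideal.absNorm c * T) ^ (1 / (Module.finrank ℚ K : ℝ))) =
      ∑ a ∈ A, f (Ideal.absNorm a : ℕ) * U (Ideal.absNorm a / T) *
        (if ∃ x : 𝓞 K, a * c = Ideal.span {x} then (torsionOrder K : ℝ) else 0) := by
  have hA0 : ∀ a ∈ A, a ≠ ⊥ := by
    intro a ha h0
    rw [hA, Finset.mem_Ioc, h0, Ideal.absNorm_bot] at ha
    exact lt_irrefl _ ha.1
  have key := hasSum_sum (s := A) fun a ha =>
    (ge_hasSum_ideal h a (hA0 a ha)).mul_left (f (Ideal.absNorm a : ℕ) * U (Ideal.absNorm a / T))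
  set tot : (Fin (Module.finrank ℚ K) → ℤ) → ℝ := fun v =>
    ∑ a ∈ A, f (Ideal.absNorm a : ℕ) * U (Ideal.absNorm a / T) *
      (if a * c = Ideal.span {e v} then ge_phi (mixedEmbedding K (e v : 𝓞 K)) else 0) with htot
  have hsum : ∀ s : ℤ, Summable (fun v => if 0 < s * Algebra.norm ℤ (e v) then tot v else 0) :=
    fun s => (key.summable.indicator {v | 0 < s * Algebra.norm ℤ (e v)}).congr fun v => by
      simp only [Set.indicator_apply, Set.mem_ofPred_eq]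
  unfold LS
  simp only [g_point h hU hT A hA 1 (Or.inl rfl) hg, g_point h hU hT A hA (-1) (Or.inr rfl) hg']
  rw [← (hsum 1).tsum_add (hsum (-1)), ← key.tsum_eq]
  refine tsum_congr fun v => ?_
  rcases lt_trichotomy 0 (Algebra.norm ℤ (e v)) with h1 | h1 | h1
  · rw [if_pos (by linarith), if_neg (by linarith), add_zero]
  · rw [if_neg (by linarith), if_neg (by linarith), add_zero]
    symm
    refine Finset.sum_eq_zero fun a ha => ?_
    rw [if_neg, mul_zero]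
    intro h2
    rw [Algebra.norm_eq_zero_iff.1 h1.symm, Ideal.span_singleton_eq_bot.2 rfl] at h2
    exact mul_ne_zero (hA0 a ha) h.ne h2
  · rw [if_neg (by linarith), if_pos (by linarith), zero_add]

end

/-- Sums over ideals as lattice sums, for arbitrary coefficients. -/
theorem geoC (K : Type) [Field K] [NumberField K] :
    ∃ (J : Type) (_ : Fintype J) (c : J → Ideal (𝓞 K))
      (e : J → (Fin (Module.finrank ℚ K) → ℤ) →+ 𝓞 K) (sg : J → ℤ) (ρ Λ₀ w : ℝ)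
      (Fm : J → (ℝ → ℝ) → (Fin (Module.finrank ℚ K) → ℝ) → ℝ),
      (∀ j, Lat (c j) (e j)) ∧ (∀ j, sg j = 1 ∨ sg j = -1) ∧ 1 ≤ Λ₀ ∧ 1 ≤ w ∧
      (∀ j Λ U, 1 ≤ Λ → Bump Λ U → Wt ρ (Λ₀ * Λ) (Fm j U)) ∧
      ∀ Λ U, Bump Λ U → ∀ T : ℝ, 0 < T → ∀ (f : ℤ → ℝ)
        (g : J → (Fin (Module.finrank ℚ K) → ℤ) → ℝ),
        (∀ j v (n : ℕ), Algebra.norm ℤ (e j v) = sg j * (Ideal.absNorm (c j) : ℕ) * n →
          g j v = f n) →
        w * ∑ n ∈ Finset.Ioc 0 ⌊2 * T⌋₊, cnt K n * f n * U (n / T) =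
          ∑ j, LS (g j) (Fm j U)
            ((Ideal.absNorm (c j) * T) ^ (1 / (Module.finrank ℚ K : ℝ))) := by
  classical
  choose c hc using ClassGroup.mk0_surjective (R := 𝓞 K)
  have hc0 : ∀ C, (c C : Ideal (𝓞 K)) ≠ ⊥ := fun C => nonZeroDivisors.coe_ne_zero (c C)
  choose e he using fun C => ge_exists_lat (c C : Ideal (𝓞 K)) (hc0 C)
  choose ρ Λ₀ hρ hΛ₀ hW using fun C => ge_Wt (he C)
  have hΛs : 0 ≤ ∑ C, Λ₀ C := Finset.sum_nonneg fun C _ => hΛ₀ C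
  refine ⟨ClassGroup (𝓞 K) × Bool, inferInstance, fun j => c j.1, fun j => e j.1,
    fun j => if j.2 then 1 else -1, ∑ C, ρ C, ∑ C, Λ₀ C + 1, Units.torsionOrder K,
    fun j U => ge_Fm (e j.1) (if j.2 then 1 else -1) U, fun j => he j.1, ?_, by linarith, ?_, ?_, ?_⟩
  · rintro ⟨C, b⟩
    cases b <;> simp
  · exact_mod_cast Units.torsionOrder_pos K
  · rintro ⟨C, b⟩ Λ U hΛ hU
    refine ge_Wt_mono (hW C _ (by cases b <;> simp) Λ U hΛ hU)
      (Finset.single_le_sum (fun C _ => hρ C) (Finset.mem_univ C)) ?_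
    have := Finset.single_le_sum (fun C _ => hΛ₀ C) (Finset.mem_univ C)
    exact mul_le_mul_of_nonneg_right (by linarith) (by linarith)
  · intro Λ U hU T hT f g hg
    let A : Finset (Ideal (𝓞 K)) :=
      (Ideal.finite_setOfPred_absNorm_le (S := 𝓞 K) ⌊2 * T⌋₊).toFinset.filter
        fun a => 0 < Ideal.absNorm a
    have hA : ∀ a, a ∈ A ↔ Ideal.absNorm a ∈ Finset.Ioc 0 ⌊2 * T⌋₊ := by
      intro a
      simp only [A, Finset.mem_filter, Set.Finite.mem_toFinset, Finset.mem_Ioc]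
      exact ⟨fun h => ⟨h.2, h.1⟩, fun h => ⟨h.2, h.1⟩⟩
    have h1 := ge_cnt_sum ⌊2 * T⌋₊ (fun n => f n * U (n / T)) A hA
    simp only [mul_assoc]
    rw [h1, Fintype.sum_prod_type]
    have h2 := fun C => g_class (he C) hU hT A hA (hg (C, true)) (hg (C, false))
    simp only [Fintype.sum_bool, if_true, Bool.false_eq_true, if_false, h2]
    rw [Finset.sum_comm, Finset.mul_sum]
    refine Finset.sum_congr rfl fun a ha => ?_
    have ha0 : a ∈ nonZeroDivisors (Ideal (𝓞 K)) :=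
      Ideal.absNorm_pos_iff_mem_nonZeroDivisors.1 (Finset.mem_Ioc.1 ((hA a).1 ha)).1
    have h3 : ∀ C, (∃ x : 𝓞 K, a * (c C : Ideal (𝓞 K)) = Ideal.span {x}) ↔
        C = (ClassGroup.mk0 ⟨a, ha0⟩)⁻¹ := by
      intro C
      rw [eq_comm, inv_eq_iff_eq_inv]
      conv_rhs => rw [← hc C]
      rw [ClassGroup.mk0_eq_mk0_inv_iff]
      constructor
      · rintro ⟨x, hx⟩
        refine ⟨x, ?_, hx⟩
        rintro rfl
        rw [Ideal.span_singleton_eq_bot.2 rfl] at hx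
        exact mul_ne_zero (nonZeroDivisors.ne_zero ha0) (hc0 C) hx
      · rintro ⟨x, _, hx⟩
        exact ⟨x, hx⟩
    simp only [h3]
    rw [← Finset.mul_sum, Finset.sum_ite_eq' Finset.univ, if_pos (Finset.mem_univ _), mul_comm]

end Pool.Agent.RT
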