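import Pool.Agent.Lib.MP_e97e2b_nt.RT.AnW
import Pool.Agent.Lib.MP_e97e2b_nt.Periodic

/- The trivial bound for `ψ ∘ norm` on an ideal lattice. -/

namespace Pool.Agent.RT

open NumberField Pool.Agent.Lib.MP_e97e2b_nt

variable {K : Type} [Field K] [NumberField K]

theorem p_sum {l : ℕ} (hl : l.Prime) [Fintype (RM K l)] (ψ : MulChar (ZMod l) ℂ) (y : 𝓞 K)
    (h0 : ψ ((Algebra.norm ℤ y : ℤ) : ZMod l) ≠ 0) (hy : ψ ((Algebra.norm ℤ y : ℤ) : ZMod l) ≠ 1) :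
    ∑ x : RM K l, etaC K ψ x = 0 := by
  have h1 : Nat.Coprime (Ideal.absNorm (Ideal.span {y})) l := by
    rw [Ideal.absNorm_span_singleton, Nat.coprime_comm, hl.coprime_iff_not_dvd]
    intro h2
    have := Fact.mk hl
    rw [(ZMod.intCast_zmod_eq_zero_iff_dvd _ l).2 (Int.natCast_dvd.2 h2), ψ.map_zero] at h0
    exact h0 rfl
  obtain ⟨z, hz, hz1⟩ := pe_surj (Ideal.span {y}) l h1 1
  obtain ⟨w, rfl⟩ := Ideal.mem_span_singleton'.mp hz
  rw [map_mul] at hz1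
  have hu : IsUnit (Ideal.Quotient.mk (Ideal.span {(l : 𝓞 K)}) y) :=
    IsUnit.of_mul_eq_one_right _ hz1
  have h4 : ∑ x : RM K l, etaC K ψ (Ideal.Quotient.mk _ y * x) = ∑ x : RM K l, etaC K ψ x :=
    Function.Bijective.sum_comp (IsUnit.isUnit_iff_mulLeft_bijective.mp hu) _
  simp only [etaC_mul, etaC_mk, ← Finset.mul_sum] at h4
  exact (mul_left_eq_self₀.1 h4).resolve_left hy

theorem periodic_latC (c : Ideal (𝓞 K)) (e : (Fin (Module.finrank ℚ K) → ℤ) →+ 𝓞 K)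
    (he : Lat c e) (ρ : ℝ) : ∃ (C : ℝ) (l0 : ℕ), ∀ l : ℕ, l.Prime → l0 < l →
    ∀ ψ : MulChar (ZMod l) ℂ, ψ ≠ 1 → ∀ u : ℂ, ‖u‖ ≤ 1 →
    ∀ (Λ : ℝ) (F : (Fin (Module.finrank ℚ K) → ℝ) → ℝ), 1 ≤ Λ → Wt ρ Λ F → ∀ H : ℝ, 1 ≤ H →
    |LS (fun v => rc ψ u (Algebra.norm ℤ (e v))) F H| ≤
      C * Λ * l * (H ^ Module.finrank ℚ K / H) := by
  obtain ⟨C, hC⟩ := LS_periodic (ι := Fin (Module.finrank ℚ K)) ρ
  obtain ⟨l0, hl0⟩ := exists_psi_norm (K := K)
  refine ⟨C, max l0 (Ideal.absNorm c), fun M hM hlt ψ hψ u hu Λ F hΛ hF H hH => ?_⟩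
  obtain ⟨y, hy0, hy⟩ := hl0 M hM ((le_max_left _ _).trans_lt hlt) ψ hψ
  have hcop : Nat.Coprime (Ideal.absNorm c) M :=
    (Nat.coprime_of_lt_prime (Ideal.absNorm_eq_zero_iff.not.mpr he.ne)
      ((le_max_right _ _).trans_lt hlt) hM).symm
  have hper : ∀ v w : Fin (Module.finrank ℚ K) → ℤ, (∀ i, (M : ℤ) ∣ v i - w i) →
      (Ideal.Quotient.mk _ (e v) : RM K M) = Ideal.Quotient.mk _ (e w) := by
    intro v w h
    choose u hu using h
    have h4 : v - w = M • u := funext fun i => by simpa using hu i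
    rw [Ideal.Quotient.eq, ← map_sub, h4, map_nsmul, nsmul_eq_mul]
    exact Ideal.mul_mem_right _ _ (Ideal.mem_span_singleton_self _)
  have h5 := hC Λ F hΛ hF H hH M hM.pos (fun v => rc ψ u (Algebra.norm ℤ (e v)))
    (fun v => abs_rc_le _ hu _) (fun v w h => by rw [rc, rc, ← etaC_mk, ← etaC_mk, hper v w h]) ?_
  · rwa [Fintype.card_fin] at h5
  · have hs : Function.Surjective fun s : Fin (Module.finrank ℚ K) → Fin M =>
        (Ideal.Quotient.mk _ (e fun i => ((s i : ℕ) : ℤ)) : RM K M) := by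
      intro x
      obtain ⟨z, hz, rfl⟩ := pe_surj c M hcop x
      obtain ⟨v, rfl⟩ := (he.mem z).mp hz
      obtain ⟨⟨s, w⟩, rfl⟩ := (la_bij M hM.pos).2 v
      exact ⟨s, (hper _ _ fun i => by simp).symm⟩
    have hb := hs.bijective_of_nat_card_le (by simp [card_RM])
    have : Finite (RM K M) := Finite.of_surjective _ hs
    have := Fintype.ofFinite (RM K M)
    have h6 := p_sum hM ψ y hy0 hy
    rw [← hb.sum_comp] at h6
    simp only [etaC_mk] at h6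
    simp only [finsum_eq_sum_of_fintype, rc, ← Complex.re_sum, ← Finset.mul_sum, h6, mul_zero,
      Complex.zero_re]

end Pool.Agent.RT
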