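import Pool.Agent.Lib.MP_e97e2b_nt.RT.AnB
import Pool.Agent.Lib.MP_e97e2b_nt.RT.AnP
import Pool.Agent.Lib.MP_e97e2b_nt.RT.AnG
import Pool.Agent.Lib.MP_e97e2b_nt.Sharp

/- Sharp sums over ideals for complex characters. -/

namespace Pool.Agent.RT

open NumberField Pool.Agent.Lib.MP_e97e2b_nt

lemma c_unit {l N : ℕ} (hl : l.Prime) (hN : (1 : ℝ) ≤ N) (hNl : N < l) {s : ℤ}
    (hs : s = 1 ∨ s = -1) (ψ : MulChar (ZMod l) ℂ) : ‖ψ ((s * N : ℤ) : ZMod l)‖ = 1 := by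
  have h1 : IsUnit ((N : ℕ) : ZMod l) := (ZMod.isUnit_iff_coprime N l).2 (sh_coprime hN hl hNl)
  have h2 : IsUnit ((s * N : ℤ) : ZMod l) := by
    rcases hs with rfl | rfl
    · simpa using h1
    · simpa using h1.neg
  obtain ⟨a, ha⟩ := h2
  rw [← ha]
  exact DirichletCharacter.unit_norm_eq_one ψ a

lemma c_norm {z u : ℂ} (hz : ‖z‖ = 1) (hu : ‖u‖ ≤ 1) : ‖u * z⁻¹‖ ≤ 1 := by
  rwa [norm_mul, norm_inv, hz, inv_one, mul_one]

lemma c_rc {l : ℕ} (ψ : MulChar (ZMod l) ℂ) (u : ℂ) {a : ℤ} (ha : ‖ψ (a : ZMod l)‖ = 1) (n : ℤ) :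
    rc ψ (u * (ψ (a : ZMod l))⁻¹) (a * n) = rc ψ u n := by
  have h0 : ψ (a : ZMod l) ≠ 0 := fun h => by simp [h] at ha
  rw [rc, rc, Int.cast_mul, map_mul, mul_assoc, inv_mul_cancel_left₀ h0]

variable (K : Type) [Field K] [NumberField K]

lemma c_per : ∃ (C : ℝ) (l0 : ℕ), 0 ≤ C ∧ ∀ l : ℕ, l.Prime → l0 < l →
    ∀ ψ : MulChar (ZMod l) ℂ, ψ ≠ 1 → ∀ u : ℂ, ‖u‖ ≤ 1 → ∀ Λ U, 1 ≤ Λ → Bump Λ U →
    ∀ T : ℝ, 1 ≤ T → |sh_S K (rc ψ u) U T| ≤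
      C * l * (Λ * T ^ (1 - 1 / (Module.finrank ℚ K : ℝ))) := by
  obtain ⟨J, _, c, e, sg, ρ, Λ₀, w, Fm, hlat, hsg, hΛ₀, hw, hwt, hgeo⟩ := geoC K
  choose C l0 hC using fun j => periodic_latC (c j) (e j) (hlat j) ρ
  refine ⟨∑ j, |C j| * Λ₀ * (Ideal.absNorm (c j) : ℕ),
    ∑ j, (l0 j + Ideal.absNorm (c j)), Finset.sum_nonneg fun j _ => by positivity,
    fun l hl hl0 ψ hψ u hu Λ U hΛ hU T hT => ?_⟩
  have hle : ∀ j, l0 j + Ideal.absNorm (c j) ≤ ∑ j, (l0 j + Ideal.absNorm (c j)) := fun j =>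
    Finset.single_le_sum (f := fun j => l0 j + Ideal.absNorm (c j)) (fun _ _ => Nat.zero_le _)
      (Finset.mem_univ j)
  have hun : ∀ j, ‖ψ ((sg j * (Ideal.absNorm (c j) : ℕ) : ℤ) : ZMod l)‖ = 1 := fun j =>
    c_unit hl (sh_norm_ge K (hlat j)) (by have := hle j; omega) (hsg j) ψ
  have h1 := hgeo Λ U hU T (by linarith) (rc ψ u)
    (fun j v => rc ψ (u * (ψ ((sg j * (Ideal.absNorm (c j) : ℕ) : ℤ) : ZMod l))⁻¹)
      (Algebra.norm ℤ (e j v))) fun j v n h => by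
      rw [h]; exact c_rc ψ u (hun j) n
  apply sh_div_w hw
  unfold sh_S
  rw [h1, Finset.sum_mul, Finset.sum_mul]
  refine (Finset.abs_sum_le_sum_abs _ _).trans (Finset.sum_le_sum fun j _ => ?_)
  have hN := sh_norm_ge K (hlat j)
  obtain ⟨g1, -, g3⟩ := sh_pow_H K hN hT
  have h3 := hC j l hl (by have := hle j; omega) ψ hψ _ (c_norm (hun j) hu) (Λ₀ * Λ) (Fm j U)
    (by nlinarith) (hwt j Λ U hΛ hU) _ g1
  refine h3.trans ?_
  have h4 : C j * (Λ₀ * Λ) * l ≤ |C j| * (Λ₀ * Λ) * l := by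
    gcongr
    exact le_abs_self _
  refine (mul_le_mul h4 g3 (by positivity) (by positivity)).trans (le_of_eq ?_)
  ring

lemma c_sharp1 : ∃ (C : ℝ) (l0 : ℕ), ∀ l : ℕ, l.Prime → l0 < l →
    ∀ ψ : MulChar (ZMod l) ℂ, ψ ≠ 1 → ∀ u : ℂ, ‖u‖ ≤ 1 → ∀ x : ℝ, 1 ≤ x →
    |Sm (tw (cnt K) fun n => rc ψ u n) x| ≤
      C * l * x ^ (1 - 1 / (2 * (Module.finrank ℚ K : ℝ))) := by
  obtain ⟨C, hC0, hC⟩ := sh_key K
  obtain ⟨C2, l0, hC20, hC2⟩ := c_per K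
  have hκ := dedekindZeta_residue_pos K
  set κ := dedekindZeta_residue K
  refine ⟨4 * (κ + 8 * C + 4 * C2), l0, fun M hM hl0 ψ hψ u hu x hx => ?_⟩
  have hM1 : (1 : ℝ) ≤ M := by exact_mod_cast hM.one_le
  have h := sh_dyadic (fun x => Sm (tw (cnt K) fun n => rc ψ u n) x) (T0 := 1) (B := 0)
    (C := (κ + 8 * C + 4 * C2) * M) one_pos (by positivity) (sh_beta K) ?_ ?_ x (by linarith)
  · refine h.trans (le_of_eq ?_)
    ring
  · intro y _ hy1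
    rw [sh_Sm_small _ hy1, abs_zero]
  · intro T hT
    obtain ⟨dl, h1, h2, h3, h4⟩ := sh_param K hT
    obtain ⟨g1, g2⟩ := hC T hT dl h1 h2
    have hΛ : 1 ≤ 1 / dl := by rw [le_div_iff₀ h1]; linarith
    have g3 := hC2 M hM hl0 ψ hψ u hu (1 / dl) _ hΛ (sh_trap_bump (a := 1 / 2) (b := 1) h1
      (by norm_num) (by norm_num)) T hT
    have g4 := sh_cmp K (rc ψ u) (abs_rc_le ψ hu) h1 (T := T) (by linarith)
    rw [mul_assoc C, h4] at g1 g2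
    rw [h4] at g3
    have e1 : κ * T * (1 / 2 + 2 * dl) = κ * T / 2 + 2 * κ * (T * dl) := by ring
    have e2 : κ * T * (1 / 2 - 2 * dl) = κ * T / 2 - 2 * κ * (T * dl) := by ring
    rw [e1, h3] at g1
    rw [e2, h3] at g2
    have hp : 0 ≤ (κ + 8 * C) * T ^ (1 - 1 / (2 * (Module.finrank ℚ K : ℝ))) := by positivity
    have g5 := mul_le_mul_of_nonneg_left hM1 hp
    rw [abs_le] at g3 g4 ⊢
    constructor <;> linarith [g3.1, g3.2, g4.1, g4.2]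

lemma c_bur (m : ℕ) (hm : 2 ≤ m) (ε : ℝ) (hε : 0 < ε) : ∃ (δ C : ℝ) (l0 : ℕ), 0 < δ ∧ 0 ≤ C ∧
    ∀ l : ℕ, l.Prime → l0 < l → m ∣ l - 1 → ∀ ψ : MulChar (ZMod l) ℂ, ψ ≠ 1 → ψ ^ m = 1 →
    ∀ u : ℂ, ‖u‖ ≤ 1 → ∀ Λ U, 1 ≤ Λ → Bump Λ U →
    ∀ T : ℝ, (l : ℝ) ^ ((Module.finrank ℚ K : ℝ) / 4 + ε) ≤ T → |sh_S K (rc ψ u) U T| ≤
      C * Λ * T * (l : ℝ) ^ (-δ) := by
  obtain ⟨J, _, c, e, sg, ρ, Λ₀, w, Fm, hlat, hsg, hΛ₀, hw, hwt, hgeo⟩ := geoC K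
  have hd : (0 : ℝ) < Module.finrank ℚ K := by exact_mod_cast sh_d_pos K
  choose δ C l0 hδ hC using fun j => burgess_latC (c j) (e j) (hlat j) ρ
    (ε / Module.finrank ℚ K) (by positivity) m hm
  obtain ⟨δ0, hδ0, hδ1⟩ : ∃ δ0 : ℝ, 0 < δ0 ∧ ∀ j, δ0 ≤ δ j := by
    refine ⟨1 / (1 + ∑ j, 1 / δ j), ?_, fun j => ?_⟩
    · have : 0 ≤ ∑ j, 1 / δ j := Finset.sum_nonneg fun j _ => (one_div_pos.2 (hδ j)).le
      positivity
    · have h1 : 1 / δ j ≤ ∑ j, 1 / δ j :=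
        Finset.single_le_sum (f := fun j => 1 / δ j) (fun j _ => (one_div_pos.2 (hδ j)).le)
          (Finset.mem_univ j)
      have h2 := one_div_le_one_div_of_le (one_div_pos.2 (hδ j))
        (show 1 / δ j ≤ 1 + ∑ j, 1 / δ j by linarith)
      rwa [one_div_one_div] at h2
  refine ⟨δ0, ∑ j, |C j| * Λ₀ * (Ideal.absNorm (c j) : ℕ),
    ∑ j, (l0 j + Ideal.absNorm (c j)), hδ0, Finset.sum_nonneg fun j _ => by positivity,
    fun l hl hl0 hml ψ hψ hψm u hu Λ U hΛ hU T hT => ?_⟩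
  have hle : ∀ j, l0 j + Ideal.absNorm (c j) ≤ ∑ j, (l0 j + Ideal.absNorm (c j)) := fun j =>
    Finset.single_le_sum (f := fun j => l0 j + Ideal.absNorm (c j)) (fun _ _ => Nat.zero_le _)
      (Finset.mem_univ j)
  have hun : ∀ j, ‖ψ ((sg j * (Ideal.absNorm (c j) : ℕ) : ℤ) : ZMod l)‖ = 1 := fun j =>
    c_unit hl (sh_norm_ge K (hlat j)) (by have := hle j; omega) (hsg j) ψ
  have hl1 : (1 : ℝ) ≤ l := by exact_mod_cast hl.one_le
  have hT1 : 1 ≤ T := (Real.one_le_rpow hl1 (by positivity)).trans hT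
  have h1 := hgeo Λ U hU T (by linarith) (rc ψ u)
    (fun j v => rc ψ (u * (ψ ((sg j * (Ideal.absNorm (c j) : ℕ) : ℤ) : ZMod l))⁻¹)
      (Algebra.norm ℤ (e j v))) fun j v n h => by
      rw [h]; exact c_rc ψ u (hun j) n
  apply sh_div_w hw
  unfold sh_S
  rw [h1, Finset.sum_mul, Finset.sum_mul, Finset.sum_mul]
  refine (Finset.abs_sum_le_sum_abs _ _).trans (Finset.sum_le_sum fun j _ => ?_)
  have hN := sh_norm_ge K (hlat j)
  obtain ⟨-, g2, -⟩ := sh_pow_H K hN hT1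
  have g1 : (l : ℝ) ^ (1 / 4 + ε / Module.finrank ℚ K) ≤
      (((Ideal.absNorm (c j) : ℕ) : ℝ) * T) ^ (1 / (Module.finrank ℚ K : ℝ)) := by
    have e1 : (1 / 4 + ε / Module.finrank ℚ K) =
        ((Module.finrank ℚ K : ℝ) / 4 + ε) * (1 / (Module.finrank ℚ K : ℝ)) := by
      field_simp
    rw [e1, Real.rpow_mul (by positivity)]
    exact Real.rpow_le_rpow (by positivity) (by nlinarith) (by positivity)
  have h3 := hC j l hl (by have := hle j; omega) hml ψ hψ hψm _ (c_norm (hun j) hu) (Λ₀ * Λ)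
    (Fm j U) (by nlinarith) (hwt j Λ U hΛ hU) _ g1
  refine h3.trans ?_
  rw [g2]
  have h4 : C j * (Λ₀ * Λ) * (((Ideal.absNorm (c j) : ℕ) : ℝ) * T) ≤
      |C j| * (Λ₀ * Λ) * (((Ideal.absNorm (c j) : ℕ) : ℝ) * T) := by
    gcongr
    exact le_abs_self _
  have h5 : (l : ℝ) ^ (-δ j) ≤ (l : ℝ) ^ (-δ0) :=
    Real.rpow_le_rpow_of_exponent_le hl1 (by have := hδ1 j; linarith)
  refine (mul_le_mul h4 h5 (by positivity) (by positivity)).trans (le_of_eq ?_)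
  ring

lemma c_sharp2 (m : ℕ) (hm : 2 ≤ m) (ε : ℝ) (hε : 0 < ε) : ∃ (δ C : ℝ) (l0 : ℕ), 0 < δ ∧
    ∀ l : ℕ, l.Prime → l0 < l → m ∣ l - 1 → ∀ ψ : MulChar (ZMod l) ℂ, ψ ≠ 1 → ψ ^ m = 1 →
    ∀ z : ℂ, ‖z‖ ≤ 1 → ∀ x : ℝ, (l : ℝ) ^ ((Module.finrank ℚ K : ℝ) / 4 + ε) ≤ x →
    |Sm (tw (cnt K) fun n => rc ψ z n) x| ≤ C * x * (l : ℝ) ^ (-δ) := by
  obtain ⟨C, hC0, hC⟩ := sh_key K
  obtain ⟨δ, C3, l0, hδ, hC30, hC3⟩ := c_bur K m hm (ε / 2) (by positivity)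
  obtain ⟨C5, hC50, hC5⟩ := sh_lin K
  have hκ := dedekindZeta_residue_pos K
  set κ := dedekindZeta_residue K
  have hd : (0 : ℝ) < Module.finrank ℚ K := by exact_mod_cast sh_d_pos K
  obtain ⟨η, hη0, hη1, hη2, hη3⟩ : ∃ η : ℝ, 0 < η ∧ 2 * η ≤ δ ∧ 2 * η ≤ 1 / 4 ∧ η ≤ ε / 2 := by
    refine ⟨min (δ / 2) (min (1 / 8) (ε / 2)), by positivity, ?_, ?_, ?_⟩
    · have := min_le_left (δ / 2) (min (1 / 8) (ε / 2)); linarith
    · have := (min_le_right (δ / 2) (min (1 / 8) (ε / 2))).trans (min_le_left _ _); linarith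
    · exact (min_le_right _ _).trans (min_le_right _ _)
  refine ⟨η, C5 + 4 * (κ + 8 * C + 4 * C3), l0, hη0, fun l hl hl0 hml ψ hψ hψm z hz x hx => ?_⟩
  have hl1 : (1 : ℝ) ≤ l := by exact_mod_cast hl.one_le
  have hlp : (0 : ℝ) < l := by linarith
  set u : ℝ := (l : ℝ) ^ (-η) with hu
  have hu0 : 0 < u := by positivity
  have hu1 : u ≤ 1 := Real.rpow_le_one_of_one_le_of_nonpos hl1 (by linarith)
  have huu : ∀ a : ℝ, 2 * η ≤ a → (l : ℝ) ^ (-a) ≤ u * u := fun a ha => by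
    rw [hu, ← Real.rpow_add hlp]
    exact Real.rpow_le_rpow_of_exponent_le hl1 (by linarith)
  set T0 : ℝ := (l : ℝ) ^ ((Module.finrank ℚ K : ℝ) / 4 + ε / 2) with hT0
  have hT01 : 1 ≤ T0 := Real.one_le_rpow hl1 (by positivity)
  have hx0 : 0 ≤ x := le_trans (by positivity) hx
  have h := sh_dyadic (fun x => Sm (tw (cnt K) fun n => rc ψ z n) x) (T0 := T0) (B := C5 * T0)
    (C := (κ + 8 * C + 4 * C3) * u) (β := 1) (by linarith) (by positivity) (by norm_num)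
    ?_ ?_ x hx0
  · rw [Real.rpow_one] at h
    have h1 : T0 ≤ x * u := by
      have e : T0 = (l : ℝ) ^ ((Module.finrank ℚ K : ℝ) / 4 + ε) * (l : ℝ) ^ (-(ε / 2)) := by
        rw [hT0, ← Real.rpow_add hlp]
        congr 1
        ring
      rw [e]
      exact mul_le_mul hx (Real.rpow_le_rpow_of_exponent_le hl1 (by linarith)) (by positivity) hx0
    have h2 := mul_le_mul_of_nonneg_left h1 hC50
    refine h.trans ?_
    linarith
  · intro y hy0 hy1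
    exact (hC5 _ (fun n => abs_rc_le ψ hz n) y hy0).trans (mul_le_mul_of_nonneg_left hy1.le hC50)
  · intro T hT
    have hT1 : 1 ≤ T := hT01.trans hT
    have hTp : 0 < T := by linarith
    obtain ⟨g1, g2⟩ := hC T hT1 (u / 4) (by positivity) (by linarith)
    have hΛ : 1 ≤ 1 / (u / 4) := by rw [le_div_iff₀ (by positivity)]; linarith
    have g3 := hC3 l hl hl0 hml ψ hψ hψm z hz (1 / (u / 4)) _ hΛ
      (sh_trap_bump (a := 1 / 2) (b := 1) (by positivity) (by norm_num) (by norm_num)) T hT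
    have g4 := sh_cmp K (rc ψ z) (abs_rc_le ψ hz) (dl := u / 4) (by positivity) (T := T) hTp
    have g5 : T ^ (1 - 1 / (Module.finrank ℚ K : ℝ)) ≤ T * (u * u) := by
      rw [sub_eq_add_neg, Real.rpow_add hTp, Real.rpow_one]
      refine mul_le_mul_of_nonneg_left (le_trans ?_ (huu (1 / 4) hη2)) hTp.le
      have h1 : (l : ℝ) ^ ((Module.finrank ℚ K : ℝ) / 4) ≤ T :=
        (Real.rpow_le_rpow_of_exponent_le hl1 (by linarith)).trans hT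
      have h2 := Real.rpow_le_rpow_of_nonpos (by positivity) h1
        (z := -(1 / (Module.finrank ℚ K : ℝ))) (by simp)
      refine h2.trans (le_of_eq ?_)
      rw [← Real.rpow_mul hlp.le]
      congr 1
      field_simp
    have g6 : C * (1 / (u / 4)) * T ^ (1 - 1 / (Module.finrank ℚ K : ℝ)) ≤ 4 * C * u * T := by
      refine (mul_le_mul_of_nonneg_left g5 (by positivity)).trans (le_of_eq ?_)
      field_simp
    have g7 : C3 * (1 / (u / 4)) * T * (l : ℝ) ^ (-δ) ≤ 4 * C3 * u * T := by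
      refine (mul_le_mul_of_nonneg_left (huu δ hη1) (by positivity)).trans (le_of_eq ?_)
      field_simp
    have g8 := g3.trans g7
    rw [Real.rpow_one]
    rw [abs_le] at g8 g4 ⊢
    constructor <;> linarith [g8.1, g8.2, g4.1, g4.2]

theorem canC (K : Type) [Field K] [NumberField K] (m : ℕ) (hm : 2 ≤ m) (ε : ℝ) (hε : 0 < ε) :
    ∃ (δ C : ℝ) (l0 : ℕ), 0 < δ ∧ ∀ l : ℕ, l.Prime → l0 < l → m ∣ l - 1 →
    ∀ ψ : MulChar (ZMod l) ℂ, ψ ≠ 1 → ψ ^ m = 1 → ∀ u : ℂ, ‖u‖ ≤ 1 →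
    Can (cnt K) (fun n => rc ψ u n) C (1 / (2 * (Module.finrank ℚ K : ℝ))) δ
      ((Module.finrank ℚ K : ℝ) / 4 + ε) l := by
  obtain ⟨C1, l1, h1⟩ := c_sharp1 K
  obtain ⟨δ, C2, l2, hδ, h2⟩ := c_sharp2 K m hm ε hε
  refine ⟨δ, max C1 C2, l1 + l2, hδ, fun l hl hl0 hml ψ hψ hψm u hu =>
    ⟨fun n => abs_rc_le ψ hu n, fun x hx => ?_, fun x hx => ?_⟩⟩
  · refine (h1 l hl (by omega) ψ hψ u hu x hx).trans ?_
    have : 0 ≤ x := by linarith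
    gcongr
    exact le_max_left _ _
  · refine (h2 l hl (by omega) hml ψ hψ hψm u hu x hx).trans ?_
    have : 0 ≤ x := le_trans (by positivity) hx
    gcongr
    exact le_max_right _ _

end Pool.Agent.RT
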