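import Pool.Agent.Lib.MP_e97e2b_nt.RT.An0
import Pool.Agent.Lib.MP_e97e2b_nt.Euler

/- The Euler product of the product of all twists. -/

namespace Pool.Agent.RT

open NumberField IsDedekindDomain Pool.Agent.Lib.MP_e97e2b_nt ArithmeticFunction Finset

/-- The complex twist by a completely multiplicative function. -/
noncomputable def e1_T (φ : ℕ →* ℂ) : ArithmeticFunction ℝ →* ArithmeticFunction ℂ where
  toFun a := ⟨fun n => (a n : ℂ) * φ n, by simp⟩
  map_one' := by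
    ext n
    change ((1 : ArithmeticFunction ℝ) n : ℂ) * φ n = _
    rw [ArithmeticFunction.one_apply, ArithmeticFunction.one_apply]
    split_ifs with hn
    · simp [hn]
    · simp
  map_mul' f g := by
    ext n
    change ((f * g) n : ℂ) * φ n = _
    rw [ArithmeticFunction.mul_apply, ArithmeticFunction.mul_apply, Complex.ofReal_sum, sum_mul]
    refine sum_congr rfl fun p hp => ?_
    change _ = (f p.1 : ℂ) * φ p.1 * ((g p.2 : ℂ) * φ p.2)
    rw [← (Nat.mem_divisorsAntidiagonal.1 hp).1, map_mul, Complex.ofReal_mul]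
    ring

lemma e1_T_apply (φ : ℕ →* ℂ) (a : ArithmeticFunction ℝ) (n : ℕ) :
    e1_T φ a n = (a n : ℂ) * φ n := rfl

/-- The complex geometric series. -/
noncomputable def e1_geo (c : ℂ) : PowerSeries ℂ := PowerSeries.mk fun k => c ^ k

/-- The complex local factor. -/
noncomputable def e1_G (q : ℕ) (c : ℂ) : ArithmeticFunction ℂ := ofPowerSeries q (e1_geo c)

lemma e1_T_G (φ : ℕ →* ℂ) {q : ℕ} (hq : 1 < q) : e1_T φ (eu_G q 1) = e1_G q (φ q) := by
  ext n
  rw [e1_T_apply, eu_G, e1_G]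
  by_cases hn : ∃ k, q ^ k = n
  · obtain ⟨k, rfl⟩ := hn
    rw [ofPowerSeries_apply_pow hq, ofPowerSeries_apply_pow hq, map_pow]
    simp [eu_geo, e1_geo]
  · rw [eu_of_not_pow hq _ hn, ofPowerSeries_apply hq, Function.extend_apply' _ _ _ hn]
    simp

lemma e1_geo_mul (c : ℂ) : e1_geo c * (1 - PowerSeries.C c * PowerSeries.X) = 1 := by
  ext k
  rw [mul_sub, mul_one, mul_left_comm, map_sub, PowerSeries.coeff_C_mul]
  cases k with
  | zero => simp [e1_geo]
  | succ k => simp [e1_geo, PowerSeries.coeff_succ_mul_X, PowerSeries.coeff_one, pow_succ']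

lemma e1_G_zero (q : ℕ) : e1_G q 0 = 1 := by
  have h := e1_geo_mul 0
  rw [_root_.map_zero, zero_mul, sub_zero, mul_one] at h
  rw [e1_G, h, map_one]

lemma e1_X_pow (q : ℕ) {f : ℕ} (hf : f ≠ 0) :
    ofPowerSeries (q ^ f) (PowerSeries.X : PowerSeries ℂ) =
      ofPowerSeries q (PowerSeries.X ^ f : PowerSeries ℂ) := by
  rw [ofPowerSeries_pow q hf, PowerSeries.subst_X (PowerSeries.HasSubst.X_pow hf)]

lemma e1_root {z : ℂ} {f : ℕ} (hf : 0 < f) (hz : IsPrimitiveRoot z f) (q : ℕ) :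
    ∏ i ∈ range f, e1_G q (z ^ i) = e1_G (q ^ f) 1 := by
  have h1 := congrArg (Polynomial.eval 1) (X_pow_sub_C_eq_prod
    (hz.map_of_injective (PowerSeries.C_injective (R := ℂ))) hf
    (rfl : (PowerSeries.X : PowerSeries ℂ) ^ f = _))
  simp only [Polynomial.eval_sub, Polynomial.eval_pow, Polynomial.eval_X, one_pow,
    Polynomial.eval_C, Polynomial.eval_prod] at h1
  have h2 : (∏ i ∈ range f, e1_geo (z ^ i)) * (1 - PowerSeries.X ^ f) = 1 := by
    rw [h1, ← prod_mul_distrib]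
    exact prod_eq_one fun i _ => by rw [← map_pow, e1_geo_mul]
  have h3 := congrArg (ofPowerSeries q) h2
  have h4 := congrArg (ofPowerSeries (q ^ f)) (e1_geo_mul 1)
  rw [map_mul, map_prod, map_sub, map_one] at h3
  rw [map_one, one_mul, map_mul, map_sub, map_one, e1_X_pow q hf.ne'] at h4
  exact left_inv_eq_right_inv h3 ((mul_comm _ _).trans h4)

lemma e1_local {z : ℂ} {m : ℕ} (hm : 0 < m) (hz : z = 0 ∨ z ^ m = 1) (q : ℕ) :
    ∃ f e : ℕ, (1 ≤ f ∧ e ≤ m ∧ (z ≠ 0 → z ≠ 1 → 2 ≤ f)) ∧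
      ∏ i ∈ range m, e1_G q (z ^ i) = e1_G (q ^ f) 1 ^ e := by
  rcases hz with rfl | hz
  · obtain ⟨m, rfl⟩ := Nat.exists_eq_succ_of_ne_zero hm.ne'
    refine ⟨1, 1, ⟨le_rfl, hm, fun h => absurd rfl h⟩, ?_⟩
    rw [prod_range_succ', prod_eq_one fun i _ => by rw [zero_pow i.succ_ne_zero, e1_G_zero]]
    simp
  · obtain ⟨e, he⟩ := orderOf_dvd_of_pow_eq_one hz
    have hf : 0 < orderOf z := Nat.pos_of_ne_zero fun h => by rw [h] at he; omega
    refine ⟨orderOf z, e, ⟨hf, he ▸ Nat.le_mul_of_pos_left e hf, fun _ h1 => ?_⟩, ?_⟩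
    · by_contra h2
      exact h1 (orderOf_eq_one_iff.1 (by omega))
    · rw [he, ← e1_root hf (IsPrimitiveRoot.orderOf z) q]
      clear he
      induction e with
      | zero => simp
      | succ e ih =>
        rw [Nat.mul_succ, prod_range_add, ih, pow_succ]
        simp only [pow_add, pow_mul, pow_orderOf_eq_one, one_pow, one_mul]

lemma e1_anW (a : ArithmeticFunction ℝ) {c s : ℕ → ℝ} {φ ψ : ℕ →* ℂ}
    (hc : ∀ n, c n = (φ n).re) (hs : ∀ n, s n = (φ n).im)
    (hψ : ∀ n, ψ n = starRingEnd ℂ (φ n)) : e1_T 1 (anW a c s) = e1_T φ a * e1_T ψ a := by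
  have h1 : e1_T φ a = e1_T 1 (tw a c) + Complex.I • e1_T 1 (tw a s) := by
    ext n
    rw [ArithmeticFunction.add_apply, smul_map]
    apply Complex.ext <;> simp [e1_T_apply, hc, hs]
  have h2 : e1_T ψ a = e1_T 1 (tw a c) - Complex.I • e1_T 1 (tw a s) := by
    rw [eq_sub_iff_add_eq]
    ext n
    rw [ArithmeticFunction.add_apply, smul_map]
    apply Complex.ext <;> simp [e1_T_apply, hc, hs, hψ]
  have h3 : (Complex.I • e1_T 1 (tw a s)) * (Complex.I • e1_T 1 (tw a s)) =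
      -(e1_T 1 (tw a s) * e1_T 1 (tw a s)) := by
    rw [smul_mul_smul_comm, Complex.I_mul_I, neg_smul, one_smul]
  have h4 : e1_T 1 (anW a c s) = e1_T 1 (tw a c * tw a c) + e1_T 1 (tw a s * tw a s) := by
    ext n
    simp [anW, e1_T_apply]
  rw [h4, h1, h2, map_mul, map_mul]
  linear_combination h3

lemma e1_reindex {M : Type} [CommMonoid M] (g : ℕ → M) (k : ℕ) :
    g 0 * (g (k + 1) * ∏ j ∈ range k, g (j + 1) * g (2 * k + 1 - j)) =
      ∏ i ∈ range (2 * k + 2), g i := by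
  have h : ∏ j ∈ range k, g (2 * k + 1 - j) = ∏ j ∈ range k, g (k + 1 + j + 1) := by
    rw [← prod_range_reflect]
    exact prod_congr rfl fun j hj => congrArg g (by have := mem_range.1 hj; omega)
  rw [prod_range_succ', show 2 * k + 1 = k + 1 + k by ring, prod_range_add, prod_range_succ,
    prod_mul_distrib, show k + 1 + k = 2 * k + 1 by ring, h]
  ac_rfl

/-- The powers of a character as functions on the natural numbers. -/
noncomputable def e1_h {l : ℕ} (χ : MulChar (ZMod l) ℂ) (j : ℕ) : ℕ →* ℂ :=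
  (powMonoidHom j).comp (χ.toMonoidHom.comp (Nat.castRingHom (ZMod l)).toMonoidHom)

lemma e1_h_apply {l : ℕ} (χ : MulChar (ZMod l) ℂ) (j n : ℕ) : e1_h χ j n = χ n ^ j := rfl

lemma e1_cases {l k : ℕ} {χ : MulChar (ZMod l) ℂ} (hχ : Chr l k χ) (x : ZMod l) :
    χ x = 0 ∨ χ x ^ (2 * k + 2) = 1 := by
  by_cases hx : IsUnit x
  · right
    rw [← χ.pow_apply' (by omega), hχ.pw, MulChar.one_apply hx]
  · exact Or.inl (χ.map_nonunit hx)

lemma e1_conj {z : ℂ} {a b : ℕ} (ha : a ≠ 0) (hb : b ≠ 0) (hz : z = 0 ∨ z ^ (a + b) = 1) :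
    z ^ b = starRingEnd ℂ (z ^ a) := by
  rcases hz with rfl | hz
  · rw [zero_pow ha, zero_pow hb, _root_.map_zero]
  · have h1 : ‖z‖ = 1 := Complex.norm_eq_one_of_pow_eq_one hz (by omega)
    rw [← Complex.inv_eq_conj (by rw [norm_pow, h1, one_pow])]
    exact eq_inv_of_mul_eq_one_right (by rw [← pow_add, hz])

lemma e1_chF (K : Type) [Field K] [NumberField K] {l k : ℕ} {χ : MulChar (ZMod l) ℂ}
    (hχ : Chr l k χ) :
    e1_T 1 (chF K l k χ) = ∏ i ∈ range (2 * k + 2), e1_T (e1_h χ i) (cnt K) := by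
  rw [← e1_reindex fun i => e1_T (e1_h χ i) (cnt K), chF, anF, map_mul, map_mul, map_prod]
  refine congrArg₂ (· * ·) ?_ (congrArg₂ (· * ·) ?_ ?_)
  · ext n
    simp [e1_T_apply, e1_h_apply]
  · ext n
    have h := hχ.half n
    rw [Int.cast_natCast, χ.pow_apply' k.succ_ne_zero] at h
    simp [e1_T_apply, e1_h_apply, h]
  · refine prod_congr rfl fun j hj => e1_anW _ (fun n => ?_) (fun n => ?_) fun n => ?_
    · simp [rc, e1_h_apply, χ.pow_apply' j.succ_ne_zero]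
    · simp [rc, e1_h_apply, χ.pow_apply' j.succ_ne_zero]
    · have := mem_range.1 hj
      refine e1_conj j.succ_ne_zero (by omega) ?_
      rw [show j.succ + (2 * k + 1 - j) = 2 * k + 2 by omega]
      exact e1_cases hχ _

lemma e1_Eq_prod {N : ℕ} {ι : Type} (s : Finset ι) {f g : ι → ArithmeticFunction ℂ}
    (h : ∀ i, ∀ n ≤ N, f i n = g i n) : ∀ n ≤ N, (∏ i ∈ s, f i) n = (∏ i ∈ s, g i) n := by
  classical
  induction s using Finset.induction_on with
  | empty => simp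
  | insert a s ha ih =>
    intro n hn
    rw [prod_insert ha, prod_insert ha, ArithmeticFunction.mul_apply, ArithmeticFunction.mul_apply]
    refine sum_congr rfl fun p hp => ?_
    obtain ⟨h1, h0⟩ := Nat.mem_divisorsAntidiagonal.1 hp
    have a1 : p.1 ≤ n := Nat.le_of_dvd (Nat.pos_of_ne_zero h0) ⟨p.2, h1.symm⟩
    have a2 : p.2 ≤ n := Nat.le_of_dvd (Nat.pos_of_ne_zero h0) ⟨p.1, by rw [← h1, mul_comm]⟩
    rw [h a _ (a1.trans hn), ih _ (a2.trans hn)]

theorem chF_euler (K : Type) [Field K] [NumberField K] {l k : ℕ} {χ : MulChar (ZMod l) ℂ}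
    (hχ : Chr l k χ) (N : ℕ) :
    ∃ (S : Finset (HeightOneSpectrum (𝓞 K))) (f e : HeightOneSpectrum (𝓞 K) → ℕ),
      (∀ v ∈ S, Ideal.absNorm v.asIdeal ≤ N) ∧
      (∀ v, 1 ≤ f v ∧ e v ≤ 2 * k + 2 ∧ (χ (Ideal.absNorm v.asIdeal : ℕ) ≠ 0 →
        χ (Ideal.absNorm v.asIdeal : ℕ) ≠ 1 → 2 ≤ f v)) ∧
      eu_Eq N (chF K l k χ) (∏ v ∈ S, eu_G (Ideal.absNorm v.asIdeal ^ f v) 1 ^ e v) := by
  obtain ⟨S, hS, hE⟩ := eu_exists K N
  choose f e h1 h2 using fun v : HeightOneSpectrum (𝓞 K) => e1_local (Nat.succ_pos _)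
    (e1_cases hχ (Ideal.absNorm v.asIdeal : ℕ)) (Ideal.absNorm v.asIdeal)
  refine ⟨S, f, e, hS, h1, fun n hn => ?_⟩
  have h3 : e1_T 1 (∏ v ∈ S, eu_G (Ideal.absNorm v.asIdeal ^ f v) 1 ^ e v) =
      ∏ i ∈ range (2 * k + 2), e1_T (e1_h χ i) (∏ v ∈ S, eu_G (Ideal.absNorm v.asIdeal) 1) := by
    simp only [map_prod]
    rw [prod_comm]
    refine prod_congr rfl fun v _ => ?_
    rw [map_pow, e1_T_G 1 (one_lt_pow' (eu_one_lt K v) (by have := (h1 v).1; omega)),
      MonoidHom.one_apply, ← h2 v]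
    exact prod_congr rfl fun i _ => (e1_T_G (e1_h χ i) (eu_one_lt K v)).symm
  have h4 := e1_Eq_prod (range (2 * k + 2)) (f := fun i => e1_T (e1_h χ i) (cnt K))
    (g := fun i => e1_T (e1_h χ i) (∏ v ∈ S, eu_G (Ideal.absNorm v.asIdeal) 1))
    (fun i m hm => by rw [e1_T_apply, e1_T_apply, hE m hm]) n hn
  rw [← h3, ← e1_chF K hχ, e1_T_apply, e1_T_apply] at h4
  simpa using h4

end Pool.Agent.RT
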