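import Pool.Agent.Lib.MP_e97e2b_nt.RT.AnL

/- Values to the right of 1, and the lower bound for the complex factors. -/

namespace Pool.Agent.RT

open Pool.Agent.Lib.MP_e97e2b_nt Filter Topology

lemma h_mul {u v : ArithmeticFunction ℝ} {A B : ℝ} (hu : HasSum u A) (hv : HasSum v B) :
    HasSum (⇑(u * v)) (A * B) := by
  have key : ∀ (f : ℕ → ℝ) (T : ℝ), f 0 = 0 →
      (HasSum f T ↔ LSeriesHasSum (fun n => (f n : ℂ)) 0 T) := fun f T h0 => by
    have : LSeries.term (fun n => (f n : ℂ)) 0 = fun n => (f n : ℂ) := by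
      funext n
      rw [LSeries.term_def₀ (by simp [h0])]
      simp
    rw [LSeriesHasSum, this, Complex.hasSum_ofReal]
  have h := ((key u A u.map_zero).1 hu).convolution ((key v B v.map_zero).1 hv)
  have e : (fun n => ((u * v) n : ℂ)) =
      LSeries.convolution (fun n => (u n : ℂ)) fun n => (v n : ℂ) := by
    funext n
    rw [LSeries.convolution_def, ArithmeticFunction.mul_apply]
    push_cast
    rfl
  rwa [key _ _ (u * v).map_zero, Complex.ofReal_mul, e]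

lemma h_range {f : ℕ → ℝ} (h0 : f 0 = 0) (N : ℕ) :
    ∑ n ∈ Finset.range (N + 1), f n = ∑ n ∈ Finset.Ioc 0 N, f n := by
  rw [Finset.range_eq_Ico, Finset.sum_eq_sum_Ico_succ_bot (Nat.succ_pos N), h0, zero_add]
  rfl

lemma h_lim {f : ℕ → ℝ} {T : ℝ} (hf : HasSum f T) (h0 : f 0 = 0) :
    Tendsto (fun N : ℕ => Sm f N) atTop (𝓝 T) := by
  refine (hf.tendsto_sum_nat.comp (tendsto_add_atTop_nat 1)).congr fun N => ?_
  rw [ab_Sm_nat, Function.comp_apply, h_range h0]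

lemma h_a {a : ArithmeticFunction ℝ} {D h : ℝ} (ha : ∀ n, 0 ≤ a n) (hD : 0 ≤ D) (h0 : 0 < h)
    (h1 : h ≤ 1) (hS : ∀ t : ℝ, 1 ≤ t → |Sm a t| ≤ D * t) :
    ∃ A, HasSum (siW a (1 + h)) A ∧ A ≤ 5 * D / h := by
  have hp : ∀ n, 0 ≤ siW a (1 + h) n := fun n => mul_nonneg (ha n) (by positivity)
  have hb : ∀ N : ℕ, ∑ n ∈ Finset.range N, siW a (1 + h) n ≤ 5 * D / h := fun N => by
    have h2 := ab_diff a D h (1 + h) h0 (by linarith) hD 1 le_rfl 1 (N + 1 : ℕ) one_pos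
      (by exact_mod_cast Nat.succ_pos N) (fun u hu => by rw [Real.rpow_one]; exact hS u hu)
    rw [Real.one_rpow, mul_one, ab_Sm_one, Nat.cast_one, Real.one_rpow, mul_one, ab_Sm_nat] at h2
    have h3 : a 1 ≤ D := by
      have := hS 1 le_rfl
      rw [ab_Sm_one, mul_one] at this
      exact (le_abs_self _).trans this
    have h4 : ∑ n ∈ Finset.range N, siW a (1 + h) n ≤
        ∑ n ∈ Finset.Ioc 0 (N + 1), siW a (1 + h) n := by
      rw [← h_range (siW a (1 + h)).map_zero]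
      exact Finset.sum_le_sum_of_subset_of_nonneg (Finset.range_mono (by omega))
        fun n _ _ => hp n
    have h5 : (3 + (1 + h) / h) * D ≤ 5 * D / h := by
      rw [mul_div_right_comm]
      refine mul_le_mul_of_nonneg_right ?_ hD
      rw [le_div_iff₀ h0, add_mul, div_mul_cancel₀ _ h0.ne']
      linarith
    have h6 := (le_abs_self _).trans h2
    simp only [si_W_apply] at h4 ⊢
    linarith
  have hs := summable_of_sum_range_le hp hb
  exact ⟨_, hs.hasSum, hs.tsum_le_of_sum_range_le hb⟩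

lemma h_lip {a b : ArithmeticFunction ℝ} {D M θ h ε Y : ℝ} (ha : ∀ n, 0 ≤ a n)
    (hb : ∀ n, |b n| ≤ a n) (hD : 0 ≤ D) (hS : ∀ t : ℝ, 1 ≤ t → |Sm a t| ≤ D * t) (hθ : 0 < θ)
    (hM : 0 ≤ M) (hf : ∀ x : ℝ, 1 ≤ x → |Sm b x| ≤ M * x ^ (1 - θ)) (h0 : 0 < h) (h1 : h ≤ 1)
    (hε : 0 < ε) (hY : 1 ≤ Y) : ∃ T, HasSum (siW b (1 + h)) T ∧ |T - Lv b 1| ≤
      h * ((3 + (1 + ε) / ε) * D / ε * Y ^ (ε + ε)) + 2 * ((2 + 2 / θ) * M * Y ^ (-θ)) := by
  obtain ⟨A, hA, -⟩ := h_a ha hD h0 h1 hS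
  have hY0 : 0 < Y := by linarith
  have hs : Summable (siW b (1 + h)) := Summable.of_norm_bounded hA.summable fun n => by
    rw [Real.norm_eq_abs, si_W_apply, si_W_apply, abs_mul, abs_of_nonneg (a := (n : ℝ) ^ _)
      (by positivity)]
    exact mul_le_mul_of_nonneg_right (hb n) (by positivity)
  refine ⟨_, hs.hasSum, ?_⟩
  have t1 : |∑' n, siW b (1 + h) n - Sm (siW b (1 + h)) Y| ≤ (2 + 2 / θ) * M * Y ^ (-θ) := by
    refine le_of_tendsto ((h_lim hs.hasSum (siW b (1 + h)).map_zero).sub_const _).abs ?_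
    filter_upwards [tendsto_natCast_atTop_atTop.eventually_ge_atTop Y] with N hN
    refine (ab_diff b M θ (1 + h) hθ (by linarith) hM (1 - θ) (by linarith) Y N hY0 hN
      (fun t ht => hf t (hY.trans ht))).trans ?_
    have : (1 + h) / θ ≤ 2 / θ := div_le_div_of_nonneg_right (by linarith) hθ.le
    exact mul_le_mul (mul_le_mul_of_nonneg_right (by linarith) hM)
      (Real.rpow_le_rpow_of_exponent_le hY (by linarith)) (by positivity) (by positivity)
  have t2 := abel_tail b M θ 1 1 hθ zero_le_one le_rfl hM le_rfl (1 - θ) (by linarith) hf Y hY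
  rw [show 1 - θ - 1 = -θ by ring] at t2
  have t3 : |Sm (siW b (1 + h)) Y - Sm (fun n => b n * (n : ℝ) ^ (-1 : ℝ)) Y| ≤
      h / ε * ((3 + (1 + ε) / ε) * D * Y ^ (ε + ε)) := by
    refine le_trans ?_ (mul_le_mul_of_nonneg_left (up_W a D ε ε hε hε.le hD ha hS Y hY)
      (by positivity))
    rw [Sm, Sm, ← Finset.sum_sub_distrib, Finset.mul_sum]
    refine (Finset.abs_sum_le_sum_abs _ _).trans (Finset.sum_le_sum fun n hn => ?_)
    have n1 : (1 : ℝ) ≤ n := by exact_mod_cast (Finset.mem_Ioc.1 hn).1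
    have n0 : (0 : ℝ) < n := by linarith
    have e1 : (n : ℝ) ^ (-(1 + h)) = (n : ℝ) ^ (-1 : ℝ) * Real.exp (-(h * Real.log n)) := by
      rw [neg_add, Real.rpow_add n0, Real.rpow_def_of_pos n0 (-h)]
      congr 2
      ring
    have e2 : (n : ℝ) ^ (ε - 1) = (n : ℝ) ^ (-1 : ℝ) * (n : ℝ) ^ ε := by
      rw [← Real.rpow_add n0]
      congr 1
      ring
    have e3 : |Real.exp (-(h * Real.log n)) - 1| ≤ h / ε * (n : ℝ) ^ ε := by
      have a1 := Real.add_one_le_exp (-(h * Real.log n))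
      have a2 : Real.exp (-(h * Real.log n)) ≤ 1 :=
        Real.exp_le_one_iff.2 (neg_nonpos.2 (mul_nonneg h0.le (Real.log_nonneg n1)))
      have a3 := mul_le_mul_of_nonneg_left (Real.log_le_rpow_div n0.le hε) h0.le
      rw [abs_of_nonpos (by linarith), div_mul_eq_mul_div, mul_div_assoc]
      linarith
    have p0 : 0 < (n : ℝ) ^ (-1 : ℝ) := by positivity
    rw [si_W_apply, e1, e2, ← mul_sub, ← mul_sub_one, abs_mul, abs_mul, abs_of_pos p0]
    calc |b n| * ((n : ℝ) ^ (-1 : ℝ) * |Real.exp (-(h * Real.log n)) - 1|)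
        ≤ a n * ((n : ℝ) ^ (-1 : ℝ) * (h / ε * (n : ℝ) ^ ε)) :=
          mul_le_mul (hb n) (mul_le_mul_of_nonneg_left e3 p0.le) (by positivity) (ha n)
      _ = _ := by ring
  have e4 : h / ε * ((3 + (1 + ε) / ε) * D * Y ^ (ε + ε)) =
      h * ((3 + (1 + ε) / ε) * D / ε * Y ^ (ε + ε)) := by ring
  rw [e4] at t3
  rw [abs_le] at t1 t2 t3 ⊢
  constructor <;> linarith [t1.1, t1.2, t2.1, t2.2, t3.1, t3.2]

lemma h_prod (W : ℕ → ArithmeticFunction ℝ) (T : ℕ → ℝ) (s : ℝ) (k : ℕ)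
    (h : ∀ j < k, HasSum (siW (W j) s) (T j)) :
    HasSum (siW (∏ j ∈ Finset.range k, W j) s) (∏ j ∈ Finset.range k, T j) := by
  induction k with
  | zero =>
    rw [Finset.prod_range_zero, Finset.prod_range_zero]
    have := hasSum_single (f := siW 1 s) 1 fun n hn => by
      rw [si_W_apply, ArithmeticFunction.one_apply_ne hn, zero_mul]
    simpa [si_W_apply] using this
  | succ k ih =>
    rw [Finset.prod_range_succ, Finset.prod_range_succ, si_W_mul]
    exact h_mul (ih fun j hj => h j (by omega)) (h k (by omega))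

/-- The lower bound for the complex factors. -/
lemma h_low {a : ArithmeticFunction ℝ} {η : ℕ → ℝ} {c s : ℕ → ℕ → ℝ} {k : ℕ} {P ρ : ℝ}
    (ha : ∀ n, 0 ≤ a n) (hP : 1 ≤ P) (hρ : 32 * (18 * P ^ 2) ^ (k + 2) * ρ ≤ 1)
    (hA : ∀ h, 0 < h → h ≤ 1 → ∃ A, HasSum (siW a (1 + h)) A ∧ A ≤ 5 * P / h)
    (G : (ℕ → ℝ) → Prop) (hG : ∀ f, G f → |Lv (tw a f) 1| ≤ 2 * P ∧ ∀ h, 0 < h → h ≤ 1 →
      ∃ T, HasSum (siW (tw a f) (1 + h)) T ∧ |T - Lv (tw a f) 1| ≤ h * P + ρ)
    (hη : G η) (hc : ∀ j < k, G (c j)) (hs : ∀ j < k, G (s j))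
    (hpos : ∀ n, 0 ≤ anF a η c s k n) (hone : anF a η c s k 1 = 1) (j : ℕ) (hj : j < k) :
    1 ≤ 128 * (18 * P ^ 2) ^ (2 * k + 3) * (Lv (tw a (c j)) 1 * Lv (tw a (c j)) 1 +
      Lv (tw a (s j)) 1 * Lv (tw a (s j)) 1) := by
  set R := 18 * P ^ 2 with hR
  have hP2 : P ≤ P ^ 2 := by nlinarith
  have hR1 : 1 ≤ R := by linarith
  set Q := R ^ (k + 1) with hQ
  have hQ1 : R ≤ Q := le_self_pow₀ hR1 (by omega)
  have hQ0 : 0 < Q := by linarith
  set h := 1 / (32 * Q * P ^ 2) with hh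
  have h0 : 0 < h := by positivity
  have hhe : h * (32 * Q * P ^ 2) = 1 := by rw [hh]; field_simp
  have hhP : 2 * h ≤ 1 := by
    have : 2 ≤ 32 * Q * P ^ 2 := by nlinarith
    nlinarith
  have hρ' : ρ ≤ h * P := by
    by_cases hr : ρ ≤ 0
    · exact hr.trans (by positivity)
    have a1 : 32 * Q * P * ρ ≤ 1 := by
      refine le_trans ?_ hρ
      rw [pow_succ R (k + 1), ← hQ, ← mul_assoc]
      exact mul_le_mul_of_nonneg_right (mul_le_mul_of_nonneg_left (by linarith) (by positivity))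
        (by linarith)
    refine le_of_mul_le_mul_left (a := 32 * Q * P) ?_ (by positivity)
    linarith
  have hG' : ∀ f, ∃ T, G f → HasSum (siW (tw a f) (1 + h)) T ∧
      |T - Lv (tw a f) 1| ≤ 2 * h * P ∧ |T| ≤ 3 * P := fun f => by
    by_cases hf : G f
    · obtain ⟨T, t1, t2⟩ := (hG f hf).2 h h0 (by linarith)
      refine ⟨T, fun _ => ⟨t1, by linarith, ?_⟩⟩
      have t3 := (hG f hf).1
      have t4 := mul_le_mul_of_nonneg_right hhP (by linarith : 0 ≤ P)
      rw [abs_le] at t2 t3 ⊢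
      constructor <;> linarith [t2.1, t2.2, t3.1, t3.2]
    · exact ⟨0, fun h => absurd h hf⟩
  choose T hT using hG'
  obtain ⟨A, a1, a2⟩ := hA h h0 (by linarith)
  set w : ℕ → ℝ := fun i => T (c i) * T (c i) + T (s i) * T (s i) with hw
  have hw0 : ∀ i, 0 ≤ w i := fun i => add_nonneg (mul_self_nonneg _) (mul_self_nonneg _)
  have hwR : ∀ i < k, w i ≤ R := fun i hi => by
    have b1 := abs_le.1 (hT _ (hc i hi)).2.2
    have b2 := abs_le.1 (hT _ (hs i hi)).2.2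
    simp only [hw]
    nlinarith [b1.1, b1.2, b2.1, b2.2]
  have hF : HasSum (siW (anF a η c s k) (1 + h)) (A * (T η * ∏ i ∈ Finset.range k, w i)) := by
    rw [anF, si_W_mul, si_W_mul]
    refine h_mul a1 (h_mul (hT _ hη).1 (h_prod _ _ _ _ fun i hi => ?_))
    rw [anW, l_W_add, si_W_mul, si_W_mul]
    exact (h_mul (hT _ (hc i hi)).1 (hT _ (hc i hi)).1).add
      (h_mul (hT _ (hs i hi)).1 (hT _ (hs i hi)).1)
  have h1 := le_hasSum hF 1 fun n _ => mul_nonneg (hpos n) (by positivity)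
  rw [si_W_apply, hone, Nat.cast_one, Real.one_rpow, mul_one] at h1
  have h2 : ∏ i ∈ Finset.range k, w i ≤ w j * R ^ k := by
    rw [← Finset.mul_prod_erase _ _ (Finset.mem_range.2 hj)]
    refine mul_le_mul_of_nonneg_left ?_ (hw0 j)
    refine (Finset.prod_le_prod (g := fun _ => R) (fun i _ => hw0 i) fun i hi =>
      hwR i (Finset.mem_range.1 (Finset.mem_of_mem_erase hi))).trans ?_
    rw [Finset.prod_const]
    exact pow_le_pow_right₀ hR1 (Finset.card_erase_le.trans (Finset.card_range k).le)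
  have hp0 : 0 ≤ ∏ i ∈ Finset.range k, w i := Finset.prod_nonneg fun i _ => hw0 i
  have h3 : |T η * ∏ i ∈ Finset.range k, w i| ≤ 3 * P * (w j * R ^ k) := by
    rw [abs_mul, abs_of_nonneg hp0]
    exact mul_le_mul (hT _ hη).2.2 h2 hp0 (by positivity)
  have hA0 : 0 ≤ A := a1.nonneg fun n => mul_nonneg (ha n) (by positivity)
  have h4 : 1 ≤ 5 * P / h * (3 * P * (w j * R ^ k)) :=
    h1.trans ((mul_le_mul_of_nonneg_left (le_abs_self _) hA0).trans
      (mul_le_mul a2 h3 (abs_nonneg _) (by positivity)))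
  have h5 : h ≤ Q * w j := by
    rw [div_mul_eq_mul_div, le_div_iff₀ h0, one_mul] at h4
    have : 0 ≤ P ^ 2 * (w j * R ^ k) := mul_nonneg (by positivity) (mul_nonneg (hw0 j) (by positivity))
    rw [hQ, pow_succ]
    nlinarith
  set x := Lv (tw a (c j)) 1
  set y := Lv (tw a (s j)) 1
  have h6 : w j ≤ 2 * (x * x + y * y) + 16 * (h * P) ^ 2 := by
    have b1 := sq_le_sq' (abs_le.1 (hT _ (hc j hj)).2.1).1 (abs_le.1 (hT _ (hc j hj)).2.1).2
    have b2 := sq_le_sq' (abs_le.1 (hT _ (hs j hj)).2.1).1 (abs_le.1 (hT _ (hs j hj)).2.1).2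
    simp only [hw]
    nlinarith [sq_nonneg (T (c j) - 2 * x), sq_nonneg (T (s j) - 2 * y)]
  have h7 : h ≤ 4 * Q * (x * x + y * y) := by
    have b1 := mul_le_mul_of_nonneg_left h6 hQ0.le
    have b2 : Q * (16 * (h * P) ^ 2) = h / 2 := by linear_combination h / 2 * hhe
    linarith
  have h8 := mul_le_mul_of_nonneg_right h7 (by positivity : 0 ≤ 32 * Q * P ^ 2)
  have h9 : Q * Q * P ^ 2 ≤ R ^ (2 * k + 3) := by
    rw [show R ^ (2 * k + 3) = Q * Q * R by rw [hQ]; ring]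
    exact mul_le_mul_of_nonneg_left (by nlinarith) (by positivity)
  have h10 := mul_le_mul_of_nonneg_right h9 (add_nonneg (mul_self_nonneg x) (mul_self_nonneg y))
  linarith

end Pool.Agent.RT
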