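import Pool.Agent.Lib.MP_e97e2b_nt.RT.An0
import Pool.Agent.Lib.MP_e97e2b_nt.Upper
import Pool.Agent.Lib.MP_e97e2b_nt.Siegel

/- Functions with cancellation beyond a level; levels multiply. -/

namespace Pool.Agent.RT

open Pool.Agent.Lib.MP_e97e2b_nt

/-- Cancellation between `Y` and `X`. -/
structure Lev (u : ArithmeticFunction ℝ) (Y X D E B : ℝ) : Prop where
  sm : ∀ t, Y ≤ t → t ≤ X → |Sm u t| ≤ E * t
  lv : ∀ t, Y ≤ t → t ≤ X → |Sm (siW u 1) t - D| ≤ E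
  ab : ∀ t, t ≤ X → Sm (fun n => |siW u 1 n|) t ≤ B

lemma l_range {y z : ℝ} (hy : 1 ≤ y) (hz : 1 ≤ z) {m : ℕ} (hm : m ∈ Finset.Ioc 0 ⌊y⌋₊) :
    (0 : ℝ) < m ∧ z ≤ y * z / m ∧ y * z / m ≤ y * z := by
  obtain ⟨h1, h2⟩ := Finset.mem_Ioc.1 hm
  have h3 : (1 : ℝ) ≤ m := by exact_mod_cast h1
  have h4 : (m : ℝ) ≤ y := (Nat.le_floor_iff (by linarith)).1 h2
  refine ⟨by linarith, ?_, div_le_self (by positivity) h3⟩
  rw [le_div_iff₀ (by linarith), mul_comm y z]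
  exact mul_le_mul_of_nonneg_left h4 (by linarith)

lemma l_row (u : ArithmeticFunction ℝ) (S : ℝ → ℝ) {y z E : ℝ} (hy : 1 ≤ y) (hz : 1 ≤ z)
    (h : ∀ t, z ≤ t → t ≤ y * z → |S t| ≤ E * t) :
    |∑ m ∈ Finset.Ioc 0 ⌊y⌋₊, u m * S (y * z / m)| ≤
      E * (y * z) * Sm (fun n => |siW u 1 n|) y := by
  rw [Sm, Finset.mul_sum]
  refine (Finset.abs_sum_le_sum_abs _ _).trans (Finset.sum_le_sum fun m hm => ?_)
  obtain ⟨h1, h2, h3⟩ := l_range hy hz hm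
  rw [abs_mul, si_W_apply, abs_mul, Real.rpow_neg_one, abs_of_pos (inv_pos.2 h1)]
  calc |u m| * |S (y * z / m)| ≤ |u m| * (E * (y * z / m)) :=
        mul_le_mul_of_nonneg_left (h _ h2 h3) (abs_nonneg _)
    _ = _ := by ring

lemma l_row' (u : ℕ → ℝ) (S : ℝ → ℝ) {y z D E : ℝ} (hy : 1 ≤ y) (hz : 1 ≤ z)
    (h : ∀ t, z ≤ t → t ≤ y * z → |S t - D| ≤ E) :
    |∑ m ∈ Finset.Ioc 0 ⌊y⌋₊, u m * S (y * z / m) - D * Sm u y| ≤
      E * Sm (fun n => |u n|) y := by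
  rw [Sm, Sm, Finset.mul_sum, Finset.mul_sum, ← Finset.sum_sub_distrib]
  refine (Finset.abs_sum_le_sum_abs _ _).trans (Finset.sum_le_sum fun m hm => ?_)
  obtain ⟨-, h2, h3⟩ := l_range hy hz hm
  rw [mul_comm D, ← mul_sub, abs_mul, mul_comm]
  exact mul_le_mul_of_nonneg_right (h _ h2 h3) (abs_nonneg _)

lemma Lev.mul {u v : ArithmeticFunction ℝ} {Y1 Y2 X D1 D2 E1 E2 B1 B2 : ℝ}
    (h1 : Lev u Y1 X D1 E1 B1) (h2 : Lev v Y2 X D2 E2 B2) (hY1 : 1 ≤ Y1) (hY2 : 1 ≤ Y2)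
    (hE1 : 0 ≤ E1) (hE2 : 0 ≤ E2) :
    Lev (u * v) (Y1 * Y2) X (D1 * D2) (E2 * B1 + E1 * B2 + E1 * E2) (B1 * B2) := by
  have key : ∀ t, Y1 * Y2 ≤ t → ∃ z, Y2 ≤ z ∧ t = Y1 * z := fun t ht =>
    ⟨t / Y1, by rw [le_div_iff₀ (by linarith)]; linarith, by field_simp⟩
  refine ⟨fun t ht hX => ?_, fun t ht hX => ?_, fun t hX => ?_⟩
  · obtain ⟨z, hz, rfl⟩ := key t ht
    have hz1 : 1 ≤ z := hY2.trans hz
    have a1 : Y1 ≤ X := (le_mul_of_one_le_right (by linarith) hz1).trans hX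
    have a2 : z ≤ X := (le_mul_of_one_le_left (by linarith) hY1).trans hX
    have b1 := l_row u (Sm v) hY1 hz1 fun t h3 h4 => h2.sm t (hz.trans h3) (h4.trans hX)
    have b2 := l_row v (Sm u) hz1 hY1 fun t h3 h4 =>
      h1.sm t h3 (h4.trans (by rwa [mul_comm]))
    rw [mul_comm z Y1] at b2
    have b3 : |Sm u Y1 * Sm v z| ≤ E1 * Y1 * (E2 * z) := by
      rw [abs_mul]
      exact mul_le_mul (h1.sm _ le_rfl a1) (h2.sm _ hz a2) (abs_nonneg _) (by positivity)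
    have c1 := mul_le_mul_of_nonneg_left (h1.ab _ a1) (by positivity : 0 ≤ E2 * (Y1 * z))
    have c2 := mul_le_mul_of_nonneg_left (h2.ab _ a2) (by positivity : 0 ≤ E1 * (Y1 * z))
    rw [hyperbola u v Y1 z hY1 hz1]
    rw [abs_le] at b1 b2 b3 ⊢
    constructor <;> linarith [b1.1, b1.2, b2.1, b2.2, b3.1, b3.2]
  · obtain ⟨z, hz, rfl⟩ := key t ht
    have hz1 : 1 ≤ z := hY2.trans hz
    have a1 : Y1 ≤ X := (le_mul_of_one_le_right (by linarith) hz1).trans hX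
    have a2 : z ≤ X := (le_mul_of_one_le_left (by linarith) hY1).trans hX
    have b1 := l_row' (siW u 1) (Sm (siW v 1)) hY1 hz1 fun t h3 h4 =>
      h2.lv t (hz.trans h3) (h4.trans hX)
    have b2 := l_row' (siW v 1) (Sm (siW u 1)) hz1 hY1 fun t h3 h4 =>
      h1.lv t h3 (h4.trans (by rwa [mul_comm]))
    rw [mul_comm z Y1] at b2
    have b3 : |(Sm (siW u 1) Y1 - D1) * (Sm (siW v 1) z - D2)| ≤ E1 * E2 := by
      rw [abs_mul]
      exact mul_le_mul (h1.lv _ le_rfl a1) (h2.lv _ hz a2) (abs_nonneg _) hE1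
    have c1 := mul_le_mul_of_nonneg_left (h1.ab _ a1) hE2
    have c2 := mul_le_mul_of_nonneg_left (h2.ab _ a2) hE1
    rw [si_W_mul, hyperbola _ _ Y1 z hY1 hz1]
    rw [abs_le] at b1 b2 b3 ⊢
    constructor <;> linarith [b1.1, b1.2, b2.1, b2.2, b3.1, b3.2]
  · rw [si_W_mul]
    exact (si_abs_mul _ _ t).trans (mul_le_mul (h1.ab t hX) (h2.ab t hX) (si_Sm_abs_nonneg _ _)
      ((si_Sm_abs_nonneg _ _).trans (h1.ab t hX)))

lemma l_W_add (u v : ArithmeticFunction ℝ) (s : ℝ) : siW (u + v) s = siW u s + siW v s := by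
  ext n
  simp only [si_W_apply, ArithmeticFunction.add_apply]
  ring

lemma l_Sm_add (u v : ArithmeticFunction ℝ) (t : ℝ) : Sm (⇑(u + v)) t = Sm u t + Sm v t := by
  simp only [Sm, ArithmeticFunction.add_apply, Finset.sum_add_distrib]

lemma Lev.add {u v : ArithmeticFunction ℝ} {Y X D1 D2 E1 E2 B1 B2 : ℝ}
    (h1 : Lev u Y X D1 E1 B1) (h2 : Lev v Y X D2 E2 B2) :
    Lev (u + v) Y X (D1 + D2) (E1 + E2) (B1 + B2) := by
  refine ⟨fun t ht hX => ?_, fun t ht hX => ?_, fun t hX => ?_⟩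
  · rw [l_Sm_add, add_mul]
    exact (abs_add_le _ _).trans (add_le_add (h1.sm t ht hX) (h2.sm t ht hX))
  · rw [l_W_add, l_Sm_add, add_sub_add_comm]
    exact (abs_add_le _ _).trans (add_le_add (h1.lv t ht hX) (h2.lv t ht hX))
  · refine le_trans ?_ (add_le_add (h1.ab t hX) (h2.ab t hX))
    rw [l_W_add, Sm, Sm, Sm, ← Finset.sum_add_distrib]
    exact Finset.sum_le_sum fun n _ => abs_add_le _ _

lemma Lev.mono {u : ArithmeticFunction ℝ} {Y X D E B Y' E' B' : ℝ} (h : Lev u Y X D E B)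
    (h0 : 0 ≤ Y) (hY : Y ≤ Y') (hE : E ≤ E') (hB : B ≤ B') : Lev u Y' X D E' B' :=
  ⟨fun t ht hX => (h.sm t (hY.trans ht) hX).trans
      (mul_le_mul_of_nonneg_right hE (h0.trans (hY.trans ht))),
    fun t ht hX => (h.lv t (hY.trans ht) hX).trans hE, fun t hX => (h.ab t hX).trans hB⟩

lemma Lev.abs_le {u : ArithmeticFunction ℝ} {Y X D E B : ℝ} (h : Lev u Y X D E B) (hY : Y ≤ X) :
    |D| ≤ B + E := by
  have h1 := h.lv Y le_rfl hY
  have h2 := (si_abs_Sm _ Y).trans (h.ab Y hY)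
  rw [_root_.abs_le] at h1 h2 ⊢
  constructor <;> linarith [h1.1, h1.2, h2.1, h2.2]

lemma Lev.pair {u v : ArithmeticFunction ℝ} {Y X D1 D2 E P : ℝ} (h1 : Lev u Y X D1 E P)
    (h2 : Lev v Y X D2 E P) (hY : 1 ≤ Y) (hE : 0 ≤ E) (hP : E ≤ P) :
    Lev (u * u + v * v) (Y * Y) X (D1 * D1 + D2 * D2) (6 * E * P) (6 * P ^ 2) := by
  have h3 := mul_le_mul_of_nonneg_left hP hE
  refine ((h1.mul h1 hY hY hE hE).add (h2.mul h2 hY hY hE hE)).mono (by positivity) le_rfl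
    (by linarith) (by nlinarith [sq_nonneg P])

lemma Lev.prod {b : ArithmeticFunction ℝ} {W : ℕ → ArithmeticFunction ℝ} {D : ℕ → ℝ}
    {Y Z X D0 E B : ℝ} (hb : Lev b Y X D0 E B) (hY : 1 ≤ Y) (hZ : 1 ≤ Z) (hE : 0 ≤ E)
    (hB : E ≤ B) (k : ℕ) (hW : ∀ j < k, Lev (W j) Z X (D j) E B) :
    Lev (b * ∏ j ∈ Finset.range k, W j) (Y * Z ^ k) X (D0 * ∏ j ∈ Finset.range k, D j)
      ((3 * B) ^ k * E) (B ^ (k + 1)) := by
  have hB0 : 0 ≤ B := hE.trans hB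
  induction k with
  | zero => simpa using hb
  | succ k ih =>
    have h1 := (ih fun j hj => hW j (by omega)).mul (hW k (by omega))
      (one_le_mul_of_one_le_of_one_le hY (one_le_pow₀ hZ)) hZ (by positivity) hE
    rw [Finset.prod_range_succ, Finset.prod_range_succ, ← mul_assoc, ← mul_assoc, pow_succ Z,
      ← mul_assoc]
    refine h1.mono (by positivity) le_rfl ?_ (by rw [pow_succ B (k + 1)])
    have a1 : B ^ k ≤ (3 * B) ^ k := pow_le_pow_left₀ hB0 (by linarith) k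
    have a2 := mul_le_mul_of_nonneg_left a1 (mul_nonneg hE hB0)
    have a3 := mul_le_mul_of_nonneg_left hB (by positivity : 0 ≤ (3 * B) ^ k * E)
    rw [pow_succ, pow_succ]
    linarith

/-- The asymptotic formula for the convolution with a function of linear growth. -/
lemma Lev.main {a G : ArithmeticFunction ℝ} {κ θ C y z D E B P : ℝ} (h : Lev G z (y * z) D E B)
    (hκ : 0 ≤ κ) (hθ : 0 ≤ θ) (hy : 1 ≤ y) (hz : 1 ≤ z) (hE : 0 ≤ E) (hC : 0 ≤ C)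
    (h0 : ∀ x : ℝ, 1 ≤ x → |Sm a x - κ * x| ≤ C * x ^ (1 - θ))
    (hP : Sm (fun n => |siW a 1 n|) y ≤ P) :
    κ * D * (y * z) ≤ Sm (⇑(a * G)) (y * z) +
      (E * P + C * y ^ (-θ) * B + (κ + C) * E + κ * E) * (y * z) := by
  have hy0 : 0 < y := by linarith
  have a2 : z ≤ y * z := le_mul_of_one_le_left (by linarith) hy
  have hr : ∀ t, y ≤ t → |Sm a t - κ * t| ≤ C * y ^ (-θ) * t := fun t ht => by
    refine (h0 t (hy.trans ht)).trans ?_
    rw [sub_eq_add_neg, Real.rpow_add (by linarith), Real.rpow_one, mul_assoc, mul_comm t]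
    exact mul_le_mul_of_nonneg_left (mul_le_mul_of_nonneg_right
      (Real.rpow_le_rpow_of_nonpos hy0 ht (by linarith)) (by linarith)) hC
  have b1 := l_row a (Sm G) hy hz h.sm
  have b2 := l_row G (fun t => Sm a t - κ * t) hz hy fun t h3 _ => hr t h3
  rw [mul_comm z y] at b2
  have e2 : ∑ m ∈ Finset.Ioc 0 ⌊z⌋₊, G m * (Sm a (y * z / m) - κ * (y * z / m)) =
      ∑ m ∈ Finset.Ioc 0 ⌊z⌋₊, G m * Sm a (y * z / m) - κ * (y * z) * Sm (siW G 1) z := by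
    rw [show Sm (siW G 1) z = ∑ m ∈ Finset.Ioc 0 ⌊z⌋₊, siW G 1 m from rfl, Finset.mul_sum,
      ← Finset.sum_sub_distrib]
    refine Finset.sum_congr rfl fun n _ => ?_
    rw [si_W_apply, Real.rpow_neg_one]
    ring
  rw [e2] at b2
  have b0 : |Sm a y| ≤ (κ + C) * y := by
    have h1 := hr y le_rfl
    have h2 : C * y ^ (-θ) * y ≤ C * y := mul_le_mul_of_nonneg_right (mul_le_of_le_one_right hC
      (Real.rpow_le_one_of_one_le_of_nonpos hy (by linarith))) hy0.le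
    have h3 : 0 ≤ κ * y := by positivity
    rw [_root_.abs_le] at h1 ⊢
    constructor <;> linarith [h1.1, h1.2]
  have b3 : |Sm a y * Sm G z| ≤ (κ + C) * y * (E * z) := by
    rw [abs_mul]
    exact mul_le_mul b0 (h.sm _ le_rfl a2) (abs_nonneg _) (by positivity)
  have b4 := mul_le_mul_of_nonneg_left (_root_.abs_le.1 (h.lv z le_rfl a2)).1
    (by positivity : 0 ≤ κ * (y * z))
  have c1 := mul_le_mul_of_nonneg_left hP (by positivity : 0 ≤ E * (y * z))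
  have c2 := mul_le_mul_of_nonneg_left (h.ab _ a2) (by positivity : 0 ≤ C * y ^ (-θ) * (y * z))
  rw [hyperbola a G y z hy hz]
  rw [_root_.abs_le] at b1 b2 b3
  linarith [b1.1, b2.1, b3.2]

end Pool.Agent.RT
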