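import Pool.Agent.Lib.MP_e97e2b_nt.RT.An0
import Pool.Agent.Lib.MP_e97e2b_nt.Moment
import Pool.Agent.Lib.MP_778b46_nt.GX.WeilS

/- The character `ψ ∘ norm` on `O_K / l` and its moments. -/

namespace Pool.Agent.RT

open NumberField Pool.Agent.Lib.MP_e97e2b_nt

variable {K : Type} [Field K] [NumberField K]

lemma etaC_mk {l : ℕ} (ψ : MulChar (ZMod l) ℂ) (x : 𝓞 K) :
    etaC K ψ (Ideal.Quotient.mk _ x) = ψ ((Algebra.norm ℤ x : ℤ) : ZMod l) := by
  unfold etaC
  have h : (Quotient.out (Ideal.Quotient.mk (Ideal.span {(l : 𝓞 K)}) x) : 𝓞 K) - x ∈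
      Ideal.span {(l : 𝓞 K)} := by
    rw [← Ideal.Quotient.eq]
    exact Ideal.Quotient.mk_out _
  rw [(ZMod.intCast_eq_intCast_iff _ _ l).2 (norm_modEq l h)]

lemma etaC_mul {l : ℕ} (ψ : MulChar (ZMod l) ℂ) (x y : RM K l) :
    etaC K ψ (x * y) = etaC K ψ x * etaC K ψ y := by
  obtain ⟨x, rfl⟩ := Ideal.Quotient.mk_surjective x
  obtain ⟨y, rfl⟩ := Ideal.Quotient.mk_surjective y
  rw [← map_mul, etaC_mk, etaC_mk, etaC_mk, map_mul, Int.cast_mul, map_mul]

/-- Structure of the residue ring at an unramified prime. -/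
lemma w_struct {l : ℕ} (hl : l.Prime) (hd : ¬ (l : ℤ) ∣ discr K) :
    ∃ (ι : Type) (_ : Fintype ι) (F : ι → Type) (_ : ∀ i, Field (F i)) (_ : ∀ i, Fintype (F i))
      (e : RM K l ≃+* ∀ i, F i) (N : ∀ i, F i →* ZMod l),
      Nonempty ι ∧ Fintype.card ι ≤ Module.finrank ℚ K ∧ (∀ i, CharP (F i) l) ∧
      ∏ i, Fintype.card (F i) = l ^ Module.finrank ℚ K ∧ (∀ i, Function.Surjective (N i)) ∧
      (∀ i, N i 0 = 0) ∧ ∀ x : 𝓞 K, ((Algebra.norm ℤ x : ℤ) : ZMod l) =
        ∏ i, N i (e (Ideal.Quotient.mk _ x) i) := by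
  classical
  have : Fact l.Prime := ⟨hl⟩
  have hd0 : Module.finrank ℚ K ≠ 0 := Module.finrank_pos.ne'
  have hcard := card_RM (K := K) l
  have hone : 1 < Nat.card (RM K l) := by
    rw [hcard]
    exact Nat.one_lt_pow hd0 hl.one_lt
  have : Finite (RM K l) := Nat.finite_of_card_ne_zero (by omega)
  have : Nontrivial (RM K l) := Finite.one_lt_card_iff_nontrivial.mp hone
  have hl0 : (l : RM K l) = 0 := by
    rw [← map_natCast (Ideal.Quotient.mk (Ideal.span {(l : 𝓞 K)})),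
      Ideal.Quotient.eq_zero_iff_mem]
    exact Ideal.mem_span_singleton_self _
  have : CharP (RM K l) l := (CharP.charP_iff_prime_eq_zero hl).mpr hl0
  let : Algebra (ZMod l) (RM K l) := ZMod.algebra _ l
  have hrank : Module.finrank (ZMod l) (RM K l) = Module.finrank ℚ K := by
    have h1 := Module.natCard_eq_pow_finrank (K := ZMod l) (V := RM K l)
    rw [hcard, Nat.card_zmod] at h1
    exact (Nat.pow_right_injective hl.two_le h1).symm
  obtain ⟨c, hc⟩ := mo_exists_basis (l := l) (RingOfIntegers.basis K)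
    (Ideal.Quotient.mk (Ideal.span {(l : 𝓞 K)})) Ideal.Quotient.mk_surjective (by
      rw [hrank, ← RingOfIntegers.rank, Module.finrank_eq_card_chooseBasisIndex])
  have : IsReduced (RM K l) := mo_reduced _ _ c hc hd
  let ι := MaximalSpectrum (RM K l)
  let : Fintype ι := Fintype.ofFinite _
  let F : ι → Type := fun i => RM K l ⧸ i.asIdeal
  let : ∀ i, Field (F i) := fun i => Ideal.Quotient.field i.asIdeal
  have : ∀ i, Finite (F i) := fun i =>
    Finite.of_surjective _ (Ideal.Quotient.mk_surjective (I := i.asIdeal))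
  let : ∀ i, Fintype (F i) := fun i => Fintype.ofFinite _
  let e : RM K l ≃ₐ[ZMod l] ∀ i, F i := (IsArtinianRing.equivPi (RM K l)).restrictScalars (ZMod l)
  have hprod : ∏ i, Fintype.card (F i) = l ^ Module.finrank ℚ K := by
    rw [← Fintype.card_pi, ← Nat.card_eq_fintype_card, ← hcard]
    exact (Nat.card_congr e.toEquiv).symm
  have hchar : ∀ i, CharP (F i) l := fun i =>
    charP_of_injective_algebraMap (algebraMap (ZMod l) (F i)).injective l
  refine ⟨ι, inferInstance, F, inferInstance, inferInstance, e.toRingEquiv,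
    fun i => Algebra.norm (ZMod l), inferInstance, ?_, hchar, hprod,
    fun i => FiniteField.norm_surjective (ZMod l) (F i), fun i => Algebra.norm_zero, fun x => ?_⟩
  · have h1 : l ^ Fintype.card ι ≤ ∏ i, Fintype.card (F i) := by
      rw [← Finset.card_univ, ← Finset.prod_const]
      refine Finset.prod_le_prod' fun i _ => ?_
      obtain ⟨n, -, hn⟩ := FiniteField.card (F i) l
      rw [hn]
      exact Nat.le_self_pow n.ne_zero l
    rw [hprod] at h1
    exact (Nat.pow_le_pow_iff_right hl.one_lt).mp h1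
  · rw [← mo_norm_red _ _ c hc, ← Algebra.norm_eq_of_algEquiv e, mo_norm_pi]
    rfl

/-- An element on whose norm the character is neither zero nor one. -/
theorem exists_psi_norm : ∃ l0 : ℕ, ∀ l : ℕ, l.Prime → l0 < l → ∀ ψ : MulChar (ZMod l) ℂ, ψ ≠ 1 →
    ∃ y : 𝓞 K, ψ ((Algebra.norm ℤ y : ℤ) : ZMod l) ≠ 0 ∧
      ψ ((Algebra.norm ℤ y : ℤ) : ZMod l) ≠ 1 := by
  classical
  refine ⟨max 2 (discr K).natAbs, fun l hl h ψ hψ => ?_⟩
  obtain ⟨ι, _, F, _, _, e, N, ⟨i₀⟩, -, -, -, hs, -, he⟩ := w_struct hl (mo_good h).2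
  obtain ⟨a, ha⟩ := MulChar.ne_one_iff.1 hψ
  obtain ⟨b, hb⟩ := hs i₀ a
  obtain ⟨y, hy⟩ := Ideal.Quotient.mk_surjective (e.symm (Function.update 1 i₀ b))
  have h1 : ((Algebra.norm ℤ y : ℤ) : ZMod l) = a := by
    rw [he, hy, e.apply_symm_apply, Finset.prod_eq_single i₀]
    · rw [Function.update_self, hb]
    · intro i _ hi
      rw [Function.update_of_ne hi]
      simp
    · simp
  exact ⟨y, h1 ▸ (a.isUnit.map ψ).ne_zero, h1 ▸ ha⟩

lemma w_pow {l m : ℕ} {ψ : MulChar (ZMod l) ℂ} (hm : 2 ≤ m) (h : ψ ^ m = 1) {y : ZMod l}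
    (hy : IsUnit y) : ψ y ^ m = 1 := by
  rw [← MulChar.pow_apply' ψ (by omega), h, MulChar.one_apply hy]

lemma w_conj {l m : ℕ} {ψ : MulChar (ZMod l) ℂ} (hm : 2 ≤ m) (h : ψ ^ m = 1) (y : ZMod l) :
    (starRingEnd ℂ) (ψ y) = ψ y ^ (m - 1) := by
  by_cases hy : IsUnit y
  · have h1 := w_pow hm h hy
    rw [← Complex.inv_eq_conj (Complex.norm_eq_one_of_pow_eq_one h1 (by omega))]
    refine (eq_inv_of_mul_eq_one_left ?_).symm
    rw [← pow_succ, Nat.sub_add_cancel (by omega), h1]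
  · rw [ψ.map_nonunit hy, map_zero, zero_pow (by omega)]

/-- The exponents in the expansion of the moment. -/
def w_ex (r m j : ℕ) : ℕ := if j < r then 1 else m - 1

lemma w_ex_sum (r m : ℕ) (hm : 2 ≤ m) : ∑ j : Fin (2 * r), w_ex r m j = r * m := by
  rw [Fin.sum_univ_eq_sum_range (w_ex r m), two_mul, Finset.sum_range_add,
    Finset.sum_congr rfl (f := w_ex r m) (g := fun _ => 1)
      fun j hj => if_pos (Finset.mem_range.1 hj),
    Finset.sum_congr rfl (f := fun j => w_ex r m (r + j)) (g := fun _ => m - 1)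
      fun j _ => if_neg (by omega)]
  simp only [Finset.sum_const, Finset.card_range, smul_eq_mul]
  rw [← mul_add]
  congr 1
  omega

lemma w_expand (r m : ℕ) (s : Finset ℕ) (g : ℕ → ℂ)
    (hg : ∀ b, (starRingEnd ℂ) (g b) = g b ^ (m - 1)) :
    ((‖∑ b ∈ s, g b‖ ^ (2 * r) : ℝ) : ℂ) =
      ∑ t ∈ Fintype.piFinset fun _ : Fin (2 * r) => s, ∏ j, g (t j) ^ w_ex r m j := by
  rw [← Finset.prod_univ_sum (fun _ : Fin (2 * r) => s) fun j b => g b ^ w_ex r m j,
    Fin.prod_univ_eq_prod_range (fun j => ∑ b ∈ s, g b ^ w_ex r m j)]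
  have h1 : ∀ j ∈ Finset.range r, ∑ b ∈ s, g b ^ w_ex r m j = ∑ b ∈ s, g b := by
    intro j hj
    simp only [w_ex, if_pos (Finset.mem_range.1 hj), pow_one]
  have h2 : ∀ j ∈ Finset.range r, ∑ b ∈ s, g b ^ w_ex r m (r + j) =
      (starRingEnd ℂ) (∑ b ∈ s, g b) := by
    intro j _
    simp only [w_ex, if_neg (show ¬ r + j < r by omega), map_sum, hg]
  conv_rhs => rw [two_mul, Finset.prod_range_add, Finset.prod_congr rfl h1,
    Finset.prod_congr rfl h2]
  rw [Finset.prod_const, Finset.prod_const, Finset.card_range, ← mul_pow, Complex.mul_conj,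
    Complex.normSq_eq_norm_sq, pow_mul]
  push_cast
  rfl

lemma w_group {F : Type} [Field F] {n : ℕ} (t : Fin n → ℕ) (ex : Fin n → ℕ) (y : F) :
    ∏ j, (y + (t j : F)) ^ ex j = ∏ v ∈ Finset.univ.image t,
      ((v : F) + y) ^ ∑ j ∈ Finset.univ.filter (fun j => t j = v), ex j := by
  rw [← Finset.prod_fiberwise_of_maps_to (t := Finset.univ.image t) (g := t)
    (fun j hj => Finset.mem_image_of_mem t hj)]
  refine Finset.prod_congr rfl fun v _ => ?_
  rw [← Finset.prod_pow_eq_pow_sum]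
  refine Finset.prod_congr rfl fun j hj => ?_
  rw [(Finset.mem_filter.1 hj).2, add_comm]

lemma w_ndvd {r m s : ℕ} (j : ℕ) (h0 : 0 < s) (h1 : s < m) : ¬ m ∣ s * w_ex r m j := by
  intro h
  have h2 : m ∣ s := by
    unfold w_ex at h
    split_ifs at h
    · rwa [mul_one] at h
    · refine (Nat.dvd_add_right h).1 ⟨s, ?_⟩
      rw [← Nat.mul_succ, mul_comm]
      congr 1
      omega
  exact absurd (Nat.le_of_dvd h0 h2) (by omega)

/-- The `2r`-th moment bound used in Burgess' method. -/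
theorem momentC (r m : ℕ) (hm : 2 ≤ m) : ∃ (C : ℝ) (l0 : ℕ), ∀ l : ℕ, l.Prime → l0 < l →
    m ∣ l - 1 → ∀ ψ : MulChar (ZMod l) ℂ, ψ ≠ 1 → ψ ^ m = 1 → ∀ B : ℕ, B ≤ l →
    ∑ᶠ x : RM K l, ‖∑ b ∈ Finset.range B, etaC K ψ (x + (b : RM K l))‖ ^ (2 * r) ≤
      C * ((B : ℝ) ^ r * (l : ℝ) ^ Module.finrank ℚ K +
        (B : ℝ) ^ (2 * r) * Real.sqrt ((l : ℝ) ^ Module.finrank ℚ K)) := by
  classical
  obtain ⟨C, -, hC⟩ := Pool.Agent.Lib.MP_778b46_nt.GX.ws_main m (r * m) (by omega)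
  refine ⟨max ((r : ℝ) ^ (2 * r)) (max C 1 ^ Module.finrank ℚ K), max 2 (discr K).natAbs,
    fun l hl h hml ψ hψ hψm B hB => ?_⟩
  have : Fact l.Prime := ⟨hl⟩
  obtain ⟨ι, _, F, _, _, e, N, -, hι, hchar, hprod, hs, hz, hN⟩ := w_struct hl (mo_good h).2
  have he : ∀ x, etaC K ψ x = ∏ i, ψ (N i (e x i)) := by
    intro x
    obtain ⟨x, rfl⟩ := Ideal.Quotient.mk_surjective x
    rw [etaC_mk, hN, map_prod]
  let : Fintype (RM K l) := Fintype.ofEquiv _ e.toEquiv.symm
  have hcard : (Fintype.card (RM K l) : ℝ) = (l : ℝ) ^ Module.finrank ℚ K := by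
    rw [← Nat.card_eq_fintype_card, card_RM, Nat.cast_pow]
  set L : ℝ := (l : ℝ) ^ Module.finrank ℚ K with hL
  set S : (Fin (2 * r) → ℕ) → ℂ :=
    fun t => ∑ x : RM K l, ∏ j, etaC K ψ (x + (t j : RM K l)) ^ w_ex r m j with hS
  have hexp : ∑ᶠ x : RM K l, ‖∑ b ∈ Finset.range B, etaC K ψ (x + (b : RM K l))‖ ^ (2 * r) ≤
      ∑ t ∈ Fintype.piFinset fun _ : Fin (2 * r) => Finset.range B, ‖S t‖ := by
    rw [finsum_eq_sum_of_fintype]
    refine le_trans ?_ (norm_sum_le _ _)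
    rw [Finset.sum_comm, ← Finset.sum_congr rfl fun x _ => w_expand r m (Finset.range B)
      (fun b => etaC K ψ (x + (b : RM K l))) fun b => w_conj hm hψm _, ← Complex.ofReal_sum,
      Complex.norm_real]
    exact le_abs_self _
  have htriv : ∀ t, ‖S t‖ ≤ L := by
    intro t
    rw [← hcard, ← Finset.card_univ, ← mul_one (Finset.univ.card : ℝ), ← nsmul_eq_mul]
    refine (norm_sum_le _ _).trans (Finset.sum_le_card_nsmul _ _ _ fun x _ => ?_)
    rw [norm_prod]
    refine Finset.prod_le_one (fun j _ => norm_nonneg _) fun j _ => ?_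
    rw [norm_pow]
    exact pow_le_one₀ (norm_nonneg _) (norm_psi_le ψ _)
  have hfac : ∀ t, S t = ∏ i, ∑ y : F i,
      (ψ.toMonoidHom.comp (N i)) (∏ j, (y + (t j : F i)) ^ w_ex r m j) := by
    intro t
    rw [Fintype.prod_sum]
    refine Fintype.sum_equiv e.toEquiv _ _ fun x => ?_
    simp only [he, map_prod, map_pow, ← Finset.prod_pow]
    rw [Finset.prod_comm]
    refine Finset.prod_congr rfl fun i _ => Finset.prod_congr rfl fun j _ => ?_
    rw [map_add, map_natCast]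
    rfl
  obtain ⟨a, ha⟩ := MulChar.ne_one_iff.1 hψ
  have hgood : ∀ t ∈ Fintype.piFinset fun _ : Fin (2 * r) => Finset.range B,
      (∃ j₀, ∀ j, j ≠ j₀ → t j ≠ t j₀) → ‖S t‖ ≤ max C 1 ^ Module.finrank ℚ K * Real.sqrt L := by
    rintro t ht ⟨j₀, hj₀⟩
    have hlt : ∀ j, t j < l := fun j =>
      (Finset.mem_range.mp (Fintype.mem_piFinset.mp ht j)).trans_le hB
    rw [hfac, norm_prod]
    calc _ ≤ ∏ i, max C 1 * Real.sqrt (Fintype.card (F i)) := by
          refine Finset.prod_le_prod (fun i _ => norm_nonneg _) fun i _ => ?_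
          simp only [w_group t]
          refine (hC (F i) ?_ ℕ _ (fun v => (v : F i)) _ ?_ ?_ ?_ _ ?_ ?_ ?_).trans
            (mul_le_mul_of_nonneg_right (le_max_left _ _) (Real.sqrt_nonneg _))
          · obtain ⟨n, -, hn⟩ := FiniteField.card (F i) l
            rw [hn]
            exact hml.trans (Nat.sub_one_dvd_pow_sub_one l n)
          · intro u hu v hv huv
            obtain ⟨j, -, rfl⟩ := Finset.mem_image.1 (Finset.mem_coe.1 hu)
            obtain ⟨k, -, rfl⟩ := Finset.mem_image.1 (Finset.mem_coe.1 hv)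
            exact CharP.natCast_injOn_Iio (F i) l (hlt j) (hlt k) huv
          · rw [Finset.sum_fiberwise_of_maps_to (fun j hj => Finset.mem_image_of_mem t hj)]
            exact w_ex_sum r m hm
          · intro s h0 h1
            refine ⟨t j₀, Finset.mem_image_of_mem t (Finset.mem_univ _), ?_⟩
            rw [Finset.sum_eq_single_of_mem j₀ (by simp) fun j hj hne =>
              absurd (Finset.mem_filter.1 hj).2 (hj₀ j hne)]
            exact w_ndvd _ h0 h1
          · exact (congrArg ψ (hz i)).trans ψ.map_zero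
          · exact fun y hy => w_pow hm hψm (hy.isUnit.map (N i))
          · obtain ⟨y, hy⟩ := hs i a
            refine ⟨y, fun h0 => a.ne_zero (by rw [← hy, h0, hz]), ?_⟩
            exact fun h1 => ha (hy ▸ h1)
      _ = max C 1 ^ Fintype.card ι * Real.sqrt L := by
          rw [Finset.prod_mul_distrib, Finset.prod_const, Finset.card_univ,
            ← Real.sqrt_prod _ (fun i _ => Nat.cast_nonneg _), ← Nat.cast_prod, hprod,
            Nat.cast_pow]
      _ ≤ max C 1 ^ Module.finrank ℚ K * Real.sqrt L :=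
          mul_le_mul_of_nonneg_right (pow_le_pow_right₀ (le_max_right _ _) hι)
            (Real.sqrt_nonneg _)
  have hL0 : 0 ≤ L := by positivity
  have hC0 : 0 ≤ max C 1 ^ Module.finrank ℚ K * Real.sqrt L :=
    mul_nonneg (pow_nonneg (zero_le_one.trans (le_max_right _ _)) _) (Real.sqrt_nonneg _)
  refine hexp.trans ?_
  rw [← Finset.sum_filter_add_sum_filter_not _ (fun t => ∃ j₀, ∀ j, j ≠ j₀ → t j ≠ t j₀)]
  have h1 : ∑ t ∈ (Fintype.piFinset fun _ : Fin (2 * r) => Finset.range B).filter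
      (fun t => ∃ j₀, ∀ j, j ≠ j₀ → t j ≠ t j₀), ‖S t‖ ≤
      (B : ℝ) ^ (2 * r) * (max C 1 ^ Module.finrank ℚ K * Real.sqrt L) := by
    refine (Finset.sum_le_card_nsmul _ _ _ fun t ht =>
      hgood t (Finset.mem_filter.mp ht).1 (Finset.mem_filter.mp ht).2).trans ?_
    rw [nsmul_eq_mul]
    refine mul_le_mul_of_nonneg_right ?_ hC0
    have h3 := Finset.card_filter_le (Fintype.piFinset fun _ : Fin (2 * r) => Finset.range B)
      (fun t => ∃ j₀, ∀ j, j ≠ j₀ → t j ≠ t j₀)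
    rw [Fintype.card_piFinset_const, Finset.card_range] at h3
    exact_mod_cast h3
  have h2 : ∑ t ∈ (Fintype.piFinset fun _ : Fin (2 * r) => Finset.range B).filter
      (fun t => ¬ ∃ j₀, ∀ j, j ≠ j₀ → t j ≠ t j₀), ‖S t‖ ≤ (B : ℝ) ^ r * (r : ℝ) ^ (2 * r) * L := by
    refine (Finset.sum_le_card_nsmul _ _ _ fun t _ => htriv t).trans ?_
    rw [nsmul_eq_mul]
    refine mul_le_mul_of_nonneg_right ?_ hL0
    exact_mod_cast mo_count r B
  have h4 : (B : ℝ) ^ (2 * r) * (max C 1 ^ Module.finrank ℚ K * Real.sqrt L) ≤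
      max ((r : ℝ) ^ (2 * r)) (max C 1 ^ Module.finrank ℚ K) *
        ((B : ℝ) ^ (2 * r) * Real.sqrt L) := by
    rw [mul_left_comm]
    exact mul_le_mul_of_nonneg_right (le_max_right _ _) (by positivity)
  have h5 : (B : ℝ) ^ r * (r : ℝ) ^ (2 * r) * L ≤
      max ((r : ℝ) ^ (2 * r)) (max C 1 ^ Module.finrank ℚ K) * ((B : ℝ) ^ r * L) := by
    rw [mul_comm ((B : ℝ) ^ r), mul_assoc]
    exact mul_le_mul_of_nonneg_right (le_max_left _ _) (by positivity)
  rw [mul_add]
  linarith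

end Pool.Agent.RT
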