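import Pool.Agent.Lib.MP_e97e2b_nt.RT.Defs

/-! Annihilating polynomials of an `l`-adic matrix. -/

set_option autoImplicit false

namespace Pool.Agent.RT

open Matrix Polynomial

noncomputable section

theorem aAnn_charpoly {m : Type} [Fintype m] [DecidableEq m] {l : ℕ} [Fact l.Prime]
    (A : Matrix m m ℤ_[l]) : (bar A).charpoly = A.charpoly.map PadicInt.toZMod :=
  Matrix.charpoly_map A _

theorem aAnn_map {l : ℕ} [Fact l.Prime] (Q : ℤ[X]) :
    (Q.map (Int.castRingHom ℤ_[l])).map PadicInt.toZMod = Q.map (Int.castRingHom (ZMod l)) := by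
  rw [Polynomial.map_map, RingHom.ext_int (RingHom.comp _ _) (Int.castRingHom (ZMod l))]

theorem aAnn_aeval {m : Type} [Fintype m] [DecidableEq m] {l : ℕ} [Fact l.Prime]
    (A : Matrix m m ℤ_[l]) (c : ℤ_[l][X]) :
    aeval (bar A) (c.map PadicInt.toZMod) = bar (aeval A c) :=
  (Polynomial.map_aeval_eq_aeval_map (φ := PadicInt.toZMod)
    (ψ := (PadicInt.toZMod : ℤ_[l] →+* ZMod l).mapMatrix) (by
      ext x i j
      by_cases h : i = j <;> simp [Matrix.algebraMap_eq_diagonal, h]) c A).symm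

theorem a_ann {m : Type} [Fintype m] [DecidableEq m] [Nonempty m] {l : ℕ} [Fact l.Prime]
    {A : Matrix m m ℤ_[l]} {Q : ℤ[X]} (hQ : Q.Monic) (h : Ann A Q) :
    1 ≤ Q.natDegree ∧ Q.natDegree ≤ Fintype.card m ∧
      Q.map (Int.castRingHom (ZMod l)) ∣ (bar A).charpoly ∧
      ∀ a : ZMod l, (bar A).charpoly.IsRoot a → aeval a Q = 0 := by
  have h0 : aeval A (Q.map (Int.castRingHom ℤ_[l])) = 0 := (h _).2 dvd_rfl
  have h1 : Q.map (Int.castRingHom ℤ_[l]) ∣ A.charpoly := (h _).1 A.aeval_self_charpoly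
  refine ⟨?_, ?_, ?_, fun a ha => ?_⟩
  · by_contra h2
    rw [hQ.natDegree_eq_zero.1 (by omega), Polynomial.map_one, map_one] at h0
    exact one_ne_zero h0
  · have h2 := natDegree_le_of_dvd h1 A.charpoly_monic.ne_zero
    rwa [hQ.natDegree_map, charpoly_natDegree_eq_dim] at h2
  · rw [aAnn_charpoly, ← aAnn_map]
    exact Polynomial.map_dvd _ h1
  · have h2 := spectrum.subset_polynomial_aeval (bar A) (Q.map (Int.castRingHom (ZMod l)))
      ⟨a, Matrix.mem_spectrum_iff_isRoot_charpoly.2 ha, rfl⟩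
    have h3 : bar (0 : Matrix m m ℤ_[l]) = 0 := Matrix.map_zero _ (map_zero _)
    rw [← aAnn_map, aAnn_aeval, h0, h3, spectrum.zero_eq, Set.mem_singleton_iff, aAnn_map] at h2
    exact (eval_map (p := Q) (Int.castRingHom (ZMod l)) a).symm.trans h2

theorem a_uniq {m : Type} [Fintype m] [DecidableEq m] {l : ℕ} [Fact l.Prime]
    {A : Matrix m m ℤ_[l]} {Q Q' : ℤ[X]} (hQ : Q.Monic) (hQ' : Q'.Monic) (h : Ann A Q)
    (h' : Ann A Q') : Q = Q' :=
  Polynomial.map_injective (Int.castRingHom ℤ_[l]) Int.cast_injective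
    (eq_of_monic_of_associated (hQ.map _) (hQ'.map _) (associated_of_dvd_dvd
      ((h _).1 ((h' _).2 dvd_rfl)) ((h' _).1 ((h _).2 dvd_rfl))))

theorem a_unit {m m' : Type} [Fintype m] [DecidableEq m] [Fintype m'] [DecidableEq m'] {l : ℕ}
    [Fact l.Prime] {A : Matrix m m ℤ_[l]} {B : Matrix m' m' ℤ_[l]} (h : aeval B A.charpoly = 0)
    (h1 : ¬ (bar A).charpoly.IsRoot 1) : IsUnit (B - 1) := by
  have h2 : IsUnit (A.charpoly.eval 1) := by
    by_contra h3
    apply h1
    have h4 : A.charpoly.eval 1 ∈ RingHom.ker (PadicInt.toZMod : ℤ_[l] →+* ZMod l) := by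
      rw [PadicInt.ker_toZMod]
      exact h3
    rw [aAnn_charpoly, IsRoot, ← map_one (PadicInt.toZMod : ℤ_[l] →+* ZMod l), eval_map,
      eval₂_hom]
    exact h4
  have h3 := congrArg (aeval B) (X_sub_C_mul_divByMonic_eq_sub_modByMonic A.charpoly 1)
  rw [modByMonic_X_sub_C_eq_C_eval, map_sub, h, zero_sub, map_mul, map_sub, aeval_X, aeval_C,
    aeval_C, map_one] at h3
  have h4 : IsUnit ((B - 1) * aeval B (A.charpoly /ₘ (X - C 1))) := by
    rw [h3]
    exact (h2.map _).neg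
  exact isUnit_of_mul_isUnit_left h4

end

end Pool.Agent.RT
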