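import Pool.Agent.Lib.MP_e97e2b_nt.RT.Stmt
import Pool.Agent.Lib.MP_e97e2b_nt.RT.G.Ext3
import Pool.Agent.Lib.MP_33b3f9_ag.M4.B2.Res
import Pool.Agent.Lib.MP_33b3f9_ag.Un.SCj
import Pool.Agent.Lib.MP_33b3f9_ag.Un.TAdic

/-! Interfaces between the blocks. -/

set_option autoImplicit false

namespace Pool.Agent.RT

open Matrix Polynomial RG RG.B2
open _root_.M4 (InH Hol U rz XX bz ee E Th hf Gam)
open _root_.M4.B2 (psi kk res cj norm_aut)
open _root_.M4.Un (Rv Ty Gr)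

noncomputable section

/-- Automorphisms of `ℂ` over `K`. -/
abbrev GK (K : IntermediateField ℚ ℂ) : Type := ℂ ≃ₐ[K] ℂ

/-- The local Galois group. -/
abbrev GQ (p : ℕ) [Fact p.Prime] : Type := PadicAlgCl p ≃ₐ[ℚ_[p]] PadicAlgCl p

/-- Index set of the lattice of `A`. -/
abbrev κ (g : ℕ) : Type := Fin g ⊕ Fin g

/-- A family of representations, one for every prime. -/
abbrev Fam (Γ : Type) [Group Γ] (m : Type) [Fintype m] [DecidableEq m] : Type :=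
  ∀ (l : ℕ) [Fact l.Prime], Γ →* GL m ℤ_[l]

/-- `σ` raises the `l`-th roots of unity to the power `a`. -/
def IsChi {F : Type} [Field F] (l : ℕ) (σ : F → F) (a : ZMod l) : Prop :=
  ∀ z : F, z ^ l = 1 → σ z = z ^ a.val

/-- The inertia group. -/
def Inr (p : ℕ) [Fact p.Prime] : Subgroup (GQ p) where
  carrier := {t | ∀ x, ‖x‖ ≤ 1 → ‖t x - x‖ < 1}
  one_mem' := fun x _ => by simp
  mul_mem' := fun {s t} hs ht x hx => by
    have h1 := hs (t x) (by rwa [norm_aut])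
    have h2 := IsUltrametricDist.norm_add_le_max (s (t x) - t x) (t x - x)
    rw [sub_add_sub_cancel] at h2
    exact h2.trans_lt (max_lt h1 (ht x hx))
  inv_mem' := fun {t} ht x hx => by
    have h1 := ht (t⁻¹ x) (by rwa [norm_aut])
    rw [norm_sub_rev]
    simpa using h1

/-- The tame character of `z`. -/
def tm {p : ℕ} [Fact p.Prime] (t : GQ p) (z : PadicAlgCl p) : kk p := res (t z / z)

/-- `Q` generates the ideal of the polynomials that kill `A`. -/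
def Ann {m : Type} [Fintype m] [DecidableEq m] {l : ℕ} [Fact l.Prime] (A : Matrix m m ℤ_[l])
    (Q : ℤ[X]) : Prop :=
  ∀ c : ℤ_[l][X], aeval A c = 0 ↔ Q.map (Int.castRingHom ℤ_[l]) ∣ c

/-- The reduction of an `l`-adic matrix. -/
def bar {m n : Type} {l : ℕ} [Fact l.Prime] (A : Matrix m n ℤ_[l]) : Matrix m n (ZMod l) :=
  A.map PadicInt.toZMod

/-- `r` gives the action `R` on all torsion points. -/
def Tate {m : Type} [Fintype m] [DecidableEq m] (R : (m → ℝ) → (m → ℝ) → Prop)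
    (r : ∀ l : Nat.Primes, GL m ℤ_[l]) : Prop :=
  ∀ q q' : m → ℚ, (∀ (l : Nat.Primes) i,
    ‖(((r l : Matrix m m ℤ_[l]).map fun x => (x : ℚ_[l])) *ᵥ fun j => (q j : ℚ_[l])) i - q' i‖ ≤ 1) →
      R (fun i => q i) fun i => q' i

section A

variable {K : IntermediateField ℚ ℂ} {g : ℕ}

/-- `σ` maps the point `x` to the point `y`. -/
def RA {m c α : Type} (p : (m → ℝ) ≃ₗ[ℝ] (c → ℂ)) (u : (c → ℂ) → α → ℂ) (σ : GK K)
    (x y : m → ℝ) : Prop := ∃ c : ℂ, ∀ a, σ (u (p x) a) = c * u (p y) a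

/-- The constituents of the `l`-torsion are the powers `χ ^ ex s` of the cyclotomic character. -/
structure Flag (r : Fam (GK K) (κ g)) (l : ℕ) [Fact l.Prime] (ex : κ g → ℕ) : Prop where
  cp : ∀ (σ : GK K) (a : ZMod l), IsChi l σ a →
    (bar (r l σ : Matrix (κ g) (κ g) ℤ_[l])).charpoly = ∏ s, (X - C (a ^ ex s))
  sub : ∀ s, ∃ (W : Submodule (ZMod l) (κ g → ZMod l)) (x : κ g → ZMod l), x ∉ W ∧
    (∀ σ, ∀ w ∈ W, bar (r l σ : Matrix (κ g) (κ g) ℤ_[l]) *ᵥ w ∈ W) ∧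
    ∀ (σ : GK K) (a : ZMod l), IsChi l σ a →
      bar (r l σ : Matrix (κ g) (κ g) ℤ_[l]) *ᵥ x - a ^ ex s • x ∈ W

end A

section B

variable [Dim]

/-- Conjugation by `s` preserves the sections of level four, the points move by `R`. -/
def Fw (τ : Mat) (s : ℂ ≃+* ℂ) (R : ∀ l : Nat.Primes, GL ν ℤ_[l]) : Prop :=
  ∀ f ∈ GA τ 1, (fun x => s (f ((rho R).symm x))) ∈ GA τ 1

/-- Good reduction of the theta structure at `e`. -/
def Good (τ : Mat) {P : Nat.Primes} (e : ℂ ≃+* PadicAlgCl P) : Prop :=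
  ∃ D : TD0 Bits, D.Γ = GA τ ∧ D.X = XA τ D.i0 ∧ (∀ a b i j l m, ‖e (D.cl a b i j l m)‖ ≤ 1) ∧
    ∀ a b, ‖e (D.cd a b)‖ ≤ 1

/-- The data of the descent, symmetric case, all levels. -/
structure Da (K : IntermediateField ℚ ℂ) {α : Type} (τ : Mat) (Λ : AddSubgroup (ν → ℤ)) (D : ℕ)
    (m : ℝ) (v : α → (ν → ℝ) → ℂ) : Prop where
  inH : InH τ
  D0 : D ≠ 0
  mem : ∀ n : ν → ℤ, (D : ℤ) • n ∈ Λ
  hol : ∀ a, v a ∈ Hol τ m
  nz : ∀ w, ∃ a, v a w ≠ 0
  law : ∀ n ∈ Λ, ∀ a, U m (rz n) (v a) = v a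
  ex : ∀ (σ : GK K) w, ∃ w', Rv v σ w w'
  sub : ∀ (σ : GK K) a a' b b', Rv v σ a a' → Rv v σ b b' → Rv v σ (a - b) (a' - b')
  un : ∀ (σ : GK K) w a b, Rv v σ w a → Rv v σ w b → ∃ n ∈ Λ, a - b = rz n
  rat : ∀ k : ℕ, ∀ f ∈ Hol τ (k * m), Ty v k f → ∀ w₀, ∃ (e : ℕ) (P Q : MvPolynomial α ℂ),
    P.IsHomogeneous (e + k) ∧ Q.IsHomogeneous e ∧ MvPolynomial.eval (fun a => v a w₀) Q ≠ 0 ∧
      ∀ w, f w * MvPolynomial.eval (fun a => v a w) Q = MvPolynomial.eval (fun a => v a w) P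

end B

/-- A uniformisation by sections of a symmetric bundle with trivial semicharacter. -/
structure Sy (K : IntermediateField ℚ ℂ) {m c α : Type} (p : (m → ℝ) ≃ₗ[ℝ] (c → ℂ))
    [Fintype c] (w : (c → ℂ) → α → ℂ) (S : (c → ℂ) →ₗ[ℝ] (c → ℂ) →ₗ[ℝ] ℝ) : Prop where
  hol : ∀ a, Differentiable ℂ fun z => w z a
  nz : ∀ z, w z ≠ 0
  sym : ∀ z z', S z z' = S z' z
  cx : ∀ z z', S (Complex.I • z) (Complex.I • z') = S z z'
  pos : ∀ z ≠ 0, 0 < S z z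
  law : ∀ (n : m → ℤ) z, w (z + p (rz n)) = Complex.exp (Real.pi * (S (p (rz n)) (p (rz n)) / 2 +
    S z (p (rz n)) - Complex.I * S (Complex.I • z) (p (rz n)))) • w z
  gr : ∀ σ : GK K, Gr (RA p w σ)
  rat : ∀ (k : ℕ) (s : (c → ℂ) → ℂ), Differentiable ℂ s →
    (∀ z z' (d : ℂ), w z = d • w z' → s z = d ^ k * s z') → ∀ z₀,
      ∃ (e : ℕ) (P Q : MvPolynomial α ℂ), P.IsHomogeneous (e + k) ∧ Q.IsHomogeneous e ∧
        MvPolynomial.eval (w z₀) Q ≠ 0 ∧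
          ∀ z, s z * MvPolynomial.eval (w z) Q = MvPolynomial.eval (w z) P

/-- The `i`-th block of a vector with eight blocks. -/
def blk {m R : Type} (x : Fin 8 × m → R) (i : Fin 8) : m → R := fun a => x (i, a)

/-- Eight diagonal copies of a matrix. -/
def d8 {m R : Type} [Zero R] (A : Matrix m m R) : Matrix (Fin 8 × m) (Fin 8 × m) R :=
  fun x y => if x.1 = y.1 then A x.2 y.2 else 0

end

end Pool.Agent.RT
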