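import Pool.Agent.Lib.MP_33b3f9_ag.MG.Sv.Bes

/-! The number of characters with a large sum over primes is bounded. -/

set_option autoImplicit false

namespace Pool.Agent.RT

open M4.NT MG.Sv Finset Filter ComplexConjugate

theorem ex_off {ψ : ℕ →* ℂ} (h1 : ∀ n, ‖ψ n‖ ≤ 1) {B : ℝ} (h2 : ∀ R, ‖∑ n ∈ range R, ψ n‖ ≤ B)
    {c : ℂ} (hc : ‖c‖ = 1) {M N : ℕ} (hM : 0 < M) (hMN : M ≤ N) (q : ℕ) (hq : 0 < q) :
    |∑ n ∈ Ico M N, (if q ∣ n then (c * ψ n).re * (n : ℝ)⁻¹ else 0) - 0 / q| ≤ 2 * B / M := by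
  refine le_trans (le_of_eq (congrArg _ ?_)) (bes_abel
    (fun n => if q ∣ n then (c * ψ n).re else 0) (fun R => ?_) hM hMN)
  · rw [zero_div, sub_zero]
    exact sum_congr rfl fun n _ => by split_ifs <;> ring
  · obtain ⟨k, -, -, h3⟩ := bes_mult hq R
    rw [h3 fun n => (c * ψ n).re, ← Complex.re_sum]
    simp only [map_mul, ← mul_sum]
    refine (Complex.abs_re_le_norm _).trans ?_
    rw [norm_mul, hc, one_mul, norm_mul]
    exact (mul_le_of_le_one_left (norm_nonneg _) (h1 q)).trans (h2 k)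

theorem ex_diag {Z A u : ℕ} (hZ : 3 ≤ Z) (hu : 5 ≤ u) (hA : 1 ≤ A) {W : ℕ → ℝ} {γ : ℝ}
    (g0 : 0 ≤ γ) (g1 : γ * Real.log Z ≤ 1) (hS : ∀ (N : Finset ℕ) (g : ℕ → ℝ) (m ε : ℝ),
      (∀ q : ℕ, 0 < q → |∑ n ∈ N, (if q ∣ n then g n else 0) - m / q| ≤ ε) → 1 ≤ Z →
      |∑ n ∈ N, W n ^ 2 * g n - m * γ| ≤ (Z : ℝ) ^ 4 * ε) :
    ∑ n ∈ Ico (Z ^ u) ((Z ^ A) ^ u + 1), W n ^ 2 * (n : ℝ)⁻¹ ≤ A * u + 2 := by
  have hZ' : (3 : ℝ) ≤ Z := by exact_mod_cast hZ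
  have hM : 0 < Z ^ u := by positivity
  have hMN : Z ^ u ≤ (Z ^ A) ^ u + 1 :=
    (Nat.pow_le_pow_left (Nat.le_self_pow (by omega) Z) u).trans (Nat.le_succ _)
  have hlog : 1 ≤ Real.log Z := by
    rw [Real.le_log_iff_exp_le (by linarith)]
    exact Real.exp_one_lt_d9.le.trans (by linarith)
  have k1 := (abs_le.1 (hS _ _ _ _ (bes_diag hM hMN) (by omega))).2
  have k2 : ∑ n ∈ Ico (Z ^ u) ((Z ^ A) ^ u + 1), (n : ℝ)⁻¹ ≤ 1 + A * u * Real.log Z := by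
    have k3 := harmonic_le_one_add_log ((Z ^ A) ^ u)
    rw [harmonic_eq_sum_Icc] at k3
    push_cast at k3
    rw [Real.log_pow, Real.log_pow] at k3
    refine (sum_le_sum_of_subset_of_nonneg (fun n hn => ?_) fun _ _ _ => by positivity).trans
      (k3.trans (le_of_eq (by ring)))
    rw [mem_Ico] at hn
    exact mem_Icc.2 ⟨by omega, by omega⟩
  have k4 : (Z : ℝ) ^ 4 * (2 * 1 / (Z ^ u : ℕ)) ≤ 1 := by
    rw [mul_div_assoc', div_le_one (by positivity), Nat.cast_pow]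
    calc (Z : ℝ) ^ 4 * (2 * 1) ≤ (Z : ℝ) ^ 4 * Z := by gcongr; linarith
      _ = (Z : ℝ) ^ 5 := by ring
      _ ≤ _ := pow_le_pow_right₀ (by linarith) hu
  have k5 := mul_le_mul_of_nonneg_right k2 g0
  have k6 : (A : ℝ) * u * (γ * Real.log Z) ≤ A * u := mul_le_of_le_one_right (by positivity) g1
  nlinarith

/-- The product of a multiplicative function and the conjugate of another one. -/
def cmul (f g : ℕ →* ℂ) : ℕ →* ℂ := f * ((starRingEnd ℂ : ℂ →* ℂ).comp g)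

theorem cmul_apply (f g : ℕ →* ℂ) (n : ℕ) : cmul f g n = f n * conj (g n) := rfl

theorem ex_dual {Z A b : ℕ} (hZ : 3 ≤ Z) (hA : 1 ≤ A) : ∃ W : ℕ → ℝ,
    (∀ n, (∀ p, p.Prime → p ∣ n → Z < p) → W n = 1) ∧
    ∀ (D : Finset ℕ) (χ : ℕ → ℕ →* ℂ) (c : ℕ → ℂ), (∀ l, ‖c l‖ = 1) → (∀ l n, ‖χ l n‖ ≤ 1) →
    (∀ l ∈ D, ∀ l' ∈ D, l ≠ l' → ∀ R, ‖∑ n ∈ range R, cmul (χ l) (χ l') n‖ ≤ (Z : ℝ) ^ b) →
    ∑ n ∈ Ico (Z ^ (b + 5)) ((Z ^ A) ^ (b + 5) + 1),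
      W n ^ 2 * (‖∑ l ∈ D, c l * χ l n‖ ^ 2 * (n : ℝ)⁻¹) ≤
      D.card * (A * (b + 5 : ℕ) + 2) + (D.card : ℝ) ^ 2 * (2 / Z) := by
  obtain ⟨W, γ, g0, g1, hW, hS⟩ := selberg Z
  refine ⟨W, fun n hn => hW n hn (by omega), fun D χ c hc hχ hD => ?_⟩
  have h2 := ex_diag hZ (Nat.le_add_left 5 b) hA g0 g1 hS
  generalize hu : b + 5 = u at h2 ⊢
  have hZ' : (3 : ℝ) ≤ Z := by exact_mod_cast hZ
  have hM : 0 < Z ^ u := by positivity
  have hMN : Z ^ u ≤ (Z ^ A) ^ u + 1 :=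
    (Nat.pow_le_pow_left (Nat.le_self_pow (by omega) Z) u).trans (Nat.le_succ _)
  have h0 : ∀ a e n, ‖cmul (χ a) (χ e) n‖ ≤ 1 := fun a e n => by
    rw [cmul_apply, norm_mul, Complex.norm_conj]
    exact mul_le_one₀ (hχ a n) (norm_nonneg _) (hχ e n)
  have h3 : ∀ a e, ‖c a * conj (c e)‖ = 1 := fun a e => by
    rw [norm_mul, Complex.norm_conj, hc, hc, one_mul]
  have h1 : ∀ x, ‖∑ l ∈ D, c l * χ l x‖ ^ 2
      = ∑ a ∈ D, ∑ e ∈ D, (c a * conj (c e) * cmul (χ a) (χ e) x).re := by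
    intro x
    rw [← Complex.ofReal_re (_ ^ 2), Complex.ofReal_pow, ← Complex.mul_conj', map_sum, sum_mul_sum,
      Complex.re_sum]
    refine sum_congr rfl fun a _ => ?_
    rw [Complex.re_sum]
    refine sum_congr rfl fun e _ => congrArg _ ?_
    rw [cmul_apply, map_mul]
    ring
  simp only [h1, sum_mul, mul_sum]
  rw [sum_comm]
  refine (sum_le_card_nsmul D _ (((A : ℝ) * u + 2) + D.card * (2 / Z)) fun a ha => ?_).trans
    (le_of_eq (by rw [nsmul_eq_mul]; ring))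
  rw [sum_comm]
  calc _ ≤ ∑ e ∈ D, ((if e = a then (A * u + 2 : ℝ) else 0) + 2 / Z) := by
        refine sum_le_sum fun e he => ?_
        split_ifs with hac
        · refine le_trans (sum_le_sum fun n _ => ?_) (h2.trans (le_add_of_nonneg_right
            (by positivity)))
          refine mul_le_mul_of_nonneg_left (mul_le_of_le_one_left (by positivity)
            ((Complex.re_le_norm _).trans ?_)) (sq_nonneg _)
          rw [norm_mul, h3, one_mul]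
          exact h0 a e n
        · have k1 := (abs_le.1 (hS _ _ _ _ (ex_off (h0 a e) (hD a ha e he fun h => hac h.symm)
            (h3 a e) hM hMN) (by omega))).2
          rw [zero_mul, sub_zero] at k1
          refine k1.trans (le_of_eq ?_)
          rw [← hu]
          push_cast
          field_simp
          ring
    _ = _ := by rw [sum_add_distrib, sum_ite_eq' D a, if_pos ha]; simp

theorem ex_bessel (A b : ℕ) (hA : 1 ≤ A) {μ0 δ : ℝ} (hμ : 0 < μ0) (hδ : 0 < δ) :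
    ∃ K0 : ℕ, ∀ᶠ Z : ℕ in atTop, ∀ (LL D : Finset ℕ) (χ : ℕ → ℕ →* ℂ),
    (∀ p ∈ LL, p.Prime ∧ Z < p ∧ p ≤ Z ^ A) → μ0 ≤ ∑ p ∈ LL, (p : ℝ)⁻¹ → (∀ l n, ‖χ l n‖ ≤ 1) →
    (∀ l ∈ D, δ * ∑ p ∈ LL, (p : ℝ)⁻¹ ≤ ‖∑ p ∈ LL, χ l p * (p : ℂ)⁻¹‖) →
    (∀ l ∈ D, ∀ l' ∈ D, l ≠ l' → ∀ R, ‖∑ n ∈ range R, cmul (χ l) (χ l') n‖ ≤ (Z : ℝ) ^ b) →
    D.card ≤ K0 := by
  obtain ⟨u, hu⟩ : ∃ u, u = b + 5 := ⟨_, rfl⟩
  obtain ⟨κ, hκ⟩ : ∃ κ : ℝ, κ = (δ ^ 2 * μ0) ^ u := ⟨_, rfl⟩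
  have hκ0 : 0 < κ := by rw [hκ]; positivity
  refine ⟨⌈2 * ((u : ℝ) ^ u * (A * u + 2)) / κ⌉₊, ?_⟩
  filter_upwards [eventually_ge_atTop 3, (tendsto_natCast_atTop_atTop (R := ℝ)).eventually_ge_atTop
    (4 * (u : ℝ) ^ u / κ)] with Z hZ hZ' LL D χ hL hm hχ hD hD'
  obtain ⟨W, hW, h5⟩ := ex_dual (b := b) hZ hA
  choose c hc hc' using fun l =>
    Complex.exists_norm_eq_mul_self ((∑ p ∈ LL, χ l p * (p : ℂ)⁻¹) ^ u)
  replace h5 := h5 D χ c hc hχ hD'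
  rw [← hu] at h5
  set μ := ∑ l ∈ LL, (l : ℝ)⁻¹ with hμ'
  have hμ1 : 0 < μ := hμ.trans_le hm
  set X := Fintype.piFinset fun _ : Fin u => LL with hX
  set F : ℕ → ℝ := fun x => ‖∑ l ∈ D, c l * χ l x‖ with hF
  have e0 : ∀ {R : Type} [CommSemiring R] (g : ℕ → R),
      ∑ f ∈ X, ∏ i, g (f i) = (∑ l ∈ LL, g l) ^ u := fun g => by
    rw [← prod_univ_sum (f := fun _ l => g l)]
    simp
  have h1 : ∀ l ∈ D, (δ * μ) ^ u ≤
      (∑ f ∈ X, c l * χ l (∏ i, f i) * ((∏ i, f i : ℕ) : ℂ)⁻¹).re := fun l hl => by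
    have e1 : ∑ f ∈ X, c l * χ l (∏ i, f i) * ((∏ i, f i : ℕ) : ℂ)⁻¹ =
        c l * (∑ p ∈ LL, χ l p * (p : ℂ)⁻¹) ^ u := by
      rw [← e0, mul_sum]
      refine sum_congr rfl fun f _ => ?_
      rw [map_prod, prod_mul_distrib, prod_inv_distrib, Nat.cast_prod, mul_assoc]
    rw [e1, ← hc', Complex.ofReal_re, norm_pow]
    exact pow_le_pow_left₀ (by positivity) (hD l hl) u
  have h2 : (D.card : ℝ) * (δ * μ) ^ u ≤ ∑ f ∈ X, F (∏ i, f i) * ((∏ i, f i : ℕ) : ℝ)⁻¹ := by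
    refine (le_trans (le_of_eq (by simp)) (sum_le_sum h1)).trans ?_
    rw [← Complex.re_sum, sum_comm, Complex.re_sum]
    refine sum_le_sum fun f _ => (Complex.re_le_norm _).trans (le_of_eq ?_)
    rw [← sum_mul, norm_mul, norm_inv, Complex.norm_natCast]
  have h3 : (∑ f ∈ X, F (∏ i, f i) * ((∏ i, f i : ℕ) : ℝ)⁻¹) ^ 2 ≤
      μ ^ u * ∑ f ∈ X, F (∏ i, f i) ^ 2 * ((∏ i, f i : ℕ) : ℝ)⁻¹ := by
    rw [hμ', ← e0]
    refine sum_sq_le_sum_mul_sum_of_sq_le_mul X (fun f _ => prod_nonneg fun _ _ => by positivity)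
      (fun f _ => by positivity) fun f _ => le_of_eq ?_
    rw [prod_inv_distrib, ← Nat.cast_prod]
    ring
  have h4 : ∑ f ∈ X, F (∏ i, f i) ^ 2 * ((∏ i, f i : ℕ) : ℝ)⁻¹ ≤ (u : ℝ) ^ u *
      ∑ n ∈ Ico (Z ^ u) ((Z ^ A) ^ u + 1), W n ^ 2 * (F n ^ 2 * (n : ℝ)⁻¹) := by
    have e1 : ∀ f ∈ X, F (∏ i, f i) ^ 2 * ((∏ i, f i : ℕ) : ℝ)⁻¹ =
        W (∏ i, f i) ^ 2 * (F (∏ i, f i) ^ 2 * ((∏ i, f i : ℕ) : ℝ)⁻¹) := fun f hf => by
      rw [hW _ fun p hp hd => ?_, one_pow, one_mul]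
      obtain ⟨j, -, hj⟩ := (Prime.dvd_finsetProd_iff hp.prime f).1 hd
      have := hL _ (Fintype.mem_piFinset.1 hf j)
      rw [(Nat.prime_dvd_prime_iff_eq hp this.1).1 hj]
      exact this.2.1
    rw [sum_congr rfl e1, ← sum_fiberwise_of_maps_to (t := Ico (Z ^ u) ((Z ^ A) ^ u + 1))
      (g := fun f => ∏ i, f i), mul_sum]
    · refine sum_le_sum fun x _ => ?_
      rw [sum_congr rfl fun f hf => by rw [(mem_filter.mp hf).2], sum_const, nsmul_eq_mul]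
      refine mul_le_mul_of_nonneg_right ?_ (by positivity)
      exact_mod_cast ls_fiber LL (fun l hl => (hL l hl).1) x
    · intro f hf
      rw [mem_Ico, Nat.lt_succ_iff]
      constructor
      · calc Z ^ u = ∏ _i : Fin u, Z := by simp
          _ ≤ _ := prod_le_prod' fun i _ => (hL _ (Fintype.mem_piFinset.mp hf i)).2.1.le
      · calc ∏ i, f i ≤ ∏ _i : Fin u, Z ^ A :=
              prod_le_prod' fun i _ => (hL _ (Fintype.mem_piFinset.mp hf i)).2.2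
          _ = (Z ^ A) ^ u := by simp
  rcases Nat.eq_zero_or_pos D.card with h0 | h0
  · omega
  have hJ : (0 : ℝ) < D.card := by exact_mod_cast h0
  have h6 := (pow_le_pow_left₀ (by positivity) h2 2).trans (h3.trans (mul_le_mul_of_nonneg_left
    (h4.trans (mul_le_mul_of_nonneg_left h5 (by positivity))) (by positivity)))
  generalize (D.card : ℕ) = J at hJ h6 ⊢
  have h7 : κ ≤ (δ ^ 2 * μ) ^ u := hκ ▸ pow_le_pow_left₀ (by positivity) (by gcongr) u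
  have h8 : (J * μ ^ u) * (J * (δ ^ 2 * μ) ^ u) ≤
      (J * μ ^ u) * ((u : ℝ) ^ u * (A * u + 2) + J * ((u : ℝ) ^ u * (2 / Z))) := by
    refine le_trans (le_of_eq ?_) (h6.trans (le_of_eq (by ring)))
    rw [mul_pow (J : ℝ), ← pow_mul, mul_comm u 2, pow_mul,
      show (δ * μ) ^ 2 = μ * (δ ^ 2 * μ) by ring, mul_pow μ]
    ring
  have h9 := le_of_mul_le_mul_left h8 (by positivity)
  have hZ0 : (0 : ℝ) < Z := by exact_mod_cast (by omega : 0 < Z)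
  have h10 : (u : ℝ) ^ u * (2 / Z) ≤ κ / 2 := by
    rw [div_le_iff₀ hκ0] at hZ'
    rw [mul_div_assoc', div_le_iff₀ hZ0]
    linarith
  have h11 : (J : ℝ) ≤ 2 * ((u : ℝ) ^ u * (A * u + 2)) / κ := by
    rw [le_div_iff₀ hκ0]
    nlinarith [mul_le_mul_of_nonneg_left h7 hJ.le, mul_le_mul_of_nonneg_left h10 hJ.le]
  exact_mod_cast h11.trans (Nat.le_ceil _)

end Pool.Agent.RT
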