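import Pool.Agent.Lib.MP_e97e2b_nt.RT.Ex1
import Pool.Agent.Lib.MP_33b3f9_ag.MG.Sv.Eul

/-! Few primes `l` have no small `M`-th power residue among the primes of degree one. -/

set_option autoImplicit false

namespace Pool.Agent.RT

open M4.NT MG.Sv Finset Filter ComplexConjugate

theorem ex_ker {l M : ℕ} [hl : Fact l.Prime] (hM : 0 < M) : ∃ (χ : MulChar (ZMod l) ℂ) (m : ℕ),
    0 < m ∧ m ≤ M ∧ χ ^ m = 1 ∧ (∀ j, 0 < j → j < m → χ ^ j ≠ 1) ∧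
      ∀ x : (ZMod l)ˣ, χ x = 1 → ∃ y : ZMod l, y ^ M = x := by
  have hm : 0 < M.gcd (l - 1) := Nat.gcd_pos_of_pos_left _ hM
  obtain ⟨χ, hχ⟩ := MulChar.exists_mulChar_orderOf (ZMod l) (R := ℂ) (n := M.gcd (l - 1))
    (by rw [ZMod.card]; exact Nat.gcd_dvd_right _ _) (Complex.isPrimitiveRoot_exp _ hm.ne')
  obtain ⟨g, hg⟩ := IsCyclic.exists_generator (α := (ZMod l)ˣ)
  refine ⟨χ, _, hm, Nat.gcd_le_left _ hM, hχ ▸ pow_orderOf_eq_one χ,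
    fun j h0 h1 => pow_ne_one_of_lt_orderOf h0.ne' (hχ ▸ h1), fun x hx => ?_⟩
  obtain ⟨i, rfl⟩ := mem_powers_iff_mem_zpowers.2 (hg x)
  obtain ⟨j, rfl⟩ : M.gcd (l - 1) ∣ i := by
    by_cases h0 : i = 0
    · simp [h0]
    rw [← hχ, orderOf_dvd_iff_pow_eq_one, MulChar.eq_iff hg, MulChar.pow_apply' _ h0,
      MulChar.one_apply_coe, ← map_pow, ← hx]
    simp
  have h1 : g ^ M.gcd (l - 1) = (g ^ M.gcdA (l - 1)) ^ M := by
    rw [← zpow_natCast, Nat.gcd_eq_gcd_ab, zpow_add, zpow_mul g ((l - 1 : ℕ) : ℤ), zpow_natCast,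
      ZMod.units_pow_card_sub_one_eq_one, one_zpow, mul_one, mul_comm, zpow_mul, zpow_natCast]
  refine ⟨(((g ^ M.gcdA (l - 1)) ^ j : (ZMod l)ˣ) : ZMod l), ?_⟩
  simp only [pow_mul, h1]
  rw [← Units.val_pow_eq_pow_val, pow_right_comm]

theorem ex_chr {l M : ℕ} [hl : Fact l.Prime] (hM : 0 < M) (LL : Finset ℕ)
    (h0 : 0 < ∑ p ∈ LL, (p : ℝ)⁻¹) (h1 : ∀ p ∈ LL, (p : ZMod l) ≠ 0 ∧ ∀ y : ZMod l, y ^ M ≠ p) :
    ∃ ψ : MulChar (ZMod l) ℂ, ψ ≠ 1 ∧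
      (M : ℝ)⁻¹ * ∑ p ∈ LL, (p : ℝ)⁻¹ ≤ ‖∑ p ∈ LL, ψ p * (p : ℂ)⁻¹‖ := by
  obtain ⟨χ, m, m0, m1, m2, m3, m4⟩ := ex_ker (l := l) hM
  by_contra hn
  push Not at hn
  have e1 : ∑ j ∈ range m, ∑ p ∈ LL, χ p ^ j * (p : ℂ)⁻¹ = 0 := by
    rw [sum_comm]
    refine sum_eq_zero fun p hp => ?_
    have a1 : χ p ≠ 1 := fun c => by
      obtain ⟨y, hy⟩ := m4 (Units.mk0 _ (h1 p hp).1) c
      exact (h1 p hp).2 y hy
    have a2 : χ p ^ m = 1 := by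
      rw [← MulChar.pow_apply' _ m0.ne', m2, MulChar.one_apply (h1 p hp).1.isUnit]
    rw [← sum_mul, geom_sum_eq a1, a2, sub_self, zero_div, zero_mul]
  rw [range_eq_Ico, sum_eq_sum_Ico_succ_bot m0, add_eq_zero_iff_eq_neg] at e1
  have e2 := congrArg norm e1
  rw [norm_neg, show ∑ p ∈ LL, χ p ^ 0 * (p : ℂ)⁻¹ = ((∑ p ∈ LL, (p : ℝ)⁻¹ : ℝ) : ℂ) by simp,
    Complex.norm_real, Real.norm_of_nonneg h0.le] at e2
  have e3 := (norm_sum_le _ _).trans (sum_le_card_nsmul (Ico (0 + 1) m)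
    (fun j => ‖∑ p ∈ LL, χ p ^ j * (p : ℂ)⁻¹‖) ((M : ℝ)⁻¹ * ∑ p ∈ LL, (p : ℝ)⁻¹) fun j hj => by
      rw [mem_Ico] at hj
      simpa only [MulChar.pow_apply' χ (show j ≠ 0 by omega)] using
        (hn _ (m3 j (by omega) hj.2)).le)
  rw [← e2, Nat.card_Ico, nsmul_eq_mul, ← mul_assoc] at e3
  have e4 : ((m - (0 + 1) : ℕ) : ℝ) * (M : ℝ)⁻¹ < 1 := by
    rw [← div_eq_mul_inv, div_lt_one (by exact_mod_cast hM)]
    exact_mod_cast (by omega)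
  nlinarith

theorem ex_per {N : ℕ} [NeZero N] (F : ZMod N → ℂ) (h0 : ∑ x, F x = 0) (h1 : ∀ x, ‖F x‖ ≤ 1)
    (R : ℕ) : ‖∑ n ∈ range R, F n‖ ≤ N := by
  induction R using Nat.strong_induction_on with
  | _ R ih =>
    rcases le_total R N with h | h
    · refine (norm_sum_le _ _).trans ((sum_le_card_nsmul _ _ 1 fun n _ => h1 _).trans ?_)
      simpa using h
    · obtain ⟨R, rfl⟩ := Nat.exists_eq_add_of_le h
      have h2 : ∑ n ∈ range N, F n = ∑ x, F x :=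
        sum_nbij' Nat.cast ZMod.val (by simp) (by simp [ZMod.val_lt])
          (fun n hn => ZMod.val_cast_of_lt (mem_range.1 hn)) (by simp) fun _ _ => rfl
      rw [sum_range_add, h2, h0, zero_add]
      simpa using ih R (by have := NeZero.pos N; omega)

/-- A character modulo `l` as a function of natural numbers. -/
noncomputable def nch {l : ℕ} (ψ : MulChar (ZMod l) ℂ) : ℕ →* ℂ :=
  ψ.toMonoidHom.comp (Nat.castRingHom (ZMod l)).toMonoidHom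

theorem ex_two {l l' : ℕ} [hl : Fact l.Prime] [hl' : Fact l'.Prime] (h : l ≠ l')
    {ψ : MulChar (ZMod l) ℂ} (hψ : ψ ≠ 1) (ψ' : MulChar (ZMod l') ℂ) (R : ℕ) :
    ‖∑ n ∈ range R, cmul (nch ψ) (nch ψ') n‖ ≤ (l * l' : ℕ) := by
  let e := ZMod.chineseRemainder ((Nat.coprime_primes hl.out hl'.out).2 h)
  have : NeZero (l * l') := ⟨(mul_pos hl.out.pos hl'.out.pos).ne'⟩
  refine le_trans (le_of_eq (congrArg _ (sum_congr rfl fun n _ => ?_)))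
    (ex_per (fun x => ψ (e x).1 * conj (ψ' (e x).2)) ?_ (fun x => ?_) R)
  · rw [map_natCast]
    rfl
  · refine (e.toEquiv.sum_comp fun y => ψ y.1 * conj (ψ' y.2)).trans ?_
    rw [Fintype.sum_prod_type]
    simp only [← sum_mul_sum]
    rw [MulChar.sum_eq_zero_of_ne_one hψ, zero_mul]
  · rw [norm_mul, RCLike.norm_conj]
    exact mul_le_one₀ (DirichletCharacter.norm_le_one ψ _) (norm_nonneg _)
      (DirichletCharacter.norm_le_one ψ' _)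

theorem ex_win {A Z0 X : ℕ} (h0 : 2 ≤ Z0) (hX : Z0 ^ (A + 1) ≤ X) :
    ∃ Z, Z0 ≤ Z ∧ Z * Z ^ A ≤ X ∧ X ^ 2 * X ^ 2 ≤ Z ^ (2 * (A + 1) * 4) := by
  have z1 := (Nat.le_nthRoot_iff A.succ_ne_zero).2 hX
  have z2 : (Nat.nthRoot (A + 1) X) ^ (A + 1) ≤ X := Nat.pow_nthRoot_le (Or.inl A.succ_ne_zero)
  have z3 := Nat.lt_pow_nthRoot_add_one A.succ_ne_zero X
  generalize Nat.nthRoot (A + 1) X = Z at z1 z2 z3
  refine ⟨Z, z1, pow_succ' Z A ▸ z2, ?_⟩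
  rw [← pow_add, pow_mul, pow_mul]
  exact Nat.pow_le_pow_left (z3.le.trans (Nat.pow_le_pow_left (by nlinarith) _)) _

theorem ex_main (K : Type) [Field K] [NumberField K] {M : ℕ} (hM : 0 < M) (c : ℕ) :
    ∃ B : ℕ, ∀ (X : ℕ) (D : Finset ℕ), (∀ l ∈ D, l.Prime ∧ X ≤ l ∧ l ≤ X ^ 2 ∧ (c < l →
      ∀ p : ℕ, p.Prime → c < p → c * p < l → Spl K p → ∀ y : ZMod l, y ^ M ≠ p)) → D.card ≤ B := by
  obtain ⟨A, hA, μ0, hμ0, hμ⟩ : ∃ A : ℕ, 1 ≤ A ∧ ∃ c : ℝ, 0 < c ∧ ∀ᶠ T : ℕ in atTop,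
      ∃ LL : Finset ℕ, (∀ l ∈ LL, l ∈ Ioc T (T ^ A) ∧ l.Prime ∧ Spl K l) ∧
        c ≤ ∑ p ∈ LL, (p : ℝ)⁻¹ := by
    obtain ⟨c, hc, h⟩ := win_spl K
    exact ⟨80, by norm_num, c, hc, h.mono fun T hT =>
      ⟨_, fun l hl => (@mem_filter _ _ (_) _ _).1 hl, hT⟩⟩
  obtain ⟨K0, hK⟩ := ex_bessel A (2 * (A + 1) * 4) hA hμ0
    (inv_pos.2 (by exact_mod_cast hM : (0 : ℝ) < M))
  obtain ⟨Z0, hZ0⟩ := eventually_atTop.1 (hμ.and (hK.and (eventually_ge_atTop (c + 2))))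
  refine ⟨K0 + ((Z0 ^ (A + 1)) ^ 2 + 1), fun X D hD => ?_⟩
  rcases le_total X (Z0 ^ (A + 1)) with hX | hX
  · have h1 : D.card ≤ (range ((Z0 ^ (A + 1)) ^ 2 + 1)).card := card_le_card fun l hl =>
      mem_range.2 (Nat.lt_succ_of_le ((hD l hl).2.2.1.trans (Nat.pow_le_pow_left hX 2)))
    rw [card_range] at h1
    exact h1.trans (Nat.le_add_left _ _)
  obtain ⟨Z, z1, z2, z3⟩ := ex_win (le_of_add_le_right (hZ0 Z0 le_rfl).2.2) hX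
  obtain ⟨⟨LL, hLL, z4⟩, z5, z6⟩ := hZ0 Z z1
  have hL : ∀ l ∈ LL, l.Prime ∧ Z < l ∧ l ≤ Z ^ A := fun l hl =>
    ⟨(hLL l hl).2.1, mem_Ioc.1 (hLL l hl).1⟩
  have h1 : ∀ l, ∃ ψ : MulChar (ZMod l) ℂ, l ∈ D → ψ ≠ 1 ∧
      (M : ℝ)⁻¹ * ∑ p ∈ LL, (p : ℝ)⁻¹ ≤ ‖∑ p ∈ LL, ψ p * (p : ℂ)⁻¹‖ := fun l => by
    by_cases hl : l ∈ D
    swap
    · exact ⟨1, fun h => (hl h).elim⟩
    obtain ⟨d1, d2, -, d4⟩ := hD l hl
    have := Fact.mk d1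
    obtain ⟨ψ, hψ⟩ := ex_chr (l := l) hM LL (hμ0.trans_le z4) fun p hp => by
      obtain ⟨p1, p2, p3⟩ := hL p hp
      have a2 : (c + 2) * p ≤ l := (Nat.mul_le_mul z6 p3).trans
        ((Nat.mul_le_mul_left Z le_rfl).trans (z2.trans d2))
      have a3 : c < p := by omega
      have a4 : c ≤ c * p := Nat.le_mul_of_pos_right c p1.pos
      rw [add_mul] at a2
      refine ⟨fun e => ?_, d4 (by omega) p p1 a3 (by omega) (hLL p hp).2.2⟩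
      exact Nat.not_dvd_of_pos_of_lt p1.pos (by omega) ((ZMod.natCast_eq_zero_iff p l).1 e)
    exact ⟨ψ, fun _ => hψ⟩
  choose ψ hψ using h1
  refine (z5 LL D (fun l => nch (ψ l)) hL z4
    (fun l n => DirichletCharacter.norm_le_one (ψ l) _) (fun l hl => (hψ l hl).2)
    fun l hl l' hl' h R => ?_).trans (Nat.le_add_right _ _)
  have := Fact.mk (hD l hl).1
  have := Fact.mk (hD l' hl').1
  refine (ex_two h (hψ l hl).1 (ψ l') R).trans ?_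
  exact_mod_cast (Nat.mul_le_mul (hD l hl).2.2.1 (hD l' hl').2.2.1).trans z3

end Pool.Agent.RT
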