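import Pool.Agent.Lib.MP_e97e2b_nt.RT.Main
import Pool.Agent.Lib.MP_e97e2b_nt.RT.Ex2

/-! Exceptional primes are rare. -/

set_option autoImplicit false

namespace Pool.Agent.RT

open Matrix Polynomial RG RG.B2 NumberField
open _root_.M4.B2 (kk)
open _root_.M4.NT (Spl)

theorem ex_deg {K : Type} [Field K] [NumberField K] {q : ℕ} (hq : q.Prime) (h : Spl K q) :
    Deg1 K q := by
  obtain ⟨φ⟩ := h
  have := Fact.mk hq
  refine ⟨RingHom.ker φ, RingHom.ker_isPrime φ, ?_⟩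
  rw [Ideal.absNorm_apply, Submodule.cardQuot_apply,
    Nat.card_congr (RingHom.quotientKerEquivOfSurjective (ZMod.ringHom_surjective φ)).toEquiv,
    Nat.card_zmod]

theorem ex_wt (K : Type) [Field K] [NumberField K] (p0 : ℕ) (ι : Type) [Fintype ι] (M : ℕ) :
    ∃ l0 : ℕ, ∀ l : ℕ, l.Prime → l0 < l → ∀ i : ι → ℕ, FrobH K l p0 i → ∀ γ : ZMod l,
      (∀ x : ZMod l, x ≠ 0 → ∃ s : ℕ, x = γ ^ s) → ∀ r, ∀ n ≤ M,
        γ ^ (M * i r) = γ ^ n → 2 * n = M := by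
  obtain ⟨p, hp, h0, h1⟩ := deg1_inf K (p0 + 2)
  obtain ⟨l0, hl0⟩ := weil_pow p (Fintype.card ι) M hp.two_le
  refine ⟨l0 + p, fun l hl hlt i hF γ hγ r n hn e => ?_⟩
  have : Fact l.Prime := ⟨hl⟩
  obtain ⟨Q, q1, q2, q3, q4⟩ := hF p hp (by omega) (fun h => ((hp.dvd_mul.1 h).elim
    (fun h => absurd ((Nat.prime_dvd_prime_iff_eq hp Nat.prime_two).1 h) (by omega)) fun h =>
    absurd ((Nat.prime_dvd_prime_iff_eq hp hl).1 h) (by omega))) h1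
  obtain ⟨s, hs⟩ := hγ p fun h =>
    absurd (Nat.le_of_dvd hp.pos ((ZMod.natCast_eq_zero_iff _ _).1 h)) (by omega)
  refine hl0 l (by omega) Q q1 (ty_trace _ q1 q2 q3).1 q2 _ (q4 r) n hn ?_
  rw [hs, ← pow_mul, ← pow_mul, ← pow_mul, show s * (i r * M) = M * i r * s by ring, pow_mul, e,
    ← pow_mul, mul_comm]

/-- If all eigenvalues of Frobenius are one square root of `q` modulo `l`, then `q` is large. -/
theorem ex_sq {ι : Type} [Fintype ι] [Nonempty ι] {l q : ℕ} [Fact l.Prime] (hq : q.Prime)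
    (hl : Fintype.card ι ^ 2 * q < l) {Q : ℤ[X]} (q1 : Q.Monic)
    (q2 : ∀ z : ℂ, aeval z Q = 0 → ‖z‖ ^ 2 = q) {c : ι → ZMod l}
    (q3 : Q.map (Int.castRingHom (ZMod l)) ∣ ∏ r, (X - C (c r))) (q4 : ∀ r, aeval (c r) Q = 0)
    {a : ZMod l} (ha : a ^ 2 = q) (hc : ∀ r, c r = a) : False := by
  obtain ⟨J, j0, t, t1, t2⟩ := (ty_trace _ q1 q2 q3).2 _ (q4 (Classical.arbitrary ι))
  simp only [hc, Finset.sum_const, nsmul_eq_mul] at t2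
  have j1 : (0 : ℤ) < J.card := by exact_mod_cast j0.card_pos
  have j2 : (J.card : ℤ) ^ 2 * q ≤ (Fintype.card ι : ℤ) ^ 2 * q := by
    gcongr
    exact J.card_le_univ
  have j3 : (Fintype.card ι : ℤ) ^ 2 * q < l := by exact_mod_cast hl
  have j4 : 0 ≤ (J.card : ℤ) ^ 2 * q := by positivity
  have h1 : t ^ 2 - (J.card : ℤ) ^ 2 * q = 0 := Int.eq_zero_of_abs_lt_dvd
    ((ZMod.intCast_zmod_eq_zero_iff_dvd _ l).1 (by push_cast; rw [t2, mul_pow, ha, sub_self]))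
    (abs_lt.2 ⟨by linarith [sq_nonneg t], by linarith⟩)
  rw [sub_eq_zero] at h1
  obtain ⟨w, rfl⟩ := (Int.pow_dvd_pow_iff two_ne_zero).1 (Dvd.intro _ h1.symm)
  rw [mul_pow, mul_right_inj' (by positivity)] at h1
  exact hq.not_isSquare (Int.isSquare_natCast_iff.1 ⟨w, by rw [← h1, sq]⟩)

theorem ex_geo (K : IntermediateField ℚ ℂ) [NumberField K] (g : ℕ) (hg : 1 ≤ g) :
    ∃ M c : ℕ, 0 < M ∧ ∀ l : ℕ, l.Prime → c < l →
      ∀ (n : ℕ) (J : Set (MvPolynomial (Fin n) K)) (p : (Fin g ⊕ Fin g → ℝ) ≃ₗ[ℝ] (Fin g → ℂ))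
        (u : (Fin g → ℂ) → Fin n → ℂ), Unif J p u → Heavenly K p u l →
        ∀ q : ℕ, q.Prime → c < q → c * q < l → Spl K q → ∀ y : ZMod l, y ^ M ≠ q := by
  obtain ⟨p₁, h₁⟩ := place_inr K
  obtain ⟨p₂, h₂⟩ := place_one K
  obtain ⟨M, l₁, hM, hL⟩ := l_main (8 * g)
  obtain ⟨l₂, hwt⟩ := ex_wt K p₂ (Fin (2 * g)) M
  obtain ⟨c, c₁, c₂, c₃, c₄, c₅, c₆⟩ : ∃ c, p₁ ≤ c ∧ p₂ ≤ c ∧ l₁ ≤ c ∧ l₂ ≤ c ∧ 2 ≤ c ∧
      (2 * g) ^ 2 ≤ c := ⟨p₁ + p₂ + l₁ + l₂ + 2 + (2 * g) ^ 2, by omega⟩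
  refine ⟨M, c, hM, fun l hl hlt n J p u h hH q hq q1 q2 q3 y hy => ?_⟩
  have s₀ : Fin (2 * g) := ⟨0, by omega⟩
  have q4 : q < l := lt_of_le_of_lt (Nat.le_mul_of_pos_left q (by omega)) q2
  obtain ⟨L, rfl⟩ : ∃ P : Nat.Primes, P.1 = l := ⟨⟨l, hl⟩, rfl⟩
  obtain ⟨r, ex, hcp, hun, hB⟩ := geo hg h L hH
  have hF := m_frob hg h₂ hcp hun (hB s₀)
  obtain ⟨γ, hγ, hγ'⟩ := m_gen L
  replace hwt := hwt L hl (c₄.trans_lt hlt) ex hF γ hγ'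
  obtain ⟨e⟩ := place_ex L
  obtain ⟨d, hde⟩ := h₁ L (c₁.trans_lt hlt) e
  obtain ⟨t', ht, hχ⟩ := chi_sur γ hγ
  obtain ⟨t, rfl⟩ : ∃ t : Inr L, t.1 = t' := ⟨⟨t', ht⟩, rfl⟩
  have hk := m_chi (hde t) hχ
  have hu := m_unit hcp (σ := d t) (M := M) fun s c => by
    rw [hk] at c
    have := hwt s 0 (Nat.zero_le _) (by rw [c, pow_zero])
    omega
  have key : ∀ s, ∃ j, 2 * j = M ∧ γ ^ (M * ex s) = γ ^ j := fun s => by
    obtain ⟨_, τ, R, y, hc, hτ, hFw, hA, hy, he⟩ := hB s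
    have h7 : IsUnit ((R L (d (t ^ M))).1 - 1) := by
      rw [map_pow]
      exact a_unit ((hA L _ _).2 (aeval_self_charpoly _)) hu
    obtain ⟨j, -, hjM, hj⟩ := hL hc L (c₃.trans_lt hlt) τ hτ e (fun q _ => (R q).comp d)
      (fun t => by rw [← hde t]; exact hFw (d t)) ⟨t, h7⟩ y _ hy fun t => he (d t)
    obtain ⟨θ, Q, h0, h1, -, -, -, h5, h6⟩ := hj t γ hχ
    simp only [hk] at h6
    have h8 := aeval_eq_zero_of_dvd_aeval_eq_zero h5 h6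
    rw [map_sub, map_pow, aeval_X, map_one, sub_eq_zero, div_pow,
      div_eq_one_iff_eq (pow_ne_zero _ h0), h1, ← map_pow, ← map_pow, ← pow_mul, mul_comm] at h8
    have h9 := (ZMod.castHom (dvd_refl L.1) (kk L)).injective h8
    exact ⟨j, hwt s j hjM h9, h9⟩
  obtain ⟨j, hj, -⟩ := key s₀
  obtain ⟨k, rfl⟩ := hγ' y fun c => by
    rw [c, zero_pow hM.ne', eq_comm, ZMod.natCast_eq_zero_iff] at hy
    exact absurd (Nat.le_of_dvd hq.pos hy) q4.not_ge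
  obtain ⟨Q, a1, a2, a3, a4⟩ := hF q hq (c₂.trans_lt q1) (fun h => ((hq.dvd_mul.1 h).elim
    (fun h => absurd ((Nat.prime_dvd_prime_iff_eq hq Nat.prime_two).1 h) (by omega)) fun h =>
    absurd ((Nat.prime_dvd_prime_iff_eq hq hl).1 h) q4.ne)) (ex_deg hq q3)
  have : Nonempty (Fin (2 * g)) := ⟨s₀⟩
  refine ex_sq hq (by rw [Fintype.card_fin]; exact (Nat.mul_le_mul_right q c₆).trans_lt q2)
    a1 a2 a3 a4 (a := (γ ^ j) ^ k) ?_ fun s => ?_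
  · rw [← hy, ← hj, ← pow_mul, ← pow_mul, ← pow_mul]
    congr 1
    ring
  · obtain ⟨j', hj', h1⟩ := key s
    obtain rfl : j' = j := by omega
    rw [← hy, ← h1, ← pow_mul, ← pow_mul, ← pow_mul]
    congr 1
    ring

theorem ex_all (K : IntermediateField ℚ ℂ) [FiniteDimensional ℚ K] (g : ℕ) (hg : 1 ≤ g) :
    ∃ B : ℕ, ∀ X k : ℕ, {l : ℕ | l.Prime ∧ X < l ∧ l ≤ X ^ 2 ^ k ∧
      ∃ (n : ℕ) (J : Set (MvPolynomial (Fin n) K)) (p : (Fin g ⊕ Fin g → ℝ) ≃ₗ[ℝ] (Fin g → ℂ))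
        (u : (Fin g → ℂ) → Fin n → ℂ), Unif J p u ∧ Heavenly K p u l}.encard ≤ (B * k : ℕ) := by
  have : NumberField K := ⟨⟩
  obtain ⟨M, c, hM, h⟩ := ex_geo K g hg
  obtain ⟨B, hB⟩ := ex_main K hM c
  refine ⟨B, fun X k => ?_⟩
  generalize hE : (fun l : ℕ => ∃ (n : ℕ) (J : Set (MvPolynomial (Fin n) K))
    (p : (Fin g ⊕ Fin g → ℝ) ≃ₗ[ℝ] (Fin g → ℂ)) (u : (Fin g → ℂ) → Fin n → ℂ),
      Unif J p u ∧ Heavenly K p u l) = E
  have h1 : ∀ Y : ℕ, {l : ℕ | l.Prime ∧ Y < l ∧ l ≤ Y ^ 2 ∧ E l}.encard ≤ B := fun Y => by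
    have hf : {l : ℕ | l.Prime ∧ Y < l ∧ l ≤ Y ^ 2 ∧ E l}.Finite :=
      (Set.finite_le_nat (Y ^ 2)).subset fun l hl => hl.2.2.1
    rw [hf.encard_eq_coe_toFinset_card]
    refine Nat.cast_le.2 (hB Y _ fun l hl => ?_)
    obtain ⟨h1, h2, h3, h4⟩ := hf.mem_toFinset.1 hl
    obtain ⟨n, J, p, u, h4, h5⟩ := (congrFun hE l).mpr h4
    exact ⟨h1, h2.le, h3, fun hc => h l h1 hc n J p u h4 h5⟩
  have h2 : {l : ℕ | l.Prime ∧ X < l ∧ l ≤ X ^ 2 ^ k ∧ E l}.encard ≤ (B * k : ℕ) := by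
    induction k with
    | zero =>
      refine (Set.encard_eq_zero.2 (Set.eq_empty_of_forall_notMem fun l hl => ?_)).le.trans bot_le
      exact hl.2.1.not_ge (by simpa using hl.2.2.1)
    | succ k ih =>
      rw [mul_add, mul_one, Nat.cast_add]
      refine le_trans ((Set.encard_le_encard fun l hl => ?_).trans (Set.encard_union_le _ _))
        (add_le_add ih (h1 (X ^ 2 ^ k)))
      rcases le_or_gt l (X ^ 2 ^ k) with c | c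
      · exact Or.inl ⟨hl.1, hl.2.1, c, hl.2.2.2⟩
      · exact Or.inr ⟨hl.1, c, by rw [← pow_mul, ← pow_succ]; exact hl.2.2.1, hl.2.2.2⟩
  subst hE
  exact h2

end Pool.Agent.RT
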