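import Mathlib

/-! Representations over `ZMod l` on which the kernel of a character acts through an `l`-group. -/

set_option autoImplicit false

namespace Pool.Agent.RT

open Module Polynomial

variable {G : Type*} [Group G] {l : ℕ} [Fact l.Prime]

theorem gal_fixed {V : Type*} [AddCommGroup V] [Module (ZMod l) V] [Finite V] [Nontrivial V]
    (ρ : Representation (ZMod l) G V) (N : Subgroup G) (h : ∀ s ∈ N, ∃ k : ℕ, ρ s ^ l ^ k = 1) :
    ∃ v, v ≠ 0 ∧ ∀ s ∈ N, ρ s v = v := by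
  have hp : IsPGroup l (N.map ρ.asGroupHom) := by
    rintro ⟨_, s, hs, rfl⟩
    obtain ⟨k, hk⟩ := h s hs
    exact ⟨k, Subtype.ext (Units.ext (by simpa [Representation.asGroupHom_apply] using hk))⟩
  have hc : l ∣ Nat.card V := by
    rw [Module.natCard_eq_pow_finrank (K := ZMod l), Nat.card_zmod]
    exact dvd_pow_self l Module.finrank_pos.ne'
  obtain ⟨b, hb, hne⟩ := hp.exists_fixed_point_of_prime_dvd_card_of_fixed_point V hc (a := 0)
    fun g => smul_zero g
  exact ⟨b, hne.symm, fun s hs => hb ⟨ρ.asGroupHom s, s, hs, rfl⟩⟩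

theorem gal_eig {k V : Type*} [Field k] [AddCommGroup V] [Module k V] (T : Module.End k V)
    (W : Submodule k V) (hW : ∀ v ∈ W, T v ∈ W) (f : ℕ → k) (s : Finset ℕ) :
    ∀ v ∈ W, v ≠ 0 → aeval T (∏ i ∈ s, (X - C (f i))) v = 0 →
      ∃ i, ∃ w ∈ W, w ≠ 0 ∧ T w = f i • w := by
  induction s using Finset.induction_on with
  | empty => intro v _ h0 h; exact absurd (by simpa using h) h0
  | insert a s ha ih =>
    intro v hv h0 h
    rw [Finset.prod_insert ha, mul_comm, map_mul, Module.End.mul_apply] at h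
    have e : aeval T (X - C (f a)) v = T v - f a • v := by simp
    rw [e] at h
    by_cases k : T v - f a • v = 0
    · exact ⟨a, v, hv, h0, sub_eq_zero.1 k⟩
    · exact ih _ (W.sub_mem (hW v hv) (W.smul_mem _ hv)) k h

/-- a stable line -/
theorem gal_line {V : Type*} [AddCommGroup V] [Module (ZMod l) V] [Finite V] [Nontrivial V]
    (χ : G →* (ZMod l)ˣ) (ρ : Representation (ZMod l) G V)
    (h : ∀ s, χ s = 1 → ∃ k : ℕ, ρ s ^ l ^ k = 1) :
    ∃ (v : V) (i : ℕ), v ≠ 0 ∧ ∀ s, ρ s v = (χ s : ZMod l) ^ i • v := by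
  obtain ⟨v, v0, hv⟩ := gal_fixed ρ χ.ker fun s hs => h s hs
  obtain ⟨⟨_, s0, rfl⟩, hg⟩ := IsCyclic.exists_monoid_generator (α := χ.range)
  let W : Submodule (ZMod l) V :=
    { carrier := {w | ∀ s, χ s = 1 → ρ s w = w}
      add_mem' := fun {a b} ha hb s hs => by rw [map_add, ha s hs, hb s hs]
      zero_mem' := fun s _ => map_zero _
      smul_mem' := fun c a ha s hs => by rw [map_smul, ha s hs] }
  have hW : ∀ w ∈ W, ρ s0 w ∈ W := fun w hw s hs => by
    have e : s * s0 = s0 * (s0⁻¹ * s * s0) := by group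
    rw [← Module.End.mul_apply, ← map_mul, e, map_mul, Module.End.mul_apply,
      hw _ (by simp [hs])]
  have hn : 0 < orderOf (χ s0) := orderOf_pos _
  have hz : IsPrimitiveRoot ((χ s0 : (ZMod l)ˣ) : ZMod l) (orderOf (χ s0)) :=
    IsPrimitiveRoot.coe_units_iff.2 (IsPrimitiveRoot.orderOf _)
  have hX := X_pow_sub_C_eq_prod hz hn (one_pow _)
  obtain ⟨i, w, hw, w0, e⟩ := gal_eig (ρ s0) W hW _ _ v (fun s hs => hv s hs) v0 (by
    rw [← hX]
    have : ρ (s0 ^ orderOf (χ s0)) v = v := hv _ (by simp [pow_orderOf_eq_one])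
    simpa [sub_eq_zero] using this)
  refine ⟨w, i, w0, fun s => ?_⟩
  obtain ⟨j, hj⟩ := hg ⟨χ s, s, rfl⟩
  have hj' : χ s0 ^ j = χ s := congrArg Subtype.val hj
  have e1 : ∀ t : ℕ, ρ (s0 ^ t) w = (((χ s0 : (ZMod l)ˣ) : ZMod l) ^ t) ^ i • w := by
    intro t
    induction t with
    | zero => simp
    | succ t ih =>
      rw [pow_succ, map_mul, Module.End.mul_apply, e, map_smul, ih, smul_smul]
      congr 1
      ring
  have e2 : s = s0 ^ j * ((s0 ^ j)⁻¹ * s) := by group
  rw [← hj', Units.val_pow_eq_pow_val, ← e1]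
  conv_lhs => rw [e2, map_mul, Module.End.mul_apply, hw _ (by simp [hj'])]

theorem gal_step {V : Type*} [AddCommGroup V] [Module (ZMod l) V] [Finite V]
    (χ : G →* (ZMod l)ˣ) (ρ : Representation (ZMod l) G V)
    (h : ∀ s, χ s = 1 → ∃ k : ℕ, ρ s ^ l ^ k = 1) (W : Submodule (ZMod l) V) (hW : W ≠ ⊤)
    (hs : ∀ s, W ≤ W.comap (ρ s)) :
    ∃ (v : V) (i : ℕ), v ∉ W ∧ ∀ s, ρ s v - (χ s : ZMod l) ^ i • v ∈ W := by
  have : Nontrivial (V ⧸ W) := Submodule.Quotient.nontrivial_iff.2 hW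
  have : Finite (V ⧸ W) := Finite.of_surjective _ W.mkQ_surjective
  obtain ⟨v, i, v0, hv⟩ := gal_line χ (ρ.quotient W hs) fun s h1 => by
    obtain ⟨k, hk⟩ := h s h1
    refine ⟨k, ?_⟩
    rw [← map_pow] at hk ⊢
    ext x
    simp [hk]
  obtain ⟨v, rfl⟩ := W.mkQ_surjective v
  refine ⟨v, i, fun k => v0 ((Submodule.Quotient.mk_eq_zero W).2 k), fun s => ?_⟩
  rw [← Submodule.Quotient.eq]
  simpa using hv s

theorem gal_chain {V : Type*} [AddCommGroup V] [Module (ZMod l) V] [Finite V]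
    (χ : G →* (ZMod l)ˣ) (ρ : Representation (ZMod l) G V)
    (h : ∀ s, χ s = 1 → ∃ k : ℕ, ρ s ^ l ^ k = 1) (n : ℕ) (hn : n ≤ finrank (ZMod l) V) :
    ∃ (b : ℕ → V) (i : ℕ → ℕ),
      n ≤ finrank (ZMod l) (Submodule.span (ZMod l) (b '' Set.Iio n)) ∧
      ∀ r < n, ∀ s, ρ s (b r) - (χ s : ZMod l) ^ i r • b r ∈
        Submodule.span (ZMod l) (b '' Set.Iio r) := by
  classical
  induction n with
  | zero => exact ⟨fun _ => 0, fun _ => 0, Nat.zero_le _, fun r hr => absurd hr (Nat.not_lt_zero r)⟩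
  | succ n ih =>
    obtain ⟨b, i, h1, h2⟩ := ih (by omega)
    set W := Submodule.span (ZMod l) (b '' Set.Iio n) with hW
    have hle : finrank (ZMod l) W ≤ n := by
      have e : b '' Set.Iio n = ((Finset.range n).image b : Finset V) := by
        ext x
        simp
      rw [hW, e]
      exact (finrank_span_finset_le_card _).trans (Finset.card_image_le.trans (by simp))
    have hne : W ≠ ⊤ := fun k => by
      rw [k, finrank_top] at hle
      omega
    have hst : ∀ s, W ≤ W.comap (ρ s) := fun s => Submodule.span_le.2 (by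
      rintro _ ⟨r, hr, rfl⟩
      have k1 : Submodule.span (ZMod l) (b '' Set.Iio r) ≤ W :=
        Submodule.span_mono (Set.image_mono (Set.Iio_subset_Iio (le_of_lt hr)))
      have k2 : b r ∈ W := Submodule.subset_span ⟨r, hr, rfl⟩
      have := W.add_mem (k1 (h2 r hr s)) (W.smul_mem ((χ s : ZMod l) ^ i r) k2)
      simpa using this)
    obtain ⟨v, j, v0, hv⟩ := gal_step χ ρ h W hne hst
    have him : ∀ r ≤ n, Function.update b n v '' Set.Iio r = b '' Set.Iio r := fun r hr =>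
      Set.image_congr fun x hx => Function.update_of_ne (by have : x < r := hx; omega) _ _
    refine ⟨Function.update b n v, Function.update i n j, ?_, fun r hr s => ?_⟩
    · have hlt : W < Submodule.span (ZMod l) (Function.update b n v '' Set.Iio (n + 1)) := by
        refine lt_of_le_of_ne ?_ fun k => v0 ?_
        · rw [hW, ← him n le_rfl]
          exact Submodule.span_mono (Set.image_mono (Set.Iio_subset_Iio (Nat.le_succ n)))
        · rw [k]
          exact Submodule.subset_span ⟨n, Nat.lt_succ_self n, by simp⟩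
      have := Submodule.finrank_lt_finrank_of_lt hlt
      omega
    · rw [him r (by omega)]
      rcases Nat.lt_succ_iff_lt_or_eq.1 hr with k | rfl
      · rw [Function.update_of_ne k.ne, Function.update_of_ne k.ne]
        exact h2 r k s
      · simpa using hv s

/-- a stable flag whose quotients are powers of the character -/
theorem gal_flag {V : Type*} [AddCommGroup V] [Module (ZMod l) V] [Finite V]
    (χ : G →* (ZMod l)ˣ) (ρ : Representation (ZMod l) G V)
    (h : ∀ s, χ s = 1 → ∃ k : ℕ, ρ s ^ l ^ k = 1) :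
    ∃ (B : Basis (Fin (finrank (ZMod l) V)) (ZMod l) V) (i : Fin (finrank (ZMod l) V) → ℕ),
      (∀ s r, ρ s (B r) - (χ s : ZMod l) ^ i r • B r ∈
        Submodule.span (ZMod l) (B '' Set.Iio r)) ∧
      ∀ s, (ρ s).charpoly = ∏ r, (X - C ((χ s : ZMod l) ^ i r)) := by
  classical
  obtain ⟨b, i, h1, h2⟩ := gal_chain χ ρ h _ le_rfl
  have htop : ⊤ ≤ Submodule.span (ZMod l)
      (Set.range fun r : Fin (finrank (ZMod l) V) => b r) := by
    have e : (Set.range fun r : Fin (finrank (ZMod l) V) => b r) =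
        b '' Set.Iio (finrank (ZMod l) V) := by
      ext x
      exact ⟨fun ⟨r, e⟩ => ⟨r, r.2, e⟩, fun ⟨r, hr, e⟩ => ⟨⟨r, hr⟩, e⟩⟩
    rw [e]
    exact (Submodule.eq_top_of_finrank_eq (le_antisymm (Submodule.finrank_le _) h1)).ge
  let B := basisOfTopLeSpanOfCardEqFinrank _ htop (Fintype.card_fin _)
  have hB : ∀ r, B r = b r := fun r => congrFun (coe_basisOfTopLeSpanOfCardEqFinrank _ _ _) r
  have key : ∀ s r, ρ s (B r) - (χ s : ZMod l) ^ i r • B r ∈
      Submodule.span (ZMod l) (B '' Set.Iio r) := fun s r => by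
    have e : B '' Set.Iio r = b '' Set.Iio r.1 := by
      ext x
      exact ⟨fun ⟨t, ht, e⟩ => ⟨t, ht, (hB t).symm.trans e⟩,
        fun ⟨t, ht, e⟩ => ⟨⟨t, lt_trans ht r.2⟩, ht, (hB _).trans e⟩⟩
    rw [e, hB]
    exact h2 r r.2 s
  refine ⟨B, fun r => i r, key, fun s => ?_⟩
  have hco : ∀ r t, r ≤ t → B.repr (ρ s (B r)) t = if r = t then (χ s : ZMod l) ^ i r else 0 := by
    intro r t hrt
    have k := B.mem_span_image.1 (key s r)
    have k2 : B.repr (ρ s (B r) - (χ s : ZMod l) ^ i r • B r) t = 0 := by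
      by_contra k3
      exact not_lt.2 hrt (k (Finsupp.mem_support_iff.2 k3))
    rw [map_sub, map_smul, Finsupp.sub_apply, sub_eq_zero, Finsupp.smul_apply, B.repr_self,
      Finsupp.single_apply] at k2
    rw [k2]
    split_ifs <;> simp
  rw [← LinearMap.charpoly_toMatrix (ρ s) B, Matrix.charpoly_of_isUpperTriangular]
  · refine Finset.prod_congr rfl fun r _ => ?_
    rw [LinearMap.toMatrix_apply, hco r r le_rfl, if_pos rfl]
  · intro t r hrt
    have hrt' : r < t := hrt
    rw [LinearMap.toMatrix_apply, hco r t hrt'.le, if_neg hrt'.ne]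

/-- the matrix form -/
theorem gal_flag_GL {ν : Type} [Fintype ν] [DecidableEq ν] (χ : G →* (ZMod l)ˣ)
    (ρ : G →* GL ν (ZMod l)) (h : ∀ s, χ s = 1 → ∃ k : ℕ, ρ s ^ l ^ k = 1) :
    ∃ (d : ℕ) (_ : d = Fintype.card ν) (B : Basis (Fin d) (ZMod l) (ν → ZMod l)) (i : Fin d → ℕ),
      (∀ s r, (ρ s : Matrix ν ν (ZMod l)).mulVec (B r) - (χ s : ZMod l) ^ i r • B r ∈
        Submodule.span (ZMod l) (B '' Set.Iio r)) ∧
      ∀ s, (ρ s : Matrix ν ν (ZMod l)).charpoly = ∏ r, (X - C ((χ s : ZMod l) ^ i r)) := by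
  let R : Representation (ZMod l) G (ν → ZMod l) :=
    (Matrix.toLinAlgEquiv' : Matrix ν ν (ZMod l) ≃ₐ[ZMod l] _).toMonoidHom.comp
      ((Units.coeHom _).comp ρ)
  have hR : ∀ s, R s = Matrix.toLin' (ρ s : Matrix ν ν (ZMod l)) := fun s => rfl
  obtain ⟨B, i, h1, h2⟩ := gal_flag χ R fun s hs => by
    obtain ⟨k, hk⟩ := h s hs
    refine ⟨k, ?_⟩
    rw [← map_pow, hR, map_pow, hk]
    exact Matrix.toLin'_one
  refine ⟨_, by simp, B, i, fun s r => h1 s r, fun s => ?_⟩
  rw [← h2 s, hR, Matrix.charpoly_toLin']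

end Pool.Agent.RT
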