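import Pool.Agent.Lib.MP_e97e2b_nt.RT.Stmt

/-! Automorphisms of the complex numbers on the tower. -/

set_option autoImplicit false

namespace Pool.Agent.RT

open NumberField IntermediateField Polynomial

noncomputable section

/-- the cyclotomic character -/
def cchi (l : ℕ) [NeZero l] : (ℂ ≃+* ℂ) →* (ZMod l)ˣ :=
  modularCyclotomicCharacter ℂ (Complex.card_rootsOfUnity l)

theorem cchi_spec {l : ℕ} [NeZero l] (s : ℂ ≃+* ℂ) {z : ℂ} (hz : z ^ l = 1) :
    s z = z ^ (cchi l s : ZMod l).val :=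
  modularCyclotomicCharacter.spec ℂ (Complex.card_rootsOfUnity l) s
    (rootsOfUnity.mkOfPowEq z hz).2

theorem cchi_unique {l : ℕ} [NeZero l] (s : ℂ ≃+* ℂ) (c : ℕ)
    (h : ∀ z : ℂ, z ^ l = 1 → s z = z ^ c) : (cchi l s : ZMod l) = c :=
  (modularCyclotomicCharacter.unique ℂ (Complex.card_rootsOfUnity l) s fun t ht => by
    have h1 : (t : ℂ) ^ l = 1 := by
      rw [← Units.val_pow_eq_pow_val, (mem_rootsOfUnity l t).1 ht, Units.val_one]
    rw [h _ h1, ZMod.val_natCast]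
    exact pow_eq_pow_mod c h1).symm

theorem cchi_eq_one {l : ℕ} [NeZero l] (s : ℂ ≃+* ℂ) :
    cchi l s = 1 ↔ ∀ z : ℂ, z ^ l = 1 → s z = z := by
  refine ⟨fun h z hz => ?_, fun h => Units.ext ?_⟩
  · rw [cchi_spec s hz, h, Units.val_one, ← Nat.cast_one, ZMod.val_natCast, ← pow_eq_pow_mod 1 hz,
      pow_one]
  · simpa using cchi_unique s 1 fun z hz => by rw [h z hz, pow_one]

/-- the cyclotomic character on the automorphisms over `K` -/
def kchi (K : IntermediateField ℚ ℂ) (l : ℕ) [NeZero l] : (ℂ ≃ₐ[K] ℂ) →* (ZMod l)ˣ :=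
  (cchi l).comp (MulSemiringAction.toRingAut (ℂ ≃ₐ[K] ℂ) ℂ)

theorem kchi_eq (K : IntermediateField ℚ ℂ) (l : ℕ) [NeZero l] (s : ℂ ≃ₐ[K] ℂ) :
    kchi K l s = cchi l s.toRingEquiv := rfl

theorem kchi_spec {K : IntermediateField ℚ ℂ} {l : ℕ} [NeZero l] (s : ℂ ≃ₐ[K] ℂ) {z : ℂ}
    (hz : z ^ l = 1) : s z = z ^ (kchi K l s : ZMod l).val := cchi_spec s.toRingEquiv hz

theorem kchi_eq_one {K : IntermediateField ℚ ℂ} {l : ℕ} [NeZero l] (s : ℂ ≃ₐ[K] ℂ) :
    kchi K l s = 1 ↔ ∀ z : ℂ, z ^ l = 1 → s z = z := cchi_eq_one s.toRingEquiv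

variable {K : IntermediateField ℚ ℂ} {l : ℕ}

theorem fix_cyc (s : ℂ ≃+* ℂ) (hK : ∀ x ∈ K, s x = x) (h : ∀ z : ℂ, z ^ l = 1 → s z = z) :
    ∀ x ∈ cyc K l, s x = x := fun _ hx =>
  (adjoin_le_iff (T := (RingHom.eqLocusField (s : ℂ →+* ℂ) (RingHom.id ℂ)).toIntermediateField
    fun y : K => hK y y.2)).2 h hx

theorem cyc_finite (hl : l ≠ 0) : FiniteDimensional K (cyc K l) := by
  have : NeZero l := ⟨hl⟩
  have hf : {z : ℂ | z ^ l = 1}.Finite :=
    ((X ^ l - 1 : ℂ[X]).roots.toFinset.finite_toSet).subset fun z hz => by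
      have h0 : (X ^ l - 1 : ℂ[X]) ≠ 0 := X_pow_sub_C_ne_zero (Nat.pos_of_ne_zero hl) 1
      have h1 : z ^ l = 1 := hz
      simp [h0, h1]
  have := hf.to_subtype
  exact finiteDimensional_adjoin fun z hz => IsIntegral.of_pow (Nat.pos_of_ne_zero hl) (by
    have h1 : z ^ l = 1 := hz
    rw [h1]
    exact isIntegral_one)

theorem Layer.finite {F : Type} [Field F] [Algebra F ℂ] {M : IntermediateField F ℂ} (hl : l ≠ 0)
    (h : Layer F l M) : FiniteDimensional F M := by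
  obtain ⟨-, ⟨k, hk⟩, -⟩ := h
  exact Module.finite_of_finrank_pos (hk ▸ pow_pos (Nat.pos_of_ne_zero hl) k)

theorem tower_ind (hl : l ≠ 0) (T : Subfield ℂ) (h0 : ∀ x ∈ cyc K l, x ∈ T)
    (h : ∀ M, Layer (cyc K l) l M → FiniteDimensional (cyc K l) M → ∀ x ∈ M, x ∈ T) :
    ∀ x ∈ tower K l, x ∈ T := fun _ hx =>
  (sSup_le (a := T.toIntermediateField fun y : cyc K l => h0 y y.2)
    fun M hM y hy => h M hM (Layer.finite hl hM) y hy) hx

/-- the elements of the tower are algebraic -/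
theorem tower_alg [FiniteDimensional ℚ K] (hl : l ≠ 0) :
    ∀ x ∈ tower K l, IsAlgebraic ℚ x := by
  have := cyc_finite (K := K) hl
  have k0 : Algebra.IsAlgebraic ℚ (cyc K l) := Algebra.IsAlgebraic.trans ℚ K _
  refine fun x hx => mem_algebraicClosure_iff.1 (tower_ind hl (algebraicClosure ℚ ℂ).toSubfield
    (fun x hx => ?_) (fun M _ _ x hx => ?_) x hx)
  · exact mem_algebraicClosure_iff.2
      ((k0.isAlgebraic ⟨x, hx⟩).algHom (IsScalarTower.toAlgHom ℚ (cyc K l) ℂ))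
  · have k1 : Algebra.IsAlgebraic ℚ M := Algebra.IsAlgebraic.trans ℚ (cyc K l) _
    exact mem_algebraicClosure_iff.2
      ((k1.isAlgebraic ⟨x, hx⟩).algHom (IsScalarTower.toAlgHom ℚ M ℂ))

theorem pow_fix (s : ℂ ≃+* ℂ) {x : ℂ} {a b : ℕ} (h : (s ^ l ^ a) x = x) (hab : a ≤ b) :
    (s ^ l ^ b) x = x := by
  obtain ⟨c, rfl⟩ := Nat.exists_eq_add_of_le hab
  rw [pow_add, pow_mul]
  induction l ^ c with
  | zero => rfl
  | succ n ih => rw [pow_succ, RingAut.mul_apply, h, ih]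

/-- the elements fixed by some power of `l`-power exponent -/
def proF (l : ℕ) (s : ℂ ≃+* ℂ) : Subfield ℂ where
  carrier := {x | ∃ k : ℕ, (s ^ l ^ k) x = x}
  mul_mem' := fun ⟨a, ha⟩ ⟨b, hb⟩ => ⟨max a b, by
    rw [map_mul, pow_fix s ha (le_max_left a b), pow_fix s hb (le_max_right a b)]⟩
  one_mem' := ⟨0, map_one _⟩
  add_mem' := fun ⟨a, ha⟩ ⟨b, hb⟩ => ⟨max a b, by
    rw [map_add, pow_fix s ha (le_max_left a b), pow_fix s hb (le_max_right a b)]⟩
  zero_mem' := ⟨0, map_zero _⟩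
  neg_mem' := fun ⟨a, ha⟩ => ⟨a, by rw [map_neg, ha]⟩
  inv_mem' := fun _ ⟨a, ha⟩ => ⟨a, by rw [map_inv₀, ha]⟩

/-- over `K(μ_l)` the tower is pro-`l` -/
theorem tower_pro' (hl : l ≠ 0) (s : ℂ ≃+* ℂ) (hK : ∀ x ∈ K, s x = x)
    (h : ∀ z : ℂ, z ^ l = 1 → s z = z) : ∀ x ∈ tower K l, ∃ k : ℕ, (s ^ l ^ k) x = x := by
  have hF := fix_cyc s hK h
  refine tower_ind hl (proF l s) (fun x hx => ⟨0, by simpa using hF x hx⟩) fun M hM _ x hx => ?_
  obtain ⟨hG, ⟨k, hk⟩, -⟩ := hM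
  let t : ℂ ≃ₐ[cyc K l] ℂ := AlgEquiv.ofRingEquiv (f := s) fun y => hF y y.2
  have h1 : AlgEquiv.restrictNormalHom M (t ^ l ^ k) = 1 := by
    rw [map_pow, ← hk, ← IsGalois.card_aut_eq_finrank, pow_card_eq_one']
  have h2 := AlgEquiv.restrictNormal_commutes (t ^ l ^ k) M ⟨x, hx⟩
  have h3 : (t ^ l ^ k).restrictNormal M = 1 := h1
  rw [h3] at h2
  have h4 : ∀ (n : ℕ) (y : ℂ), (t ^ n) y = (s ^ n) y := fun n => by
    induction n with
    | zero => exact fun _ => rfl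
    | succ n ih => exact fun y => by rw [pow_succ, pow_succ, RingAut.mul_apply, ← ih]; rfl
  exact ⟨k, by rw [← h4]; exact h2.symm⟩

theorem aut_pow (s : ℂ ≃ₐ[K] ℂ) (n : ℕ) (y : ℂ) : (s ^ n) y = (s.toRingEquiv ^ n) y := by
  induction n generalizing y with
  | zero => rfl
  | succ n ih => rw [pow_succ, pow_succ, RingAut.mul_apply, ← ih]; rfl

theorem tower_pro (hl : l ≠ 0) (s : ℂ ≃ₐ[K] ℂ) (h : ∀ z : ℂ, z ^ l = 1 → s z = z) :
    ∀ x ∈ tower K l, ∃ k : ℕ, (s ^ l ^ k) x = x := fun x hx => by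
  obtain ⟨k, hk⟩ := tower_pro' hl s.toRingEquiv (fun y hy => s.commutes ⟨y, hy⟩) h x hx
  exact ⟨k, (aut_pow s _ x).trans hk⟩

/-- one exponent for finitely many elements -/
theorem tower_pro_fin (hl : l ≠ 0) (s : ℂ ≃ₐ[K] ℂ) (h : ∀ z : ℂ, z ^ l = 1 → s z = z)
    {ι : Type*} [Finite ι] (x : ι → ℂ) (hx : ∀ i, x i ∈ tower K l) :
    ∃ k : ℕ, ∀ i, (s ^ l ^ k) (x i) = x i := by
  choose k hk using fun i => tower_pro hl s h (x i) (hx i)
  obtain ⟨N, hN⟩ := (Set.finite_range k).bddAbove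
  exact ⟨N, fun i => (aut_pow s _ _).trans
    (pow_fix s.toRingEquiv ((aut_pow s _ _).symm.trans (hk i)) (hN ⟨i, rfl⟩))⟩

/-- an endomorphism that is trivial modulo an unramified prime is trivial -/
theorem unram_id {R S : Type*} [CommRing R] [CommRing S] [Algebra R S] [IsDomain S]
    [IsNoetherianRing S] (Q : Ideal S) [Q.IsPrime] [Algebra.IsUnramifiedAt R Q] (φ : S →ₐ[R] S)
    (h : ∀ x, φ x - x ∈ Q) (x : S) : φ x = x := by
  have hc : Q = Q.comap φ := Ideal.ext fun y => by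
    rw [Ideal.mem_comap]
    exact ⟨fun k => by simpa using Q.add_mem (h y) k, fun k => by simpa using Q.sub_mem k (h y)⟩
  have e : Localization.localAlgHom Q Q φ hc = AlgHom.id R _ := by
    apply Algebra.FormallyUnramified.ext_of_iInf _
      (Ideal.iInf_pow_eq_bot_of_isLocalRing (IsLocalRing.maximalIdeal _) Ideal.IsPrime.ne_top')
    intro y
    obtain ⟨a, b, rfl⟩ := IsLocalization.exists_mk'_eq Q.primeCompl y
    have e1 : Localization.localAlgHom Q Q φ hc (IsLocalization.mk' _ a b) = _ :=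
      Localization.localRingHom_mk' Q Q φ.toRingHom hc a b
    rw [Ideal.Quotient.eq, e1, AlgHom.id_apply, ← IsLocalization.mk'_sub,
      IsLocalization.AtPrime.mk'_mem_maximal_iff (Localization.AtPrime Q) Q]
    have := Q.sub_mem (Q.mul_mem_right (b : S) (h a)) (Q.mul_mem_left a (h b))
    convert this using 1
    simp only [AlgHom.toRingHom_eq_coe, RingHom.coe_coe]
    ring
  apply IsLocalization.injective (Localization.AtPrime Q) Q.primeCompl_le_nonZeroDivisors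
  have e2 := DFunLike.congr_fun e (algebraMap S _ x)
  exact (Localization.localRingHom_to_map Q Q φ.toRingHom hc x).symm.trans e2

variable {p : ℕ} [Fact p.Prime]

theorem norm_le_of_int {y : PadicAlgCl p} (h : IsIntegral ℤ y) : ‖y‖ ≤ 1 := by
  have h1 := (Valuation.integer.integers (PadicAlgCl.valued p).v).mem_of_integral h.tower_top
  exact_mod_cast (Valuation.mem_integer_iff _ _).1 h1

theorem norm_intCast_lt {k : ℤ} : ‖(k : PadicAlgCl p)‖ < 1 ↔ (p : ℤ) ∣ k := by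
  rw [← map_intCast (algebraMap ℚ_[p] (PadicAlgCl p)), ← Padic.norm_intCast_lt_one_iff]
  exact (PadicAlgCl.norm_extends p (k : ℚ_[p])) ▸ Iff.rfl

/-- the prime that belongs to a map of an integral ring -/
def primeOf {S : Type*} [CommRing S] [Algebra.IsIntegral ℤ S] (φ : S →+* PadicAlgCl p) :
    Ideal S where
  carrier := {x | ‖φ x‖ < 1}
  add_mem' {a b} ha hb := by
    show ‖φ (a + b)‖ < 1
    rw [map_add]
    exact (IsUltrametricDist.norm_add_le_max _ _).trans_lt (max_lt ha hb)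
  zero_mem' := by simp
  smul_mem' c a ha := by
    show ‖φ (c * a)‖ < 1
    rw [map_mul, norm_mul]
    exact mul_lt_one_of_nonneg_of_lt_one_right
      (norm_le_of_int (map_isIntegral_int φ (Algebra.IsIntegral.isIntegral c))) (norm_nonneg _) ha

theorem primeOf_prime {S : Type*} [CommRing S] [Algebra.IsIntegral ℤ S]
    (φ : S →+* PadicAlgCl p) : (primeOf φ).IsPrime := by
  refine ⟨fun h => ?_, fun {a b} h => ?_⟩
  · have : ‖φ 1‖ < 1 := (Ideal.eq_top_iff_one _).1 h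
    simp at this
  · have h1 : ‖φ (a * b)‖ < 1 := h
    rw [map_mul, norm_mul] at h1
    by_contra k
    obtain ⟨k1, k2⟩ := not_or.1 k
    exact not_lt.2 (one_le_mul_of_one_le_of_one_le (not_lt.1 k1) (not_lt.1 k2)) h1

/-- roots of unity of order prime to `p` are distinct modulo `p` -/
theorem root_eq {n : ℕ} (hn : ¬ p ∣ n) {a b : PadicAlgCl p} (ha : a ^ n = 1) (hb : b ^ n = 1)
    (h : ‖a - b‖ < 1) : a = b := by
  have n0 : n ≠ 0 := fun e => hn (e ▸ dvd_zero p)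
  have b0 : b ≠ 0 := fun e => by simp [e, n0] at hb
  have hb1 : ‖b‖ = 1 :=
    (pow_eq_one_iff_of_nonneg (norm_nonneg _) n0).1 (by rw [← norm_pow, hb, norm_one])
  have hw : (a / b) ^ n = 1 := by rw [div_pow, ha, hb, div_one]
  have hw1 : ‖a / b‖ = 1 :=
    (pow_eq_one_iff_of_nonneg (norm_nonneg _) n0).1 (by rw [← norm_pow, hw, norm_one])
  have h1 : ‖a / b - 1‖ < 1 := by rwa [div_sub_one b0, norm_div, hb1, div_one]
  by_contra k
  have k1 : a / b - 1 ≠ 0 := fun e => k ((div_eq_one_iff_eq b0).1 (sub_eq_zero.1 e))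
  have h2 : ∑ i ∈ Finset.range n, (a / b) ^ i = 0 :=
    (mul_eq_zero.1 ((geom_sum_mul (a / b) n).trans (by rw [hw, sub_self]))).resolve_right k1
  have h3 : ∀ m : ℕ, ‖∑ i ∈ Finset.range m, (a / b) ^ i - m‖ < 1 := by
    intro m
    induction m with
    | zero => simp
    | succ m ih =>
      have h4 : ‖(a / b) ^ m - 1‖ < 1 := by
        rw [← geom_sum_mul, norm_mul]
        refine mul_lt_one_of_nonneg_of_lt_one_right ?_ (norm_nonneg _) h1
        exact IsUltrametricDist.norm_sum_le_of_forall_le_of_nonneg zero_le_one fun i _ => by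
          rw [norm_pow, hw1, one_pow]
      rw [Finset.sum_range_succ, Nat.cast_succ, ← sub_add_sub_comm]
      exact (IsUltrametricDist.norm_add_le_max _ _).trans_lt (max_lt ih h4)
  have h5 := h3 n
  rw [h2, zero_sub, norm_neg, ← Int.cast_natCast, norm_intCast_lt] at h5
  exact hn (Int.natCast_dvd_natCast.1 h5)

theorem ine_root {n : ℕ} (hn : ¬ p ∣ n) (e : ℂ ≃+* PadicAlgCl p) (s : ℂ ≃+* ℂ)
    (h : ∀ x : ℂ, IsIntegral ℤ x → ‖e (s x) - e x‖ < 1) (z : ℂ) (hz : z ^ n = 1) : s z = z := by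
  have n0 : n ≠ 0 := fun e => hn (e ▸ dvd_zero p)
  refine e.injective (root_eq hn ?_ ?_ (h z (IsIntegral.of_pow (Nat.pos_of_ne_zero n0) ?_)))
  · rw [← map_pow, ← map_pow, hz, map_one, map_one]
  · rw [← map_pow, hz, map_one]
  · rw [hz]
    exact isIntegral_one

/-- inertia away from `l` fixes the tower -/
theorem tower_inertia' [FiniteDimensional ℚ K] (hl : ¬ p ∣ l) (e : ℂ ≃+* PadicAlgCl p)
    (s : ℂ ≃+* ℂ) (hK : ∀ x ∈ K, s x = x)
    (h : ∀ x : ℂ, IsIntegral ℤ x → ‖e (s x) - e x‖ < 1) : ∀ x ∈ tower K l, s x = x := by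
  have l0 : l ≠ 0 := fun e => hl (e ▸ dvd_zero p)
  have hF := fix_cyc s hK (ine_root hl e s h)
  refine tower_ind l0 (RingHom.eqLocusField (s : ℂ →+* ℂ) (RingHom.id ℂ)) hF fun M hM _ x hx => ?_
  obtain ⟨hG, -, hU⟩ := hM
  have := cyc_finite (K := K) l0
  have : NumberField K := {}
  have : NumberField (cyc K l) := NumberField.of_module_finite K _
  have : NumberField M := NumberField.of_module_finite (cyc K l) _
  let t : ℂ ≃ₐ[cyc K l] ℂ := AlgEquiv.ofRingEquiv (f := s) fun y => hF y y.2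
  let σ := t.restrictNormal M
  have hσ : ∀ y : M, ((σ y : M) : ℂ) = s y := fun y => AlgEquiv.restrictNormal_commutes t M y
  let φ : 𝓞 M →+* PadicAlgCl p :=
    (e : ℂ →+* PadicAlgCl p).comp ((algebraMap M ℂ).comp (algebraMap (𝓞 M) M))
  have := primeOf_prime φ
  have := hU (primeOf φ) fun k => by
    have k1 : ‖φ l‖ < 1 := k
    rw [map_natCast, ← Int.cast_natCast, norm_intCast_lt] at k1
    exact hl (Int.natCast_dvd_natCast.1 k1)
  have key := unram_id (primeOf φ) (RingOfIntegers.mapAlgHom σ : 𝓞 M →ₐ[𝓞 (cyc K l)] 𝓞 M)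
    fun y => by
      show ‖φ _‖ < 1
      rw [map_sub]
      have := h ((y : M) : ℂ) (map_isIntegral_int (algebraMap M ℂ) y.isIntegral_coe)
      rw [← hσ] at this
      exact this
  have k2 : ∀ y : 𝓞 M, s ((y : M) : ℂ) = ((y : M) : ℂ) := fun y => by
    rw [← hσ]
    exact congrArg (fun z : 𝓞 M => ((z : M) : ℂ)) (key y)
  obtain ⟨a, b, -, hab⟩ := IsFractionRing.div_surjective (A := 𝓞 M) (⟨x, hx⟩ : M)
  have e1 : x = ((a : M) : ℂ) / ((b : M) : ℂ) := (congrArg (fun z : M => (z : ℂ)) hab).symm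
  show s x = x
  rw [e1, map_div₀, k2, k2]

theorem tower_inertia [FiniteDimensional ℚ K] (hl : l.Prime) (hp : p ≠ l)
    (e : ℂ ≃+* PadicAlgCl p) (s : ℂ ≃ₐ[K] ℂ)
    (h : ∀ x : ℂ, IsIntegral ℤ x → ‖e (s x) - e x‖ < 1) : ∀ x ∈ tower K l, s x = x :=
  tower_inertia' (fun k => hp ((Nat.prime_dvd_prime_iff_eq Fact.out hl).1 k)) e s.toRingEquiv
    (fun y hy => s.commutes ⟨y, hy⟩) h

end

end Pool.Agent.RT
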