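import Pool.Agent.Lib.MP_e97e2b_nt.RT.GalB

/-! Inertia at a large prime fixes the ground field. -/

set_option autoImplicit false

namespace Pool.Agent.RT

open NumberField IntermediateField Polynomial

theorem ine_elt {θ : ℂ} (hθ : IsIntegral ℤ θ) : ∃ p₀ : ℕ, ∀ (p : ℕ) [Fact p.Prime], p₀ < p →
    ∀ (e : ℂ ≃+* PadicAlgCl p) (s : ℂ ≃+* ℂ), ‖e (s θ) - e θ‖ < 1 → s θ = θ := by
  classical
  have hf := minpoly.ne_zero hθ
  have key : ∀ r : ℂ, IsIntegral ℤ r → r ≠ θ → ∃ N : ℕ, ∀ (p : ℕ) [Fact p.Prime], N < p →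
      ∀ e : ℂ ≃+* PadicAlgCl p, ¬ ‖e r - e θ‖ < 1 := by
    intro r hr hne
    have hi : IsIntegral ℤ (r - θ) := hr.sub hθ
    have h0 : (minpoly ℤ (r - θ)).coeff 0 ≠ 0 := fun k => by
      have k1 := minpoly.coeff_zero_ne_zero (hi.tower_top (A := ℚ)) (sub_ne_zero.2 hne)
      rw [minpoly.isIntegrallyClosed_eq_field_fractions' ℚ hi, coeff_map, k, map_zero] at k1
      exact k1 rfl
    refine ⟨((minpoly ℤ (r - θ)).coeff 0).natAbs, fun p _ hp e h => ?_⟩
    have h1 := minpoly.aeval ℤ (r - θ)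
    rw [← (minpoly ℤ (r - θ)).divX_mul_X_add] at h1
    simp only [map_add, map_mul, aeval_X, eq_intCast, map_intCast] at h1
    have h2 : (((minpoly ℤ (r - θ)).coeff 0 : ℤ) : PadicAlgCl p) =
        -(e (aeval (r - θ) (minpoly ℤ (r - θ)).divX) * (e r - e θ)) := by
      have := congrArg e h1
      simp only [map_add, map_mul, map_sub, map_intCast, map_zero] at this
      linear_combination this
    have h3 : ‖e (aeval (r - θ) (minpoly ℤ (r - θ)).divX)‖ ≤ 1 :=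
      norm_le_of_int (map_isIntegral_int (e : ℂ →+* PadicAlgCl p)
        (IsIntegral.of_mem_of_fg _ hi.fg_adjoin_singleton _ (aeval_mem_adjoin_singleton ℤ _)))
    have h4 : (p : ℤ) ∣ (minpoly ℤ (r - θ)).coeff 0 := norm_intCast_lt.1 (by
      rw [h2, norm_neg, norm_mul]
      exact mul_lt_one_of_nonneg_of_lt_one_right h3 (norm_nonneg _) h)
    exact not_le.2 hp (Nat.le_of_dvd (Int.natAbs_pos.2 h0) (Int.natCast_dvd.1 h4))
  choose! N hN using key
  refine ⟨((minpoly ℤ θ).aroots ℂ).toFinset.sup N, fun p _ hp e s h => ?_⟩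
  by_contra k
  have h1 : s θ ∈ ((minpoly ℤ θ).aroots ℂ).toFinset := by
    rw [Multiset.mem_toFinset, mem_aroots]
    exact ⟨hf, by
      have := aeval_algHom_apply (s : ℂ →+* ℂ).toIntAlgHom θ (minpoly ℤ θ)
      rw [minpoly.aeval, map_zero] at this
      exact this⟩
  exact hN (s θ) (map_isIntegral_int (s : ℂ →+* ℂ) hθ) k p
    ((Finset.le_sup (f := N) h1).trans_lt hp) e h

/-- for large `p` every automorphism that is inertial at `p` fixes `K` -/
theorem ine_base (K : IntermediateField ℚ ℂ) [FiniteDimensional ℚ K] :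
    ∃ p₀ : ℕ, ∀ (p : ℕ) [Fact p.Prime], p₀ < p → ∀ (e : ℂ ≃+* PadicAlgCl p) (s : ℂ ≃+* ℂ),
      (∀ x : ℂ, IsIntegral ℤ x → ‖e (s x) - e x‖ < 1) → ∀ x ∈ K, s x = x := by
  obtain ⟨θ, hθ⟩ := Field.exists_primitive_element ℚ K
  have ha : IsAlgebraic ℤ (θ : ℂ) := (IsFractionRing.isAlgebraic_iff ℤ ℚ ℂ).2
    ((Algebra.IsAlgebraic.isAlgebraic θ).algHom K.val)
  obtain ⟨d, d0, hd⟩ := ha.exists_integral_multiple
  obtain ⟨p₀, h⟩ := ine_elt hd
  refine ⟨p₀, fun p _ hp e s hs x hx => ?_⟩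
  have h1 := h p hp e s (hs _ hd)
  have h2 : s θ = θ := by
    rw [map_zsmul] at h1
    exact smul_right_injective ℂ d0 h1
  have h3 : K = adjoin ℚ {(θ : ℂ)} := by
    exact (lift_top ℚ K).symm.trans
      ((congrArg lift hθ).symm.trans (lift_adjoin_simple ℚ K θ))
  rw [h3] at hx
  exact (adjoin_le_iff (T := (RingHom.eqLocusField (s : ℂ →+* ℂ)
    (RingHom.id ℂ)).toIntermediateField fun y : ℚ => by simp)).2
      (Set.singleton_subset_iff.2 h2) hx

/-- for large `p` different from `l`, inertia at `p` fixes the tower -/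
theorem ine_tower (K : IntermediateField ℚ ℂ) [FiniteDimensional ℚ K] :
    ∃ p₀ : ℕ, ∀ (p : ℕ) [Fact p.Prime], p₀ < p → ∀ l : ℕ, ¬ p ∣ l →
      ∀ (e : ℂ ≃+* PadicAlgCl p) (s : ℂ ≃+* ℂ),
        (∀ x : ℂ, IsIntegral ℤ x → ‖e (s x) - e x‖ < 1) → ∀ x ∈ tower K l, s x = x := by
  obtain ⟨p₀, h⟩ := ine_base K
  exact ⟨p₀, fun p _ hp l hl e s hs => tower_inertia' hl e s (h p hp e s hs) hs⟩

end Pool.Agent.RT
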