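import Pool.Agent.Lib.MP_e97e2b_nt.RT.Defs
import Pool.Agent.Lib.MP_33b3f9_ag.M4.B2.Inert

/-! Norms of elements fixed by a subgroup of the inertia group, tame characters. -/

set_option autoImplicit false

namespace Pool.Agent.RT

open _root_.M4.B2

noncomputable section

variable {p : ℕ} [Fact p.Prime]

theorem tm_inr {t : GQ p} (ht : ∀ (n : ℕ) (ω : PadicAlgCl p), ¬ p ∣ n → ω ^ n = 1 → t ω = ω) :
    t ∈ Inr p := by
  intro x hx
  rcases hx.lt_or_eq with hx1 | hx1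
  · rw [sub_eq_add_neg]
    exact (IsUltrametricDist.norm_add_le_max _ _).trans_lt
      (max_lt ((norm_aut t x).trans_lt hx1) ((norm_neg x).trans_lt hx1))
  · obtain ⟨n, ω, hn, hω, e⟩ := exists_root_res hx1
    have hω1 := (norm_root (Nat.pos_of_ne_zero fun h0 : n = 0 => hn (h0 ▸ dvd_zero p)) hω).le
    rw [← res_eq_iff ((norm_aut t x).trans_le hx) hx, ← e,
      res_eq_iff ((norm_aut t x).trans_le hx) hω1]
    conv_lhs => rw [← ht n ω hn hω, ← map_sub, norm_aut]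
    exact (res_eq_iff hx hω1).1 e.symm

theorem tm_norm {x : PadicAlgCl p} (hx : ∀ t ∈ Inr p, t x = x) : ∃ q : ℚ_[p], ‖x‖ = ‖q‖ := by
  have h1 : x ∈ IntermediateField.adjoin ℚ_[p] {ω : PadicAlgCl p | ∃ n, ¬ p ∣ n ∧ ω ^ n = 1} := by
    rw [← InfiniteGalois.fixedField_fixingSubgroup (IntermediateField.adjoin ℚ_[p] _),
      IntermediateField.mem_fixedField_iff]
    intro t ht
    rw [IntermediateField.mem_fixingSubgroup_iff] at ht
    exact hx t (tm_inr fun n ω hn hω => ht ω (IntermediateField.subset_adjoin _ _ ⟨n, hn, hω⟩))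
  obtain ⟨n, ω, hn, hω, h2⟩ := inert_mem h1
  exact norm_mem_adjoin hn hω h2

theorem orb (H : Subgroup (Inr p)) [H.FiniteIndex] {z : PadicAlgCl p} (hz : z ≠ 0)
    (h : ∀ t ∈ H, (t : GQ p) z = z) : ∃ k : ℤ, ‖z‖ ^ H.index = (p : ℝ) ^ k := by
  have := Fintype.ofFinite (Inr p ⧸ H)
  have h1 : ∀ s : Inr p, ((QuotientGroup.mk s : Inr p ⧸ H).out : GQ p) z = (s : GQ p) z :=
    fun s => by
      obtain ⟨u, hu⟩ := QuotientGroup.mk_out_eq_mul H s
      rw [hu, Subgroup.coe_mul, AlgEquiv.mul_apply, h u u.2]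
  obtain ⟨q, hq⟩ := tm_norm (x := ∏ c : Inr p ⧸ H, (c.out : GQ p) z) fun t ht => by
    rw [map_prod]
    refine Fintype.prod_equiv (MulAction.toPerm (⟨t, ht⟩ : Inr p)) _ _ fun c => ?_
    rw [MulAction.toPerm_apply, ← MulAction.Quotient.mk_smul_out, h1]
    rfl
  simp only [norm_prod, norm_aut, Finset.prod_const, Finset.card_univ] at hq
  have h2 : q ≠ 0 := norm_ne_zero_iff.1 (hq ▸ pow_ne_zero _ (norm_ne_zero_iff.2 hz))
  exact ⟨-q.valuation, by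
    rw [Subgroup.index, Nat.card_eq_fintype_card, hq, Padic.norm_eq_zpow_neg_valuation h2]⟩

theorem tm_isChi {F : Type} [Field F] {l : ℕ} [NeZero l] {ζ : F} (hζ : IsPrimitiveRoot ζ l)
    {σ : F →* F} {a : ZMod l} (h : σ ζ = ζ ^ a.val) : IsChi l σ a := fun z hz => by
  obtain ⟨j, -, rfl⟩ := hζ.eq_pow_of_pow_eq_one hz
  rw [map_pow, h, ← pow_mul, ← pow_mul, mul_comm]

theorem chi_sur (a : ZMod p) (ha : a ≠ 0) : ∃ t ∈ Inr p, IsChi p t a := by
  have hp : p.Prime := Fact.out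
  obtain ⟨ζ, hζ⟩ := HasEnoughRootsOfUnity.exists_primitiveRoot (PadicAlgCl p) p
  let χ := (hζ.autToPow ℚ_[p]).comp (Inr p).subtype
  have h0 : ∀ t : Inr p, (t : GQ p) ζ = ζ ^ (χ t : ZMod p).val := fun t =>
    (hζ.autToPow_spec ℚ_[p] (t : GQ p)).symm
  obtain ⟨k, hk⟩ := orb χ.ker (sub_ne_zero.2 (hζ.ne_one hp.one_lt).symm) fun t ht => by
    rw [map_sub, map_one, h0, MonoidHom.mem_ker.1 ht, Units.val_one, ZMod.val_one, pow_one]
  have hp1 : (1 : ℝ) < p := by exact_mod_cast hp.one_lt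
  have h1 := congrArg (· ^ (p - 1)) hk
  rw [← pow_mul, mul_comm, pow_mul, norm_one_sub_pow hζ, inv_pow, ← zpow_natCast, ← zpow_neg,
    ← zpow_natCast, ← zpow_mul] at h1
  have h2 : p - 1 ∣ χ.ker.index := Int.natCast_dvd_natCast.1 ⟨-k, by
    linarith [zpow_right_injective₀ (by linarith) hp1.ne' h1]⟩
  rw [Subgroup.index_ker] at h2
  have h3 : χ.range = ⊤ := Subgroup.eq_top_of_le_card _ (by
    rw [Nat.card_eq_fintype_card, ZMod.card_units]
    exact Nat.le_of_dvd Nat.card_pos h2)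
  obtain ⟨t, ht⟩ : Units.mk0 a ha ∈ χ.range := h3 ▸ Subgroup.mem_top _
  exact ⟨t, t.2, tm_isChi hζ (σ := ((t : GQ p) : PadicAlgCl p →* PadicAlgCl p)) (by
    rw [← Units.val_mk0 ha, ← ht]; exact h0 t)⟩

theorem tm_le (t : GQ p) (z : PadicAlgCl p) : ‖t z / z‖ ≤ 1 := by
  rw [norm_div, norm_aut]
  exact div_self_le_one _

theorem tm_ne (t : GQ p) {z : PadicAlgCl p} (hz : z ≠ 0) : tm t z ≠ 0 := fun h => by
  have h1 := (res_eq_zero (tm_le t z)).1 h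
  rw [norm_div, norm_aut, div_self (norm_ne_zero_iff.2 hz)] at h1
  exact h1.false

theorem tm_mul (t : GQ p) (x y : PadicAlgCl p) : tm t (x * y) = tm t x * tm t y := by
  rw [tm, map_mul, mul_div_mul_comm, res_mul (tm_le t x) (tm_le t y), tm, tm]

theorem tm_pow (t : GQ p) (x : PadicAlgCl p) (n : ℕ) : tm t (x ^ n) = tm t x ^ n := by
  rw [tm, map_pow, ← div_pow, res_pow (tm_le t x), tm]

theorem tm_unit {t : GQ p} (ht : t ∈ Inr p) {u : PadicAlgCl p} (hu : ‖u‖ = 1) : tm t u = 1 := by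
  rw [tm, ← res_one (p := p), res_eq_iff (tm_le t u) norm_one.le,
    div_sub_one (norm_ne_zero_iff.1 (hu ▸ one_ne_zero)), norm_div, hu, div_one]
  exact ht u hu.le

theorem tm_eq {t : GQ p} (ht : t ∈ Inr p) {x y : PadicAlgCl p} (h : ‖x‖ = ‖y‖) :
    tm t x = tm t y := by
  by_cases hy : y = 0
  · rw [hy, norm_eq_zero.1 (h.trans (norm_eq_zero.2 hy))]
  · rw [← div_mul_cancel₀ x hy, tm_mul, tm_unit ht (by
      rw [norm_div, h, div_self (norm_ne_zero_iff.2 hy)]), one_mul]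

theorem tm_zeta {t : GQ p} {a : ZMod p} (ha : IsChi p t a) {ζ : PadicAlgCl p}
    (hζ : IsPrimitiveRoot ζ p) : tm t (1 - ζ) = ZMod.castHom (dvd_refl p) (kk p) a := by
  have hp : p.Prime := Fact.out
  have h1 := (norm_root hp.pos hζ.pow_eq_one).le
  rw [tm, map_sub, map_one, ha ζ hζ.pow_eq_one, ← mul_neg_geom_sum,
    mul_div_cancel_left₀ _ (sub_ne_zero.2 (hζ.ne_one hp.one_lt).symm),
    res_sum _ fun i _ => (norm_pow _ _).trans_le (pow_le_one₀ (norm_nonneg _) h1)]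
  simp [res_pow h1, res_of_pow_p (j := 1) (by rw [pow_one, hζ.pow_eq_one] : ζ ^ p ^ 1 = 1)]

theorem tm_chi {t : GQ p} (ht : t ∈ Inr p) {a : ZMod p} (ha : IsChi p t a) {z : PadicAlgCl p}
    {M j : ℕ} (h : ‖z‖ ^ (M * (p - 1)) = (p : ℝ)⁻¹ ^ j) :
    tm t z ^ M = ZMod.castHom (dvd_refl p) (kk p) a ^ j := by
  have hp : p.Prime := Fact.out
  obtain ⟨ζ, hζ⟩ := HasEnoughRootsOfUnity.exists_primitiveRoot (PadicAlgCl p) p
  rw [← norm_one_sub_pow hζ, ← pow_mul, mul_comm (p - 1), pow_mul, pow_mul,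
    pow_left_inj₀ (by positivity) (by positivity) (Nat.sub_ne_zero_of_lt hp.one_lt), ← norm_pow,
    ← norm_pow] at h
  rw [← tm_pow, tm_eq ht h, tm_pow, tm_zeta ha hζ]

/-- The tame character of an element that is fixed by a subgroup of index dividing `M (p - 1)`. -/
theorem tm_main (H : Subgroup (Inr p)) {M : ℕ} (hM : 0 < M) (hH : H.index ∣ M * (p - 1))
    {z : PadicAlgCl p} (hz : z ≠ 0) (h1 : ‖z‖ < 1) (h2 : (p : ℝ)⁻¹ ≤ ‖z‖ ^ (p - 1))
    (h : ∀ t ∈ H, (t : GQ p) z = z) : ∃ j : ℕ, 0 < j ∧ j ≤ M ∧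
      ∀ t ∈ Inr p, ∀ a : ZMod p, IsChi p t a → tm t z ≠ 0 ∧
        tm t z ^ M = ZMod.castHom (dvd_refl p) (kk p) a ^ j ∧
        (2 * j = M → tm t z ^ 2 = ZMod.castHom (dvd_refl p) (kk p) a) := by
  have hp : p.Prime := Fact.out
  have hp1 : (1 : ℝ) < p := by exact_mod_cast hp.one_lt
  have h0 : M * (p - 1) ≠ 0 := mul_ne_zero hM.ne' (Nat.sub_ne_zero_of_lt hp.one_lt)
  have : H.FiniteIndex := ⟨ne_zero_of_dvd_ne_zero h0 hH⟩
  obtain ⟨k, hk⟩ := orb H hz h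
  obtain ⟨c, hc⟩ := hH
  have h3 : ‖z‖ ^ (M * (p - 1)) = (p : ℝ) ^ (k * c) := by
    rw [hc, pow_mul, hk, zpow_mul, zpow_natCast]
  have h4 : k * c < 0 := (zpow_lt_one_iff_right₀ hp1).1
    (h3 ▸ pow_lt_one₀ (norm_nonneg z) h1 h0)
  obtain ⟨j, hj⟩ := Int.eq_ofNat_of_zero_le (neg_nonneg.2 h4.le)
  rw [neg_eq_iff_eq_neg.1 hj, zpow_neg, zpow_natCast, ← inv_pow] at h3
  refine ⟨j, by omega, ?_, fun t ht a ha => ⟨tm_ne t hz, tm_chi ht ha h3, fun e => ?_⟩⟩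
  · rw [← pow_le_pow_iff_right_of_lt_one₀ (inv_pos.2 (by linarith)) (inv_lt_one_of_one_lt₀ hp1),
      ← h3, mul_comm, pow_mul]
    exact pow_le_pow_left₀ (by positivity) h2 M
  · rw [← e, mul_right_comm, pow_mul,
      pow_left_inj₀ (by positivity) (by positivity) (by omega)] at h3
    simpa using tm_chi ht ha (M := 2) (j := 1) (h3.trans (pow_one _).symm)

end

end Pool.Agent.RT
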