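import Pool.Agent.Lib.MP_e97e2b_nt.RT.W
import Pool.Agent.Lib.MP_e97e2b_nt.RT.Tm
import Pool.Agent.Lib.MP_e97e2b_nt.RT.Loc.Exit

/-! The place above `l`. -/

set_option autoImplicit false

namespace Pool.Agent.RT

open Matrix Polynomial RG RG.B2
open _root_.M4 (InH)
open _root_.M4.B2 (kk res cj e_cj norm_aut cp_inc_ne res_eq_iff)

noncomputable section

theorem l_index {Γ n : Type} [Group Γ] [Fintype n] [DecidableEq n] (φ : Γ →* GL n (ZMod (2 ^ 3)))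
    {G : ℕ} (h : Fintype.card n = G) : φ.ker.index ∣ (8 ^ (G * G)).factorial := by
  rw [Subgroup.index_ker]
  refine Nat.dvd_factorial Nat.card_pos ?_
  refine (Nat.card_le_card_of_injective (fun g : φ.range => (g.1 : Matrix n n (ZMod (2 ^ 3))))
    fun _ _ e => Subtype.ext (Units.ext e)).trans_eq ?_
  change Nat.card (n → n → ZMod (2 ^ 3)) = _
  rw [Nat.card_fun, Nat.card_fun, Nat.card_zmod, Nat.card_eq_fintype_card, h, ← pow_mul]
  rfl

theorem l_eight {n : Type} [Fintype n] [DecidableEq n] {g : GL n ℤ_[2]}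
    (h : GeneralLinearGroup.map (PadicInt.toZModPow 3) g = 1) (i j : n) :
    (8 : ℤ_[2]) ∣ (g.1 - 1) i j := by
  have h1 : PadicInt.toZModPow 3 ((g.1 - 1) i j) = 0 := by
    have h2 := congrArg (fun u : GL n (ZMod (2 ^ 3)) => u.1 i j) h
    rw [Matrix.sub_apply, map_sub, sub_eq_zero]
    refine h2.trans ?_
    rw [Units.val_one, one_apply, one_apply]
    split_ifs <;> simp
  rw [← RingHom.mem_ker, PadicInt.ker_toZModPow, Ideal.mem_span_singleton] at h1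
  exact (by norm_num : (8 : ℤ_[2]) = ((2 : ℕ) : ℤ_[2]) ^ 3) ▸ h1

theorem l_weight {p M : ℕ} (hp : 1 < p) {r : ℝ} (h0 : 0 < r) (h1 : r < 1) (hM : 0 < M)
    (h2 : (p : ℝ)⁻¹ ≤ r ^ (p - 1)) {k : ℤ} (h : r ^ (M * (p - 1)) = (p : ℝ) ^ k) :
    ∃ j : ℕ, 0 < j ∧ j ≤ M ∧ r ^ (M * (p - 1)) = (p : ℝ)⁻¹ ^ j := by
  have hp' : (1 : ℝ) < p := by exact_mod_cast hp
  have h3 : k < 0 := by
    rw [← zpow_lt_one_iff_right₀ hp', ← h]
    exact pow_lt_one₀ h0.le h1 (Nat.mul_pos hM (by omega)).ne'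
  obtain ⟨j, hj⟩ := Int.eq_ofNat_of_zero_le (a := -k) (by omega)
  have h4 : r ^ (M * (p - 1)) = (p : ℝ)⁻¹ ^ j := by
    rw [h, inv_pow, ← _root_.zpow_natCast, ← hj, _root_.zpow_neg, inv_inv]
  refine ⟨j, by omega, ?_, h4⟩
  have h5 := pow_le_pow_left₀ (by positivity) h2 M
  rw [← pow_mul, mul_comm, h4] at h5
  exact (pow_le_pow_iff_right_of_lt_one₀ (by positivity) (inv_lt_one_of_one_lt₀ hp')).1 h5

theorem l_res {p : ℕ} [Fact p.Prime] {t : GQ p} (ht : t ∈ Inr p) (x : PadicAlgCl p)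
    (hx : ‖x‖ ≤ 1) : res (t x) = res x :=
  (res_eq_iff ((norm_aut t x).trans_le hx) hx).2 (ht x hx)

variable [Dim] {P : Nat.Primes}

theorem l_inert (S : Gd P Bits) {t : GQ P} (ht : t ∈ Inr P) {R : ∀ l : Nat.Primes, GL ν ℤ_[l]}
    (h : ∀ i x, cj S.e t (S.D.X i x) = S.D.X i (rho R x)) {l : Nat.Primes} (hl : l ≠ P) :
    R l = 1 := by
  have h1 : ∀ x : Vt P, rhoV P R x - x ∈ Lam P := fun x => by
    have h2 := (S.sep (x := x) (u := rho R x - x) (c := 1) fun i => by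
      rw [add_sub_cancel, one_mul, ← h, e_cj, l_res ht _ (S.intg_X i x)]).1
    rwa [← coe_rhoV, ← Submodule.coe_sub, away_coe] at h2
  have h2 : ∀ x : Vt P, rhoV P R x - x = 0 := fun x => gd_line fun q => by
    have h3 := mem_Lam.1 (h1 (q • x))
    rw [Submodule.coe_sub, coe_rhoV, Submodule.coe_smul, map_rat_smul (rho R) q (x : VA),
      ← smul_sub] at h3
    exact h3
  ext i j
  have h3 := congrFun (congrArg (fun z : Vt P => cV l (z : VA))
    (sub_eq_zero.1 (h2 ⟨iV l (Pi.single j 1), fun _ => cp_inc_ne hl.symm _⟩))) i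
  rw [coe_rhoV, cV_rho, cV_iV_self, mulVec_single_one] at h3
  refine Subtype.ext (h3.trans ?_)
  rw [Units.val_one, one_apply, Pi.single_apply]
  split_ifs <;> rfl

/-- The point of order `p` given by a vector modulo `p`. -/
def lpt {p : ℕ} [Fact p.Prime] (y : ν → ZMod p) : ν → ℚ_[p] := fun i => ((y i).val : ℚ_[p]) / p

theorem lpt_mem {p : ℕ} [Fact p.Prime] {z : ν → ℤ_[p]} :
    (fun i => (z i : ℚ_[p]) / p) ∈ IV p ↔ ∀ i, PadicInt.toZMod (z i) = 0 := by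
  refine forall_congr' fun i => ?_
  have hp : (0 : ℝ) < ‖(p : ℚ_[p])‖ :=
    norm_pos_iff.2 (Nat.cast_ne_zero.2 (Fact.out : p.Prime).ne_zero)
  rw [norm_div, div_le_one hp, ← RingHom.mem_ker, PadicInt.ker_toZMod,
    PadicInt.maximalIdeal_eq_span_p, ← pow_one (p : ℤ_[p]),
    ← PadicInt.norm_le_pow_iff_mem_span_pow, Padic.norm_p]
  simp

theorem lpt_smul {p : ℕ} [Fact p.Prime] (y : ν → ZMod p) : p • lpt y ∈ IV p := fun i => by
  rw [Pi.smul_apply, lpt, nsmul_eq_mul,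
    mul_div_cancel₀ _ (Nat.cast_ne_zero.2 (Fact.out : p.Prime).ne_zero)]
  exact IsUltrametricDist.norm_natCast_le_one _ _

theorem lpt_not {p : ℕ} [Fact p.Prime] {y : ν → ZMod p} (hy : y ≠ 0) : lpt y ∉ IV p := fun h =>
  hy (funext fun i => by
    simpa using (lpt_mem (z := fun i => ((y i).val : ℤ_[p]))).1 h i)

theorem lpt_eig {p : ℕ} [Fact p.Prime] {y : ν → ZMod p} {g : Matrix ν ν ℤ_[p]} {c : ZMod p}
    (h : bar g *ᵥ y = c • y) : mQ g *ᵥ lpt y - c.val • lpt y ∈ IV p := by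
  have h1 := (lpt_mem (z := fun i => (∑ j, g i j * ((y j).val : ℤ_[p])) -
    (c.val : ℤ_[p]) * ((y i).val : ℤ_[p]))).2 fun i => by
      have h2 := congrFun h i
      simp only [bar, mulVec, dotProduct, map_apply, Pi.smul_apply, smul_eq_mul] at h2
      simp only [map_sub, map_sum, map_mul, map_natCast, ZMod.natCast_zmod_val, h2, sub_self]
  refine (congrArg (· ∈ IV p) (_root_.funext fun i => ?_)).mp h1
  rw [Pi.sub_apply, Pi.smul_apply, nsmul_eq_mul]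
  simp only [mQ, lpt, mulVec, dotProduct, map_apply, PadicInt.coe_sub, PadicInt.coe_sum,
    PadicInt.coe_mul, PadicInt.coe_natCast, sub_div, Finset.sum_div, mul_div_assoc]

omit [Dim] in
theorem l_main (G : ℕ) : ∃ M l₀ : ℕ, 0 < M ∧ ∀ [Dim], Fintype.card ι = G → ∀ P : Nat.Primes,
    l₀ < P.1 → ∀ τ : Mat, InH τ → ∀ (e : ℂ ≃+* PadicAlgCl P) (R : Fam (Inr P) ν),
    (∀ t : Inr P, Fw τ (cj e t) fun q => R q t) → (∃ t, IsUnit ((R P (t ^ M)).1 - 1)) →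
    ∀ (y : ν → ZMod P) (c : Inr P → ZMod P), y ≠ 0 → (∀ t, bar (R P t).1 *ᵥ y = c t • y) →
    ∃ j : ℕ, 0 < j ∧ j ≤ M ∧ ∀ (t : Inr P) (a : ZMod P), IsChi P (t : GQ P) a →
      ∃ (θ : kk P) (Q : ℤ[X]), θ ≠ 0 ∧ θ ^ M = ZMod.castHom (dvd_refl P.1) (kk P) a ^ j ∧
        (2 * j = M → θ ^ 2 = ZMod.castHom (dvd_refl P.1) (kk P) a) ∧ Q.Monic ∧
        (∀ l : Nat.Primes, l ≠ P → Ann (R l t).1 Q) ∧ Q ∣ X ^ M - 1 ∧
        aeval (ZMod.castHom (dvd_refl P.1) (kk P) (c t) / θ) Q = 0 := by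
  refine ⟨(8 ^ ((G + G) * (G + G))).factorial, 2, Nat.factorial_pos _, ?_⟩
  intro _ hG P hP τ hτ e R hR ⟨t0, ht0⟩ y c hy hc
  have hP2 : P.1 ≠ 2 := hP.ne'
  let φ : Inr P →* GL ν (ZMod (2 ^ 3)) :=
    (GeneralLinearGroup.map (PadicInt.toZModPow 3)).comp (R 2)
  have hφ := l_index φ (G := G + G) (by rw [Fintype.card_sum, hG])
  have hM0 := Nat.factorial_pos (8 ^ ((G + G) * (G + G)))
  generalize (8 ^ ((G + G) * (G + G))).factorial = M at ht0 hφ hM0 ⊢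
  have h8 : ∀ t ∈ φ.ker, ∀ l : Nat.Primes, l.1 = 2 → ∀ i j, (8 : ℤ_[l]) ∣ ((R l t).1 - 1) i j := by
    rintro t ht ⟨l, hl⟩ rfl
    exact l_eight ht
  have hM : ∀ t : Inr P, t ^ M ∈ φ.ker := fun t => by
    obtain ⟨d, rfl⟩ := hφ
    rw [pow_mul]
    exact pow_mem (φ.ker.pow_index_mem t) d
  obtain ⟨S, rfl, hΓ, hX, h0⟩ := w_gd hP2 (pot hτ hP2 _ _ (hR (t0 ^ M))
    (fun l hl i j => (Dvd.intro 2 (by norm_num)).trans (h8 _ (hM t0) l hl i j)) ht0)
  have hE : ∀ t ∈ φ.ker, ∀ i x, cj S.e t (S.D.X i x) = S.D.X i (rho (fun q => R q t) x) :=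
    fun t ht i x => by rw [hX]; exact Fw.eight hτ h0 (hR t) (h8 t ht) i x
  let T : Inr P → Sym S 1 := fun t => ⟨t, fun q => R q t,
    fun x hx => by rw [pow_one, l_res t.2 x hx], by rw [hΓ]; exact hR t⟩
  have h1 : ∀ (t : Inr P) (l : Nat.Primes), l ≠ P → R l (t ^ M) = 1 := fun t l hl =>
    l_inert S (t ^ M).2 (hE _ (hM t)) hl
  have hK : lpt y ∈ S.Ker := by
    obtain ⟨w, hw⟩ := ht0.exists_right_inv
    have h2 := (T (t0 ^ M)).ker (a := X - 1) (fun l hl => by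
      rw [map_sub, aeval_X, map_one, sub_eq_zero]
      exact congrArg Units.val (h1 t0 l hl)) (mQ w *ᵥ lpt y)
    rwa [map_sub, aeval_X, map_one, mulVec_mulVec, ← mQ_mul, hw, mQ_one, one_mulVec] at h2
  obtain ⟨i, π, hπ, hπ0, hπ1, hπ2, hπ3⟩ := S.tame hK (lpt_smul y) fun H => by
    rw [hX] at H
    exact lpt_not hy (iV_mem_TA.1 (w_sep hτ h0 H))
  have hs : ∀ a b : ZMod P, a • y = b • y → a = b := fun a b h => smul_left_injective _ hy h
  let χ : Inr P →* ZMod P :=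
    { toFun := c
      map_one' := hs _ _ (by
        rw [← hc, map_one, Units.val_one, bar, Matrix.map_one _ (map_zero _) (map_one _),
          one_mulVec, one_smul])
      map_mul' := fun s t => hs _ _ (by
        rw [← hc, map_mul, Units.val_mul, bar, Matrix.map_mul, ← mulVec_mulVec, ← bar, ← bar, hc,
          mulVec_smul, hc, smul_smul, mul_comm]) }
  have hi : (χ.toHomUnits.ker ⊓ φ.ker).index ∣ M * (P.1 - 1) := by
    rw [← Subgroup.relIndex_mul_index (inf_le_right : _ ≤ φ.ker), Subgroup.inf_relIndex_right,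
      mul_comm]
    refine mul_dvd_mul hφ ((Subgroup.relIndex_dvd_index_of_normal _ _).trans ?_)
    rw [Subgroup.index_ker, ← ZMod.card_units P.1, ← Nat.card_eq_fintype_card]
    exact Subgroup.card_subgroup_dvd_card _
  have : (χ.toHomUnits.ker ⊓ φ.ker).FiniteIndex := ⟨fun h => by
    rw [h, zero_dvd_iff] at hi
    exact (Nat.mul_pos hM0 (by omega)).ne' hi⟩
  obtain ⟨k, hk⟩ := orb (χ.toHomUnits.ker ⊓ φ.ker) hπ0 fun t ht => by
    have h2 := lpt_eig (hc t)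
    have h3 : c t = 1 := congrArg Units.val ht.1
    rw [h3, ZMod.val_one, one_smul] at h2
    have h4 := S.aff_per i (iV P (lpt y)) (iV_mem_TA.2 h2)
    rw [← map_add, add_sub_cancel, ← rho_iV (fun q => R q t), Gd.aff, Gd.aff] at h4
    rw [hπ, ← e_cj, map_sub, map_div₀, hE t ht.2, hE t ht.2, hE t ht.2, map_zero, map_sub, map_sub,
      map_div₀, map_div₀, h4]
  obtain ⟨d, hd⟩ := hi
  have hn : ‖(P.1 : PadicAlgCl P)‖ = (P.1 : ℝ)⁻¹ := by
    rw [← map_natCast (algebraMap ℚ_[P] (PadicAlgCl P)), PadicAlgCl.norm_extends, Padic.norm_p]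
  obtain ⟨j, hj0, hjM, hj⟩ := l_weight P.2.one_lt (norm_pos_iff.2 hπ0) hπ1 hM0 (hn ▸ hπ2)
    (k := k * d) (by rw [hd, pow_mul, hk, _root_.zpow_mul, _root_.zpow_natCast])
  refine ⟨j, hj0, hjM, fun t a ha => ?_⟩
  obtain ⟨Q, hQ, hQ1, hQ2, -⟩ := (T t).weil
  obtain ⟨ξ, hξ, h2⟩ := hπ3 (T t) (c t).val (lpt_eig (hc t)) Q hQ2
  refine ⟨tm t π, Q, tm_ne _ hπ0, tm_chi t.2 ha hj, fun h3 => ?_, hQ, hQ1, ?_, ?_⟩
  · refine (tm_chi t.2 ha (M := 2) (j := 1) ?_).trans (pow_one _)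
    rw [← h3, mul_right_comm, pow_mul] at hj
    rw [pow_one]
    exact (pow_left_inj₀ (by positivity) (by positivity) hj0.ne').1 hj
  · have h3 := (hQ1 ⟨2, Nat.prime_two⟩ (fun h => hP2 (congrArg Subtype.val h).symm)
      (X ^ M - 1)).1 (by
        rw [map_sub, map_pow, aeval_X, map_one, sub_eq_zero, ← Units.val_pow_eq_pow_val, ← map_pow]
        exact congrArg Units.val (h1 t _ fun h => hP2 (congrArg Subtype.val h).symm))
    rw [← map_dvd_map (Int.castRingHom ℤ_[2]) Int.cast_injective hQ]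
    simpa using h3
  · rw [ZMod.castHom_apply, ← ZMod.natCast_val, h2]
    exact (mul_div_cancel_right₀ ξ (tm_ne t.1 hπ0)).symm ▸ hξ

end

end Pool.Agent.RT
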