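import Pool.Agent.Lib.MP_e97e2b_nt.RT.Defs
import Pool.Agent.Lib.MP_e97e2b_nt.RT.An0
import Pool.Agent.Lib.MP_e97e2b_nt.RT.GalC
import Pool.Agent.Lib.MP_33b3f9_ag.M4.DetD
import Pool.Agent.Lib.MP_33b3f9_ag.M4.NTEmb

/-! Places, inertia and the cyclotomic character. -/

set_option autoImplicit false

namespace Pool.Agent.RT

open Matrix Polynomial RG RG.B2 NumberField
open _root_.M4.B2 (psi kk res cj norm_aut IsFrob OO e_cj res_eq_iff norm_root)

noncomputable section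

theorem place_ex (P : Nat.Primes) : Nonempty (ℂ ≃+* PadicAlgCl P) := M4.Det.nonempty_equiv P

/-- A subgroup whose conjugates fix `K` maps to the automorphisms over `K`. -/
theorem plc_hom {K : IntermediateField ℚ ℂ} {p : ℕ} [Fact p.Prime] (e : ℂ ≃+* PadicAlgCl p)
    {Γ : Type} [Group Γ] (i : Γ →* GQ p) (h : ∀ t, ∀ x ∈ K, cj e (i t) x = x) :
    ∃ d : Γ →* GK K, ∀ t, (d t).toRingEquiv = cj e (i t) :=
  ⟨MonoidHom.mk' (fun t => AlgEquiv.ofRingEquiv (f := cj e (i t)) fun x => h t x x.2)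
    fun s t => AlgEquiv.ext fun z => e.injective (by
      show e (cj e (i (s * t)) z) = e (cj e (i s) (cj e (i t) z))
      rw [e_cj, e_cj, e_cj, map_mul, AlgEquiv.mul_apply]), fun _ => rfl⟩

theorem place_inr (K : IntermediateField ℚ ℂ) [FiniteDimensional ℚ K] : ∃ p₀ : ℕ,
    ∀ P : Nat.Primes, p₀ < P.1 → ∀ e : ℂ ≃+* PadicAlgCl P,
      ∃ d : Inr P →* GK K, ∀ t, (d t).toRingEquiv = cj e t := by
  obtain ⟨p₀, h⟩ := ine_base K
  refine ⟨p₀, fun P hP e => plc_hom e (Inr P).subtype fun t => h P hP e _ fun x hx => ?_⟩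
  rw [e_cj]
  exact t.2 _ (norm_le_of_int (map_isIntegral_int (e : ℂ →+* PadicAlgCl P) hx))

theorem place_one (K : IntermediateField ℚ ℂ) [NumberField K] : ∃ p₀ : ℕ,
    ∀ P : Nat.Primes, p₀ < P.1 → Deg1 K P → ∃ (e : ℂ ≃+* PadicAlgCl P) (d : GQ P →* GK K),
      ∀ t, (d t).toRingEquiv = cj e t := by
  obtain ⟨p₀, h⟩ := _root_.M4.NT.emb K
  refine ⟨p₀, fun P hP ⟨I, _, hI⟩ => ?_⟩
  rw [Ideal.absNorm_apply, Submodule.cardQuot_apply] at hI
  have : Finite (𝓞 K ⧸ I) := Nat.finite_of_card_ne_zero (hI ▸ P.2.ne_zero)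
  have := Fintype.ofFinite (𝓞 K ⧸ I)
  obtain ⟨j⟩ := (h P hP.le).1 ⟨((ZMod.ringEquivOfPrime (𝓞 K ⧸ I) P.2
    (Nat.card_eq_fintype_card.symm.trans hI)).symm : 𝓞 K ⧸ I →+* ZMod P).comp
      (Ideal.Quotient.mk I)⟩
  obtain ⟨e, he⟩ := M4.Det.exists_place j
  refine ⟨e, plc_hom e (MonoidHom.id _) fun t x hx => e.injective ?_⟩
  rw [e_cj, he ⟨x, hx⟩, AlgEquiv.commutes]

/-- `1 + k β` is not a unit for a suitable `k`. -/
theorem plc_nonunit {K : Type} [Field K] [NumberField K] {β : 𝓞 K} (hβ : β ≠ 0) :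
    ∃ k : ℕ, ¬ IsUnit (1 + k * β) := by
  have h0 : (β : K) ≠ 0 := RingOfIntegers.coe_ne_zero_iff.2 hβ
  obtain ⟨c, hc⟩ := (Set.finite_range fun w : InfinitePlace K => 2 / w β).bddAbove
  obtain ⟨k, hk⟩ := exists_nat_gt c
  refine ⟨k, fun ⟨u, hu⟩ => ?_⟩
  have h1 : ∀ w : InfinitePlace K, w ((u⁻¹ : (𝓞 K)ˣ) : 𝓞 K) < 1 := fun w => by
    have h2 : 2 < k * w β := (div_lt_iff₀ (InfinitePlace.pos_iff.2 h0)).1
      ((hc ⟨w, rfl⟩).trans_lt hk)
    have h3 : w (((u : 𝓞 K) : K) + -1) ≤ w ((u : 𝓞 K) : K) + w (-1) := w.1.add_le _ _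
    have h4 : ((u : 𝓞 K) : K) + -1 = k * β := by rw [hu]; simp
    have h5 : w (-1) = 1 := by rw [← InfinitePlace.norm_embedding_eq]; simp
    have h6 : w (k : K) = k := by rw [← InfinitePlace.norm_embedding_eq]; simp
    rw [h4, map_mul, h5, h6] at h3
    have h7 : w ((u : 𝓞 K) : K) * w ((u⁻¹ : (𝓞 K)ˣ) : 𝓞 K) = 1 := by
      rw [← map_mul, ← map_mul, Units.mul_inv, map_one, map_one]
    by_contra h8
    nlinarith [not_lt.1 h8]
  obtain ⟨w⟩ : Nonempty (InfinitePlace K) := inferInstance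
  exact (InfinitePlace.one_le_of_lt_one (Units.ne_zero _) fun z _ => h1 z).not_gt (h1 w)

theorem deg1_inf (K : Type) [Field K] [NumberField K] (N : ℕ) :
    ∃ q : ℕ, q.Prime ∧ N < q ∧ Deg1 K q := by
  obtain ⟨-, θ, -, m, -, -, -, hm, -, hp, -⟩ := _root_.M4.NT.emb_data K
  obtain ⟨β, c, hβ, rfl⟩ : ∃ (β : 𝓞 K) (c : ℤ), β ≠ 0 ∧ θ = β + c := by
    by_cases h : θ = 0
    · exact ⟨1, -1, one_ne_zero, by simp [h]⟩
    · exact ⟨θ, 0, h, by simp⟩
  obtain ⟨k, hk⟩ := plc_nonunit (β := ((N + m.natAbs).factorial : 𝓞 K) * β)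
    (mul_ne_zero (Nat.cast_ne_zero.2 (Nat.factorial_ne_zero _)) hβ)
  obtain ⟨I, hI, hk⟩ := exists_max_ideal_of_mem_nonunits hk
  have := Ideal.finiteQuotientOfFreeOfNeBot I
    (Ring.ne_bot_of_isMaximal_of_not_isField hI (RingOfIntegers.not_isField K))
  let _ := Ideal.Quotient.field I
  have hq : (ringChar (𝓞 K ⧸ I)).Prime := CharP.char_is_prime (𝓞 K ⧸ I) _
  generalize hq' : ringChar (𝓞 K ⧸ I) = q at hq
  have : CharP (𝓞 K ⧸ I) q := hq' ▸ ringChar.charP _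
  have := Fact.mk hq
  have h1 := Ideal.Quotient.eq_zero_iff_mem.2 hk
  simp only [map_add, map_one, map_mul, map_natCast] at h1
  have h2 : N + m.natAbs < q := not_le.1 fun h => by
    rw [(CharP.cast_eq_zero_iff (𝓞 K ⧸ I) q _).2 (hq.dvd_factorial.2 h)] at h1
    simp at h1
  have h3 : (m : ZMod q) ≠ 0 := fun h => by
    have := Nat.le_of_dvd (Int.natAbs_pos.2 hm)
      (Int.natCast_dvd.1 ((ZMod.intCast_zmod_eq_zero_iff_dvd _ _).1 h))
    omega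
  refine ⟨q, hq, by omega, I, hI.isPrime, ?_⟩
  let ι := ZMod.castHom (dvd_refl q) (𝓞 K ⧸ I)
  have h4 : ι (-(k * (N + m.natAbs).factorial : ZMod q)⁻¹ + c) =
      Ideal.Quotient.mk I (β + c) := by
    simp only [map_add, map_neg, map_inv₀, map_mul, map_natCast, map_intCast, add_left_inj]
    rw [neg_eq_iff_eq_neg]
    exact inv_eq_of_mul_eq_one_right (by linear_combination -h1)
  rw [Ideal.absNorm_apply, Submodule.cardQuot_apply, ← Nat.card_zmod q]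
  refine (Nat.card_eq_of_bijective ι ⟨ι.injective, fun y => ?_⟩).symm
  obtain ⟨x, rfl⟩ := Ideal.Quotient.mk_surjective y
  obtain ⟨f, hf⟩ := hp x
  refine ⟨(m : ZMod q)⁻¹ * aeval (-(k * (N + m.natAbs).factorial : ZMod q)⁻¹ + c) f, ?_⟩
  rw [map_mul, _root_.M4.NT.emb_aeval, h4, ← _root_.M4.NT.emb_aeval, ← hf, map_mul, map_intCast,
    ← map_intCast ι, ← mul_assoc, ← map_mul, inv_mul_cancel₀ h3, map_one, one_mul]

variable {p : ℕ} [Fact p.Prime]

theorem inr_res {t : GQ p} : t ∈ Inr p ↔ ∀ x, ‖x‖ ≤ 1 → res (t x) = res x :=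
  forall₂_congr fun x hx => (res_eq_iff ((norm_aut t x).trans_le hx) hx).symm

theorem chi_ex (t : GQ p) : ∃ a : ZMod p, IsChi p t a := by
  obtain ⟨ζ, hζ⟩ := HasEnoughRootsOfUnity.exists_primitiveRoot (PadicAlgCl p) p
  obtain ⟨a, -, ha⟩ := hζ.eq_pow_of_pow_eq_one (ξ := t ζ) (by rw [← map_pow, hζ.1, map_one])
  refine ⟨a, fun z hz => ?_⟩
  obtain ⟨b, -, rfl⟩ := hζ.eq_pow_of_pow_eq_one hz
  rw [ZMod.val_natCast, ← pow_eq_pow_mod a hz, map_pow, ← ha, pow_right_comm]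

theorem chi_cj {P : Nat.Primes} (e : ℂ ≃+* PadicAlgCl P) (t : GQ P) (l : ℕ) (a : ZMod l) :
    IsChi l (cj e t) a ↔ IsChi l t a := by
  refine ⟨fun h z hz => ?_, fun h z hz => e.injective ?_⟩
  · obtain ⟨y, rfl⟩ := e.surjective z
    rw [← e_cj, h y (e.injective (by rw [map_pow, hz, map_one])), map_pow]
  · rw [e_cj, h _ (by rw [← map_pow, hz, map_one]), map_pow]

theorem chi_frob {t : GQ p} (ht : IsFrob t) {l : ℕ} (hl : l.Prime) (h : p ≠ l) :
    IsChi l t (p : ZMod l) := fun z hz => by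
  rw [ZMod.val_natCast, ← pow_eq_pow_mod p hz]
  exact root_eq (n := l) (fun k => h ((Nat.prime_dvd_prime_iff_eq Fact.out hl).1 k))
    (by rw [← map_pow, hz, map_one]) (by rw [pow_right_comm, hz, one_pow])
    (ht z (norm_root hl.pos hz).le)

theorem chi_pow {F : Type} [Field F] {l : ℕ} [NeZero l] {σ : F ≃+* F} {a : ZMod l}
    (h : IsChi l σ a) (k : ℕ) : IsChi l (σ ^ k : F ≃+* F) (a ^ k) := fun z hz => by
  induction k with
  | zero =>
    rw [pow_zero, pow_zero, ← Nat.cast_one, ZMod.val_natCast, ← pow_eq_pow_mod 1 hz, pow_one]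
    rfl
  | succ k ih =>
    rw [pow_succ', RingAut.mul_apply, ih, map_pow, h z hz, pow_succ', ZMod.val_mul,
      ← pow_eq_pow_mod _ hz, pow_mul]

end

end Pool.Agent.RT
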