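import Pool.Agent.Lib.MP_e97e2b_nt.RT.Rep
import Pool.Agent.Lib.MP_e97e2b_nt.RT.GalA
import Pool.Agent.Lib.MP_e97e2b_nt.RT.GalB

/-! The representation is unramified, its constituents are powers of the cyclotomic character. -/

set_option autoImplicit false

namespace Pool.Agent.RT

open Matrix Polynomial
open _root_.M4.B2 (cj e_cj)

variable {K : IntermediateField ℚ ℂ} {g n : ℕ} {J : Set (MvPolynomial (Fin n) K)}
  {p : (κ g → ℝ) ≃ₗ[ℝ] (Fin g → ℂ)} {u : (Fin g → ℂ) → Fin n → ℂ}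

theorem rep_unr [FiniteDimensional ℚ K] (h : Unif J p u) {r : Fam (GK K) (κ g)}
    (hr : ∀ σ, Tate (RA p u σ) fun l => r l σ) {l : ℕ} [Fact l.Prime] (hH : Heavenly K p u l)
    {P : Nat.Primes} (hP : P.1 ≠ l) (e : ℂ ≃+* PadicAlgCl P) {t : GQ P} (ht : t ∈ Inr P)
    {σ : GK K} (hσ : σ.toRingEquiv = cj e t) : r l σ = 1 := by
  have h1 := tower_inertia (Fact.out : l.Prime) hP e σ fun x hx => by
    rw [show σ x = cj e t x from congrArg (· x) hσ, e_cj]
    exact ht _ (norm_le_of_int (map_isIntegral_int (e : ℂ →+* PadicAlgCl P) hx))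
  refine Units.ext (sub_eq_zero.1 (Matrix.ext fun i j => by_contra fun c => ?_))
  obtain ⟨k, hk⟩ := FiniteMultiplicity.of_not_isUnit PadicInt.irreducible_p.not_isUnit c
  exact hk (rep_one h hr l _ σ (fun m a b => h1 _ (hH _ m a b)) i j)

theorem repF_chi {l : ℕ} [Fact l.Prime] {σ : GK K} {a : ZMod l} (h : IsChi l σ a) :
    (kchi K l σ : ZMod l) = a :=
  (cchi_unique σ.toRingEquiv a.val h).trans (ZMod.natCast_zmod_val a)

theorem repF_pro (h : Unif J p u) {r : Fam (GK K) (κ g)}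
    (hr : ∀ σ, Tate (RA p u σ) fun l => r l σ) {l : ℕ} [Fact l.Prime] (hH : Heavenly K p u l)
    (s : GK K) (hs : kchi K l s = 1) : ∃ k : ℕ, bar (r l (s ^ l ^ k)).1 = 1 := by
  have hl : l.Prime := Fact.out
  obtain ⟨k, hk⟩ := tower_pro_fin hl.ne_zero s ((kchi_eq_one s).1 hs)
    (fun x : (κ g → ZMod l) × Fin n × Fin n =>
      u (p fun i => (((x.1 i).val : ℤ) : ℝ) / (l : ℝ) ^ 1) x.2.1 /
        u (p fun i => (((x.1 i).val : ℤ) : ℝ) / (l : ℝ) ^ 1) x.2.2)
    fun x => hH 1 (fun i => ((x.1 i).val : ℤ)) _ _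
  have h1 := rep_one h hr l 1 (s ^ l ^ k) fun m a b => by
    obtain ⟨c, hc⟩ := (h.inj (p fun i => (m i : ℝ) / (l : ℝ) ^ 1)
      (p fun i => ((((m i : ZMod l)).val : ℤ) : ℝ) / (l : ℝ) ^ 1)).2 ⟨fun i => m i / l, by
        rw [← map_sub]
        refine congrArg p (funext fun i => ?_)
        rw [Pi.sub_apply, ZMod.val_intCast, Int.emod_def, pow_one]
        push_cast
        field_simp [hl.ne_zero]
        ring⟩
    have h2 : c ≠ 0 := fun e =>
      ((h.img _).2 ⟨_, 1, one_ne_zero, (one_smul _ _).symm⟩).1 (by rw [hc, e, zero_smul])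
    rw [hc, Pi.smul_apply, Pi.smul_apply, smul_eq_mul, smul_eq_mul, mul_div_mul_left _ _ h2]
    exact hk (fun i => (m i : ZMod l), a, b)
  refine ⟨k, Matrix.ext fun i j => ?_⟩
  obtain ⟨c, hc⟩ := h1 i j
  rw [Matrix.sub_apply, sub_eq_iff_eq_add] at hc
  rw [bar, map_apply, hc]
  simp [Matrix.one_apply, apply_ite]

theorem rep_flag [FiniteDimensional ℚ K] (h : Unif J p u) {r : Fam (GK K) (κ g)}
    (hr : ∀ σ, Tate (RA p u σ) fun l => r l σ) {l : ℕ} [Fact l.Prime] (hH : Heavenly K p u l) :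
    ∃ ex : κ g → ℕ, Flag r l ex := by
  obtain ⟨d, hd, B, i, h1, h2⟩ := gal_flag_GL (kchi K l)
    ((GeneralLinearGroup.map PadicInt.toZMod).comp (r l)) fun s hs =>
      (repF_pro h hr hH s hs).imp fun k hk => (map_pow _ _ _).symm.trans (Units.ext hk)
  let e := Fintype.equivFinOfCardEq hd.symm
  refine ⟨fun s => i (e s), fun σ a ha => ?_, fun s => ⟨Submodule.span _ (B '' Set.Iio (e s)),
    B (e s), B.linearIndependent.notMem_span_image Set.self_notMem_Iio, fun σ w hw => ?_,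
    fun σ a ha => repF_chi ha ▸ h1 σ (e s)⟩⟩
  · rw [← repF_chi ha, e.prod_comp fun t => X - C ((kchi K l σ : ZMod l) ^ i t)]
    exact h2 σ
  · refine Submodule.mem_comap.1
      ((Submodule.span_le (p := Submodule.comap (bar (r l σ).1).mulVecLin _)).2 ?_ hw)
    rintro _ ⟨t, ht, rfl⟩
    have h3 := Submodule.add_mem _ (Submodule.span_mono (Set.image_mono (Set.Iio_subset_Iio
      (le_of_lt ht))) (h1 σ t)) (Submodule.smul_mem _ ((kchi K l σ : ZMod l) ^ i t)
        (Submodule.subset_span ⟨t, ht, rfl⟩))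
    rwa [sub_add_cancel] at h3

end Pool.Agent.RT
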