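import Pool.Agent.Lib.MP_e97e2b_nt.RT.Ty3
import Pool.Agent.Lib.MP_e97e2b_nt.RT.An

/-! The end of the proof: from Frobenius and inertia data to a contradiction. -/

set_option autoImplicit false

namespace Pool.Agent.RT

open Polynomial

/-- The eigenvalues of Frobenius at the primes of degree one are powers of `p` modulo `l`. -/
def FrobH (K : Type) [Field K] [NumberField K] (l p0 : ℕ) {ι : Type} [Fintype ι] (i : ι → ℕ) :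
    Prop :=
  ∀ p : ℕ, p.Prime → p0 < p → ¬ p ∣ 2 * l → Deg1 K p → ∃ Q : ℤ[X], Q.Monic ∧
    (∀ z : ℂ, aeval z Q = 0 → ‖z‖ ^ 2 = p) ∧
    Q.map (Int.castRingHom (ZMod l)) ∣ ∏ r, (X - C ((p : ZMod l) ^ i r)) ∧
    ∀ r, aeval ((p : ZMod l) ^ i r) Q = 0

theorem gen_prim {l : ℕ} [Fact l.Prime] (hl : 2 < l) {γ : ZMod l}
    (h : ∀ x : ZMod l, x ≠ 0 → ∃ s : ℕ, x = γ ^ s) : IsPrimitiveRoot γ (l - 1) := by
  have h0 : γ ≠ 0 := by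
    rintro rfl
    obtain ⟨s, hs⟩ := h (-1) (by simp)
    rcases s with _ | s
    · have : ((2 : ℕ) : ZMod l) = 0 := by
        rw [pow_zero] at hs
        rw [Nat.cast_ofNat]
        linear_combination -hs
      exact absurd (Nat.le_of_dvd two_pos ((ZMod.natCast_eq_zero_iff _ _).1 this)) (by omega)
    · simp at hs
  have := orderOf_eq_card_of_forall_mem_powers (g := Units.mk0 γ h0) fun x => by
    obtain ⟨s, hs⟩ := h x x.ne_zero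
    exact ⟨s, Units.ext (by simp [hs])⟩
  rw [Nat.card_eq_fintype_card, ZMod.card_units, ← orderOf_units] at this
  exact IsPrimitiveRoot.iff_orderOf.2 this

variable (K : Type) [Field K] [NumberField K] (g : ℕ) (hg : 1 ≤ g)
  (hd : (2 * g - 1) * Module.finrank ℚ K < 8) (p0 : ℕ)

include hg hd

section

variable {ι : Type} [Fintype ι] (hι : Fintype.card ι = 2 * g)

include hι

theorem wt_gen (M : ℕ) : ∃ l0 : ℕ, ∀ l : ℕ, l.Prime → l0 < l → ∀ i : ι → ℕ,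
    FrobH K l p0 i → ∀ γ : ZMod l, (∀ x : ZMod l, x ≠ 0 → ∃ s : ℕ, x = γ ^ s) → ∀ r, ∀ n ≤ M,
      γ ^ (M * i r) = γ ^ n → 2 * n = M := by
  by_cases H : ∃ p : ℕ, p.Prime ∧ p0 < p ∧ p ≠ 2 ∧ Deg1 K p
  · obtain ⟨p, hp, h0, h2, h1⟩ := H
    obtain ⟨l0, hl0⟩ := weil_pow p (2 * g) M hp.two_le
    refine ⟨l0 + p, fun l hl hlt i hF γ hγ r n hn e => ?_⟩
    have : Fact l.Prime := ⟨hl⟩
    obtain ⟨Q, q1, q2, q3, q4⟩ := hF p hp h0 (fun h => ((hp.dvd_mul.1 h).elim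
      (fun h => h2 ((Nat.prime_dvd_prime_iff_eq hp Nat.prime_two).1 h)) fun h =>
      absurd ((Nat.prime_dvd_prime_iff_eq hp hl).1 h) (by omega))) h1
    obtain ⟨s, hs⟩ := hγ p fun h =>
      absurd (Nat.le_of_dvd hp.pos ((ZMod.natCast_eq_zero_iff _ _).1 h)) (by omega)
    refine hl0 l (by omega) Q q1 (hι ▸ (ty_trace _ q1 q2 q3).1) q2 _ (q4 r) n hn ?_
    rw [hs, ← pow_mul, ← pow_mul, ← pow_mul, show s * (i r * M) = M * i r * s by ring, pow_mul, e,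
      ← pow_mul, mul_comm]
  · obtain ⟨l0, hl0⟩ := an_main K 2 1 p0 le_rfl dvd_rfl
      (lt_of_le_of_lt (Nat.mul_le_mul_right _ (by omega)) hd)
    refine ⟨l0 + 2, fun l hl hlt => absurd ?_ (fun h : True => hl0 l hl (by omega)
      ((hl.odd_of_ne_two (by omega)).tsub_odd odd_one).two_dvd ∅ (by simp) (by simp)
      fun p hp h0 h2 h1 => absurd ⟨p, hp, h0, fun e => h2 (e ▸ dvd_mul_right _ _), h1⟩ H)⟩
    trivial

theorem pre_gen (M : ℕ) (hM : 0 < M) : ∃ l0 : ℕ, ∀ l : ℕ, l.Prime → l0 < l →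
    ∀ i : ι → ℕ, FrobH K l p0 i → ∀ γ : ZMod l,
      (∀ x : ZMod l, x ≠ 0 → ∃ s : ℕ, x = γ ^ s) → ∀ r, γ ^ (M * i r) ≠ 1 := by
  obtain ⟨l0, h⟩ := wt_gen K g hg hd p0 hι M
  exact ⟨l0, fun l hl hlt i hF γ hγ r e => by
    have := h l hl hlt i hF γ hγ r 0 (Nat.zero_le _) (by rw [e, pow_zero])
    omega⟩

theorem end_gen (N0 : ℕ) : ∃ l0 : ℕ, ∀ l : ℕ, l.Prime → l0 < l →
    ∀ i : ι → ℕ, FrobH K l p0 i → ∀ γ : ZMod l,
      (∀ x : ZMod l, x ≠ 0 → ∃ s : ℕ, x = γ ^ s) → ∀ (k : Type) [Field k] [Algebra (ZMod l) k]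
      (Q : ℤ[X]), Q.Monic → Q.natDegree ≤ 2 * g → (∀ z : ℂ, aeval z Q = 0 → ‖z‖ ^ 2 = 1) →
      (∀ r, ∃ (ξ θ : k) (n : ℕ), n ≤ N0 ∧ aeval ξ Q = 0 ∧
        algebraMap (ZMod l) k (γ ^ i r) = ξ * θ ∧ θ ^ N0 = algebraMap (ZMod l) k (γ ^ n) ∧
        (2 * n = N0 → θ ^ 2 = algebraMap (ZMod l) k γ)) → False := by
  have d0 : 0 < Module.finrank ℚ K := Module.finrank_pos
  have g4 : g ≤ 4 := by
    have := Nat.le_mul_of_pos_right (2 * g - 1) d0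
    omega
  obtain ⟨l1, h1⟩ := wt_gen K g hg hd p0 hι (N0 * MM)
  have hA : ∀ m : ℕ, ∃ l0 : ℕ, 2 ≤ m → 2 ∣ m → m ≤ 2 * g → ∀ l : ℕ, l.Prime → l0 < l →
      m ∣ l - 1 → ∀ S : Finset (ZMod l), 0 ∉ S → S.card ≤ 31 ^ 31 → ¬ Bad K l m 31 p0 S := by
    intro m
    by_cases H : 2 ≤ m ∧ 2 ∣ m ∧ m ≤ 2 * g
    · obtain ⟨l0, h⟩ := an_main K m 31 p0 H.1 H.2.1
        (lt_of_le_of_lt (Nat.mul_le_mul_right _ (by omega)) hd)
      exact ⟨l0, fun _ _ _ => h⟩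
    · exact ⟨0, fun a b c => absurd ⟨a, b, c⟩ H⟩
  choose L hL using hA
  refine ⟨l1 + (Finset.range 9).sup L + 8 ^ 5, fun l hl hlt i hF γ hγ k _ _ Q q1 q2 q3 h => ?_⟩
  have : Fact l.Prime := ⟨hl⟩
  obtain ⟨D, hD, hM, hr⟩ := kron_ord Q q1 q2 (by omega) q3 hl (by omega) k
  obtain ⟨m, m1, m2, m3, m4, S, s0, s1, hS⟩ := type_main (by omega) hg g4 (gen_prim (by omega) hγ)
    hι i (k := k) D hD fun r => by
      obtain ⟨ξ, θ, n, n1, a1, a2, a3, a4⟩ := h r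
      obtain ⟨d, hd1, hd2⟩ := hr ξ a1
      have e := h1 l hl (by omega) i hF γ hγ r (n * MM) (Nat.mul_le_mul_right _ n1)
        ((algebraMap (ZMod l) k).injective (by
          rw [mul_comm _ (i r), pow_mul, map_pow, a2, mul_pow, pow_mul θ, a3,
            (hd2.pow_eq_one_iff_dvd _).2 ((hM d hd1).mul_left _), one_mul, pow_mul γ, map_pow _ (γ ^ n)]))
      refine ⟨ξ, d, hd1, hd2, ?_⟩
      rw [a2, mul_pow, a4 (Nat.eq_of_mul_eq_mul_right MM_pos (by rw [← e, mul_assoc])), mul_comm]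
  have hm := Finset.le_sup (f := L) (Finset.mem_range.2 (show m < 9 by omega))
  refine hL m m1 m2 m3 l hl (by omega) m4 S s0 s1 fun p hp h0 h2 h3 hx => ?_
  obtain ⟨a, ha, hJ⟩ := hS _ hx
  obtain ⟨P, p1, p2, p3, p4⟩ := hF p hp h0 h2 h3
  obtain ⟨J, j0, t, t1, t2⟩ := (ty_trace _ p1 p2 p3).2 _
    (p4 (Fintype.card_pos_iff.1 (by omega : 0 < Fintype.card ι)).some)
  obtain ⟨b, hb, e⟩ := hJ J j0
  refine ⟨a, ha, t, t1.trans ?_, b, hb, t2.trans e⟩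
  rw [hι]
  gcongr
  omega

end

theorem pre_main (M : ℕ) (hM : 0 < M) : ∃ l0 : ℕ, ∀ l : ℕ, l.Prime → l0 < l →
    ∀ i : Fin (2 * g) → ℕ, FrobH K l p0 i → ∀ γ : ZMod l,
      (∀ x : ZMod l, x ≠ 0 → ∃ s : ℕ, x = γ ^ s) → ∀ r, γ ^ (M * i r) ≠ 1 :=
  pre_gen K g hg hd p0 (Fintype.card_fin _) M hM

theorem end_main (N0 : ℕ) : ∃ l0 : ℕ, ∀ l : ℕ, l.Prime → l0 < l →
    ∀ i : Fin (2 * g) → ℕ, FrobH K l p0 i → ∀ γ : ZMod l,
      (∀ x : ZMod l, x ≠ 0 → ∃ s : ℕ, x = γ ^ s) → ∀ (k : Type) [Field k] [Algebra (ZMod l) k]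
      (Q : ℤ[X]), Q.Monic → Q.natDegree ≤ 2 * g → (∀ z : ℂ, aeval z Q = 0 → ‖z‖ ^ 2 = 1) →
      (∀ r, ∃ (ξ θ : k) (n : ℕ), n ≤ N0 ∧ aeval ξ Q = 0 ∧
        algebraMap (ZMod l) k (γ ^ i r) = ξ * θ ∧ θ ^ N0 = algebraMap (ZMod l) k (γ ^ n) ∧
        (2 * n = N0 → θ ^ 2 = algebraMap (ZMod l) k γ)) → False :=
  end_gen K g hg hd p0 (Fintype.card_fin _) N0

end Pool.Agent.RT
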