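import Pool.Agent.Lib.MP_e97e2b_nt.RT.ZMain
import Pool.Agent.Lib.MP_e97e2b_nt.RT.RepF
import Pool.Agent.Lib.MP_e97e2b_nt.RT.Plc
import Pool.Agent.Lib.MP_e97e2b_nt.RT.Ann
import Pool.Agent.Lib.MP_e97e2b_nt.RT.L
import Pool.Agent.Lib.MP_e97e2b_nt.RT.Ty4
import Pool.Agent.Lib.MP_33b3f9_ag.M4.B2.Frob

/-! The main theorem. -/

set_option autoImplicit false

namespace Pool.Agent.RT

open Matrix Polynomial RG RG.B2
open _root_.M4 (InH)
open _root_.M4.B2 (kk res cj IsFrob exists_frob e_cj)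

noncomputable section

variable {K : IntermediateField ℚ ℂ} {g : ℕ}

/-- A principally polarised model on which the character `c` is a line. -/
def Mod (r : Fam (GK K) (κ g)) (l : ℕ) [Fact l.Prime] (c : GK K → ZMod l) : Prop :=
  ∃ (_ : Dim) (τ : Mat) (R : Fam (GK K) ν) (y : ν → ZMod l), Fintype.card ι = 8 * g ∧ InH τ ∧
    (∀ σ : GK K, Fw τ σ.toRingEquiv fun q => R q σ) ∧
    (∀ (q : ℕ) [Fact q.Prime] σ (c : ℤ_[q][X]), aeval (R q σ).1 c = 0 ↔ aeval (r q σ).1 c = 0) ∧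
    y ≠ 0 ∧ ∀ σ, bar (R l σ).1 *ᵥ y = c σ • y

theorem geo [FiniteDimensional ℚ K] {n : ℕ} {J : Set (MvPolynomial (Fin n) K)}
    {p : (κ g → ℝ) ≃ₗ[ℝ] (Fin g → ℂ)} {u : (Fin g → ℂ) → Fin n → ℂ} (hg : 1 ≤ g) (h : Unif J p u)
    (l : ℕ) [Fact l.Prime] (hH : Heavenly K p u l) :
    ∃ (r : Fam (GK K) (κ g)) (ex : Fin (2 * g) → ℕ),
      (∀ σ, (bar (r l σ).1).charpoly = ∏ s, (X - C ((kchi K l σ : ZMod l) ^ ex s))) ∧
      (∀ σ : GK K, (∀ x ∈ tower K l, σ x = x) → r l σ = 1) ∧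
      ∀ s, Mod r l fun σ => (kchi K l σ : ZMod l) ^ ex s := by
  obtain ⟨r, hr⟩ := rep_ex h
  obtain ⟨d, hd, B, ex, h1, h2⟩ := gal_flag_GL (kchi K l)
    ((GeneralLinearGroup.map (PadicInt.toZMod (p := l))).comp (r l)) fun s hs =>
      (repF_pro h hr hH s hs).imp fun k hk => (map_pow _ _ _).symm.trans (Units.ext hk)
  obtain rfl : d = 2 * g := by simp [hd, two_mul]
  refine ⟨r, ex, h2, fun σ hσ => Units.ext (Matrix.ext fun i j => sub_eq_zero.1 ?_), fun s => ?_⟩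
  · refine PadicInt.ext_of_toZModPow.1 fun k => ?_
    rw [map_zero, ← RingHom.mem_ker, PadicInt.ker_toZModPow, Ideal.mem_span_singleton]
    exact rep_one h hr l k σ (fun m a b => hσ _ (hH k m a b)) i j
  · obtain ⟨D, τ, R, y, k1, k2, k3, k4, k5, k6⟩ := z_main hg h hr l
      (Submodule.span (ZMod l) (B '' Set.Iio s)) (x := B s)
      (B.linearIndependent.notMem_span_image (lt_irrefl s)) fun σ w hw => by
        induction hw using Submodule.span_induction with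
        | mem _ hw =>
          obtain ⟨t, ht, rfl⟩ := hw
          have h3 := Submodule.span_mono (Set.image_mono (Set.Iio_subset_Iio ht.le)) (h1 σ t)
          exact (Submodule.sub_mem_iff_left _ (Submodule.smul_mem _ _
            (Submodule.subset_span (Set.mem_image_of_mem B ht)))).1 h3
        | zero => rw [mulVec_zero]; exact zero_mem _
        | add a b _ _ ha hb => rw [mulVec_add]; exact add_mem ha hb
        | smul c a _ ha => rw [mulVec_smul]; exact Submodule.smul_mem _ _ ha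
    exact ⟨D, τ, R, y, k1, k2, k3, k4, k5, fun σ => k6 σ _ (h1 σ s)⟩

theorem m_chi {P : Nat.Primes} {e : ℂ ≃+* PadicAlgCl P} {t : GQ P} {σ : GK K}
    (h : σ.toRingEquiv = cj e t) {l : ℕ} [NeZero l] {a : ZMod l} (ha : IsChi l t a) :
    (kchi K l σ : ZMod l) = a := by
  rw [kchi_eq, h, cchi_unique _ a.val ((chi_cj e t l a).2 ha), ZMod.natCast_zmod_val]

theorem m_card (hg : 1 ≤ g) : Nonempty (κ g) ∧ Fintype.card (κ g) = 2 * g :=
  ⟨⟨.inl ⟨0, hg⟩⟩, by simp [two_mul]⟩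

theorem m_frob [NumberField K] (hg : 1 ≤ g) {p₀ : ℕ} (h₀ : ∀ P : Nat.Primes, p₀ < P.1 → Deg1 K P →
      ∃ (e : ℂ ≃+* PadicAlgCl P) (d : GQ P →* GK K), ∀ t, (d t).toRingEquiv = cj e t)
    {L : Nat.Primes} {r : Fam (GK K) (κ g)} {ex : Fin (2 * g) → ℕ}
    (h1 : ∀ σ, (bar (r L σ).1).charpoly = ∏ s, (X - C ((kchi K L σ : ZMod L) ^ ex s)))
    (h2 : ∀ σ : GK K, (∀ x ∈ tower K L, σ x = x) → r L σ = 1) {c : GK K → ZMod L}
    (h3 : Mod r L c) : FrobH K L p₀ ex := by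
  intro p hp hp0 hpl hp1
  obtain ⟨P, rfl⟩ : ∃ P : Nat.Primes, P.1 = p := ⟨⟨p, hp⟩, rfl⟩
  obtain ⟨_, τ, R, -, -, hτ, hF, hA, -⟩ := h3
  obtain ⟨e, d, hd⟩ := h₀ P hp0 hp1
  have hne : P.1 ≠ L.1 := fun h => hpl (h ▸ dvd_mul_left _ _)
  have h2' : P.1 ≠ 2 := fun h => hpl (h ▸ dvd_mul_right _ _)
  have hF' : ∀ t, Fw τ (cj e t) fun q => R q (d t) := fun t => hd t ▸ hF (d t)
  have hG : Good τ e := nos hτ h2' (fun q _ => ((R q).comp d).comp (Inr P).subtype)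
    (fun t => hF' t) L hne fun t => by
      have h4 : r L (d t) = 1 := h2 _ (tower_inertia L.2 hne e _ fun x hx => by
        rw [show d t x = cj e t x from congrArg (· x) (hd t), e_cj]
        exact t.2 _ (norm_le_of_int (hx.map e.toRingHom.toIntAlgHom)))
      have h5 := (hA L (d t) (X - 1)).2 (by simp [h4])
      rw [map_sub, aeval_X, map_one, sub_eq_zero] at h5
      exact Units.ext h5
  obtain ⟨t, ht⟩ := exists_frob (p := P)
  obtain ⟨Q, hQ, hQ1, hQ2⟩ := weil hτ h2' hG P t (fun x hx => ht.res hx) _ (hF' t) (by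
    have h4 := hF' t⁻¹
    simp only [map_inv] at h4
    exact h4)
  have := (m_card hg).1
  obtain ⟨-, -, h4, h5⟩ := a_ann (A := (r L (d t)).1) hQ fun c =>
    (hA L _ c).symm.trans (hQ1 L (fun h => hne (congrArg Subtype.val h).symm) c)
  rw [h1, m_chi (hd t) (chi_frob ht L.2 hne)] at h4 h5
  refine ⟨Q, hQ, hQ2, h4, fun s => h5 _ ?_⟩
  rw [IsRoot.def, eval_prod]
  exact Finset.prod_eq_zero (Finset.mem_univ s) (by simp)

theorem m_gen (l : ℕ) [Fact l.Prime] :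
    ∃ γ : ZMod l, γ ≠ 0 ∧ ∀ x : ZMod l, x ≠ 0 → ∃ s : ℕ, x = γ ^ s := by
  obtain ⟨γ, hγ⟩ := IsCyclic.exists_monoid_generator (α := (ZMod l)ˣ)
  refine ⟨γ, γ.ne_zero, fun x hx => ?_⟩
  obtain ⟨s, hs⟩ := hγ (Units.mk0 x hx)
  exact ⟨s, (congrArg Units.val hs).symm⟩

theorem m_unit {L : Nat.Primes} {r : Fam (GK K) (κ g)} {ex : Fin (2 * g) → ℕ}
    (h1 : ∀ σ, (bar (r L σ).1).charpoly = ∏ s, (X - C ((kchi K L σ : ZMod L) ^ ex s)))
    {σ : GK K} {M : ℕ} (h2 : ∀ s, (kchi K L σ : ZMod L) ^ (M * ex s) ≠ 1) :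
    ¬ (bar (r L (σ ^ M)).1).charpoly.IsRoot 1 := fun h => by
  rw [h1, IsRoot.def, eval_prod, Finset.prod_eq_zero_iff] at h
  obtain ⟨s, -, h⟩ := h
  rw [eval_sub, eval_X, eval_C, sub_eq_zero, map_pow, Units.val_pow_eq_pow_val, ← pow_mul] at h
  exact h2 s h.symm

theorem rt_main (K : IntermediateField ℚ ℂ) [FiniteDimensional ℚ K] (g : ℕ) (hg : 1 ≤ g)
    (hd : (2 * g - 1) * Module.finrank ℚ K < 8) :
    ∃ l₀ : ℕ, ∀ l : ℕ, l.Prime → l₀ < l →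
      ∀ (n : ℕ) (J : Set (MvPolynomial (Fin n) K)) (p : (Fin g ⊕ Fin g → ℝ) ≃ₗ[ℝ] (Fin g → ℂ))
        (u : (Fin g → ℂ) → Fin n → ℂ), Unif J p u → ¬ Heavenly K p u l := by
  have : NumberField K := ⟨⟩
  obtain ⟨p₁, h₁⟩ := place_inr K
  obtain ⟨p₂, h₂⟩ := place_one K
  obtain ⟨M, l₁, hM, hL⟩ := l_main (8 * g)
  obtain ⟨l₂, hpre⟩ := pre_main K g hg hd p₂ M hM
  obtain ⟨l₃, hend⟩ := end_main K g hg hd p₂ M
  refine ⟨p₁ + l₁ + l₂ + l₃ + 2, fun l hl hlt n J p u h hH => ?_⟩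
  have b₁ : p₁ < l := by omega
  have b₂ : l₁ < l := by omega
  have b₃ : l₂ < l := by omega
  have b₄ : l₃ < l := by omega
  have b₅ : 2 ≠ l := by omega
  have s₀ : Fin (2 * g) := ⟨0, by omega⟩
  obtain ⟨L, rfl⟩ : ∃ P : Nat.Primes, P.1 = l := ⟨⟨l, hl⟩, rfl⟩
  obtain ⟨r, ex, hcp, hun, hB⟩ := geo hg h L hH
  have hF := m_frob hg h₂ hcp hun (hB s₀)
  obtain ⟨γ, hγ, hγ'⟩ := m_gen L
  obtain ⟨e⟩ := place_ex L
  obtain ⟨d, hde⟩ := h₁ L b₁ e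
  obtain ⟨t', ht, hχ⟩ := chi_sur γ hγ
  obtain ⟨t, rfl⟩ : ∃ t : Inr L, t.1 = t' := ⟨⟨t', ht⟩, rfl⟩
  have hk := m_chi (hde t) hχ
  have hu := m_unit hcp (σ := d t) (M := M) (by rw [hk]; exact hpre L hl b₃ ex hF γ hγ')
  obtain ⟨T, hT⟩ : ∃ T : Nat.Primes, T ≠ L :=
    ⟨⟨2, Nat.prime_two⟩, fun h => b₅ (congrArg Subtype.val h)⟩
  have key : ∀ s, ∃ Q : ℤ[X], Q.Monic ∧ Ann (r T (d t)).1 Q ∧ Q ∣ X ^ M - 1 ∧
      ∃ ξ θ : kk L, ∃ n, n ≤ M ∧ aeval ξ Q = 0 ∧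
        ZMod.castHom (dvd_refl L.1) (kk L) (γ ^ ex s) = ξ * θ ∧
        θ ^ M = ZMod.castHom (dvd_refl L.1) (kk L) (γ ^ n) ∧
        (2 * n = M → θ ^ 2 = ZMod.castHom (dvd_refl L.1) (kk L) γ) := fun s => by
    obtain ⟨_, τ, R, y, hc, hτ, hFw, hA, hy, he⟩ := hB s
    have h7 : IsUnit ((R L (d (t ^ M))).1 - 1) := by
      rw [map_pow]
      exact a_unit ((hA L _ _).2 (aeval_self_charpoly _)) hu
    obtain ⟨j, -, hjM, hj⟩ := hL hc L b₂ τ hτ e (fun q _ => (R q).comp d)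
      (fun t => by rw [← hde t]; exact hFw (d t)) ⟨t, h7⟩ y _ hy fun t => he (d t)
    obtain ⟨θ, Q, h0, h1, h2, h3, h4, h5, h6⟩ := hj t γ hχ
    simp only [hk] at h6
    exact ⟨Q, h3, fun c => (hA T _ c).symm.trans (h4 T hT c), h5, _, θ, j, hjM, h6,
      (div_mul_cancel₀ _ h0).symm, h1.trans (map_pow _ _ _).symm, h2⟩
  obtain ⟨Q, hQ, hQ1, hQ2, -⟩ := key s₀
  obtain ⟨_, hc⟩ := m_card hg
  let _ : Algebra (ZMod L) (kk L) := (ZMod.castHom (dvd_refl L.1) (kk L)).toAlgebra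
  refine hend L hl b₄ ex hF γ hγ' (kk L) Q hQ ((a_ann hQ hQ1).2.1.trans hc.le)
    (fun z hz => ?_) fun s => ?_
  · have h1 := aeval_eq_zero_of_dvd_aeval_eq_zero hQ2 hz
    rw [map_sub, map_pow, aeval_X, map_one, sub_eq_zero] at h1
    rw [Complex.norm_eq_one_of_pow_eq_one h1 hM.ne', one_pow]
  · obtain ⟨Q', hQ', hQ1', -, h1⟩ := key s
    rw [a_uniq hQ hQ' hQ1 hQ1']
    exact h1

end

end Pool.Agent.RT
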