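import Pool.Agent.Lib.MP_e97e2b_nt.RT.Defs

/-! The representation on the torsion points. -/

set_option autoImplicit false

namespace Pool.Agent.RT

open Matrix
open _root_.M4 (rz)
open _root_.M4.Kz (rq)
open _root_.M4.Un (Gr Ta rq_dvd)

noncomputable section

section General

variable {m : Type} [Fintype m] [DecidableEq m] {R : (m → ℝ) → (m → ℝ) → Prop}

omit [DecidableEq m] in
theorem rp_norm {l : ℕ} [Fact l.Prime] (A : Matrix m m ℤ_[l]) {N : ℕ} (hN : N ≠ 0)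
    (x y : m → ℤ) (i : m) :
    ‖((A.map fun z => (z : ℚ_[l])) *ᵥ fun j => ((((x j : ℚ) / N : ℚ)) : ℚ_[l])) i -
      (((y i : ℚ) / N : ℚ) : ℚ_[l])‖ ≤ 1 ↔
        (N : ℤ_[l]) ∣ (A *ᵥ fun j => (x j : ℤ_[l])) i - y i := by
  have hN' : (N : ℚ_[l]) ≠ 0 := Nat.cast_ne_zero.2 hN
  have e : ((A.map fun z => (z : ℚ_[l])) *ᵥ fun j => ((((x j : ℚ) / N : ℚ)) : ℚ_[l])) i -
      (((y i : ℚ) / N : ℚ) : ℚ_[l]) =
        (((A *ᵥ fun j => (x j : ℤ_[l])) i - y i : ℤ_[l]) : ℚ_[l]) / N := by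
    simp only [mulVec, dotProduct, map_apply, Rat.cast_div, Rat.cast_intCast, Rat.cast_natCast,
      PadicInt.coe_sub, PadicInt.coe_sum, PadicInt.coe_mul, PadicInt.coe_intCast, sub_div,
      Finset.sum_div, mul_div_assoc]
  rw [e]
  constructor
  · intro h
    refine ⟨⟨_, h⟩, Subtype.ext ?_⟩
    rw [PadicInt.coe_mul, PadicInt.coe_natCast, mul_div_cancel₀ _ hN']
  · rintro ⟨c, hc⟩
    rw [hc, PadicInt.coe_mul, PadicInt.coe_natCast, mul_div_cancel_left₀ _ hN']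
    exact c.2

omit [Fintype m] [DecidableEq m] in
theorem rp_cast (N : ℕ) (x : m → ℤ) : (fun i => (((x i : ℚ) / N : ℚ) : ℝ)) = rq N x := by
  funext i
  simp [rq, rz, div_eq_inv_mul]

omit [DecidableEq m] in
theorem rp_den (q : m → ℚ) : ∃ N : ℕ, N ≠ 0 ∧ ∀ M : ℕ, M ≠ 0 → N ∣ M →
    ∃ a : m → ℤ, q = fun i => (a i : ℚ) / M := by
  refine ⟨∏ i, (q i).den, Finset.prod_ne_zero_iff.2 fun i _ => (q i).den_nz, fun M hM h => ?_⟩
  have h1 : ∀ i, ∃ a : ℤ, q i = (a : ℚ) / M := fun i => by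
    obtain ⟨c, hc⟩ := (Finset.dvd_prod_of_mem (fun i => (q i).den) (Finset.mem_univ i)).trans h
    refine ⟨(q i).num * c, ?_⟩
    rw [eq_div_iff (Nat.cast_ne_zero.2 hM), hc]
    push_cast
    rw [← mul_assoc, Rat.mul_den_eq_num]
  choose a ha using h1
  exact ⟨a, funext ha⟩

/-- The matrices on the Tate modules give the action on all torsion points. -/
theorem rp_tate (h : Gr R) {r : ∀ l : Nat.Primes, GL m ℤ_[l]}
    (hr : ∀ l : Nat.Primes, Ta R (r l : Matrix m m ℤ_[l])) : Tate R r := by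
  intro q q' hq
  obtain ⟨N₁, h1, h1'⟩ := rp_den q
  obtain ⟨N₂, h2, h2'⟩ := rp_den q'
  have hN : N₁ * N₂ ≠ 0 := mul_ne_zero h1 h2
  obtain ⟨a, rfl⟩ := h1' _ hN (dvd_mul_right _ _)
  obtain ⟨a', rfl⟩ := h2' _ hN (dvd_mul_left _ _)
  clear h1' h2'
  generalize N₁ * N₂ = N at hN hq
  rw [rp_cast, rp_cast]
  obtain ⟨A, hA⟩ := h.acts hN
  refine h.congr hN (hA a) fun i => ?_
  rw [Int.natCast_dvd, Nat.dvd_iff_prime_pow_dvd_dvd]
  rintro l k hl ⟨M, hM⟩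
  have hM0 : M ≠ 0 := fun e => hN (by rw [hM, e, mul_zero])
  have hk : l ^ k ≠ 0 := pow_ne_zero _ hl.ne_zero
  have : Fact l.Prime := ⟨hl⟩
  have h3 := (rp_norm (r ⟨l, hl⟩ : Matrix m m ℤ_[l]) hN a a' i).1 (hq ⟨l, hl⟩ i)
  have h4 := hA ((M : ℤ) • a)
  rw [mulVec_smul, hM, mul_comm, _root_.M4.Kz.rq_mul hM0, _root_.M4.Kz.rq_mul hM0] at h4
  obtain ⟨y, hy⟩ := _root_.M4.Gal.exists_appr k
    ((r ⟨l, hl⟩ : Matrix m m ℤ_[l]) *ᵥ fun j => (a j : ℤ_[l]))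
  obtain ⟨n, hn⟩ := h.un _ _ _ (hr ⟨l, hl⟩ k a y hy) h4
  have h5 := rq_dvd hk hn i
  have h6 : (l : ℤ_[l]) ^ k ∣ ((a' i - y i : ℤ) : ℤ_[l]) := by
    have h7 : (l : ℤ_[l]) ^ k ∣ (N : ℤ_[l]) := ⟨M, by rw [hM]; push_cast; rfl⟩
    have h8 := (hy i).sub (h7.trans h3)
    rwa [sub_sub_sub_cancel_left, ← Int.cast_sub] at h8
  rw [PadicInt.pow_p_dvd_int_iff] at h6
  rw [← Int.natCast_dvd]
  have h9 := (show ((l ^ k : ℕ) : ℤ) ∣ a' i - y i by exact_mod_cast h6).add h5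
  rwa [sub_add_sub_cancel] at h9

omit [DecidableEq m] in
theorem rp_unit {l l' : ℕ} [Fact l'.Prime] (hl : l.Prime) (h : l' ≠ l) (k : ℕ) :
    IsUnit ((l ^ k : ℕ) : ℤ_[l']) := by
  rw [PadicInt.isUnit_iff, PadicInt.norm_natCast_eq_one_iff]
  exact ((Nat.coprime_primes Fact.out hl).2 h).pow_right k

theorem rp_ta {r : ∀ l : Nat.Primes, GL m ℤ_[l]} (hr : Tate R r) (l : Nat.Primes) :
    Ta R (r l : Matrix m m ℤ_[l]) := by
  intro k x y hxy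
  have hk : l.1 ^ k ≠ 0 := pow_ne_zero _ l.2.ne_zero
  rw [← rp_cast, ← rp_cast]
  refine hr _ _ fun l' i => (rp_norm _ hk x y i).2 ?_
  by_cases e : l' = l
  · subst e
    exact_mod_cast hxy i
  · exact (rp_unit l.2 (fun e' => e (Subtype.ext e')) k).dvd

variable {l : ℕ} [Fact l.Prime]

theorem rp_uniq (h : Gr R) {A B : Matrix m m ℤ_[l]} (hA : Ta R A) (hB : Ta R B) : A = B := by
  have h1 := Ta.inter (G := 1) h.un (fun x y hxy => by
    simpa [Matrix.map_one (Int.cast : ℤ → ℝ) Int.cast_zero Int.cast_one] using hxy) hA hB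
  simpa [Matrix.map_one (Int.cast : ℤ → ℤ_[l]) Int.cast_zero Int.cast_one] using h1.symm

theorem rp_one (h : Gr R) (h1 : ∀ x, R x x) : Ta R (1 : Matrix m m ℤ_[l]) := by
  intro k x y hxy
  refine h.congr (pow_ne_zero _ (Fact.out : l.Prime).ne_zero) (h1 _) fun i => ?_
  have h2 := hxy i
  rw [one_mulVec, ← Int.cast_sub, PadicInt.pow_p_dvd_int_iff, ← dvd_neg, neg_sub] at h2
  exact_mod_cast h2

omit [DecidableEq m] in
theorem rp_mul {R' R'' : (m → ℝ) → (m → ℝ) → Prop} (h : ∀ x y z, R' x y → R y z → R'' x z)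
    {A B : Matrix m m ℤ_[l]} (hA : Ta R A) (hB : Ta R' B) : Ta R'' (A * B) := by
  intro k x y hxy
  obtain ⟨w, hw⟩ := _root_.M4.Gal.exists_appr k (B *ᵥ fun j => (x j : ℤ_[l]))
  refine h _ _ _ (hB k x w hw) (hA k w y fun i => ?_)
  have h1 : (l : ℤ_[l]) ^ k ∣ (A *ᵥ ((B *ᵥ fun j => (x j : ℤ_[l])) - fun j => (w j : ℤ_[l]))) i :=
    Finset.dvd_sum fun j _ => (hw j).mul_left _
  rw [mulVec_sub, mulVec_mulVec, Pi.sub_apply] at h1
  have h2 := (hxy i).sub h1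
  rwa [sub_sub_sub_cancel_left] at h2

/-- If the points of order `l ^ k` are fixed then the matrix is `1` modulo `l ^ k`. -/
theorem rp_fix (h : Gr R) {A : Matrix m m ℤ_[l]} (hA : Ta R A) (k : ℕ)
    (h1 : ∀ x : m → ℤ, R (rq (l ^ k) x) (rq (l ^ k) x)) (i j : m) :
    (l : ℤ_[l]) ^ k ∣ (A - 1) i j := by
  obtain ⟨y, hy⟩ := _root_.M4.Gal.exists_appr k fun i => A i j
  obtain ⟨n, hn⟩ := h.un _ _ _ (hA k (Pi.single j 1) y fun i => by
    simpa [mulVec, dotProduct, Pi.single_apply] using hy i) (h1 _)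
  have h2 : (l : ℤ_[l]) ^ k ∣ ((y i - Pi.single (M := fun _ => ℤ) j 1 i : ℤ) : ℤ_[l]) := by
    rw [PadicInt.pow_p_dvd_int_iff]
    exact_mod_cast rq_dvd (pow_ne_zero _ (Fact.out : l.Prime).ne_zero) hn i
  have h3 := (hy i).add h2
  rw [Int.cast_sub, sub_add_sub_cancel] at h3
  simpa [Pi.single_apply, one_apply] using h3

end General

variable {K : IntermediateField ℚ ℂ} {g n : ℕ} {J : Set (MvPolynomial (Fin n) K)}
  {p : (κ g → ℝ) ≃ₗ[ℝ] (Fin g → ℂ)} {u : (Fin g → ℂ) → Fin n → ℂ}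

theorem rp_ne (h : Unif J p u) (z : Fin g → ℂ) : u z ≠ 0 :=
  ((h.img (u z)).2 ⟨z, 1, one_ne_zero, (one_smul _ _).symm⟩).1

theorem rp_per (h : Unif J p u) (n : κ g → ℤ) (z : Fin g → ℂ) :
    ∃ c : ℂ, u (z + p (rz n)) = c • u z := (h.inj _ _).2 ⟨n, add_sub_cancel_left _ _⟩

/-- An automorphism of `ℂ` over `K` acts additively on the torus. -/
theorem rep_gr (h : Unif J p u) (σ : GK K) : Gr (RA p u σ) := by
  have hσ : ∀ {α : Type} (v : α → ℂ) (P : MvPolynomial α K),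
      σ (MvPolynomial.aeval v P) = MvPolynomial.aeval (fun a => σ (v a)) P := fun v P =>
    (MvPolynomial.comp_aeval_apply v (σ : ℂ →ₐ[K] ℂ) P :)
  have n0 : ∀ z, (fun a => σ (u z a)) ≠ 0 := fun z e =>
    rp_ne h z (funext fun a => (map_eq_zero σ).1 (congrFun e a))
  refine ⟨fun x => ?_, ?_, ?_, ?_⟩
  · obtain ⟨z, c, -, hc⟩ := (h.img fun a => σ (u (p x) a)).1 ⟨n0 _, fun P hP => by
      rw [← hσ, ((h.img (u (p x))).2 ⟨_, 1, one_ne_zero, (one_smul _ _).symm⟩).2 P hP, map_zero]⟩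
    exact ⟨p.symm z, c, fun a => by rw [p.apply_symm_apply]; exact congrFun hc a⟩
  · rintro x y x' y' ⟨c, hc⟩ ⟨c', hc'⟩
    obtain ⟨Ψ, ⟨a₀, h0⟩, hΨ⟩ := h.sub (p x) (p x')
    obtain ⟨d, hd⟩ := hΨ (p x) (p x') 1 1
    obtain ⟨d', hd'⟩ := hΨ (p y) (p y') c c'
    simp only [one_smul] at hd
    have hd0 : σ d ≠ 0 := (map_ne_zero σ).2 (left_ne_zero_of_mul (hd a₀ ▸ h0))
    refine ⟨d' / σ d, fun a => ?_⟩
    have e : (fun i => σ (Sum.elim (u (p x)) (u (p x')) i)) =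
        Sum.elim (c • u (p y)) (c' • u (p y')) := by
      funext i
      rcases i with i | i
      exacts [hc i, hc' i]
    rw [map_sub, map_sub, div_mul_eq_mul_div, eq_div_iff hd0, ← hd', ← e, ← hσ, hd, map_mul,
      mul_comm]
  · rintro x y y' ⟨c, hc⟩ ⟨c', hc'⟩
    have c0 : c ≠ 0 := fun e => n0 (p x) (funext fun a => by rw [hc, e, zero_mul, Pi.zero_apply])
    obtain ⟨n, hn⟩ := (h.inj (p y) (p y')).1 ⟨c' / c, funext fun a => by
      rw [Pi.smul_apply, smul_eq_mul, div_mul_eq_mul_div, eq_div_iff c0, ← hc', hc, mul_comm]⟩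
    exact ⟨n, p.injective (by rw [map_sub]; exact hn)⟩
  · rintro x y n n' ⟨c, hc⟩
    obtain ⟨d, hd⟩ := rp_per h n (p x)
    obtain ⟨d', hd'⟩ := rp_per h (-n') (p (y + rz n'))
    rw [← map_add, _root_.M4.rz_neg, add_neg_cancel_right] at hd'
    refine ⟨σ d * c * d', fun a => ?_⟩
    rw [map_add p x, hd, Pi.smul_apply, smul_eq_mul, map_mul, hc, hd', Pi.smul_apply, smul_eq_mul]
    ring

theorem rp_hom (h : Unif J p u) (l : ℕ) [Fact l.Prime] :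
    ∃ r : GK K →* GL (κ g) ℤ_[l], ∀ σ, Ta (RA p u σ) (r σ : Matrix (κ g) (κ g) ℤ_[l]) := by
  choose A hA using fun σ : GK K => (rep_gr h σ).ta (l := l)
  refine ⟨MonoidHom.toHomUnits ⟨⟨A, ?_⟩, fun σ τ => ?_⟩, hA⟩
  · exact rp_uniq (rep_gr h 1) (hA 1) (rp_one (rep_gr h 1) fun x => ⟨1, fun a => by simp⟩)
  · refine rp_uniq (rep_gr h (σ * τ)) (hA _) (rp_mul ?_ (hA σ) (hA τ))
    rintro x y z ⟨c, hc⟩ ⟨c', hc'⟩
    exact ⟨σ c * c', fun a => by rw [AlgEquiv.mul_apply, hc, map_mul, hc', mul_assoc]⟩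

theorem rep_ex (h : Unif J p u) :
    ∃ r : Fam (GK K) (κ g), ∀ σ, Tate (RA p u σ) fun l => r l σ := by
  choose r hr using rp_hom h
  exact ⟨r, fun σ => rp_tate (rep_gr h σ) fun l => hr l σ⟩

theorem rep_one (h : Unif J p u) {r : Fam (GK K) (κ g)}
    (hr : ∀ s, Tate (RA p u s) fun l => r l s) (l : ℕ) [Fact l.Prime] (k : ℕ) (s : GK K)
    (hs : ∀ (m : κ g → ℤ) a b, s (u (p fun i => (m i : ℝ) / (l : ℝ) ^ k) a /
      u (p fun i => (m i : ℝ) / (l : ℝ) ^ k) b) = u (p fun i => (m i : ℝ) / (l : ℝ) ^ k) a /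
        u (p fun i => (m i : ℝ) / (l : ℝ) ^ k) b) :
    ∀ i j, (l : ℤ_[l]) ^ k ∣ ((r l s).1 - 1) i j := by
  refine rp_fix (rep_gr h s) (rp_ta (hr s) ⟨l, Fact.out⟩) k fun x => ?_
  have e : (fun i => (x i : ℝ) / (l : ℝ) ^ k) = rq (l ^ k) x := by
    funext i
    simp [rq, rz, div_eq_inv_mul]
  have h1 := hs x
  rw [e] at h1
  obtain ⟨b, hb⟩ := Function.ne_iff.1 (rp_ne h (p (rq (l ^ k) x)))
  have hb' : s (u (p (rq (l ^ k) x)) b) ≠ 0 := (map_ne_zero s).2 hb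
  refine ⟨s (u (p (rq (l ^ k) x)) b) / u (p (rq (l ^ k) x)) b, fun a => ?_⟩
  have h2 := h1 a b
  rw [map_div₀, div_eq_iff hb'] at h2
  rw [h2]
  ring

end

end Pool.Agent.RT
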