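import Mathlib

/-! Definitions used in the statement. -/

set_option autoImplicit false

namespace Pool.Agent.RT

open MvPolynomial NumberField IntermediateField

noncomputable section

variable {K : IntermediateField ℚ ℂ} {g n : ℕ}

/-- The projective variety `A` with equations `J` over `K` has a group law over `K`, and `u` is a
complex uniformisation `ℂ^g / p(ℤ^(2g)) → A(ℂ)` in homogeneous coordinates. -/
structure Unif (J : Set (MvPolynomial (Fin n) K)) (p : (Fin g ⊕ Fin g → ℝ) ≃ₗ[ℝ] (Fin g → ℂ))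
    (u : (Fin g → ℂ) → Fin n → ℂ) : Prop where
  hol : Differentiable ℂ u
  img : ∀ v : Fin n → ℂ, (v ≠ 0 ∧ ∀ P ∈ J, aeval v P = 0) ↔ ∃ z, ∃ c : ℂ, c ≠ 0 ∧ v = c • u z
  inj : ∀ z w, (∃ c : ℂ, u z = c • u w) ↔ ∃ m : Fin g ⊕ Fin g → ℤ, z - w = p fun i => (m i : ℝ)
  sub : ∀ z₀ w₀, ∃ Ψ : Fin n → MvPolynomial (Fin n ⊕ Fin n) K,
    (∃ a, aeval (Sum.elim (u z₀) (u w₀)) (Ψ a) ≠ 0) ∧ ∀ z w, ∀ s t : ℂ, ∃ c : ℂ, ∀ a,
      aeval (Sum.elim (s • u z) (t • u w)) (Ψ a) = c * u (z - w) a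

/-- The field `K(μ_l)`. -/
def cyc (K : IntermediateField ℚ ℂ) (l : ℕ) : IntermediateField K ℂ := adjoin K {z | z ^ l = 1}

/-- `M` is a finite Galois extension of `F` of `l`-power degree, unramified outside `l`. -/
def Layer (F : Type) [Field F] [Algebra F ℂ] (l : ℕ) (M : IntermediateField F ℂ) : Prop :=
  IsGalois F M ∧ (∃ k : ℕ, Module.finrank F M = l ^ k) ∧
    ∀ (P : Ideal (𝓞 M)) [P.IsPrime], (l : 𝓞 M) ∉ P → Algebra.IsUnramifiedAt (𝓞 F) P

/-- The maximal pro-`l` extension of `K(μ_l)` unramified outside `l`. -/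
def tower (K : IntermediateField ℚ ℂ) (l : ℕ) : IntermediateField (cyc K l) ℂ :=
  sSup {M | Layer (cyc K l) l M}

/-- The affine coordinates of all points of `l`-power order lie in `tower K l`. -/
def Heavenly (K : IntermediateField ℚ ℂ) (p : (Fin g ⊕ Fin g → ℝ) ≃ₗ[ℝ] (Fin g → ℂ))
    (u : (Fin g → ℂ) → Fin n → ℂ) (l : ℕ) : Prop :=
  ∀ (k : ℕ) (m : Fin g ⊕ Fin g → ℤ) (a b : Fin n),
    u (p fun i => (m i : ℝ) / (l : ℝ) ^ k) a / u (p fun i => (m i : ℝ) / (l : ℝ) ^ k) b ∈ tower K l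

end

end Pool.Agent.RT
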