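import Mathlib

/-! Integral polynomials whose complex roots lie on a circle, and their roots modulo a prime. -/

set_option autoImplicit false

namespace Pool.Agent.RT

open Polynomial

/-- Two integral polynomials without a common complex root have a common root only in bounded
characteristic. -/
theorem ty_nv (f h : ℤ[X]) (H : ∀ z : ℂ, aeval z f = 0 → aeval z h = 0 → False) :
    ∃ N : ℕ, 0 < N ∧ ∀ (k : Type) [CommRing k] (c : k), aeval c f = 0 → aeval c h = 0 →
      (N : k) = 0 := by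
  obtain ⟨a, b, hab⟩ := (isCoprime_iff_aeval_ne_zero_of_isAlgClosed ℚ ℂ (f.map (algebraMap ℤ ℚ))
    (h.map (algebraMap ℤ ℚ))).2 fun z => by
      rw [aeval_map_algebraMap, aeval_map_algebraMap]
      by_contra hc
      push Not at hc
      exact H z hc.1 hc.2
  obtain ⟨m, hm, ha⟩ := IsLocalization.integerNormalization_spec (nonZeroDivisors ℤ) a
  obtain ⟨n, hn, hb⟩ := IsLocalization.integerNormalization_spec (nonZeroDivisors ℤ) b
  set A := IsLocalization.integerNormalization (nonZeroDivisors ℤ) a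
  set B := IsLocalization.integerNormalization (nonZeroDivisors ℤ) b
  have e : C n * A * f + C m * B * h = C (m * n) := by
    apply map_injective (algebraMap ℤ ℚ) (RingHom.injective_int _)
    simp only [Polynomial.map_add, Polynomial.map_mul, ha, hb, zsmul_eq_mul, eq_intCast,
      Int.cast_mul, Polynomial.map_intCast]
    linear_combination ((m : ℚ[X]) * n) * hab
  refine ⟨(m * n).natAbs, Int.natAbs_pos.2 (mul_ne_zero (nonZeroDivisors.ne_zero hm)
    (nonZeroDivisors.ne_zero hn)), fun k _ c h1 h2 => ?_⟩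
  have e2 := congrArg (aeval c) e
  simp only [map_add, map_mul, h1, h2, mul_zero, add_zero, eq_intCast, map_intCast] at e2
  have e3 : ((m * n : ℤ) : k) = 0 := by rw [Int.cast_mul]; exact e2.symm
  rw [Nat.cast_natAbs]
  rcases abs_choice (m * n) with h' | h' <;> rw [h']
  · exact e3
  · rw [Int.cast_neg, e3, neg_zero]

theorem ty_root {Q : ℤ[X]} {z : ℂ} (hz : z ∈ (Q.map (Int.castRingHom ℂ)).roots) :
    aeval z Q = 0 := by
  have := (mem_roots'.1 hz).2
  rwa [IsRoot.def, eval_map, ← algebraMap_int_eq, ← aeval_def] at this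

theorem ty_card {Q : ℤ[X]} (hm : Q.Monic) :
    (Q.map (Int.castRingHom ℂ)).roots.card = Q.natDegree := by
  rw [← (IsAlgClosed.splits _).natDegree_eq_card_roots, hm.natDegree_map]

theorem ty_mm {Q : ℤ[X]} (hm : Q.Monic) {B : ℝ} (hB : 1 ≤ B) {D : ℕ} (hD : Q.natDegree ≤ D)
    (h : ∀ z : ℂ, aeval z Q = 0 → ‖z‖ ≤ B) :
    (Q.map (Int.castRingHom ℂ)).mahlerMeasure ≤ B ^ D := by
  rw [mahlerMeasure_eq_leadingCoeff_mul_prod_roots, (hm.map _).leadingCoeff, norm_one, one_mul]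
  refine (Multiset.prod_map_le_prod_map₀ _ (fun _ => B) (fun z _ => by positivity)
    fun z hz => max_le hB (h z (ty_root hz))).trans ?_
  rw [Multiset.map_const', Multiset.prod_replicate, ty_card hm]
  exact pow_le_pow_right₀ hB hD

/-- A power of a Weil number modulo a large prime is a power of `q` only for the right exponent. -/
theorem weil_pow (q D M : ℕ) (hq : 2 ≤ q) : ∃ l0 : ℕ, ∀ l : ℕ, l0 < l → ∀ Q : ℤ[X], Q.Monic →
    Q.natDegree ≤ D → (∀ z : ℂ, aeval z Q = 0 → ‖z‖ ^ 2 = q) → ∀ c : ZMod l, aeval c Q = 0 →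
    ∀ n ≤ M, c ^ M = (q : ZMod l) ^ n → 2 * n = M := by
  classical
  have hq1 : (1 : ℝ) < q := by exact_mod_cast hq
  have hF := finite_mahlerMeasure_le D ((q : NNReal) ^ D)
  have key : ∀ (Q : ℤ[X]) (n : ℕ), ∃ N : ℕ, 0 < N ∧ ((∀ z : ℂ, aeval z Q = 0 → ‖z‖ ^ 2 = q) →
      2 * n ≠ M → ∀ (k : Type) [CommRing k] (c : k), aeval c Q = 0 → c ^ M = (q : k) ^ n →
      (N : k) = 0) := by
    intro Q n
    by_cases H : (∀ z : ℂ, aeval z Q = 0 → ‖z‖ ^ 2 = q) ∧ 2 * n ≠ M
    · obtain ⟨N, h0, hN⟩ := ty_nv Q (X ^ M - C ((q : ℤ) ^ n)) fun z h1 h2 => H.2 (by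
        have e : z ^ M = (q : ℂ) ^ n := by simpa [sub_eq_zero] using h2
        have e2 : (q : ℝ) ^ M = (q : ℝ) ^ (2 * n) := by
          rw [← H.1 z h1, ← pow_mul, mul_comm 2 M, pow_mul, ← norm_pow, e, norm_pow,
            Complex.norm_natCast, H.1 z h1, ← pow_mul, mul_comm]
        exact (pow_right_injective₀ (by positivity) hq1.ne' e2).symm)
      exact ⟨N, h0, fun _ _ k _ c h1 h2 => hN k c h1 (by simp [h2])⟩
    · exact ⟨1, one_pos, fun h1 h2 => absurd ⟨h1, h2⟩ H⟩
  choose N hN0 hN using key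
  refine ⟨(hF.toFinset ×ˢ Finset.range (M + 1)).sup fun x => N x.1 x.2,
    fun l hl Q hm hD hr c hc n hn e => ?_⟩
  by_contra h2
  have h3 := (ZMod.natCast_eq_zero_iff _ _).1 (hN Q n hr h2 _ c hc e)
  have hQ : (Q, n) ∈ hF.toFinset ×ˢ Finset.range (M + 1) := by
    refine Finset.mem_product.2 ⟨hF.mem_toFinset.2 ⟨hD, ?_⟩, Finset.mem_range.2 (by omega)⟩
    refine (ty_mm hm hq1.le hD fun z hz => ?_).trans (by simp)
    have := hr z hz
    nlinarith [norm_nonneg z]
  have h4 := Finset.le_sup (f := fun x : ℤ[X] × ℕ => N x.1 x.2) hQ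
  exact absurd (Nat.le_of_dvd (hN0 Q n) h3) (by simp only at h4; omega)

/-- A monic divisor of a product of linear factors is the product of some of them. -/
theorem ty_part {k ι : Type} [Field k] (s : Finset ι) (c : ι → k) {q : k[X]} (hm : q.Monic)
    (h : q ∣ ∏ r ∈ s, (X - C (c r))) : ∃ J ⊆ s, q = ∏ r ∈ J, (X - C (c r)) := by
  classical
  obtain ⟨y, hy⟩ := h
  obtain ⟨t, u, a, b, h1, -, h2, h3, -⟩ := mul_eq_mul_prime_prod (x := q) (y := y) (a := 1) (s := s)
    (p := fun r => X - C (c r)) (fun r _ => prime_X_sub_C _) (by rw [one_mul, hy])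
  have hm2 : (∏ r ∈ t, (X - C (c r))).Monic := monic_prod_of_monic _ _ fun r _ => monic_X_sub_C _
  have ha : a.Monic := hm2.of_mul_monic_right (h3 ▸ hm)
  refine ⟨t, h1 ▸ Finset.subset_union_left, ?_⟩
  rw [h3, ha.eq_one_of_isUnit (IsUnit.of_mul_eq_one _ h2.symm), one_mul]

/-- The trace of a Weil polynomial. -/
theorem ty_trace {ι : Type} [Fintype ι] {l : ℕ} [Fact l.Prime] (c : ι → ZMod l) {Q : ℤ[X]}
    (hm : Q.Monic) {p : ℕ} (hr : ∀ z : ℂ, aeval z Q = 0 → ‖z‖ ^ 2 = p)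
    (hd : Q.map (Int.castRingHom (ZMod l)) ∣ ∏ r, (X - C (c r))) :
    Q.natDegree ≤ Fintype.card ι ∧ ∀ x : ZMod l, aeval x Q = 0 → ∃ J : Finset ι, J.Nonempty ∧
      ∃ t : ℤ, t ^ 2 ≤ (Fintype.card ι : ℤ) ^ 2 * p ∧ (t : ZMod l) = ∑ r ∈ J, c r := by
  obtain ⟨J, -, hJ⟩ := ty_part _ c (hm.map _) hd
  have hdeg : Q.natDegree ≤ Fintype.card ι := by
    rw [← hm.natDegree_map (Int.castRingHom (ZMod l)), hJ, natDegree_finsetProd_X_sub_C_eq_card]
    exact Finset.card_le_univ J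
  refine ⟨hdeg, fun x hx => ⟨J, ?_, -Q.nextCoeff, ?_, ?_⟩⟩
  · rw [Finset.nonempty_iff_ne_empty]
    rintro rfl
    rw [aeval_def, algebraMap_int_eq, ← eval_map, hJ] at hx
    simp at hx
  · have e := (IsAlgClosed.splits (Q.map (Int.castRingHom ℂ))).nextCoeff_eq_neg_sum_roots_of_monic
      (hm.map _)
    rw [nextCoeff_map (RingHom.injective_int _)] at e
    have h1 : ‖(Q.map (Int.castRingHom ℂ)).roots.sum‖ ≤ Fintype.card ι * √p := by
      refine (norm_multiset_sum_le _).trans ((Multiset.sum_le_card_nsmul _ (√p) fun y hy => ?_).trans ?_)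
      · obtain ⟨z, hz, rfl⟩ := Multiset.mem_map.1 hy
        exact Real.le_sqrt_of_sq_le (hr z (ty_root hz)).le
      · rw [Multiset.card_map, ty_card hm, nsmul_eq_mul]
        gcongr
    rw [← norm_neg, ← e, eq_intCast, Complex.norm_intCast] at h1
    have h2 := pow_le_pow_left₀ (abs_nonneg _) h1 2
    rw [sq_abs, mul_pow, Real.sq_sqrt (Nat.cast_nonneg p)] at h2
    rw [neg_sq]
    exact_mod_cast h2
  · have e := nextCoeff_map_of_leadingCoeff_ne_zero (p := Q) (Int.castRingHom (ZMod l))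
      (by rw [hm.leadingCoeff, map_one]; exact one_ne_zero)
    rw [hJ, prod_X_sub_C_nextCoeff, eq_intCast] at e
    rw [Int.cast_neg, ← e, neg_neg]

end Pool.Agent.RT
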