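import Pool.Agent.Lib.MP_e97e2b_nt.RT.Ty1

/-! Integral polynomials whose complex roots lie on the unit circle. -/

set_option autoImplicit false

namespace Pool.Agent.RT

open Polynomial

/-- A common multiple of all orders of roots of unity of degree at most eight. -/
def MM : ℕ := Nat.factorial 16

theorem MM_pos : 0 < MM := Nat.factorial_pos _

theorem tot_dvd {d : ℕ} (h0 : 0 < d) (h : d.totient ≤ 8) : d ∣ MM := by
  refine (Nat.dvd_iff_prime_pow_dvd_dvd _ _).2 fun p k hp hd => ?_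
  rcases k with _ | k
  · simp
  have h1 := (Nat.le_of_dvd (Nat.totient_pos.2 h0) (Nat.totient_dvd_of_dvd hd)).trans h
  rw [Nat.totient_prime_pow_succ hp] at h1
  refine Nat.dvd_factorial (pow_pos hp.pos _) ?_
  obtain ⟨q, rfl⟩ : ∃ q, p = q + 2 := ⟨p - 2, by have := hp.two_le; omega⟩
  rw [pow_succ]
  have e : q + 2 - 1 = q + 1 := rfl
  rw [e] at h1
  nlinarith [Nat.zero_le ((q + 2) ^ k * q)]

theorem odd_tot {o : ℕ} (ho : Odd o) (h : o.totient ≤ 4) : o = 1 ∨ o = 3 ∨ o = 5 := by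
  have key : ∀ n, n ∣ o → n.totient ≤ 4 := fun n hn =>
    (Nat.le_of_dvd (Nat.totient_pos.2 ho.pos) (Nat.totient_dvd_of_dvd hn)).trans h
  have pr : ∀ p, p.Prime → p ∣ o → p = 3 ∨ p = 5 := fun p hp hd => by
    have h1 := key p hd
    rw [Nat.totient_prime hp] at h1
    have h2 := (ho.of_dvd_nat hd).not_two_dvd_nat
    have h3 := hp.two_le
    omega
  by_cases h1 : o = 1
  · exact Or.inl h1
  obtain ⟨p, hp, o', rfl⟩ := Nat.exists_prime_and_dvd h1
  have hp' := pr p hp (dvd_mul_right _ _)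
  by_cases h2 : o' = 1
  · subst h2
    omega
  obtain ⟨q, hq, o'', rfl⟩ := Nat.exists_prime_and_dvd h2
  have hq' := pr q hq ((dvd_mul_right _ _).mul_left _)
  have h3 := key (p * q) ⟨o'', by ring⟩
  rcases hp' with rfl | rfl <;> rcases hq' with rfl | rfl <;> exact absurd h3 (by decide)

theorem kron_list (n : ℕ) : ∀ Q : ℤ[X], Q.Monic → Q.natDegree ≤ n →
    (∀ z : ℂ, aeval z Q = 0 → ‖z‖ ^ 2 = 1) →
    ∃ L : Multiset ℕ, (∀ d ∈ L, 0 < d) ∧ Q = (L.map fun d => cyclotomic d ℤ).prod := by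
  induction n with
  | zero => exact fun Q hm hn _ => ⟨0, by simp, by simpa using hm.natDegree_eq_zero.1 (by omega)⟩
  | succ n ih =>
    intro Q hm hn h
    by_cases h0 : Q.natDegree = 0
    · exact ih Q hm (by omega) h
    have h1 : (Q.map (Int.castRingHom ℂ)).mahlerMeasure = 1 :=
      le_antisymm ((ty_mm hm le_rfl le_rfl fun z hz => by
        nlinarith [h z hz, norm_nonneg z]).trans (by simp)) (one_le_mahlerMeasure_of_ne_zero hm.ne_zero)
    obtain ⟨d, hd, Q', e⟩ := cyclotomic_dvd_of_mahlerMeasure_eq_one h1 (by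
      rintro ⟨Y, rfl⟩
      simpa using h 0 (by simp)) fun e => h0 (natDegree_eq_zero_iff_degree_le_zero.2 e.le)
    have hm' : Q'.Monic := (cyclotomic.monic d ℤ).of_mul_monic_left (e ▸ hm)
    have h2 := (cyclotomic.monic d ℤ).natDegree_mul hm'
    rw [← e, natDegree_cyclotomic] at h2
    have h3 := Nat.totient_pos.2 hd
    obtain ⟨L, hL, e'⟩ := ih Q' hm' (by omega) fun z hz => h z (by rw [e, map_mul, hz, mul_zero])
    refine ⟨d ::ₘ L, fun x hx => ?_, by rw [Multiset.map_cons, Multiset.prod_cons, ← e', e]⟩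
    rcases Multiset.mem_cons.1 hx with rfl | hx
    exacts [hd, hL x hx]

theorem kron_deg (L : Multiset ℕ) :
    ((L.map fun d => cyclotomic d ℤ).prod).natDegree = (L.map Nat.totient).sum := by
  rw [natDegree_multiset_prod_of_monic _ fun f hf => by
    obtain ⟨d, -, rfl⟩ := Multiset.mem_map.1 hf
    exact cyclotomic.monic d ℤ, Multiset.map_map]
  simp [natDegree_cyclotomic]

theorem kron (Q : ℤ[X]) (hm : Q.Monic) (hn : Q.natDegree ≤ 8)
    (h : ∀ z : ℂ, aeval z Q = 0 → ‖z‖ ^ 2 = 1) : Q ∣ (X ^ MM - 1) ^ 8 := by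
  obtain ⟨L, hL, rfl⟩ := kron_list 8 Q hm hn h
  rw [kron_deg] at hn
  have h1 : L.card ≤ 8 := by
    have := Multiset.card_nsmul_le_sum (s := L.map Nat.totient) (a := 1) fun x hx => by
      obtain ⟨d, hd, rfl⟩ := Multiset.mem_map.1 hx
      exact Nat.totient_pos.2 (hL d hd)
    rw [Multiset.card_map, smul_eq_mul, mul_one] at this
    omega
  refine (Multiset.prod_dvd_prod_of_dvd _ (fun _ => (X ^ MM - 1 : ℤ[X])) fun d hd => ?_).trans ?_
  · obtain ⟨c, hc⟩ := tot_dvd (hL d hd) ((Multiset.single_le_sum (fun _ _ => Nat.zero_le _) _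
      (Multiset.mem_map_of_mem _ hd)).trans hn)
    refine (cyclotomic.dvd_X_pow_sub_one d ℤ).trans ?_
    simpa [hc, pow_mul] using sub_dvd_pow_sub_pow (X ^ d : ℤ[X]) 1 c
  · rw [Multiset.map_const', Multiset.prod_replicate]
    exact pow_dvd_pow _ h1

/-- The orders of the roots in characteristic `l`. -/
theorem kron_ord (Q : ℤ[X]) (hm : Q.Monic) {n : ℕ} (hn : Q.natDegree ≤ n) (h8 : n ≤ 8)
    (h : ∀ z : ℂ, aeval z Q = 0 → ‖z‖ ^ 2 = 1) {l : ℕ} (hl : l.Prime) (h16 : 16 < l) (k : Type)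
    [Field k] [Algebra (ZMod l) k] : ∃ D : Finset ℕ, ∑ d ∈ D, d.totient ≤ n ∧
      (∀ d ∈ D, d ∣ MM) ∧ ∀ ξ : k, aeval ξ Q = 0 → ∃ d ∈ D, IsPrimitiveRoot ξ d := by
  obtain ⟨L, hL, rfl⟩ := kron_list n Q hm hn h
  rw [kron_deg] at hn
  have hM : ∀ d ∈ L, d ∣ MM := fun d hd => tot_dvd (hL d hd) ((Multiset.single_le_sum
    (fun _ _ => Nat.zero_le _) _ (Multiset.mem_map_of_mem _ hd)).trans (hn.trans h8))
  refine ⟨L.toFinset, le_trans ?_ hn, fun d hd => hM d (Multiset.mem_toFinset.1 hd), fun ξ hξ => ?_⟩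
  · obtain ⟨t, ht⟩ := Multiset.le_iff_exists_add.1 (Multiset.dedup_le L)
    conv_rhs => rw [ht, Multiset.map_add, Multiset.sum_add]
    exact Nat.le_add_right _ _
  · rw [map_multiset_prod, Multiset.prod_eq_zero_iff, Multiset.map_map] at hξ
    obtain ⟨d, hd, e⟩ := Multiset.mem_map.1 hξ
    have : Fact l.Prime := ⟨hl⟩
    have : CharP k l := charP_of_injective_algebraMap (algebraMap (ZMod l) k).injective l
    have : NeZero (d : k) := ⟨fun e0 => by
      have h1 := ((CharP.cast_eq_zero_iff k l d).1 e0).trans (hM d hd)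
      have := (hl.dvd_factorial).1 h1
      omega⟩
    refine ⟨d, Multiset.mem_toFinset.2 hd, isRoot_cyclotomic_iff.1 ?_⟩
    rwa [IsRoot.def, ← map_cyclotomic_int, eval_map, ← algebraMap_int_eq, ← aeval_def]

end Pool.Agent.RT
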