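import Mathlib

/-! Resultants, roots of unity and sums of roots of unity modulo a large prime. -/

set_option autoImplicit false

namespace Pool.Agent.RT

open Polynomial

theorem res_bound {Q g : ℤ[X]} (hQ : Q.Monic) {B : ℝ} (hB : 1 ≤ B) {R : ℕ} (hR : Q.natDegree ≤ R)
    (h : ∀ z : ℂ, aeval z Q = 0 → aeval z g ≠ 0 ∧ ‖aeval z g‖ ≤ B) :
    ∃ N : ℤ, N ≠ 0 ∧ (N.natAbs : ℝ) ≤ B ^ R ∧ ∀ (k : Type) [CommRing k] (x : k),
      aeval x Q = 0 → aeval x g = 0 → (N : k) = 0 := by
  have h1 : ((resultant Q g Q.natDegree g.natDegree : ℤ) : ℂ) =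
      ((Q.map (algebraMap ℤ ℂ)).roots.map fun z => aeval z g).prod := by
    have h2 := resultant_eq_prod_eval (Q.map (algebraMap ℤ ℂ)) (g.map (algebraMap ℤ ℂ))
      g.natDegree natDegree_map_le (IsAlgClosed.splits _)
    rw [hQ.natDegree_map, resultant_map_map, (hQ.map _).leadingCoeff, one_pow, one_mul,
      eq_intCast] at h2
    simpa only [eval_map_algebraMap] using h2
  have h2 : ∀ z ∈ (Q.map (algebraMap ℤ ℂ)).roots, aeval z g ≠ 0 ∧ ‖aeval z g‖ ≤ B := fun z hz =>
    h z (by simpa only [IsRoot, eval_map_algebraMap] using isRoot_of_mem_roots hz)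
  refine ⟨resultant Q g Q.natDegree g.natDegree, fun h0 => ?_, ?_, fun k _ x h3 h4 => ?_⟩
  · rw [h0, Int.cast_zero, eq_comm, Multiset.prod_eq_zero_iff, Multiset.mem_map] at h1
    obtain ⟨z, hz, h1⟩ := h1
    exact (h2 z hz).1 h1
  · rw [Nat.cast_natAbs, Int.cast_abs, ← Complex.norm_intCast, h1, ← normHom_apply,
      map_multiset_prod, Multiset.map_map]
    refine le_trans (Multiset.prod_map_le_prod_map₀ _ (fun _ => B) (fun z _ => by simp)
      fun z hz => (h2 z hz).2) ?_
    rw [Multiset.map_const', Multiset.prod_replicate]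
    exact pow_le_pow_right₀ hB ((card_roots' _).trans (natDegree_map_le.trans hR))
  · by_cases h0 : Q.natDegree = 0
    · rw [hQ.natDegree_eq_zero.1 h0, map_one] at h3
      exact (mul_one _).symm.trans (by rw [h3, mul_zero])
    · obtain ⟨u, v, -, -, e⟩ := exists_mul_add_mul_eq_C_resultant Q g le_rfl le_rfl (.inl h0)
      simpa [h3, h4] using (congrArg (aeval x) e).symm

theorem weight_half (p R E : ℕ) (hp : 2 ≤ p) : ∃ l₀ : ℕ, ∀ l : ℕ, l₀ < l → ∀ Q : ℤ[X],
    Q.Monic → Q.natDegree ≤ R → (∀ z : ℂ, aeval z Q = 0 → ‖z‖ ^ 2 = p) →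
    ∀ (x : ZMod l) (j : ℕ), j ≤ E → aeval x Q = 0 → x ^ E = (p : ZMod l) ^ j → 2 * j = E := by
  refine ⟨(2 * p ^ E) ^ R, fun l hl Q h1 h2 h3 x j hj h4 h5 => by_contra fun hc => ?_⟩
  have a0 : (2 : ℝ) ≤ p := by exact_mod_cast hp
  have a1 : (1 : ℝ) ≤ p := by linarith
  obtain ⟨N, n1, n2, n3⟩ := res_bound (g := X ^ E - C ((p : ℤ) ^ j)) h1 (B := 2 * p ^ E)
    (by linarith [one_le_pow₀ (n := E) a1]) h2 fun z hz => by
      have a2 := h3 z hz
      simp only [map_sub, map_pow, aeval_X, map_natCast]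
      refine ⟨fun c => hc ?_, (norm_sub_le _ _).trans ?_⟩
      · have a3 := congrArg (fun t => ‖t‖ ^ 2) (sub_eq_zero.1 c)
        simp only [norm_pow, Complex.norm_natCast] at a3
        rw [← pow_mul, mul_comm, pow_mul, a2, ← pow_mul] at a3
        exact (mul_comm _ _).trans (pow_right_injective₀ (by linarith) (by linarith) a3).symm
      · rw [norm_pow, norm_pow, Complex.norm_natCast]
        have a3 : ‖z‖ ≤ p := by nlinarith [norm_nonneg z]
        linarith [pow_le_pow_left₀ (norm_nonneg z) a3 E, pow_le_pow_right₀ a1 hj]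
  have a4 := n3 _ x h4 (by simp [h5])
  rw [ZMod.intCast_zmod_eq_zero_iff_dvd, Int.natCast_dvd] at a4
  exact (hl.trans_le (Nat.le_of_dvd (Int.natAbs_pos.2 n1) a4)).not_ge (by exact_mod_cast n2)

theorem root_order {a : ℤ[X]} (ha : a.Monic) (h : ∀ z : ℂ, aeval z a = 0 → ‖z‖ ^ 2 = 1)
    {k : Type} [Field k] {x : k} (hx : aeval x a = 0) :
    ∃ d, 0 < d ∧ cyclotomic d ℤ ∣ a ∧ aeval x (cyclotomic d ℤ) = 0 := by
  induction hn : a.natDegree using Nat.strong_induction_on generalizing a with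
  | _ n ih =>
    have h0 : a.natDegree ≠ 0 := fun c => by
      rw [ha.natDegree_eq_zero.1 c, map_one] at hx
      exact one_ne_zero hx
    have h1 : ∀ z ∈ (a.map (Int.castRingHom ℂ)).roots, ‖z‖ = 1 := fun z hz =>
      (pow_eq_one_iff_of_nonneg (norm_nonneg z) two_ne_zero).1 (h z (by
        simpa only [IsRoot, ← algebraMap_int_eq, eval_map_algebraMap] using isRoot_of_mem_roots hz))
    obtain ⟨d, h2, b, h3⟩ := cyclotomic_dvd_of_mahlerMeasure_eq_one (p := a) (by
        rw [mahlerMeasure_eq_leadingCoeff_mul_prod_roots, (ha.map _).leadingCoeff, norm_one,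
          one_mul, Multiset.map_congr rfl (g := fun _ => 1) fun z hz => by rw [h1 z hz, max_self]]
        simp)
      (fun ⟨c, hc⟩ => by simpa using h 0 (by simp [hc]))
      fun c => h0 (natDegree_eq_zero_iff_degree_le_zero.2 c.le)
    have h4 := (cyclotomic.monic d ℤ).of_mul_monic_left (h3 ▸ ha)
    rw [h3, map_mul, mul_eq_zero] at hx
    refine hx.elim (fun c => ⟨d, h2, ⟨b, h3⟩, c⟩) fun c => ?_
    obtain ⟨d', h5, h6, h7⟩ := ih b.natDegree (by
      rw [← hn, h3, (cyclotomic.monic d ℤ).natDegree_mul h4, natDegree_cyclotomic]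
      exact Nat.lt_add_of_pos_left (Nat.totient_pos.2 h2)) h4
      (fun z hz => h z (by rw [h3, map_mul, hz, mul_zero])) c rfl
    exact ⟨d', h5, h3 ▸ h6.mul_left _, h7⟩

theorem totient_le {a : ℤ[X]} (ha : a.Monic) {d : ℕ} (h : cyclotomic d ℤ ∣ a) :
    d.totient ≤ a.natDegree := natDegree_cyclotomic d ℤ ▸ natDegree_le_of_dvd h ha.ne_zero

theorem totient_add_le {a : ℤ[X]} (ha : a.Monic) {d d' : ℕ} (hd : d ≠ d')
    (h : cyclotomic d ℤ ∣ a) (h' : cyclotomic d' ℤ ∣ a) :
    d.totient + d'.totient ≤ a.natDegree := by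
  have h1 := fun d (h : cyclotomic d ℤ ∣ a) => Polynomial.map_dvd (Int.castRingHom ℚ) h
  simp only [map_cyclotomic] at h1
  have h2 := natDegree_le_of_dvd ((cyclotomic.isCoprime_rat hd).mul_dvd (h1 d h) (h1 d' h'))
    (ha.map _).ne_zero
  rwa [(cyclotomic.monic d ℚ).natDegree_mul (cyclotomic.monic d' ℚ), natDegree_cyclotomic,
    natDegree_cyclotomic, ha.natDegree_map] at h2

theorem odd_totient {o : ℕ} (ho : Odd o) (h : o.totient ≤ 4) : o = 1 ∨ o = 3 ∨ o = 5 := by
  have h1 : o ∣ 15 := (Nat.dvd_iff_prime_pow_dvd_dvd 15 o).2 fun p k hp hk => by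
    rcases k with _ | k
    · simp
    have h2 := (Nat.le_of_dvd (Nat.totient_pos.2 ho.pos) (Nat.totient_dvd_of_dvd hk)).trans h
    rw [Nat.totient_prime_pow_succ hp] at h2
    have h3 := (ho.of_dvd_nat ((dvd_pow_self p k.succ_ne_zero).trans hk))
    have h4 := hp.two_le
    have h5 : 3 ≤ p := by obtain ⟨j, rfl⟩ := h3; omega
    obtain rfl : k = 0 := by
      by_contra c
      have := Nat.mul_le_mul (h5.trans (Nat.le_self_pow c p)) (show 2 ≤ p - 1 by omega)
      omega
    obtain ⟨j, rfl⟩ := h3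
    rw [pow_zero, one_mul] at h2
    obtain rfl | rfl : j = 1 ∨ j = 2 := by omega
    · decide
    · decide
  have h2 : ∀ o ∈ Nat.divisors 15, o.totient ≤ 4 → o = 1 ∨ o = 3 ∨ o = 5 := by decide
  exact h2 o (Nat.mem_divisors.2 ⟨h1, by decide⟩) h

theorem sum_pow_ne {q : ℕ} (hq : q.Prime) {z : ℂ} (hz : IsPrimitiveRoot z q) {M : Multiset ℕ}
    (h0 : M ≠ 0) (h : ∀ n ∈ M, n + 1 < q) : (M.map fun n => z ^ n).sum ≠ 0 := fun c => by
  have h1 : (M.map fun n => (X : ℚ[X]) ^ n).sum ≠ 0 := fun e => by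
    simpa [eval_multisetSum, h0] using congrArg (eval 1) e
  have h2 := natDegree_le_of_dvd (minpoly.dvd ℚ z (p := (M.map fun n => (X : ℚ[X]) ^ n).sum) (by
    simpa [map_multiset_sum] using c)) h1
  rw [← cyclotomic_eq_minpoly_rat hz hq.pos, natDegree_cyclotomic, Nat.totient_prime hq] at h2
  have h3 := natDegree_multiset_sum_le (M.map fun n => (X : ℚ[X]) ^ n)
  have h4 : ((M.map fun n => (X : ℚ[X]) ^ n).map natDegree).foldr max 0 ≤ q - 2 := by
    clear h0 c h1 h2 h3
    induction M using Multiset.induction_on with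
    | empty => simp
    | cons n M ih =>
      simp only [Multiset.map_cons, Multiset.foldr_cons, natDegree_X_pow, max_le_iff]
      exact ⟨by have := h n (by simp); omega, ih fun n hn => h n (by simp [hn])⟩
  have := hq.two_le
  omega

theorem sum_prim_ne {q R l : ℕ} (hq : q.Prime) [Fact l.Prime] (hl : R ^ q < l) (hl' : q < l)
    {M : Multiset (ZMod l)} (h0 : M ≠ 0) (hR : M.card ≤ R) (h : ∀ x ∈ M, IsPrimitiveRoot x q) :
    M.sum ≠ 0 := fun c => by
  have : NeZero q := ⟨hq.ne_zero⟩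
  have : NeZero (q : ZMod l) := ⟨fun e =>
    Nat.not_dvd_of_pos_of_lt hq.pos hl' ((ZMod.natCast_eq_zero_iff q l).1 e)⟩
  obtain ⟨y, hy⟩ := Multiset.exists_mem_of_ne_zero h0
  have h1 : ∀ x ∈ M, ∃ n, n + 1 < q ∧ y * y ^ n = x := fun x hx => by
    obtain ⟨n, h2, h3⟩ := (h y hy).eq_pow_of_pow_eq_one (h x hx).pow_eq_one
    rcases n with _ | n
    · exact absurd (h3.symm.trans (pow_zero y)) ((h x hx).ne_one hq.one_lt)
    · exact ⟨n, h2, by rw [← h3, pow_succ']⟩
  choose! n h2 h3 using h1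
  have h4 : (1 : ℝ) ≤ R := by exact_mod_cast (Multiset.card_pos.2 h0).trans_le hR
  obtain ⟨N, n1, n2, n3⟩ := res_bound (g := ((M.map n).map fun j => X ^ j).sum)
    (cyclotomic.monic q ℤ) h4 (R := q) (by rw [natDegree_cyclotomic]; exact q.totient_le)
    fun z hz => by
      have a1 : IsPrimitiveRoot z q := isRoot_cyclotomic_iff.1 (by
        rw [← map_cyclotomic_int, IsRoot, ← algebraMap_int_eq, eval_map_algebraMap, hz])
      rw [map_multiset_sum, Multiset.map_map]
      simp only [Function.comp_def, map_pow, aeval_X]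
      refine ⟨sum_pow_ne hq a1 (by simpa using h0) (by simpa using h2),
        (norm_multiset_sum_le _).trans ?_⟩
      simpa [a1.norm'_eq_one hq.ne_zero] using hR
  have a4 := n3 _ y (by
    rw [← eval_map_algebraMap, algebraMap_int_eq, map_cyclotomic_int]
    exact isRoot_cyclotomic_iff.2 (h y hy)) (mul_left_cancel₀ ((h y hy).ne_zero hq.ne_zero) (by
      rw [map_multiset_sum, Multiset.map_map, Multiset.map_map, ← Multiset.sum_map_mul_left,
        Multiset.map_congr rfl (g := fun x => x) fun x hx => by simpa using h3 x hx]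
      simpa using c))
  rw [ZMod.intCast_zmod_eq_zero_iff_dvd, Int.natCast_dvd] at a4
  exact (hl.trans_le (Nat.le_of_dvd (Int.natAbs_pos.2 n1) a4)).not_ge (by exact_mod_cast n2)

open Pointwise in
theorem sum_mem_nsmul {A : Type} [AddCommMonoid A] [DecidableEq A] {T : Finset A} (h0 : 0 ∈ T)
    (n : ℕ) : ∀ M : Multiset A, M.card ≤ n → (∀ x ∈ M, x ∈ T) → M.sum ∈ n • T := by
  induction n with
  | zero => intro M h _; simp [Multiset.card_eq_zero.1 (Nat.le_zero.1 h)]
  | succ n ih =>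
    intro M h h'
    rw [succ_nsmul']
    induction M using Multiset.induction_on with
    | empty => simpa using Finset.add_mem_add h0 (ih 0 (by simp) (by simp))
    | cons x M _ =>
      rw [Multiset.sum_cons]
      exact Finset.add_mem_add (h' x (by simp))
        (ih M (by simpa using h) fun y hy => h' y (by simp [hy]))

theorem trace_bound {Q : ℤ[X]} (hQ : Q.Monic) {p R : ℕ} (hR : Q.natDegree ≤ R)
    (h : ∀ z : ℂ, aeval z Q = 0 → ‖z‖ ^ 2 = p) : Q.nextCoeff ^ 2 ≤ R ^ 2 * p := by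
  have h1 := (IsAlgClosed.splits (Q.map (algebraMap ℤ ℂ))).nextCoeff_eq_neg_sum_roots_of_monic
    (hQ.map _)
  rw [nextCoeff_map (algebraMap ℤ ℂ).injective_int, eq_intCast] at h1
  have h2 : |(Q.nextCoeff : ℝ)| ≤ R * √p := by
    rw [← Complex.norm_intCast, h1, norm_neg]
    refine (norm_multiset_sum_le _).trans ?_
    rw [Multiset.map_congr rfl (g := fun _ => √p) fun z hz => by
      rw [← h z (by simpa only [IsRoot, eval_map_algebraMap] using isRoot_of_mem_roots hz),
        Real.sqrt_sq (norm_nonneg z)], Multiset.map_const', Multiset.sum_replicate, nsmul_eq_mul]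
    exact mul_le_mul_of_nonneg_right (by
      exact_mod_cast (card_roots' _).trans (natDegree_map_le.trans hR)) (Real.sqrt_nonneg _)
  have h3 := pow_le_pow_left₀ (abs_nonneg _) h2 2
  rw [sq_abs, mul_pow, Real.sq_sqrt (Nat.cast_nonneg p)] at h3
  exact_mod_cast h3

end Pool.Agent.RT
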