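import Pool.Agent.Lib.MP_e97e2b_nt.RT.Ty2
import Pool.Agent.Lib.MP_e97e2b_nt.RT.TyA

/-! The possible types of the action of inertia. -/

set_option autoImplicit false

namespace Pool.Agent.RT

open Polynomial

theorem ty_half {k : Type} [Field k] {ξ : k} {v o : ℕ} (ho : Odd o)
    (h : IsPrimitiveRoot ξ (2 ^ (v + 1) * o)) : ξ ^ (2 ^ v * o) = -1 :=
  (h.pow (Nat.mul_pos (by positivity) ho.pos) (b := 2) (by ring)).eq_neg_one_of_two_right

theorem ty_core {k ι : Type} [Field k] {v g : ℕ} (hv : 1 ≤ v) (hg : g ≤ 4) (r₀ : ι) (ξ : ι → k)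
    (o : ι → ℕ) (ho : ∀ r, Odd (o r)) (hξ : ∀ r, IsPrimitiveRoot (ξ r) (2 ^ (v + 1) * o r))
    (h1 : ∀ r, 2 ^ v * (o r).totient ≤ 2 * g)
    (h2 : ∀ r r', o r ≠ o r' → 2 ^ v * ((o r).totient + (o r').totient) ≤ 2 * g) :
    ∃ m, 2 ≤ m ∧ 2 ∣ m ∧ m ≤ 2 * g ∧ (∃ r, m ∣ 2 ^ v * o r) ∧ ∀ s : ℕ,
      (∀ r, (-1) ^ s * ξ r ^ (m * s) = 1) ∨
      ∃ q, (q = 3 ∨ q = 5) ∧ ∀ r, IsPrimitiveRoot ((-1) ^ s * ξ r ^ (m * s)) q := by
  have v2 : 2 ≤ 2 ^ v := by simpa using Nat.pow_le_pow_right two_pos hv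
  have hp : ∀ r, 1 ≤ (o r).totient := fun r => Nat.totient_pos.2 (ho r).pos
  have h135 : ∀ r, o r = 1 ∨ o r = 3 ∨ o r = 5 := fun r =>
    odd_tot (ho r) (by nlinarith [h1 r])
  have sq : ∀ s : ℕ, ((-1 : k) ^ s) * (-1) ^ s = 1 := fun s => by rw [← mul_pow]; simp
  by_cases hc : ∀ r, o r = o r₀
  · refine ⟨2 ^ v, v2, dvd_pow_self 2 (by omega), by nlinarith [h1 r₀, hp r₀],
      ⟨r₀, dvd_mul_right _ _⟩, fun s => ?_⟩
    by_cases hs : o r₀ ∣ s
    · refine Or.inl fun r => ?_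
      obtain ⟨t, rfl⟩ := hs
      rw [← hc r, ← mul_assoc, pow_mul (ξ r), ty_half (ho r) (hξ r), pow_mul, (ho r).neg_one_pow, sq]
    · have hq : o r₀ = 3 ∨ o r₀ = 5 := (h135 r₀).resolve_left fun e => hs (e ▸ one_dvd s)
      have : Fact (o r₀).Prime := ⟨by rcases hq with e | e <;> rw [e] <;> norm_num⟩
      refine Or.inr ⟨o r₀, hq, fun r => IsPrimitiveRoot.iff_orderOf.2 (orderOf_eq_prime ?_ ?_)⟩
      · rw [← hc r, mul_pow, ← pow_mul (ξ r), mul_right_comm, pow_mul (ξ r), ty_half (ho r) (hξ r),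
          ← pow_mul, mul_comm s, pow_mul, (ho r).neg_one_pow, sq]
      · intro e
        have e2 : ξ r ^ (2 ^ (v + 1) * s) = 1 := by
          have := congrArg (· ^ 2) e
          simp only [mul_pow, pow_two ((-1 : k) ^ s), sq, one_mul, one_pow, ← pow_mul] at this
          rw [← this]
          congr 1
          ring
        exact hs (hc r ▸ Nat.dvd_of_mul_dvd_mul_left (by positivity) ((hξ r).dvd_of_pow_eq_one _ e2))
  · push Not at hc
    obtain ⟨r₁, hr⟩ := hc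
    have t3 : Nat.totient 3 = 2 := by decide
    have t5 : Nat.totient 5 = 4 := by decide
    have h5 : ∀ r r', o r ≠ o r' → o r ≠ 5 := fun r r' hne e => by
      have := h2 r r' hne
      rw [e, t5] at this
      nlinarith [hp r']
    have h13 : ∀ r, o r = 1 ∨ o r = 3 := fun r => by
      have := h135 r
      by_cases e : o r = o r₀
      · have := h5 r r₁ (by omega)
        omega
      · have := h5 r r₀ e
        omega
    have h3 : 2 ^ v * 3 ≤ 2 * g := by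
      have := h2 r₁ r₀ hr
      rcases h13 r₁ with e | e <;> rcases h13 r₀ with e' | e' <;> rw [e, e'] at hr this <;>
        simp only [Nat.totient_one, t3] at this <;> omega
    obtain rfl : v = 1 := by
      by_contra hne
      have : 2 ^ 2 ≤ 2 ^ v := Nat.pow_le_pow_right two_pos (by omega)
      omega
    refine ⟨6, by norm_num, by norm_num, by omega, ?_, fun s => Or.inl fun r => ?_⟩
    · rcases h13 r₁ with e | e
      · exact ⟨r₀, by rw [(h13 r₀).resolve_left (by omega)]; norm_num⟩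
      · exact ⟨r₁, by rw [e]; norm_num⟩
    · have e6 : ξ r ^ 6 = -1 := by
        have := ty_half (ho r) (hξ r)
        rcases h13 r with e | e <;> rw [e] at this
        · rw [show 6 = 2 ^ 1 * 1 * 3 from rfl, pow_mul, this]
          norm_num
        · exact this
      rw [pow_mul, e6, sq]

theorem ty_ord {k : Type} [Field k] {ξ : k} {d v w : ℕ} (hw : Odd w) (h : IsPrimitiveRoot ξ d)
    (h2 : (2 : k) ≠ 0) (e : ξ ^ (2 ^ v * w) = -1) : ∃ o, Odd o ∧ o ∣ w ∧ d = 2 ^ (v + 1) * o := by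
  have h1 : d ∣ 2 ^ (v + 1) * w := h.dvd_of_pow_eq_one _ (by
    rw [show 2 ^ (v + 1) * w = 2 ^ v * w * 2 by ring, pow_mul, e, neg_one_sq])
  obtain ⟨a, o, ha, ho, rfl⟩ := exists_dvd_and_dvd_of_dvd_mul h1
  obtain ⟨j, hj, rfl⟩ := (Nat.dvd_prime_pow Nat.prime_two).1 ha
  refine ⟨o, hw.of_dvd_nat ho, ho, ?_⟩
  rcases hj.lt_or_eq with hj | rfl
  · have := (h.pow_eq_one_iff_dvd (2 ^ v * w)).2
      (mul_dvd_mul (pow_dvd_pow 2 (Nat.lt_succ_iff.1 hj)) ho)
    exact absurd (by linear_combination e - this) h2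
  · rfl

theorem type_main {l : ℕ} [Fact l.Prime] (hl : 8 ^ 5 < l) {g : ℕ} (hg1 : 1 ≤ g) (hg : g ≤ 4)
    {γ : ZMod l} (hγ : IsPrimitiveRoot γ (l - 1)) {ι : Type} [Fintype ι]
    (hι : Fintype.card ι = 2 * g) (i : ι → ℕ) {k : Type} [Field k]
    [Algebra (ZMod l) k] (D : Finset ℕ) (hD : ∑ d ∈ D, d.totient ≤ 2 * g)
    (h : ∀ r, ∃ ξ : k, ∃ d ∈ D, IsPrimitiveRoot ξ d ∧
      algebraMap (ZMod l) k (γ ^ i r) ^ 2 = algebraMap (ZMod l) k γ * ξ ^ 2) :
    ∃ m, 2 ≤ m ∧ 2 ∣ m ∧ m ≤ 2 * g ∧ m ∣ l - 1 ∧ ∃ S : Finset (ZMod l), 0 ∉ S ∧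
      S.card ≤ 31 ^ 31 ∧ ∀ x : ZMod l, x ^ ((l - 1) / m) = 1 → ∃ a, a ^ 2 = x ∧
        ∀ J : Finset ι, J.Nonempty → ∃ b ∈ S, ∑ r ∈ J, x ^ i r = b * a := by
  classical
  have hp : l.Prime := Fact.out
  set f := algebraMap (ZMod l) k
  have hn : ∀ n : ℕ, 0 < n → n ≤ 8 → (n : ZMod l) ≠ 0 := fun n h0 h8 e => by
    have := Nat.le_of_dvd h0 ((ZMod.natCast_eq_zero_iff _ _).1 e)
    omega
  have h2 : (2 : k) ≠ 0 := by
    have := (map_ne_zero f).2 (hn 2 two_pos (by norm_num))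
    rwa [map_natCast, Nat.cast_ofNat] at this
  obtain ⟨v, w, hw, e⟩ := Nat.exists_eq_two_pow_mul_odd (n := l - 1) (by omega)
  obtain ⟨v, rfl⟩ : ∃ v', v = v' + 1 := by
    rcases v with _ | v
    · have := (hp.odd_of_ne_two (by omega)).tsub_odd odd_one
      rw [e, pow_zero, one_mul] at this
      exact absurd this (Nat.not_even_iff_odd.2 hw)
    · exact ⟨v, rfl⟩
  have γ0 : γ ≠ 0 := hγ.ne_zero (by omega)
  choose ξ d hd hξ hq using h
  have hpow : ∀ r t, f ((γ ^ (2 * t)) ^ i r) = f (γ ^ t) * ξ r ^ (2 * t) := fun r t => by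
    rw [← pow_mul, mul_comm (2 * t), pow_mul, map_pow, pow_mul, hq, mul_pow, map_pow, pow_mul]
  have hh : ∀ r, ξ r ^ (2 ^ (v + 1) * w) = -1 := fun r => by
    have e1 := hpow r (2 ^ v * w)
    rw [show 2 * (2 ^ v * w) = 2 ^ (v + 1) * w by ring, ← e, hγ.pow_eq_one, one_pow, map_one,
      ty_half hw (e ▸ hγ), map_neg, map_one, e] at e1
    linear_combination e1
  choose o ho how hdo using fun r => ty_ord hw (hξ r) h2 (hh r)
  have ht : ∀ r, (d r).totient = 2 ^ (v + 1) * (o r).totient := fun r => by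
    rw [hdo, Nat.totient_mul (Nat.Coprime.pow_left _ (Nat.coprime_two_left.2 (ho r))),
      Nat.totient_prime_pow_succ Nat.prime_two]
    simp
  obtain ⟨m, m1, m2, m3, ⟨r₁, m4⟩, hm⟩ := ty_core (v := v + 1) (by omega) hg
    (Fintype.card_pos_iff.1 (by omega : 0 < Fintype.card ι)).some ξ o ho (fun r => hdo r ▸ hξ r)
    (fun r => ht r ▸ (Finset.single_le_sum (fun _ _ => Nat.zero_le _) (hd r)).trans hD)
    fun r r' hne => by
      rw [mul_add, ← ht, ← ht, ← Finset.sum_pair (f := Nat.totient) fun e => hne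
        (Nat.eq_of_mul_eq_mul_left (by positivity) ((hdo r).symm.trans (e.trans (hdo r'))))]
      exact (Finset.sum_le_sum_of_subset (Finset.insert_subset (hd r)
        (Finset.singleton_subset_iff.2 (hd r')))).trans hD
  have m5 : m ∣ l - 1 := e ▸ m4.trans (mul_dvd_mul_left _ (how r₁))
  let T : Finset (ZMod l) := insert 0 (nthRootsFinset 30 1)
  have hT : T.card ≤ 31 := (Finset.card_insert_le _ _).trans (Nat.succ_le_succ (by
    rw [nthRootsFinset_def]
    exact (Multiset.toFinset_card_le _).trans (card_nthRoots 30 1)))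
  refine ⟨m, m1, m2, m3, m5, ((Fintype.piFinset fun _ : ι => T).image
    fun u => ∑ r, u r).erase 0, Finset.notMem_erase _ _, ?_, fun x hx => ?_⟩
  · refine Finset.card_erase_le.trans (Finset.card_image_le.trans ?_)
    rw [Fintype.card_piFinset, Finset.prod_const, Finset.card_univ]
    exact (Nat.pow_le_pow_left hT _).trans (Nat.pow_le_pow_right (by norm_num) (by omega))
  obtain ⟨c, hc⟩ := m5
  have c0 : 0 < c := Nat.pos_of_ne_zero (by rintro rfl; omega)
  rw [hc, Nat.mul_div_cancel_left _ (by omega)] at hx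
  have : NeZero (l - 1) := ⟨by omega⟩
  obtain ⟨n, -, rfl⟩ := hγ.eq_pow_of_pow_eq_one (ξ := x) (by rw [hc, mul_comm, pow_mul, hx, one_pow])
  obtain ⟨s, rfl⟩ : m ∣ n := Nat.dvd_of_mul_dvd_mul_right c0
    (hc ▸ hγ.dvd_of_pow_eq_one _ (by rw [pow_mul, hx]))
  obtain ⟨m, rfl⟩ := m2
  refine ⟨γ ^ (m * s), by rw [← pow_mul]; congr 1; ring, fun J hJ => ?_⟩
  let u : ι → ZMod l := fun r => (-1) ^ s * ((γ ^ (2 * m * s)) ^ i r / γ ^ (m * s))
  have hu : ∀ r, f (u r) = (-1) ^ s * ξ r ^ (2 * m * s) := fun r => by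
    simp only [u, map_mul, map_div₀]
    rw [mul_assoc 2, hpow, mul_div_cancel_left₀ _ ((map_ne_zero f).2 (pow_ne_zero _ γ0))]
    simp
  have hJ8 : J.card ≤ 8 := (Finset.card_le_univ J).trans (by omega)
  have key : (∀ r, u r ^ 15 = 1) ∧ ∑ r ∈ J, u r ≠ 0 := by
    rcases hm s with h1 | ⟨q, hq, h1⟩
    · have h3 : ∀ r, u r = 1 := fun r => f.injective (by rw [hu, h1, map_one])
      refine ⟨fun r => by rw [h3, one_pow], ?_⟩
      simpa [h3] using hn J.card hJ.card_pos hJ8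
    · have h3 : ∀ r, IsPrimitiveRoot (u r) q := fun r =>
        IsPrimitiveRoot.of_map_of_injective (f := f) (hu r ▸ h1 r) f.injective
      refine ⟨fun r => ((h3 r).pow_eq_one_iff_dvd _).2 (by rcases hq with rfl | rfl <;> norm_num),
        sum_prim_ne (q := q) (R := 8) (by rcases hq with rfl | rfl <;> norm_num)
          (by rcases hq with rfl | rfl <;> omega) (by omega) (M := J.val.map u)
          (by simpa using hJ.ne_empty) (by simpa using hJ8) fun y hy => ?_⟩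
      obtain ⟨r, -, rfl⟩ := Multiset.mem_map.1 hy
      exact h3 r
  have sq : ((-1 : ZMod l) ^ s) * (-1) ^ s = 1 := by rw [← mul_pow]; simp
  refine ⟨(-1) ^ s * ∑ r ∈ J, u r, Finset.mem_erase.2 ⟨mul_ne_zero (by simp) key.2,
    Finset.mem_image.2 ⟨fun r => if r ∈ J then (-1) ^ s * u r else 0,
      Fintype.mem_piFinset.2 fun r => ?_, by simp [Finset.mul_sum]⟩⟩, ?_⟩
  · split_ifs
    · refine Finset.mem_insert_of_mem ((mem_nthRootsFinset (by norm_num) _).2 ?_)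
      rw [mul_pow, ← pow_mul, show (30 : ℕ) = 15 * 2 from rfl, pow_mul (u r), key.1, one_pow,
        mul_one, ← mul_assoc, mul_comm, pow_mul, neg_one_sq, one_pow]
    · exact Finset.mem_insert_self _ _
  · rw [Finset.mul_sum, Finset.sum_mul]
    refine Finset.sum_congr rfl fun r _ => ?_
    simp only [u]
    rw [← mul_assoc, sq, one_mul, div_mul_cancel₀ _ (pow_ne_zero _ γ0)]

end Pool.Agent.RT
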