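import Pool.Agent.Lib.MP_e97e2b_nt.RT.Defs
import Pool.Agent.Lib.MP_e97e2b_nt.RT.CP.Tame
import Pool.Agent.Lib.MP_33b3f9_ag.M4.ThInj

/-! The Weil polynomial at a good place. -/

set_option autoImplicit false

namespace Pool.Agent.RT

open Matrix Polynomial RG RG.B2
open _root_.M4 (InH Hol U rz XX bz ee E Th hf Gam XX_inj)
open _root_.M4.B2 (psi kk res cj norm_aut psi_ne psi_zero)

noncomputable section

variable [Dim] {τ : Mat} {P : Nat.Primes} {e : ℂ ≃+* PadicAlgCl P}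

theorem w_sep (hτ : InH τ) {i0 : Bits} (h0 : th2 τ i0 ≠ 0) {x : VA} {c : ℂ}
    (h : ∀ i, XA τ i0 i x = c * XA τ i0 i 0) : x ∈ TA := by
  obtain ⟨q, t, ht, rfl⟩ := exists_split x
  obtain ⟨n, hn⟩ := XX_inj hτ (x := rQ q) (y := 0) (μ := c / psi (-(2 * EB t (qV q)))) fun i => by
    have h1 := h i
    have h2 := XA_eq hτ i0 i 0 TA.zero_mem
    have h3 := psi_ne (-(2 * EB t (qV q)))
    simp only [qV_zero, add_zero, EB_self, mul_zero, neg_zero, psi_zero, one_mul, rQ_zero] at h2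
    rw [XA_eq hτ i0 i q ht, h2, YY, Pi.smul_apply, Pi.smul_apply, smul_eq_mul, smul_eq_mul] at h1
    field_simp at h1 ⊢
    exact h1
  rw [sub_zero, ← rQ_zQ] at hn
  have h4 : q = zQ n := funext fun i => Rat.cast_injective (α := ℝ) (congrFun hn i)
  exact TA.add_mem (h4 ▸ qV_zQ_mem n) ht

theorem w_gd (hP : P.1 ≠ 2) (hG : Good τ e) : ∃ S : Gd P Bits, S.e = e ∧ S.D.Γ = GA τ ∧
    S.D.X = XA τ S.D.i0 ∧ th2 τ S.D.i0 ≠ 0 := by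
  obtain ⟨D, h1, h2, h3, h4⟩ := hG
  refine ⟨⟨D, e, hP, h3, h4⟩, rfl, h1, h2, fun h0 => ?_⟩
  have h5 := D.X_zero
  rw [h2] at h5
  simp [XA, RG.B2.ext, YY, h0] at h5

theorem weil (hτ : InH τ) (hP : P.1 ≠ 2) (hG : Good τ e) (q : ℕ) (t : GQ P)
    (ht : ∀ x, ‖x‖ ≤ 1 → res (t x) = res x ^ q) (R : ∀ l : Nat.Primes, GL ν ℤ_[l])
    (h1 : Fw τ (cj e t) R) (h2 : Fw τ (cj e t⁻¹) R⁻¹) :
    ∃ Q : ℤ[X], Q.Monic ∧ (∀ l : Nat.Primes, l ≠ P → Ann (R l).1 Q) ∧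
      ∀ z : ℂ, aeval z Q = 0 → ‖z‖ ^ 2 = q := by
  obtain ⟨S, rfl, h3, -, -⟩ := w_gd hP hG
  obtain ⟨Q, h4, h5, -, h6⟩ := (⟨t, R, ht, by rw [h3]; exact h1⟩ : Sym S q).weil
  exact ⟨Q, h4, h5, h6⟩

end

end Pool.Agent.RT
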