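import Pool.Agent.Lib.MP_e97e2b_nt.RT.Defs
import Pool.Agent.Lib.MP_33b3f9_ag.Un.AH

/-! The symmetrised theorem of Appell and Humbert. -/

set_option autoImplicit false

namespace Pool.Agent.RT

open Matrix Complex
open _root_.M4 (rz)

noncomputable section

variable {K : IntermediateField ℚ ℂ} {g n : ℕ} {J : Set (MvPolynomial (Fin n) K)}
  {p : (κ g → ℝ) ≃ₗ[ℝ] (Fin g → ℂ)} {u : (Fin g → ℂ) → Fin n → ℂ}

theorem zah_ne (h : Unif J p u) (z : Fin g → ℂ) : u z ≠ 0 :=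
  ((h.img (u z)).2 ⟨z, 1, one_ne_zero, (one_smul _ _).symm⟩).1

theorem zah_alt {c : Type} {S : (c → ℂ) →ₗ[ℝ] (c → ℂ) →ₗ[ℝ] ℝ} (h1 : ∀ v w, S v w = S w v)
    (h2 : ∀ v w, S (I • v) (I • w) = S v w) (v w : c → ℂ) : S (I • v) w = -S (I • w) v := by
  rw [← h2, smul_smul, I_mul_I, neg_one_smul, map_neg, LinearMap.neg_apply, h1]

theorem zah_mat {m c : Type} [Fintype m] [DecidableEq m] (p : (m → ℝ) ≃ₗ[ℝ] (c → ℂ))
    {S : (c → ℂ) →ₗ[ℝ] (c → ℂ) →ₗ[ℝ] ℝ} (h1 : ∀ v w, S v w = S w v)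
    (h2 : ∀ v w, S (I • v) (I • w) = S v w) (h3 : ∀ v ≠ 0, 0 < S v v)
    (h4 : ∀ a b : m → ℤ, ∃ e : ℤ, S (I • p (rz a)) (p (rz b)) = e) :
    ∃ Ω : Matrix m m ℤ, Ωᵀ = -Ω ∧ Ω.det ≠ 0 ∧
      ∀ x y, S (I • p y) (p x) = x ⬝ᵥ Ω.map (Int.cast : ℤ → ℝ) *ᵥ y := by
  choose e he using h4
  have hr : ∀ i : m, rz (Pi.single i 1 : m → ℤ) = Pi.single i 1 := fun i => funext fun j => by
    by_cases h : j = i <;> simp [rz, h]
  let Ω : Matrix m m ℤ := Matrix.of fun i j => e (Pi.single j 1) (Pi.single i 1)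
  have hΩ : ∀ i j, (Ω i j : ℝ) = S (I • p (Pi.single j 1)) (p (Pi.single i 1)) := fun i j => by
    rw [← hr, ← hr, he]; rfl
  have hS : ∀ x y, S (I • p y) (p x) = x ⬝ᵥ Ω.map (Int.cast : ℤ → ℝ) *ᵥ y := fun x y => by
    conv_lhs => rw [pi_eq_sum_univ' x, pi_eq_sum_univ' y]
    simp only [map_sum, map_smul, Finset.smul_sum, smul_comm I, LinearMap.sum_apply,
      LinearMap.smul_apply, smul_eq_mul, dotProduct, mulVec, map_apply, hΩ, Finset.mul_sum]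
    exact Finset.sum_congr rfl fun i _ => Finset.sum_congr rfl fun j _ => by ring
  refine ⟨Ω, ?_, fun h0 => ?_, hS⟩
  · ext i j
    have h5 : (Ω j i : ℝ) = -Ω i j := by rw [hΩ, hΩ, zah_alt h1 h2]
    exact_mod_cast h5
  · have h5 : (Ω.map (Int.cast : ℤ → ℝ)).det = 0 := by
      have := (Int.castRingHom ℝ).map_det Ω
      rw [h0, map_zero] at this
      exact this.symm
    obtain ⟨y, hy, h6⟩ := exists_mulVec_eq_zero_iff.2 h5
    have h7 := hS (p.symm (I • p y)) y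
    rw [h6, dotProduct_zero, p.apply_symm_apply, h2] at h7
    exact (h3 _ (p.map_ne_zero_iff.2 hy)).ne' h7

/-- The products `u z a * u (-z) b` are sections of a symmetric bundle with trivial
semicharacter. -/
theorem zah (h : Unif J p u) : ∃ (H : (Fin g → ℂ) → ℂ)
    (S : (Fin g → ℂ) →ₗ[ℝ] (Fin g → ℂ) →ₗ[ℝ] ℝ) (Ω : Matrix (κ g) (κ g) ℤ),
    Differentiable ℂ H ∧ (∀ z z', S z z' = S z' z) ∧
    (∀ z z', S (I • z) (I • z') = S z z') ∧ (∀ z ≠ 0, 0 < S z z) ∧ Ωᵀ = -Ω ∧ Ω.det ≠ 0 ∧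
    (∀ x y, S (I • p y) (p x) = x ⬝ᵥ Ω.map (Int.cast : ℤ → ℝ) *ᵥ y) ∧
    ∀ (m : κ g → ℤ) z a b,
      cexp (H (z + p (rz m))) * u (z + p (rz m)) a * u (-(z + p (rz m))) b =
        cexp (Real.pi * (S (p (rz m)) (p (rz m)) / 2 + S z (p (rz m)) -
          I * S (I • z) (p (rz m)))) * (cexp (H z) * u z a * u (-z) b) := by
  obtain ⟨f, S, hf, h1, h2, h3, h4, h5⟩ := M4.Un.AH u h.hol (zah_ne h) p
    (fun m z => (h.inj _ _).2 ⟨m, add_sub_cancel_left _ _⟩)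
    fun z c hc => by simpa using (h.inj z 0).1 ⟨c, hc⟩
  obtain ⟨Ω, o1, o2, o3⟩ := zah_mat p (S := (2 : ℝ) • S) (fun v w => by simp [h1 v w])
    (fun v w => by simp [h2 v w]) (fun v hv => by simpa using h3 v hv) fun a b => by
      obtain ⟨e, he⟩ := h4 a b
      exact ⟨2 * e, by push_cast; rw [← he]; rfl⟩
  refine ⟨fun z => f z + f (-z), (2 : ℝ) • S, Ω, by fun_prop, fun v w => by simp [h1 v w],
    fun v w => by simp [h2 v w], fun v hv => by simpa using h3 v hv, o1, o2, o3,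
    fun m z a b => ?_⟩
  obtain ⟨χ, -, hχ⟩ := h5 m
  obtain ⟨χ', -, hχ'⟩ := h5 (-m)
  have e0 : (p fun a => ((-m) a : ℝ)) = -p (rz m) := by
    rw [← map_neg]; congr 1; funext a; simp [rz]
  rw [e0] at hχ'
  change ∀ z, cexp (f (z + p (rz m))) • u (z + p (rz m)) =
    (χ * cexp (Real.pi * (S z (p (rz m)) - I * S (I • z) (p (rz m))))) • cexp (f z) • u z at hχ
  generalize p (rz m) = t at hχ hχ' ⊢
  have e1 : S (I • t) t = 0 := by linarith [zah_alt h1 h2 t t]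
  have e2 : χ * χ' = cexp (Real.pi * S t t) := by
    obtain ⟨c, hc⟩ := Function.ne_iff.1 (zah_ne h 0)
    have e3 := congrFun (hχ 0) c
    have e4 := congrFun (hχ' t) c
    simp only [zero_add, add_neg_cancel, smul_zero, map_zero, LinearMap.zero_apply, ofReal_zero,
      mul_zero, sub_zero, exp_zero, mul_one, Pi.smul_apply, smul_eq_mul, map_neg, e1, neg_zero,
      ofReal_neg, mul_neg, exp_neg] at e3 e4
    rw [e3] at e4
    have e5 : cexp (f 0) * u 0 c ≠ 0 := mul_ne_zero (exp_ne_zero _) hc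
    have e6 := exp_ne_zero (Real.pi * S t t)
    refine mul_right_cancel₀ e5 ?_
    conv_rhs => rw [e4]
    field_simp
  have e3 := congrFun (hχ z) a
  have e4 := congrFun (hχ' (-z)) b
  simp only [Pi.smul_apply, smul_eq_mul, map_neg, smul_neg, LinearMap.neg_apply, neg_neg,
    ← neg_add] at e3 e4
  have e5 : cexp (Real.pi * ((((2 : ℝ) • S) t t : ℝ) / 2 + (((2 : ℝ) • S) z t : ℝ) -
      I * (((2 : ℝ) • S) (I • z) t : ℝ))) = cexp (Real.pi * S t t) *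
        cexp (Real.pi * (S z t - I * S (I • z) t)) * cexp (Real.pi * (S z t - I * S (I • z) t)) := by
    rw [← exp_add, ← exp_add]
    congr 1
    simp only [LinearMap.smul_apply, smul_eq_mul]
    push_cast
    ring
  rw [e5, ← e2, exp_add, exp_add]
  linear_combination (cexp (f (-(z + t))) * u (-(z + t)) b) * e3 +
    (χ * cexp (Real.pi * (S z t - I * S (I • z) t)) * (cexp (f z) * u z a)) * e4

/-- The block as a linear map. -/
def zahB (c : Type) (i : Fin 8) : (Fin 8 × c → ℂ) →ₗ[ℝ] (c → ℂ) :=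
  LinearMap.funLeft ℝ ℂ fun a => (i, a)

theorem zah_d8 {m : Type} [Fintype m] (Ω : Matrix m m ℤ) (x y : Fin 8 × m → ℝ) :
    x ⬝ᵥ (d8 Ω).map (Int.cast : ℤ → ℝ) *ᵥ y =
      ∑ i, blk x i ⬝ᵥ Ω.map (Int.cast : ℤ → ℝ) *ᵥ blk y i := by
  simp only [dotProduct, mulVec, map_apply, d8, blk, Fintype.sum_prod_type]
  refine Finset.sum_congr rfl fun i _ => Finset.sum_congr rfl fun a _ => ?_
  congr 1
  rw [Finset.sum_eq_single i (fun j _ hj => by simp [hj.symm]) (by simp)]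
  simp

/-- The same for the eighth power. -/
theorem zah8 (h : Unif J p u) (p' : (Fin 8 × κ g → ℝ) ≃ₗ[ℝ] (Fin 8 × Fin g → ℂ))
    (hp : ∀ x i, blk (p' x) i = p (blk x i)) : ∃ (F : (Fin 8 × Fin g → ℂ) → ℂ)
    (S : (Fin 8 × Fin g → ℂ) →ₗ[ℝ] (Fin 8 × Fin g → ℂ) →ₗ[ℝ] ℝ) (Ω : Matrix (κ g) (κ g) ℤ),
    Differentiable ℂ F ∧ (∀ z, F z ≠ 0) ∧ (∀ z z', S z z' = S z' z) ∧
    (∀ z z', S (I • z) (I • z') = S z z') ∧ (∀ z ≠ 0, 0 < S z z) ∧ Ωᵀ = -Ω ∧ Ω.det ≠ 0 ∧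
    (∀ x y, S (I • p' y) (p' x) = x ⬝ᵥ (d8 Ω).map (Int.cast : ℤ → ℝ) *ᵥ y) ∧
    ∀ (m : Fin 8 × κ g → ℤ) z (a b : Fin 8 → Fin n),
      F (z + p' (rz m)) * (∏ i, u (blk (z + p' (rz m)) i) (a i)) *
          ∏ i, u (blk (-(z + p' (rz m))) i) (b i) =
        cexp (Real.pi * (S (p' (rz m)) (p' (rz m)) / 2 + S z (p' (rz m)) -
          I * S (I • z) (p' (rz m)))) *
          (F z * (∏ i, u (blk z i) (a i)) * ∏ i, u (blk (-z) i) (b i)) := by
  obtain ⟨H, S, Ω, hH, h1, h2, h3, o1, o2, o3, h4⟩ := zah h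
  let S' : (Fin 8 × Fin g → ℂ) →ₗ[ℝ] (Fin 8 × Fin g → ℂ) →ₗ[ℝ] ℝ :=
    ∑ i, S.compl₁₂ (zahB _ i) (zahB _ i)
  have hS : ∀ z z', S' z z' = ∑ i, S (blk z i) (blk z' i) := fun z z' => by
    simp only [S', LinearMap.sum_apply, LinearMap.compl₁₂_apply]
    rfl
  have hI : ∀ (z : Fin 8 × Fin g → ℂ) i, blk (I • z) i = I • blk z i := fun _ _ => rfl
  refine ⟨fun z => ∏ i, cexp (H (blk z i)), S', Ω, ?_,
    fun z => Finset.prod_ne_zero_iff.2 fun i _ => exp_ne_zero _, fun z z' => ?_, fun z z' => ?_,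
    fun z hz => ?_, o1, o2, fun x y => ?_, fun m z a b => ?_⟩
  · unfold blk
    fun_prop
  · simp only [hS, h1 (blk z _)]
  · simp only [hS, hI, h2]
  · obtain ⟨⟨i, a⟩, ha⟩ := Function.ne_iff.1 hz
    rw [hS]
    refine Finset.sum_pos' (fun j _ => ?_)
      ⟨i, Finset.mem_univ _, h3 _ (Function.ne_iff.2 ⟨a, ha⟩)⟩
    by_cases h0 : blk z j = 0
    · simp [h0]
    · exact (h3 _ h0).le
  · simp only [hS, hI, hp, o3, zah_d8]
  · have e1 : ∀ i, blk (z + p' (rz m)) i = blk z i + p (rz (blk m i)) := fun i =>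
      congrArg (blk z i + ·) (hp (rz m) i)
    have e2 : ∀ (y : Fin 8 × Fin g → ℂ) i, blk (-y) i = -blk y i := fun _ _ => rfl
    have e3 : ∀ i, blk (p' (rz m)) i = p (rz (blk m i)) := fun i => hp (rz m) i
    simp only [e2, e1, ← Finset.prod_mul_distrib, h4, hS, e3, hI]
    rw [Finset.prod_mul_distrib, ← exp_sum]
    congr 2
    push_cast
    simp only [Finset.sum_div, Finset.mul_sum, ← Finset.sum_add_distrib, ← Finset.sum_sub_distrib]

end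

end Pool.Agent.RT
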