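import Pool.Agent.Lib.MP_e97e2b_nt.RT.Defs
import Pool.Agent.Lib.MP_33b3f9_ag.M4.ThId

/-! From a symmetric uniformisation to the data of the descent. -/

set_option autoImplicit false

namespace Pool.Agent.RT

open Matrix Polynomial RG RG.B2
open _root_.M4 (InH Hol U rz XX bz ee E Th hf Gam)
open _root_.M4.B2 (psi kk res cj norm_aut IsFrob OO)
open _root_.M4.Un (Rv Ty Gr)

noncomputable section

section gen

open Complex
open scoped Real
open _root_.M4 (per cst fa fb per_add per_smul per_cst per_bijective thid_re thid_im)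

variable {ι : Type} [Fintype ι]

theorem zda_sym {A : Matrix ι ι ℝ} (h : Aᵀ = A) (u v : ι → ℝ) :
    u ⬝ᵥ A *ᵥ v = (A *ᵥ u) ⬝ᵥ v := by
  rw [dotProduct_mulVec, ← vecMul_transpose, h]

theorem zda_E (x y : ι ⊕ ι → ℝ) :
    E x y = (x ∘ Sum.inl) ⬝ᵥ (y ∘ Sum.inr) - (x ∘ Sum.inr) ⬝ᵥ (y ∘ Sum.inl) := by
  simp [E, dotProduct]

variable [DecidableEq ι] {τ : Matrix ι ι ℂ}

theorem zda_form (hτ : InH τ) (x y : ι ⊕ ι → ℝ) : E (cst τ *ᵥ x) y =
    (y ∘ Sum.inl) ⬝ᵥ τ.map im *ᵥ (x ∘ Sum.inl) + (τ.map re *ᵥ (y ∘ Sum.inl) + y ∘ Sum.inr) ⬝ᵥ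
      (τ.map im)⁻¹ *ᵥ (τ.map re *ᵥ (x ∘ Sum.inl) + x ∘ Sum.inr) := by
  have h : (τ.map re)ᵀ = τ.map re := by rw [← transpose_map, hτ.1.eq]
  rw [zda_E, dotProduct_comm, dotProduct_comm _ (y ∘ Sum.inl), cst, fromBlocks_mulVec,
    Sum.elim_comp_inl, Sum.elim_comp_inr]
  simp only [neg_mulVec, add_mulVec, ← mulVec_mulVec, dotProduct_add, dotProduct_neg,
    zda_sym h, mulVec_add, add_dotProduct]
  ring

theorem zda_siegel {A : Matrix (ι ⊕ ι) (ι ⊕ ι) ℝ} (h1 : A * A = -1)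
    (h2 : ∀ x y, E (A *ᵥ x) y = E (A *ᵥ y) x) (h3 : ∀ x ≠ 0, 0 < E (A *ᵥ x) x) :
    ∃ τ : Matrix ι ι ℂ, InH τ ∧ cst τ = A := by
  obtain ⟨a, b, c, d, rfl⟩ : ∃ a b c d, A = fromBlocks a b c d :=
    ⟨_, _, _, _, (fromBlocks_toBlocks A).symm⟩
  have e1 : bᵀ = b := by
    ext i j
    simpa [E, Pi.single_apply] using h2 (Pi.single (.inr i) 1) (Pi.single (.inr j) 1)
  have e2 : d = -aᵀ := by
    ext i j
    have := h2 (Pi.single (.inl i) 1) (Pi.single (.inr j) 1)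
    simp [E, Pi.single_apply] at this
    simp [this]
  have hb : b.PosDef := PosDef.of_dotProduct_mulVec_pos e1 fun x hx => by
    have := h3 (Sum.elim 0 x) fun h => hx (funext fun i => congrFun h (.inr i))
    simpa [zda_E, fromBlocks_mulVec, dotProduct_comm] using this
  have hd : IsUnit b.det := hb.det_pos.ne'.isUnit
  rw [fromBlocks_multiply, ← fromBlocks_one, fromBlocks_neg, e2] at h1
  obtain ⟨k1, k2, -, -⟩ := fromBlocks_inj.1 h1
  have k3 : b⁻¹ * a * b = aᵀ := by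
    rw [Matrix.mul_assoc, show a * b = b * aᵀ by
      rw [Matrix.mul_neg, neg_zero] at k2; exact add_neg_eq_zero.1 k2,
      nonsing_inv_mul_cancel_left _ _ hd]
  have k4 : (b⁻¹ * a)ᵀ = b⁻¹ * a := by
    rw [transpose_mul, transpose_nonsing_inv, e1, ← k3, mul_nonsing_inv_cancel_right _ _ hd]
  set τ : Matrix ι ι ℂ := Matrix.of fun i j => (⟨(b⁻¹ * a) i j, b⁻¹ i j⟩ : ℂ)
  have t1 : τ.map re = b⁻¹ * a := rfl
  have t2 : τ.map im = b⁻¹ := rfl
  refine ⟨τ, ⟨Matrix.ext fun i j => Complex.ext (congrFun (congrFun k4 i) j)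
    (congrFun (congrFun (show b⁻¹ᵀ = b⁻¹ by rw [transpose_nonsing_inv, e1]) i) j), hb.inv⟩, ?_⟩
  rw [cst, t1, t2, nonsing_inv_nonsing_inv _ hd, mul_nonsing_inv_cancel_left _ _ hd, k3, e2, ← k3,
    Matrix.mul_assoc _ b, mul_nonsing_inv_cancel_left _ _ hd, Matrix.mul_assoc,
    eq_sub_of_add_eq k1, Matrix.mul_sub, nonsing_inv_mul_cancel_left _ _ hd]
  simp

variable {c : Type} [Fintype c]

theorem zda_hol (hτ : InH τ) (m : ℝ) {r : (ι ⊕ ι → ℝ) →ₗ[ℝ] (c → ℂ)}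
    (hr : ∀ w, r (cst τ *ᵥ w) = I • r w) {f : (c → ℂ) → ℂ} (hf : Differentiable ℂ f) :
    (fun w => cexp (-(π / 2 * (m * E (cst τ *ᵥ w) w) : ℝ)) * f (r w)) ∈ Hol τ m := by
  have hd : IsUnit (τ.map im).det := hτ.2.det_pos.ne'.isUnit
  set B := (τ.map im)⁻¹ with hB
  refine ⟨fun z => cexp (-(π / 2 * m * ∑ i, ∑ j, z i * (B i j * z j))) *
    f (∑ i, z i • r (Pi.single (.inr i) 1)), by fun_prop, fun w => ?_⟩
  have h1 (b : ι → ℝ) : per τ (Sum.elim 0 b) = fun i => (b i : ℂ) := by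
    ext i; simp [per, fa, fb, mulVec, dotProduct]
  have h2 (b : ι → ℝ) : r (Sum.elim 0 b) = ∑ i, (b i : ℂ) • r (Pi.single (.inr i) 1) := by
    simp only [Complex.coe_smul, ← map_smul, ← map_sum]
    congr 1
    ext (i | i) <;> simp [Pi.single_apply]
  have h3 : w = Sum.elim (0 : ι → ℝ) (re ∘ per τ w) + cst τ *ᵥ Sum.elim 0 (im ∘ per τ w) :=
    (per_bijective hτ).1 (by rw [per_add, per_cst hτ, h1, h1]; ext i; simp [mul_comm I])
  have h4 : ∑ i, per τ w i • r (Pi.single (.inr i) 1) = r w := by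
    conv_rhs => rw [h3, map_add, hr, h2, h2, Finset.smul_sum, ← Finset.sum_add_distrib]
    exact Finset.sum_congr rfl fun i _ => by rw [smul_smul, ← add_smul]; simp [mul_comm I]
  beta_reduce
  rw [h4, ← mul_assoc (ee _), ee, ← Complex.exp_add, zda_form hτ, ← thid_re, ← thid_im]
  have h5 : w ∘ Sum.inl = B *ᵥ (im ∘ per τ w) := by
    rw [thid_im, mulVec_mulVec, nonsing_inv_mul _ hd, one_mulVec]
  have h6 : Bᵀ = B := by rw [hB, transpose_nonsing_inv, ← transpose_map, hτ.1.eq]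
  have h7 : ∑ i, ∑ j, per τ w i * (B i j * per τ w j) =
      ((re ∘ per τ w) ⬝ᵥ B *ᵥ (re ∘ per τ w) - (im ∘ per τ w) ⬝ᵥ B *ᵥ (im ∘ per τ w) : ℝ) +
      ((re ∘ per τ w) ⬝ᵥ B *ᵥ (im ∘ per τ w) + (im ∘ per τ w) ⬝ᵥ B *ᵥ (re ∘ per τ w) : ℝ) * I :=
    Complex.ext (by simp [dotProduct, mulVec, Finset.mul_sum, -ofReal_sum])
      (by simp [dotProduct, mulVec, Finset.mul_sum, Finset.sum_add_distrib, -ofReal_sum])
  have h8 : fa w ⬝ᵥ per τ w = ((w ∘ Sum.inl) ⬝ᵥ (re ∘ per τ w) : ℝ) +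
      ((w ∘ Sum.inl) ⬝ᵥ (im ∘ per τ w) : ℝ) * I :=
    Complex.ext (by simp [dotProduct, fa, -ofReal_sum]) (by simp [dotProduct, fa, -ofReal_sum])
  rw [h7, h8, h5, zda_sym h6 (im ∘ per τ w) (re ∘ per τ w), dotProduct_comm (B *ᵥ _),
    dotProduct_comm (B *ᵥ _)]
  congr 2
  push_cast
  linear_combination (-π * m * ((im ∘ per τ w) ⬝ᵥ B *ᵥ (im ∘ per τ w) : ℝ) : ℂ) * I_sq

theorem zda_lin (hτ : InH τ) {q : (ι ⊕ ι → ℝ) ≃ₗ[ℝ] (c → ℂ)}
    (hq : ∀ w, q (cst τ *ᵥ w) = I • q w) : Differentiable ℂ fun z => per τ (q.symm z) := by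
  have a1 : ∀ z w, per τ (q.symm (z + w)) = per τ (q.symm z) + per τ (q.symm w) := fun z w => by
    rw [map_add, per_add]
  have a2 : ∀ (t : ℝ) z, per τ (q.symm ((t : ℂ) • z)) = (t : ℂ) • per τ (q.symm z) :=
    fun t z => by rw [Complex.coe_smul, map_smul, per_smul]
  have a3 : ∀ z, per τ (q.symm (I • z)) = I • per τ (q.symm z) := fun z => by
    obtain ⟨x, rfl⟩ := q.surjective z
    rw [← hq, q.symm_apply_apply, q.symm_apply_apply, per_cst hτ]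
  let L : (c → ℂ) →ₗ[ℂ] (ι → ℂ) :=
    { toFun := fun z => per τ (q.symm z)
      map_add' := a1
      map_smul' := fun t z => by
        rw [← re_add_im t, RingHom.id_apply, add_smul, add_smul, mul_smul, mul_smul, a1, a2, a2,
          a3] }
  exact L.toContinuousLinearMap.differentiable

omit [Fintype c] in
theorem zda_tau {q : (ι ⊕ ι → ℝ) ≃ₗ[ℝ] (c → ℂ)} {S : (c → ℂ) →ₗ[ℝ] (c → ℂ) →ₗ[ℝ] ℝ}
    (s1 : ∀ z z', S z z' = S z' z) (s2 : ∀ z z', S (I • z) (I • z') = S z z')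
    (s3 : ∀ z ≠ 0, 0 < S z z) {t : ℝ} (ht : 0 < t) (hE : ∀ x y, E x y = t * S (I • q y) (q x)) :
    ∃ τ : Matrix ι ι ℂ, InH τ ∧ ∀ w, q (cst τ *ᵥ w) = I • q w := by
  obtain ⟨A, hA⟩ : ∃ A : Matrix (ι ⊕ ι) (ι ⊕ ι) ℝ, ∀ w, q (A *ᵥ w) = I • q w :=
    ⟨LinearMap.toMatrix' (q.symm.toLinearMap ∘ₗ
      ((LinearMap.lsmul ℂ (c → ℂ) I).restrictScalars ℝ) ∘ₗ q.toLinearMap), fun w => by
        rw [LinearMap.toMatrix'_mulVec]; exact q.apply_symm_apply _⟩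
  obtain ⟨τ, h1, rfl⟩ := zda_siegel (A := A)
    (Matrix.toLin'.injective (LinearMap.ext fun w => q.injective (by
      rw [toLin'_apply, toLin'_apply, ← mulVec_mulVec, hA, hA, smul_smul, I_mul_I, neg_one_smul,
        neg_mulVec, one_mulVec, map_neg])))
    (fun x y => by rw [hE, hE, hA, hA, s1])
    fun x hx => by rw [hE, hA, s2]; exact mul_pos ht (s3 _ (q.map_ne_zero_iff.2 hx))
  exact ⟨τ, h1, hA⟩

end gen

theorem zda_eqv {a b : Type} [Fintype a] [DecidableEq a] [Fintype b] [DecidableEq b]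
    {G : Matrix a b ℤ} {H : Matrix b a ℤ} {D : ℕ} (hD : D ≠ 0) (h1 : G * H = (D : ℤ) • 1)
    (h2 : H * G = (D : ℤ) • 1) :
    ∃ g : (b → ℝ) ≃ₗ[ℝ] (a → ℝ), ∀ x, g x = G.map (Int.cast : ℤ → ℝ) *ᵥ x := by
  have hD' : (D : ℝ) ≠ 0 := Nat.cast_ne_zero.2 hD
  have k1 : G.map (Int.cast : ℤ → ℝ) * H.map (Int.cast : ℤ → ℝ) = (D : ℝ) • 1 := by
    refine (Matrix.map_mul (f := Int.castRingHom ℝ)).symm.trans ?_
    rw [h1]
    ext i j
    simp [one_apply, Matrix.natCast_apply]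
  have k2 : H.map (Int.cast : ℤ → ℝ) * G.map (Int.cast : ℤ → ℝ) = (D : ℝ) • 1 := by
    refine (Matrix.map_mul (f := Int.castRingHom ℝ)).symm.trans ?_
    rw [h2]
    ext i j
    simp [one_apply, Matrix.natCast_apply]
  refine ⟨LinearEquiv.ofLinearMap (mulVecLin (G.map Int.cast))
    (mulVecLin ((D : ℝ)⁻¹ • H.map Int.cast)) ?_ ?_, fun x => rfl⟩
  · rw [← mulVecLin_mul, Matrix.mul_smul, k1, inv_smul_smul₀ hD', mulVecLin_one]
  · rw [← mulVecLin_mul, Matrix.smul_mul, k2, inv_smul_smul₀ hD', mulVecLin_one]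

variable {K : IntermediateField ℚ ℂ}

open Complex
open scoped Real
open _root_.M4 (per cst entire_of_ratio ee_nat_mul)
open _root_.M4.Un (s_hom)

theorem z_da [Dim] {m c α : Type} [Fintype m] [DecidableEq m] [Fintype c] [Fintype α]
    {p : (m → ℝ) ≃ₗ[ℝ] (c → ℂ)} {w : (c → ℂ) → α → ℂ} {S : (c → ℂ) →ₗ[ℝ] (c → ℂ) →ₗ[ℝ] ℝ}
    (h : Sy K p w S) {G : Matrix ν m ℤ} {H : Matrix m ν ℤ} {N D : ℕ} (hN : N ≠ 0) (hD : D ≠ 0)
    (h1 : G * H = (D : ℤ) • 1) (h2 : H * G = (D : ℤ) • 1)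
    (hE : ∀ a b, E (G.map (Int.cast : ℤ → ℝ) *ᵥ a) (G.map (Int.cast : ℤ → ℝ) *ᵥ b) =
      (N : ℝ) ^ 2 * S (Complex.I • p b) (p a)) :
    ∃ (τ : Mat) (v : α → (ν → ℝ) → ℂ),
      Da K τ (G.mulVecLin.range).toAddSubgroup D (((N : ℝ) ^ 2)⁻¹) v ∧ ∀ (σ : GK K) x y,
        Rv v σ (G.map (Int.cast : ℤ → ℝ) *ᵥ x) (G.map (Int.cast : ℤ → ℝ) *ᵥ y) ↔ RA p w σ x y := by
  obtain ⟨g, hg⟩ := zda_eqv hD h1 h2
  simp only [← hg] at hE ⊢
  have hN' : (0 : ℝ) < (N : ℝ) ^ 2 := by positivity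
  set q := g.symm.trans p with hq
  have g5 (x) : q (g x) = p x := congrArg p (g.symm_apply_apply x)
  have hE' (x y) : E x y = (N : ℝ) ^ 2 * S (I • q y) (q x) := by
    obtain ⟨x, rfl⟩ := g.surjective x
    obtain ⟨y, rfl⟩ := g.surjective y
    rw [hE, g5, g5]
  obtain ⟨τ, hτ, ht⟩ := zda_tau h.sym h.cx h.pos hN' hE'
  set μ : ℝ := ((N : ℝ) ^ 2)⁻¹ with hμ
  have g4 (x y) : μ * E x y = S (I • q y) (q x) := by rw [hE', inv_mul_cancel_left₀ hN'.ne']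
  have g6 (x) : μ * E (cst τ *ᵥ x) x = S (q x) (q x) := by rw [g4, ht, h.cx]
  have gz (n : m → ℤ) : g (rz n) = rz (G *ᵥ n) := by
    rw [hg]
    funext i
    simp [rz, mulVec, dotProduct]
  obtain ⟨γ, hγ⟩ : ∃ γ : (c → ℂ) → ℂ, ∀ z, γ z = cexp (-(π / 2 * S z z : ℝ)) := ⟨_, fun _ => rfl⟩
  have γ0 (z) : γ z ≠ 0 := by rw [hγ]; exact exp_ne_zero _
  obtain ⟨v, hvu⟩ : ∃ v : α → (ν → ℝ) → ℂ, ∀ a x, v a x = γ (q x) * w (q x) a :=
    ⟨fun a x => _, fun _ _ => rfl⟩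
  have hv (a) : v a ∈ Hol τ μ := by
    have := zda_hol hτ μ (r := q.toLinearMap) ht (h.hol a)
    rwa [show v a = _ from funext fun x => by rw [hvu, hγ, ← g6]]
  have nz (x) : ∃ a, v a x ≠ 0 := by
    obtain ⟨a, ha⟩ := Function.ne_iff.1 (h.nz (q x))
    exact ⟨a, by rw [hvu]; exact mul_ne_zero (γ0 _) ha⟩
  have hR (σ : GK K) (x y) : Rv v σ (g x) (g y) ↔ RA p w σ x y := by
    have k1 := (map_ne_zero σ).2 (γ0 (p x))
    have k2 := γ0 (p y)
    refine ⟨fun ⟨d, hd⟩ => ⟨d * γ (p y) / σ (γ (p x)), fun a => ?_⟩,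
      fun ⟨d, hd⟩ => ⟨σ (γ (p x)) * d / γ (p y), fun a => ?_⟩⟩
    · have k3 := hd a
      rw [hvu, hvu, g5, g5, map_mul] at k3
      field_simp
      linear_combination k3
    · rw [hvu, hvu, g5, g5, map_mul, hd]
      field_simp
  refine ⟨τ, v, ⟨hτ, hD, fun n => ⟨H *ᵥ n, ?_⟩, hv, nz, ?_, fun σ x => ?_,
    fun σ a a' b b' k1 k2 => ?_, fun σ x a b k1 k2 => ?_, fun k f hf hft x₀ => ?_⟩, hR⟩
  · rw [mulVecLin_apply, mulVec_mulVec, h1, smul_mulVec, one_mulVec]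
  · rintro _ ⟨n, rfl⟩ a
    funext x
    have k1 := congrFun (h.law n (q x)) a
    have k2 : cexp (2 * π * I * (S (I • q x) (p (rz n)) / 2)) * cexp (-(π / 2 * S (q x + p (rz n))
        (q x + p (rz n)) : ℝ)) * cexp (π * (S (p (rz n)) (p (rz n)) / 2 + S (q x) (p (rz n)) -
          I * S (I • q x) (p (rz n)))) = cexp (-(π / 2 * S (q x) (q x) : ℝ)) := by
      simp only [← Complex.exp_add, map_add, LinearMap.add_apply, h.sym (p (rz n)) (q x)]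
      congr 1
      push_cast
      ring
    rw [mulVecLin_apply, ← gz, U, ← ofReal_mul, g4, hvu, hvu, map_add, g5, k1, hγ, hγ, ee,
      Pi.smul_apply, smul_eq_mul]
    linear_combination w (q x) a * k2
  · obtain ⟨x, rfl⟩ := g.surjective x
    obtain ⟨x', hx⟩ := (h.gr σ).ex x
    exact ⟨_, (hR σ x x').2 hx⟩
  · obtain ⟨a, rfl⟩ := g.surjective a
    obtain ⟨a', rfl⟩ := g.surjective a'
    obtain ⟨b, rfl⟩ := g.surjective b
    obtain ⟨b', rfl⟩ := g.surjective b'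
    rw [← map_sub, ← map_sub]
    exact (hR σ _ _).2 ((h.gr σ).sub _ _ _ _ ((hR σ _ _).1 k1) ((hR σ _ _).1 k2))
  · obtain ⟨x, rfl⟩ := g.surjective x
    obtain ⟨a, rfl⟩ := g.surjective a
    obtain ⟨b, rfl⟩ := g.surjective b
    obtain ⟨n, hn⟩ := (h.gr σ).un _ _ _ ((hR σ _ _).1 k1) ((hR σ _ _).1 k2)
    exact ⟨_, ⟨n, rfl⟩, by rw [← map_sub, hn, gz, mulVecLin_apply]⟩
  · obtain ⟨T, hT, eT⟩ := hf
    choose A hA eA using hv
    have hL := zda_lin hτ ht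
    have hs : Differentiable ℂ fun z => f (q.symm z) / γ z ^ k := by
      refine entire_of_ratio (F := fun a z => T (per τ (q.symm z)) * w z a ^ k)
        (G := fun a z => A a (per τ (q.symm z)) ^ k)
        (fun a => (hT.comp hL).mul ((h.hol a).pow k)) (fun a => ((hA a).comp hL).pow k)
        (fun z => ?_) fun a z => ?_
      · obtain ⟨a, ha⟩ := nz (q.symm z)
        rw [eA] at ha
        exact ⟨a, pow_ne_zero k (right_ne_zero_of_mul ha)⟩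
      · have k1 := congrArg (· ^ k) ((hvu a (q.symm z)).symm.trans (eA a _))
        have k2 := γ0 z
        simp only [mul_pow, q.apply_symm_apply, ← ee_nat_mul] at k1
        rw [← mul_div_assoc, ← mul_assoc, ← ofReal_natCast, ← ofReal_mul] at k1
        rw [eT]
        field_simp
        linear_combination T (per τ (q.symm z)) * k1
    obtain ⟨e, P, Q, hP, hQ, k1, k2⟩ := h.rat k _ hs (fun z z' d hd => by
      have k3 := γ0 z
      have k4 := γ0 z'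
      rw [hft (q.symm z) (q.symm z') (γ z * d / γ z') fun a => by
          rw [hvu, hvu, q.apply_symm_apply, q.apply_symm_apply, hd, Pi.smul_apply, smul_eq_mul]
          field_simp, div_pow, mul_pow]
      field_simp) (q x₀)
    refine ⟨e, P, Q, hP, hQ, ?_, fun x => ?_⟩
    · simp only [hvu]
      rw [s_hom hQ]
      exact mul_ne_zero (pow_ne_zero e (γ0 _)) k1
    · have k3 := k2 (q x)
      simp only [hvu]
      rw [s_hom hQ, s_hom hP]
      rw [q.symm_apply_apply, div_mul_eq_mul_div, div_eq_iff (pow_ne_zero k (γ0 _))] at k3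
      linear_combination γ (q x) ^ e * k3

end

end Pool.Agent.RT
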