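import Pool.Agent.Lib.MP_e97e2b_nt.RT.ZPair

/-! The conjugation preserves the adelic sections of level four. -/

set_option autoImplicit false

namespace Pool.Agent.RT

open Matrix RG RG.B2
open _root_.M4 (InH Hol Gam U rz ee E U_apply U_smul U_scale rz_smul E_rz E_smul_left)
open _root_.M4.B2 (Af Zh qA psi psi_ne psi_nsmul psi_add psi_neg psi_zero)
open _root_.M4.Un (Rv Rc Ty Cj cj_pow const_of_lat)

noncomputable section

variable [Dim] {K : IntermediateField ℚ ℂ} {α : Type} {τ : Mat} {Λ : AddSubgroup (ν → ℤ)} {D : ℕ}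
  {m : ℝ} {v : α → (ν → ℝ) → ℂ} {k : ℕ} {σ : GK K} {f g : (ν → ℝ) → ℂ} {a a' : ν → ℝ}

/-- The pull-back along a multiplication. -/
def zfSc (M : ℕ) (f : (ν → ℝ) → ℂ) : (ν → ℝ) → ℂ := fun w => f ((M : ℝ) • w)

/-- The adelic extension of the pull-back along the multiplication by `D`. -/
def zfEx (D j : ℕ) (f : (ν → ℝ) → ℂ) : VA → ℂ := ext (D ^ 2 * j) (zfSc D f)

theorem zf_U (M : ℕ) {μ μ' : ℝ} (h : μ' = μ * (M : ℝ) ^ 2) (y : ν → ℝ) (f : (ν → ℝ) → ℂ) :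
    U μ' y (zfSc M f) = zfSc M (U μ ((M : ℝ) • y) f) := h ▸ U_scale M μ y f

theorem zf_adm {N : ℕ} (hN : N ≠ 0) {q : ν → ℚ} (hq : N • qV q ∈ TA) {μ c : ℝ} (h : μ * c = N) :
    Adm Λ μ (c • rQ q) := fun n _ => by
  obtain ⟨l, hl⟩ := exists_div hN hq
  obtain ⟨j, hj⟩ := E_rz l n
  refine ⟨j, ?_⟩
  rw [hl, E_smul_left, E_smul_left, ← mul_assoc, h, mul_inv_cancel_left₀ (Nat.cast_ne_zero.2 hN), hj]

theorem zf_smul (c : ℂ) (j : ℕ) : zfEx D j (c • f) = c • zfEx D j f := ext_smul _ c (zfSc D f)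

namespace Da

variable (h : Da K τ Λ D m v)
include h

theorem nsm (h1 : Rv v σ a a') (n : ℕ) : Rv v σ ((n : ℝ) • a) ((n : ℝ) • a') := by
  induction n with
  | zero => simpa using h.zero σ
  | succ n ih => simpa [add_smul] using h.add ih h1

theorem sc_ty (ht : Ty v k f) (M : ℕ) : Ty v (k * M ^ 2) (zfSc M f) := h.ty_iff.2 fun n hn => by
  rw [zf_U M (μ := k * m) (by push_cast; ring), ← Int.cast_natCast M, ← rz_smul,
    h.ty_iff.1 ht _ (Λ.zsmul_mem hn M)]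

theorem sc_hol (M : ℕ) (i : α) : zfSc M (v i ^ k) ∈ Hol τ ((k * M ^ 2 : ℕ) * m) := by
  rw [show ((k * M ^ 2 : ℕ) : ℝ) * m = k * m * (M : ℝ) ^ 2 by push_cast; ring]
  exact M4.Hol.scale (h.hol_pow k i) M

theorem sc_cj (σ : GK K) (k M : ℕ) :
    ∃ κ : ℂ, ∀ i, Cj v (k * M ^ 2) σ (zfSc M (v i ^ k)) (κ • zfSc M (v i ^ k)) := by
  choose s c hc using h.ex' σ
  choose d hd using fun w' => h.nsm ⟨_, hc w'⟩ M
  have hT := fun i => h.sc_ty (zp_ty_pow (k := k) i) M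
  choose t ht1 ht2 ht3 using fun i => h.cj_ex σ (h.sc_hol M i) (hT i)
  obtain ⟨r, key⟩ : ∃ r : (ν → ℝ) → ℂ, ∀ i w, t i w = r w * zfSc M (v i ^ k) w :=
    ⟨fun w => d w ^ k / c w ^ (k * M ^ 2), fun i w => by
      have h3 := ht3 i _ _ _ (hc w)
      have h4 := (hc w).ne h.nz
      rw [zfSc, cj_pow i _ _ _ (hd w)] at h3
      rw [zfSc]
      field_simp
      linear_combination -h3⟩
  have hnz : ∀ w, ∃ i, zfSc M (v i ^ k) w ≠ 0 := fun w =>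
    (h.nz ((M : ℝ) • w)).imp fun _ hi => pow_ne_zero k hi
  have hr : r ∈ Hol τ 0 := M4.Hol.of_ratio h.inH (m := (k * M ^ 2 : ℕ) * m) (f := t)
    (fun i => by simpa using ht1 i) (h.sc_hol M) hnz key
  have hconst := const_of_lat h.inH h.D0 hr fun x n => by
    have he := h.shift (h.mem n) x
    obtain ⟨i, hi⟩ := hnz (x + rz ((D : ℤ) • n))
    refine mul_right_cancel₀ hi ?_
    rw [← key, ht2 i _ _ _ he, key, hT i _ _ _ he, mul_left_comm]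
  refine ⟨r 0, fun i => ?_⟩
  rw [← show t i = r 0 • zfSc M (v i ^ k) from funext fun w => by
    rw [key, hconst w, Pi.smul_apply, smul_eq_mul]]
  exact ht3 i

variable (hk : k * m = 4)
include hk

theorem per {j : ℕ} (ht : Ty v (k * j) f) : Per (D ^ 2 * j) (zfSc D f) := fun l => by
  rw [zf_U D (μ := (k * j : ℕ) * m) (by push_cast; linear_combination -(j * D ^ 2 : ℝ) * hk),
    ← Int.cast_natCast D, ← rz_smul, h.ty_iff.1 ht _ (h.mem l)]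

theorem op {M : ℕ} (ht : Ty v (k * 1) f) {q : ν → ℚ} {t : VA} (h1 : t ∈ TA)
    (h2 : (4 * M ^ 2 * D) • qV q ∈ TA) (z : VA) :
    zfEx D (M ^ 2) (U ((k * 1 * M ^ 2 : ℕ) * m) ((D : ℝ) • rQ q) (zfSc M f)) z =
      psi ((2 * (D ^ 2 * M ^ 2) : ℕ) * EB t (qV q)) * psi ((2 * (D ^ 2 * M ^ 2) : ℕ) *
        EB (qV q + t) z) * zfEx D 1 f (M • (z + (qV q + t))) := by
  have h3 : Per (D ^ 2 * M ^ 2) (zfSc D (zfSc M f)) := h.per hk (by simpa using h.sc_ty ht M)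
  have h4 := congrFun (UA_ext h3 h1 (by
    rw [show 4 * (D ^ 2 * M ^ 2) = D * (4 * M ^ 2 * D) by ring, mul_smul]
    exact TA.nsmul_mem h2 D)) z
  have h5 := ext_scale (h.per hk ht) M (z + (qV q + t))
  rw [Int.natAbs_natCast, mul_one, natCast_zsmul, show (fun x => zfSc D f (((M : ℤ) : ℝ) • x)) =
    zfSc D (zfSc M f) from funext fun x => by simp [zfSc, smul_comm (M : ℝ)]] at h5
  rw [UA_apply, h5, zf_U D (μ := (k * 1 * M ^ 2 : ℕ) * m)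
    (by push_cast; linear_combination -(M ^ 2 * D ^ 2 : ℝ) * hk), Pi.smul_apply, psi_neg,
    smul_eq_mul] at h4
  rw [mul_assoc (psi _), zfEx, zfEx, mul_one (D ^ 2), h4, mul_inv_cancel_left₀ (psi_ne _)]

variable {R : ∀ l : Nat.Primes, GL ν ℤ_[l]} (hR : ∀ q q' : ν → ℚ,
  (∃ t ∈ TA, rho R (qV q) - qV q' = D • t) → Rv v σ (rQ q) (rQ q'))
include hR

omit h hk in
theorem rel {q q' : ν → ℚ} {t t' : VA} (h1 : t ∈ TA) (h2 : t' ∈ TA)
    (e : rho R (qV q + t) = qV q' + t') : Rv v σ ((D : ℝ) • rQ q) ((D : ℝ) • rQ q') := by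
  have h3 := hR ((D : ℚ) • q) ((D : ℚ) • q') ⟨t' - rho R t, TA.sub_mem h2 ((rho_mem_TA R).2 h1), by
    rw [map_add] at e
    rw [qV_smul, qV_smul, Nat.cast_smul_eq_nsmul, Nat.cast_smul_eq_nsmul, map_nsmul, ← nsmul_sub,
      eq_sub_of_add_eq e]
    congr 1
    abel⟩
  rwa [rQ_smul, rQ_smul, Rat.cast_natCast] at h3

theorem mu_ex (z : VA) : ∃ μ : ℂ, μ ≠ 0 ∧ ∀ j f g, Ty v (k * j) f → Ty v (k * j) g →
    Cj v (k * j) σ f g → σ (zfEx D j f z) = μ ^ j * zfEx D j g (rho R z) := by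
  obtain ⟨q, t, ht, rfl⟩ := exists_split z
  obtain ⟨q', t', ht', e⟩ := exists_split (rho R (qV q + t))
  obtain ⟨c, hc⟩ := rel hR ht ht' e
  refine ⟨σ (psi (-((2 * D ^ 2 : ℕ) * EB t (qV q)))) * c ^ k /
    psi (-((2 * D ^ 2 : ℕ) * EB t' (qV q'))), div_ne_zero (mul_ne_zero
      ((map_ne_zero σ).2 (psi_ne _)) (pow_ne_zero _ (hc.ne h.nz))) (psi_ne _),
    fun j f g h1 h2 h3 => ?_⟩
  have h4 : ∀ x : Af, psi (-((2 * (D ^ 2 * j) : ℕ) * x)) = psi (-((2 * D ^ 2 : ℕ) * x)) ^ j :=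
    fun x => by
      rw [← psi_nsmul]
      congr 1
      push_cast
      ring
  have h5 := psi_ne (-((2 * D ^ 2 : ℕ) * EB t' (qV q')))
  rw [e, zfEx, zfEx, ext_eq (h.per hk h1) q ht, ext_eq (h.per hk h2) q' ht', h4, h4, map_mul,
    map_pow, zfSc, zfSc, h3 _ _ _ hc, div_pow, mul_pow, pow_mul]
  field_simp

theorem mu_key {μ : VA → ℂ} (hμ : ∀ z j f g, Ty v (k * j) f → Ty v (k * j) g →
    Cj v (k * j) σ f g → σ (zfEx D j f z) = μ z ^ j * zfEx D j g (rho R z)) {M : ℕ} (hM : M ≠ 0)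
    {β : VA} (hβ : M • β ∈ TA) : ∃ κ : ℂ, ∀ z,
      σ (psi ((2 * D ^ 2 : ℕ) * EB β z)) * μ (z + β) =
        κ * μ ((M : ℚ)⁻¹ • z) ^ M ^ 2 * psi ((2 * D ^ 2 : ℕ) * EB (rho R β) (rho R z)) := by
  have hM' : (M : ℚ) ≠ 0 := Nat.cast_ne_zero.2 hM
  have hs : ∀ x : VA, M • (M : ℚ)⁻¹ • x = x := fun x => by
    rw [← Nat.cast_smul_eq_nsmul ℚ, smul_inv_smul₀ hM']
  obtain ⟨β, rfl⟩ : ∃ b, M • b = β := ⟨_, hs β⟩
  obtain ⟨q, t, ht, rfl⟩ := exists_split β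
  obtain ⟨q', t', ht', e⟩ := exists_split (rho R (qV q + t))
  have h1 : (4 * M ^ 2 * D) • (qV q + t) ∈ TA := by
    rw [show 4 * M ^ 2 * D = 4 * D * (M * M) by ring, mul_smul, mul_smul M]
    exact TA.nsmul_mem hβ _
  have h2 := (rho_mem_TA R).2 h1
  rw [map_nsmul, e] at h2
  have h3 : ((k * 1 * M ^ 2 : ℕ) : ℝ) * m * D = (4 * M ^ 2 * D : ℕ) := by
    push_cast
    linear_combination (M ^ 2 * D : ℝ) * hk
  have h0 : 4 * M ^ 2 * D ≠ 0 := mul_ne_zero (by positivity) h.D0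
  have a1 : Adm Λ _ _ := zf_adm h0 (split_mem ht h1) h3
  have a2 : Adm Λ _ _ := zf_adm h0 (split_mem ht' h2) h3
  obtain ⟨x, -, hx⟩ := h.km_ex (rel hR ht ht' e) a1 a2
  obtain ⟨y, hy⟩ := h.sc_cj σ (k * 1) M
  have hT := fun i => h.sc_ty (zp_ty_pow (k := k * 1) i) M
  refine ⟨x * y * psi ((2 * (D ^ 2 * M ^ 2) : ℕ) * EB t' (qV q')) /
    σ (psi ((2 * (D ^ 2 * M ^ 2) : ℕ) * EB t (qV q))), fun z => ?_⟩
  obtain ⟨z, rfl⟩ : ∃ b, M • b = z := ⟨_, hs z⟩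
  obtain ⟨i, hi⟩ : ∃ i, zfEx D 1 (v i ^ (k * 1)) (rho R (M • (z + (qV q + t)))) ≠ 0 := by
    obtain ⟨p, u, hu, e1⟩ := exists_split (rho R (M • (z + (qV q + t))))
    refine (h.nz ((D : ℝ) • rQ p)).imp fun i hi => ?_
    rw [e1, zfEx, ext_eq (h.per hk (zp_ty_pow i)) p hu]
    exact mul_ne_zero (psi_ne _) (pow_ne_zero _ hi)
  have h4 := hx _ (h.sc_hol M i) (hT i) _ (hy i)
  have h5 := h.u_ty (hT i) a1
  have h6 := zp_ty_smul (h.u_ty (zp_ty_smul (hT i) y) a2) x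
  have e0 : k * 1 * M ^ 2 = k * M ^ 2 := by ring
  have h7 := hμ z (M ^ 2) _ _ ((congrArg (Ty v · _) e0).mp h5) ((congrArg (Ty v · _) e0).mp h6)
    ((congrArg (Cj v · σ _ _) e0).mp h4)
  have h8 : ∀ b c : VA, ((2 * D ^ 2 : ℕ) : Af) * EB (M • b) (M • c) =
      (2 * (D ^ 2 * M ^ 2) : ℕ) * EB b c := fun b c => by
    rw [nsmul_VA, nsmul_VA, EB_smul_left, EB_smul_right]
    push_cast
    ring
  have h9 := (map_ne_zero σ).2 (psi_ne ((2 * (D ^ 2 * M ^ 2) : ℕ) * EB t (qV q)))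
  have e1 : (M : ℚ)⁻¹ • M • z = z := by
    rw [← Nat.cast_smul_eq_nsmul ℚ, inv_smul_smul₀ hM']
  rw [U_smul, zf_smul, zf_smul, Pi.smul_apply, Pi.smul_apply, smul_eq_mul, smul_eq_mul,
    h.op hk (zp_ty_pow i) ht (split_mem ht h1),
    h.op hk (zp_ty_pow i) ht' (split_mem ht' h2), ← e, ← map_add, ← map_nsmul, map_mul, map_mul,
    hμ _ 1 _ _ (zp_ty_pow i) (zp_ty_pow i) (cj_pow i), pow_one] at h7
  rw [e1, h8, map_nsmul, map_nsmul, h8, ← nsmul_add]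
  field_simp
  apply mul_right_cancel₀ hi
  linear_combination h7

theorem mu_main : ∃ c : ℂ, (∀ x y, σ (psi (EB x y)) = psi (EB (rho R x) (rho R y))) ∧
    ∀ f g, Ty v (k * 1) f → Ty v (k * 1) g → Cj v (k * 1) σ f g →
      ∀ z, σ (zfEx D 1 f z) = c * zfEx D 1 g (rho R z) := by
  choose μ h0 hμ using h.mu_ex hk hR
  have h1 : ∀ M : ℕ, M ≠ 0 → ∃ κ : ℂ, ∀ z, μ z = κ * μ ((M : ℚ)⁻¹ • z) ^ M ^ 2 := fun M hM => by
    simpa using h.mu_key hk hR hμ hM (β := 0) (by simp)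
  have h2 : ∀ b z, σ (psi ((2 * D ^ 2 : ℕ) * EB b z)) * (μ (z + b) * μ 0) =
      μ z * μ b * psi ((2 * D ^ 2 : ℕ) * EB (rho R b) (rho R z)) := fun b z => by
    obtain ⟨M, hM, hb⟩ := exists_nsmul_mem_TA b
    obtain ⟨x, hx⟩ := h.mu_key hk hR hμ hM.ne' hb
    obtain ⟨y, hy⟩ := h1 M hM.ne'
    have h3 := hx 0
    have h4 := hy 0
    simp only [map_zero, EB_zero_right, mul_zero, psi_zero, map_one, one_mul, mul_one, zero_add,
      smul_zero] at h3 h4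
    rw [← mul_assoc, hx, hy z, h3]
    linear_combination (x * μ ((M : ℚ)⁻¹ • z) ^ M ^ 2 *
      psi ((2 * D ^ 2 : ℕ) * EB (rho R b) (rho R z))) * h4
  have h3 : ∀ x y, σ (psi (EB x y)) = psi (EB (rho R x) (rho R y)) := fun x y => by
    have h4 : ((4 * D ^ 2 : ℕ) : ℚ) ≠ 0 := Nat.cast_ne_zero.2 (by have := h.D0; positivity)
    obtain ⟨x, rfl⟩ : ∃ b, (4 * D ^ 2) • b = x := ⟨((4 * D ^ 2 : ℕ) : ℚ)⁻¹ • x, by
      rw [← Nat.cast_smul_eq_nsmul ℚ, smul_inv_smul₀ h4]⟩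
    have h5 : ∀ b c : VA, psi (EB ((4 * D ^ 2) • b) c) = psi ((2 * D ^ 2 : ℕ) * EB b c) ^ 2 :=
      fun b c => by
        rw [← psi_nsmul, nsmul_VA, EB_smul_left]
        congr 1
        push_cast
        ring
    have h6 := h2 x y
    have h7 := h2 y x
    have hn : ∀ a b : Af, a * -b = -(a * b) := fun a b => by ring
    rw [EB_swap x, EB_swap (rho R x), hn, hn, psi_neg, psi_neg, map_inv₀, add_comm,
      inv_mul_eq_iff_eq_mul₀ ((map_ne_zero σ).2 (psi_ne _))] at h7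
    rw [map_nsmul, h5, h5, map_pow]
    have h8 := psi_ne ((2 * D ^ 2 : ℕ) * EB (rho R x) (rho R y))
    rw [h7] at h6
    field_simp at h6
    apply mul_left_cancel₀ (mul_ne_zero (h0 x) (h0 y))
    linear_combination h6
  refine ⟨μ 0, h3, fun f g a1 a2 a3 z => ?_⟩
  obtain ⟨y, hy⟩ := h1 2 two_ne_zero
  obtain ⟨z, rfl⟩ : ∃ b : VA, b + b = z := ⟨(1 / 2 : ℚ) • z, by module⟩
  have h4 := h2 z z
  have h5 := hy (z + z)
  have h6 := hy 0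
  rw [show ((2 : ℕ) : ℚ)⁻¹ • (z + z) = z by module] at h5
  rw [smul_zero] at h6
  simp only [EB_self, mul_zero, psi_zero, map_one, one_mul, mul_one] at h4
  rw [hμ _ 1 f g a1 a2 a3, pow_one]
  congr 1
  apply mul_left_cancel₀ (mul_ne_zero (h0 (z + z)) (pow_ne_zero 3 (h0 0)))
  have h7 : μ z ^ 4 = (μ (z + z) * μ 0) ^ 2 := by rw [h4]; ring
  linear_combination -μ 0 * h7 + μ z ^ 4 * h6 - μ 0 ^ 4 * h5

end Da

omit [Dim] in
theorem z_fw [Dim] {α : Type} {τ : Mat} {Λ : AddSubgroup (ν → ℤ)} {D : ℕ} {m : ℝ}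
    {v : α → (ν → ℝ) → ℂ} (h : Da K τ Λ D m v) {k : ℕ} (hk : k * m = 4) (σ : GK K)
    (R : ∀ l : Nat.Primes, GL ν ℤ_[l]) (hR : ∀ q q' : ν → ℚ,
      (∃ t ∈ TA, rho R (qV q) - qV q' = D • t) → Rv v σ (rQ q) (rQ q')) :
    Fw τ σ.toRingEquiv R := by
  rintro _ ⟨f, hf, rfl⟩
  obtain ⟨c, h1, h2⟩ := h.mu_main hk hR
  have e : ((k * 1 : ℕ) : ℝ) * m = (4 * 1 : ℕ) := by simpa using hk
  have hT : Ty v (k * 1) f := h.ty_iff.2 fun n _ => by rw [e]; exact Per.of_mem hf n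
  obtain ⟨g, g1, g2, g3⟩ := h.cj_ex σ (e ▸ hf.1) hT
  rw [e] at g1
  replace g1 := (Hol τ _).smul_mem c g1
  obtain ⟨F, hF⟩ : ∃ F : VA → ℂ, ∀ x, F (rho R x) = σ (ext 1 f x) :=
    ⟨fun x => σ (ext 1 f ((rho R).symm x)), fun x =>
      congrArg (fun y => σ (ext 1 f y)) ((rho R).symm_apply_apply x)⟩
  have h3 : ∀ q, F (qV q) = (c • g) (rQ q) := fun q => by
    have h0 : (D : ℚ) ≠ 0 := Nat.cast_ne_zero.2 h.D0
    obtain ⟨q, rfl⟩ : ∃ p, (D : ℚ) • p = q := ⟨_, smul_inv_smul₀ h0 q⟩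
    obtain ⟨z, hz⟩ := (rho R).surjective (qV q)
    have h4 := ext_scale (Per.of_mem hf) D z
    have h5 := h2 f g hT g2 g3 z
    rw [Int.natAbs_natCast, one_mul, natCast_zsmul, Int.cast_natCast] at h4
    rw [hz, zfEx, zfEx, ext_qV (h.per hk g2), mul_one] at h5
    rw [qV_smul, Nat.cast_smul_eq_nsmul, ← hz, ← map_nsmul, hF, ← h4, rQ_smul, Rat.cast_natCast]
    exact h5
  have h4 : ∀ l ∈ TA, UA 1 l F = F := fun l hl => funext fun x => by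
    obtain ⟨x, rfl⟩ := (rho R).surjective x
    obtain ⟨l, rfl⟩ := (rho R).surjective l
    rw [UA_apply, ← map_add, hF, hF, psi_nsmul, ← h1, ← map_pow, ← map_mul, ← psi_nsmul,
      ← UA_apply, UA_ext_TA (Per.of_mem hf) ((rho_mem_TA R).1 hl)]
  have h5 : Per 1 (c • g) := fun l => eq_of_rQ (M4.Hol.continuous (h.u_hol g1 _))
    (M4.Hol.continuous g1) fun q => by
      rw [U_apply, ← rQ_zQ, ← psi_qV, ← rQ_add, ← h3, ← h3, qV_add, ← UA_apply, h4 _ (qV_zQ_mem l)]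
  refine ⟨c • g, mem_Gam_of_per g1 h5, funext fun x => ?_⟩
  obtain ⟨q, t, ht, e1⟩ := exists_split x
  have h6 := apply_add_of_UA (c := 1) ((h4 t ht).trans (one_smul _ _).symm) (qV q)
  rw [one_mul, h3, ← ext_eq h5 q ht, ← e1, ← (rho R).apply_symm_apply x, hF,
    (rho R).apply_symm_apply] at h6
  exact h6.symm

end

end Pool.Agent.RT
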