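import Mathlib

/-! A unimodular alternating form over the integers has a symplectic basis. -/

set_option autoImplicit false

namespace Pool.Agent.RT

open Matrix

theorem zl_aux {W : Type} [AddCommGroup W] [Module.Finite ℤ W] [Module.Free ℤ W]
    (B : W →ₗ[ℤ] W →ₗ[ℤ] ℤ) (ha : ∀ x y, B y x = -B x y)
    (hn : ∀ x ≠ 0, ∃ (d : ℤ) (a w : W), d ≠ 0 ∧ x = d • a ∧ B a w = 1) (k : ℕ)
    (hk : 2 * k ≤ Module.finrank ℤ W) :
    ∃ e f : Fin k → W, (∀ i j, B (e i) (e j) = 0) ∧ (∀ i j, B (f i) (f j) = 0) ∧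
      ∀ i j, B (e i) (f j) = if i = j then 1 else 0 := by
  have h0 (x) : B x x = 0 := by linarith [ha x x]
  induction k with
  | zero => exact ⟨0, 0, nofun, nofun, nofun⟩
  | succ k ih =>
    obtain ⟨e, f, h1, h2, h3⟩ := ih (by omega)
    obtain ⟨x, hx1, hx0⟩ := (Submodule.ne_bot_iff (LinearMap.ker
      (LinearMap.pi fun s : Fin k ⊕ Fin k => B (Sum.elim e f s)))).1 fun h => by
        have := LinearMap.finrank_le_finrank_of_injective (LinearMap.ker_eq_bot.1 h)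
        simp at this
        omega
    obtain ⟨d, a, w, hd, rfl, hw⟩ := hn x hx0
    have h4 (i) : B (e i) a = 0 := by simpa [hd] using congrFun hx1 (.inl i)
    have h5 (i) : B (f i) a = 0 := by simpa [hd] using congrFun hx1 (.inr i)
    set b := w - ∑ i, (B (e i) w • f i - B (f i) w • e i) with hb
    have h6 (i) : B (e i) b = 0 := by simp [hb, h1, h3]
    have h7 (i) : B (f i) b = 0 := by simp [hb, h2, ha (e _) (f i), h3]
    have h8 : B a b = 1 := by simp [hb, ha (e _) a, ha (f _) a, h4, h5, hw]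
    refine ⟨Fin.cons a e, Fin.cons b f, fun i j => ?_, fun i j => ?_, fun i j => ?_⟩ <;>
      induction i using Fin.cases <;> induction j using Fin.cases <;>
      simp [h0, h1, h2, h3, h4, h6, h7, h8, ha (e _) a, ha (f _) a, ha (f _) b, h5,
        (Fin.succ_ne_zero _).symm]

theorem zl_prim {m : Type} [Fintype m] (x : m → ℤ) (hx : x ≠ 0) :
    ∃ (d : ℤ) (a c : m → ℤ), d ≠ 0 ∧ x = d • a ∧ a ⬝ᵥ c = 1 := by
  obtain ⟨c, hc⟩ := Finset.gcd_eq_sum_mul Finset.univ x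
  choose a ha using fun i => Finset.gcd_dvd (f := x) (Finset.mem_univ i)
  have hd : Finset.univ.gcd x ≠ 0 := fun h => hx (funext fun i => by rw [ha i, h, zero_mul]; rfl)
  refine ⟨_, a, c, hd, funext ha, mul_left_cancel₀ hd ?_⟩
  rw [mul_one, dotProduct, Finset.mul_sum]
  exact (Finset.sum_congr rfl fun i _ => by rw [← mul_assoc, ← ha]).trans hc.symm

theorem zl_darb {ι : Type} [Fintype ι] [DecidableEq ι] {Ψ Φ : Matrix (ι ⊕ ι) (ι ⊕ ι) ℤ}
    (ha : Ψᵀ = -Ψ) (h : Ψ * Φ = 1) :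
    ∃ U V : Matrix (ι ⊕ ι) (ι ⊕ ι) ℤ, U * V = 1 ∧ V * U = 1 ∧ Uᵀ * -J ι ℤ * U = Ψ := by
  have h1 (x y : ι ⊕ ι → ℤ) : toLinearMap₂' ℤ Ψ y x = -toLinearMap₂' ℤ Ψ x y := by
    rw [toLinearMap₂'_apply', toLinearMap₂'_apply', dotProduct_mulVec, ← mulVec_transpose, ha,
      neg_mulVec, neg_dotProduct, dotProduct_comm]
  obtain ⟨e, f, h2, h3, h4⟩ := zl_aux (toLinearMap₂' ℤ Ψ) h1 (fun x hx => by
    obtain ⟨d, a, c, k1, k2, k3⟩ := zl_prim x hx
    exact ⟨d, a, Φ *ᵥ c, k1, k2, by rw [toLinearMap₂'_apply', mulVec_mulVec, h, one_mulVec, k3]⟩)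
    (Fintype.card ι) (by simp [two_mul])
  set s := Fintype.equivFin ι
  set V : Matrix (ι ⊕ ι) (ι ⊕ ι) ℤ := (Matrix.of (Sum.elim (e ∘ s) (f ∘ s)))ᵀ with hV
  have h5 : Vᵀ * Ψ * V = -J ι ℤ := by
    ext a b
    have : (Vᵀ * Ψ * V) a b =
        toLinearMap₂' ℤ Ψ (Sum.elim (e ∘ s) (f ∘ s) a) (Sum.elim (e ∘ s) (f ∘ s) b) := by
      rw [toLinearMap₂'_apply', Matrix.mul_assoc]; rfl
    rw [this]
    rcases a with i | i <;> rcases b with j | j <;>
      simp [h2, h3, h4, h1 (e _) (f _), J, one_apply, eq_comm]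
  have h6 : J ι ℤ * Vᵀ * Ψ * V = 1 := by
    rw [Matrix.mul_assoc, Matrix.mul_assoc, ← Matrix.mul_assoc Vᵀ, h5, Matrix.mul_neg, J_squared,
      neg_neg]
  have h7 := mul_eq_one_comm.1 h6
  refine ⟨_, V, h6, h7, ?_⟩
  generalize J ι ℤ * Vᵀ * Ψ = U at h7
  rw [← h5, ← Matrix.mul_assoc, ← Matrix.mul_assoc, ← transpose_mul, h7, transpose_one,
    Matrix.one_mul, Matrix.mul_assoc, h7, Matrix.mul_one]

end Pool.Agent.RT
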