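import Pool.Agent.Lib.MP_e97e2b_nt.RT.ZRat
import Pool.Agent.Lib.MP_e97e2b_nt.RT.ZAH

/-! The symmetric uniformisation of the eighth power. -/

set_option autoImplicit false

namespace Pool.Agent.RT

open MvPolynomial Function Matrix
open _root_.M4 (rz)
open _root_.M4.Un (Gr)

noncomputable section

variable {K : IntermediateField ℚ ℂ} {g n : ℕ} {J : Set (MvPolynomial (Fin n) K)}
  {p : (κ g → ℝ) ≃ₗ[ℝ] (Fin g → ℂ)} {u : (Fin g → ℂ) → Fin n → ℂ}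

theorem zg_per (h : Unif J p u) (m : κ g → ℤ) (z : Fin g → ℂ) :
    ∃ c : ℂ, u (z + p (rz m)) = c • u z := (h.inj _ _).2 ⟨m, add_sub_cancel_left _ _⟩

theorem zg_ne (h : Unif J p u) (σ : GK K) (z : Fin g → ℂ) : (fun a => σ (u z a)) ≠ 0 := fun e =>
  seg_ne h z (funext fun a => (map_eq_zero σ).1 (congrFun e a))

theorem zg_gr (h : Unif J p u) (σ : GK K) : Gr (RA p u σ) := by
  have hσ : ∀ {α : Type} (v : α → ℂ) (P : MvPolynomial α K),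
      σ (aeval v P) = aeval (fun a => σ (v a)) P := fun v P =>
    (MvPolynomial.comp_aeval_apply v (σ : ℂ →ₐ[K] ℂ) P :)
  refine ⟨fun x => ?_, ?_, ?_, ?_⟩
  · obtain ⟨z, c, -, hc⟩ := (h.img fun a => σ (u (p x) a)).1 ⟨zg_ne h σ _, fun P hP => by
      rw [← hσ, ((h.img (u (p x))).2 ⟨_, 1, one_ne_zero, (one_smul _ _).symm⟩).2 P hP, map_zero]⟩
    exact ⟨p.symm z, c, fun a => by rw [p.apply_symm_apply]; exact congrFun hc a⟩
  · rintro x y x' y' ⟨c, hc⟩ ⟨c', hc'⟩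
    obtain ⟨Ψ, ⟨a₀, h0⟩, hΨ⟩ := h.sub (p x) (p x')
    obtain ⟨d, hd⟩ := hΨ (p x) (p x') 1 1
    obtain ⟨d', hd'⟩ := hΨ (p y) (p y') c c'
    simp only [one_smul] at hd
    have hd0 : σ d ≠ 0 := (map_ne_zero σ).2 (left_ne_zero_of_mul (hd a₀ ▸ h0))
    refine ⟨d' / σ d, fun a => ?_⟩
    have e : (fun i => σ (Sum.elim (u (p x)) (u (p x')) i)) =
        Sum.elim (c • u (p y)) (c' • u (p y')) := by
      funext i
      rcases i with i | i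
      exacts [hc i, hc' i]
    rw [map_sub, map_sub, div_mul_eq_mul_div, eq_div_iff hd0, ← hd', ← e, ← hσ, hd, map_mul,
      mul_comm]
  · rintro x y y' ⟨c, hc⟩ ⟨c', hc'⟩
    have c0 : c ≠ 0 := fun e =>
      zg_ne h σ (p x) (funext fun a => by rw [hc, e, zero_mul, Pi.zero_apply])
    obtain ⟨m, hm⟩ := (h.inj (p y) (p y')).1 ⟨c' / c, funext fun a => by
      rw [Pi.smul_apply, smul_eq_mul, div_mul_eq_mul_div, eq_div_iff c0, ← hc', hc, mul_comm]⟩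
    exact ⟨m, p.injective (by rw [map_sub]; exact hm)⟩
  · rintro x y m m' ⟨c, hc⟩
    obtain ⟨d, hd⟩ := zg_per h m (p x)
    obtain ⟨d', hd'⟩ := zg_per h (-m') (p (y + rz m'))
    have e : y + rz m' + rz (-m') = y := funext fun i => by simp [rz]
    rw [← map_add, e] at hd'
    refine ⟨σ d * c * d', fun a => ?_⟩
    rw [map_add p x, hd, Pi.smul_apply, smul_eq_mul, map_mul, hc, hd', Pi.smul_apply, smul_eq_mul]
    ring

theorem z_sym (h : Unif J p u) : ∃ (Ω : Matrix (κ g) (κ g) ℤ) (α : Type) (_ : Fintype α)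
    (p' : (Fin 8 × κ g → ℝ) ≃ₗ[ℝ] (Fin 8 × Fin g → ℂ)) (w : (Fin 8 × Fin g → ℂ) → α → ℂ)
    (S : (Fin 8 × Fin g → ℂ) →ₗ[ℝ] (Fin 8 × Fin g → ℂ) →ₗ[ℝ] ℝ), Ωᵀ = -Ω ∧ Ω.det ≠ 0 ∧
    Sy K p' w S ∧
    (∀ x y, S (Complex.I • p' y) (p' x) = x ⬝ᵥ (d8 Ω).map (Int.cast : ℤ → ℝ) *ᵥ y) ∧
    ∀ (σ : GK K) x y, (∀ i, RA p u σ (blk x i) (blk y i)) → RA p' w σ x y := by
  obtain ⟨F, S, Ω, hF, hF0, h1, h2, h3, h4, h5, h6, h7⟩ := zah8 h (p8 p) (blk_p8 p)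
  have hw : ∀ (z : Fin 8 × Fin g → ℂ) (a : (Fin 8 → Fin n) × (Fin 8 → Fin n)),
      (fun z (a : (Fin 8 → Fin n) × (Fin 8 → Fin n)) => F z * u8 u z a.1 * u8 u (-z) a.2) z a =
        F z * u8 u z a.1 * u8 u (-z) a.2 := fun _ _ => rfl
  exact ⟨Ω, (Fin 8 → Fin n) × (Fin 8 → Fin n), inferInstance, p8 p, _, S, h4, h5,
    ⟨sym_hol h hF hw, sym_nz h hF0 hw, h1, h2, h3, fun m z => funext fun a => h7 m z a.1 a.2,
      fun σ => sym_gr h hF0 hw (zg_gr h σ), sym_rat h hF hF0 hw⟩, h6,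
    fun σ x y => (sym_ra h hF0 hw (zg_gr h σ) x y).2⟩

end

end Pool.Agent.RT
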