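import Pool.Agent.Lib.MP_e97e2b_nt.RT.ZFw
import Pool.Agent.Lib.MP_e97e2b_nt.RT.ZSym
import Pool.Agent.Lib.MP_e97e2b_nt.RT.ZL
import Pool.Agent.Lib.MP_e97e2b_nt.RT.ZDa

/-! The principally polarised model. -/

set_option autoImplicit false

namespace Pool.Agent.RT

open Matrix Polynomial RG RG.B2
open _root_.M4 (InH rz ee E ee_nat_mul ee_eq_one_iff ee_add ee_int ee_ne_zero)
open _root_.M4.Un (Rv)

noncomputable section

section d8

variable {m R : Type} [Fintype m] [DecidableEq m] [CommRing R]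

omit [DecidableEq m] in
theorem d8_mulVec (A : Matrix m m R) (x : Fin 8 × m → R) (i : Fin 8) :
    blk (d8 A *ᵥ x) i = A *ᵥ blk x i := by
  funext a
  simp [blk, d8, mulVec, dotProduct, Fintype.sum_prod_type]

/-- Diagonal copies, as a homomorphism. -/
def d8h : Matrix m m R →ₐ[R] Matrix (Fin 8 × m) (Fin 8 × m) R where
  toFun := d8
  map_one' := by
    ext x y
    simp only [d8, one_apply, Prod.ext_iff]
    split_ifs <;> simp_all
  map_mul' A B := by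
    ext x y
    simp only [d8, mul_apply, Fintype.sum_prod_type, ite_mul, zero_mul, mul_ite, mul_zero]
    rw [Finset.sum_eq_single y.1 (fun i _ h => by simp [h]) (by simp)]
    split_ifs <;> simp_all
  map_zero' := by ext x y; simp [d8]
  map_add' A B := by
    ext x y
    simp only [d8, Matrix.add_apply]
    split_ifs <;> simp
  commutes' c := by
    ext x y
    simp only [d8, algebraMap_matrix_apply, Prod.ext_iff]
    split_ifs <;> simp_all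

omit [Fintype m] [DecidableEq m] in
theorem d8_inj {A : Matrix m m R} (h : d8 A = 0) : A = 0 := by
  ext a b
  simpa [d8] using congrFun (congrFun h (0, a)) (0, b)

theorem zm_inter {n : Type} [Fintype n] [DecidableEq n] {A : Matrix n n R} {B : Matrix m m R}
    {G : Matrix n m R} (h : A * G = G * B) (c : R[X]) : aeval A c * G = G * aeval B c := by
  induction c using Polynomial.induction_on with
  | C c => simp [Algebra.algebraMap_eq_smul_one]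
  | add a b ha hb => rw [map_add, map_add, Matrix.add_mul, Matrix.mul_add, ha, hb]
  | monomial k c ih =>
    rw [pow_succ, ← mul_assoc, map_mul, map_mul (aeval B), aeval_X, aeval_X, Matrix.mul_assoc, h,
      ← Matrix.mul_assoc, ih, Matrix.mul_assoc]

omit [DecidableEq m] in
theorem zm_cast {n : Type} [DecidableEq n] {G : Matrix n m ℤ} {H : Matrix m n ℤ} {D : ℕ}
    (h : G * H = (D : ℤ) • 1) (R : Type) [CommRing R] :
    G.map (Int.cast : ℤ → R) * H.map (Int.cast : ℤ → R) = (D : R) • 1 := by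
  refine (Matrix.map_mul (f := Int.castRingHom R)).symm.trans ?_
  rw [h]
  ext i j
  rw [map_apply, Matrix.smul_apply, Matrix.smul_apply, one_apply, one_apply]
  split_ifs <;> simp

end d8

variable {K : IntermediateField ℚ ℂ} {g : ℕ}

/-- A vector in the first block. -/
def in0 {m : Type} (x : m → ℝ) : Fin 8 × m → ℝ := fun a => if a.1 = 0 then x a.2 else 0

theorem in0_dot {m : Type} [Fintype m] (x : m → ℝ) (y : Fin 8 × m → ℝ) :
    in0 x ⬝ᵥ y = x ⬝ᵥ blk y 0 := by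
  simp [in0, dotProduct, blk, Fintype.sum_prod_type]

theorem zm_tate {m : Type} [Fintype m] [DecidableEq m] {R : (m → ℝ) → (m → ℝ) → Prop}
    {r : ∀ l : Nat.Primes, GL m ℤ_[l]} (h : Tate R r) (q : Nat.Primes) (n : ℕ) {x y : m → ℤ}
    (hx : ∀ i, (q : ℤ_[q]) ^ n ∣ ((r q).1 *ᵥ fun j => (x j : ℤ_[q])) i - y i) :
    R (((q : ℝ) ^ n)⁻¹ • rz x) (((q : ℝ) ^ n)⁻¹ • rz y) := by
  have e : ∀ x : m → ℤ, ((q : ℝ) ^ n)⁻¹ • rz x =
      fun i => ((((q : ℚ) ^ n)⁻¹ * x i : ℚ) : ℝ) := fun x => by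
    funext i
    simp [rz]
  rw [e, e]
  refine h _ _ fun l i => ?_
  have e1 : (((r l).1.map fun x => (x : ℚ_[l])) *ᵥ
      fun j => ((((q : ℚ) ^ n)⁻¹ * x j : ℚ) : ℚ_[l])) i - ((((q : ℚ) ^ n)⁻¹ * y i : ℚ) : ℚ_[l]) =
      ((q : ℚ_[l]) ^ n)⁻¹ * ((((r l).1 *ᵥ fun j => (x j : ℤ_[l])) i - y i : ℤ_[l]) : ℚ_[l]) := by
    simp only [mulVec, dotProduct, map_apply, PadicInt.coe_sub, PadicInt.coe_sum, PadicInt.coe_mul,
      PadicInt.coe_intCast, mul_sub, Finset.mul_sum]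
    push_cast
    exact congrArg (· - _) (Finset.sum_congr rfl fun j _ => by ring)
  rw [e1]
  by_cases hl : l = q
  · subst hl
    obtain ⟨c, hc⟩ := hx i
    have h0 : (l : ℚ_[l]) ^ n ≠ 0 := pow_ne_zero _ (Nat.cast_ne_zero.2 l.2.ne_zero)
    rw [hc]
    push_cast
    rw [inv_mul_cancel_left₀ h0]
    exact c.2
  · have h1 : ‖(q : ℚ_[l])‖ = 1 := (Padic.norm_natCast_eq_one_iff (p := l) (n := q)).2
      ((Nat.coprime_primes l.2 q.2).2 fun h => hl (Subtype.ext h))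
    rw [norm_mul, norm_inv, norm_pow, h1, one_pow, inv_one, one_mul]
    exact PadicInt.norm_le_one _

theorem zm_root (σ : ℂ ≃+* ℂ) (q : ℕ) [Fact q.Prime] (n : ℕ) {a b : ℤ}
    (h : σ (ee (a / (q : ℂ) ^ n)) = ee (b / (q : ℂ) ^ n)) :
    (q : ℤ_[q]) ^ n ∣ (cyclotomicCharacter ℂ q σ).val * a - b := by
  have h0 : (q : ℂ) ^ n ≠ 0 := pow_ne_zero _ (Nat.cast_ne_zero.2 (Fact.out : q.Prime).ne_zero)
  rw [cyclotomicCharacter.spec q (n := n) σ _ (by
    rw [← ee_nat_mul, Nat.cast_pow, mul_div_cancel₀ _ h0, ee_int]), ← ee_nat_mul] at h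
  generalize hc : (cyclotomicCharacter ℂ q σ).val = c at h ⊢
  obtain ⟨k, hk⟩ := ee_eq_one_iff.1 (show ee (((PadicInt.toZModPow n c).val : ℂ) *
      (a / (q : ℂ) ^ n) - b / (q : ℂ) ^ n) = 1 from
    mul_right_cancel₀ (ee_ne_zero (b / (q : ℂ) ^ n)) (by rw [← ee_add, sub_add_cancel, h, one_mul]))
  have h1 : ((PadicInt.toZModPow n c).val : ℤ) * a - b = (q : ℤ) ^ n * k := by
    field_simp at hk
    exact_mod_cast hk
  rw [← Ideal.mem_span_singleton, ← PadicInt.ker_toZModPow, RingHom.mem_ker, map_sub, map_mul,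
    map_intCast, map_intCast]
  have h2 := congrArg (Int.cast : ℤ → ZMod (q ^ n)) h1
  push_cast at h2
  rw [ZMod.natCast_zmod_val] at h2
  rw [h2, ← Nat.cast_pow, ZMod.natCast_self, zero_mul]

theorem zm_sim {Ω : Matrix (κ g) (κ g) ℤ} {R : (κ g → ℝ) → (κ g → ℝ) → Prop}
    {r : ∀ l : Nat.Primes, GL (κ g) ℤ_[l]} (h : Tate R r) (σ : ℂ ≃+* ℂ)
    (hσ : ∀ (k : ℕ) (a a' b b' : κ g → ℤ), k ≠ 0 → R ((k : ℝ)⁻¹ • rz a) ((k : ℝ)⁻¹ • rz a') →
      R ((k : ℝ)⁻¹ • rz b) ((k : ℝ)⁻¹ • rz b') →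
        σ (ee ((a ⬝ᵥ Ω *ᵥ b : ℤ) / k)) = ee ((a' ⬝ᵥ Ω *ᵥ b' : ℤ) / k)) (q : Nat.Primes) :
    (r q).1ᵀ * Ω.map (Int.cast : ℤ → ℤ_[q]) * (r q).1 =
      (cyclotomicCharacter ℂ q σ).val • Ω.map (Int.cast : ℤ → ℤ_[q]) := by
  ext i j : 2
  refine PadicInt.ext_of_toZModPow.1 fun n => ?_
  choose y hy using fun i => _root_.M4.Gal.exists_appr n fun k => (r q).1 k i
  have h1 : ∀ i, R ((((q : ℕ) ^ n : ℕ) : ℝ)⁻¹ • rz (Pi.single i 1))
      ((((q : ℕ) ^ n : ℕ) : ℝ)⁻¹ • rz (y i)) := fun i => by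
    rw [Nat.cast_pow]
    exact zm_tate h q n fun k => by simpa [mulVec, dotProduct, Pi.single_apply] using hy i k
  have h2 := hσ _ _ _ _ _ (pow_ne_zero n q.2.ne_zero) (h1 i) (h1 j)
  rw [Nat.cast_pow] at h2
  have h3 := zm_root σ q n h2
  have h4 : ∀ i k, PadicInt.toZModPow n ((r q).1 k i) = y i k := fun i k => by
    have h5 := hy i k
    rwa [← Ideal.mem_span_singleton, ← PadicInt.ker_toZModPow, RingHom.mem_ker, map_sub,
      map_intCast, sub_eq_zero] at h5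
  rw [← Ideal.mem_span_singleton, ← PadicInt.ker_toZModPow, RingHom.mem_ker, map_sub,
    sub_eq_zero, single_one_dotProduct, mulVec_single_one] at h3
  rw [Matrix.smul_apply, smul_eq_mul, map_apply]
  refine Eq.trans ?_ h3.symm
  simp only [mul_apply, transpose_apply, map_apply, map_sum, map_mul, map_intCast, h4, mulVec,
    dotProduct, Int.cast_sum, Int.cast_mul, Finset.sum_mul, Finset.mul_sum, mul_assoc]
  exact Finset.sum_comm

theorem z_main {n : ℕ} {J : Set (MvPolynomial (Fin n) K)} {p : (κ g → ℝ) ≃ₗ[ℝ] (Fin g → ℂ)}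
    {u : (Fin g → ℂ) → Fin n → ℂ} (hg : 1 ≤ g) (h : Unif J p u) {r : Fam (GK K) (κ g)}
    (hr : ∀ σ, Tate (RA p u σ) fun l => r l σ) (l : ℕ) [Fact l.Prime]
    (W : Submodule (ZMod l) (κ g → ZMod l)) {x : κ g → ZMod l} (hx : x ∉ W)
    (hW : ∀ σ, ∀ w ∈ W, bar (r l σ).1 *ᵥ w ∈ W) :
    ∃ (_ : Dim) (τ : Mat) (R : Fam (GK K) ν) (y : ν → ZMod l), Fintype.card ι = 8 * g ∧ InH τ ∧
      (∀ σ : GK K, Fw τ σ.toRingEquiv fun q => R q σ) ∧
      (∀ (q : ℕ) [Fact q.Prime] σ (c : ℤ_[q][X]), aeval (R q σ).1 c = 0 ↔ aeval (r q σ).1 c = 0) ∧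
      y ≠ 0 ∧ ∀ σ (c : ZMod l), bar (r l σ).1 *ᵥ x - c • x ∈ W → bar (R l σ).1 *ᵥ y = c • y := by
  obtain ⟨Ω, α, _, p', w, S, hΩ, hΩ', hS, hSΩ, hRA⟩ := z_sym h
  obtain ⟨_, G, H, N, D, y, hc, hN, hD, hGH, hHG, hE, hy, hq, hl⟩ := z_lat hg hΩ hΩ' l W hx
  obtain ⟨τ, v, hDa, hRv⟩ := z_da hS hN hD hGH hHG fun a b => by rw [hE, hSΩ]
  have hN' : (N : ℝ) ^ 2 ≠ 0 := pow_ne_zero _ (Nat.cast_ne_zero.2 hN)
  have hd8 : (d8 Ω).map (Int.cast : ℤ → ℝ) = d8 (Ω.map (Int.cast : ℤ → ℝ)) := by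
    ext a b
    simp only [d8, map_apply]
    split_ifs <;> simp
  have hz : ∀ {a b : Type} [Fintype b] (A : Matrix a b ℤ) (m : b → ℤ),
      A.map (Int.cast : ℤ → ℝ) *ᵥ rz m = rz (A *ᵥ m) := fun A m => by
    funext i
    simp [rz, mulVec, dotProduct]
  have hE0 : ∀ (k : ℕ) (a : κ g → ℤ) b, k ≠ 0 → k * ((N : ℝ) ^ 2)⁻¹ *
      E (G.map (Int.cast : ℤ → ℝ) *ᵥ in0 ((k : ℝ)⁻¹ • rz a)) (G.map (Int.cast : ℤ → ℝ) *ᵥ b) =
      rz a ⬝ᵥ Ω.map (Int.cast : ℤ → ℝ) *ᵥ blk b 0 := fun k a b hk => by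
    have : (k : ℝ) ≠ 0 := Nat.cast_ne_zero.2 hk
    rw [hE, in0_dot, hd8, d8_mulVec, smul_dotProduct, smul_eq_mul]
    field_simp
  have sim : ∀ (q : ℕ) [Fact q.Prime] (σ : GK K),
      (r q σ).1ᵀ * Ω.map (Int.cast : ℤ → ℤ_[q]) * (r q σ).1 =
      (cyclotomicCharacter ℂ q σ.toRingEquiv).val • Ω.map (Int.cast : ℤ → ℤ_[q]) := fun q hq σ => by
    refine zm_sim (hr σ) σ.toRingEquiv (fun k a a' b b' hk ha hb => ?_) ⟨q, hq.out⟩
    have h0 : ∀ {a a' : κ g → ℝ}, RA p u σ a a' →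
        Rv v σ (G.map (Int.cast : ℤ → ℝ) *ᵥ in0 a) (G.map (Int.cast : ℤ → ℝ) *ᵥ in0 a') :=
      fun {a a'} ha => (hRv σ _ _).2 (hRA σ _ _ fun i => by
        by_cases hi : i = 0
        · exact hi ▸ ha
        · have e : ∀ a : κ g → ℝ, blk (in0 a) i = fun j => ((0 : κ g → ℚ) j : ℝ) := fun a => by
            funext j
            simp [blk, in0, hi]
          rw [e, e]
          exact hr σ 0 0 fun l i => by simp [mulVec, dotProduct])
    have h1 : ∀ a : κ g → ℤ, ∀ n ∈ (G.mulVecLin.range).toAddSubgroup, ∃ j : ℤ,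
        k * ((N : ℝ) ^ 2)⁻¹ * E (G.map (Int.cast : ℤ → ℝ) *ᵥ in0 ((k : ℝ)⁻¹ • rz a)) (rz n) = j := by
      rintro a _ ⟨m, rfl⟩
      refine ⟨a ⬝ᵥ Ω *ᵥ blk m 0, ?_⟩
      rw [mulVecLin_apply, ← hz, hE0 k a _ hk]
      simp [rz, blk, mulVec, dotProduct]
    have h2 : ∀ a b : κ g → ℤ, ((k * ((N : ℝ) ^ 2)⁻¹ *
        E (G.map (Int.cast : ℤ → ℝ) *ᵥ in0 ((k : ℝ)⁻¹ • rz a))
          (G.map (Int.cast : ℤ → ℝ) *ᵥ in0 ((k : ℝ)⁻¹ • rz b)) : ℝ) : ℂ) =
        (a ⬝ᵥ Ω *ᵥ b : ℤ) / k := fun a b => by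
      rw [hE0 k a _ hk, show blk (in0 ((k : ℝ)⁻¹ • rz b)) 0 = (k : ℝ)⁻¹ • rz b from rfl,
        mulVec_smul, hz, dotProduct_smul]
      simp [rz, dotProduct, div_eq_inv_mul]
    have h3 := z_pair hDa σ k (h0 ha) (h0 hb) (by
      rintro _ (rfl | rfl | rfl | rfl) <;> exact h1 _)
    rwa [h2, h2] at h3
  have can : ∀ (q : ℕ) [Fact q.Prime] {A : Matrix ν ν ℤ_[q]},
      A * G.map (Int.cast : ℤ → ℤ_[q]) = 0 → A = 0 := fun q _ A hA => by
    have h1 := congrArg (· * H.map (Int.cast : ℤ → ℤ_[q])) hA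
    simp only [Matrix.mul_assoc, zm_cast hGH, Matrix.mul_smul, Matrix.mul_one,
      Matrix.zero_mul] at h1
    exact (smul_eq_zero.1 h1).resolve_left (Nat.cast_ne_zero.2 hD)
  have ex : ∀ (q : ℕ) [Fact q.Prime] (σ : GK K), ∃ R : GL ν ℤ_[q],
      R.1 * G.map (Int.cast : ℤ → ℤ_[q]) = G.map (Int.cast : ℤ → ℤ_[q]) * d8h (r q σ).1 :=
    fun q _ σ => by
      by_cases e : q = l
      · subst e
        exact (hl _ _ (sim q σ) (hW σ)).imp fun _ h => h.1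
      · exact hq q e _ _ (sim q σ)
  choose R hR using ex
  refine ⟨_, τ, fun q _ => MonoidHom.mk' (R q) fun σ σ' => Units.ext (sub_eq_zero.1 (can q ?_)),
    y, hc, hDa.inH, fun σ => z_fw hDa (k := 4 * N ^ 2) (by push_cast; field_simp) σ _ ?_,
    fun q _ σ c => ?_, hy, fun σ c hσ => ?_⟩
  · rw [Matrix.sub_mul, Units.val_mul, Matrix.mul_assoc, hR, hR, ← Matrix.mul_assoc, hR, map_mul,
      Units.val_mul, map_mul, Matrix.mul_assoc, sub_self]
  · rintro a a' ⟨t, ht, h1⟩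
    have hD' : (D : ℚ) ≠ 0 := Nat.cast_ne_zero.2 hD
    have h2 : ∀ a : ν → ℚ, G.map (Int.cast : ℤ → ℚ) *ᵥ ((D : ℚ)⁻¹ • H.map (Int.cast : ℤ → ℚ) *ᵥ a) =
        a := fun a => by
      rw [mulVec_smul, mulVec_mulVec, zm_cast hGH, smul_mulVec, one_mulVec, inv_smul_smul₀ hD']
    have h3 : ∀ (F : Type) [Field F] [CharZero F] (b : Fin 8 × κ g → ℚ),
        (fun i => ((G.map (Int.cast : ℤ → ℚ) *ᵥ b) i : F)) =
          G.map (Int.cast : ℤ → F) *ᵥ fun i => (b i : F) := fun F _ _ b => by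
      funext i
      simp [mulVec, dotProduct]
    generalize (D : ℚ)⁻¹ • H.map (Int.cast : ℤ → ℚ) *ᵥ a = b, (D : ℚ)⁻¹ •
      H.map (Int.cast : ℤ → ℚ) *ᵥ a' = b', h2 a = hb, h2 a' = hb'
    subst hb hb'
    unfold rQ
    rw [h3, h3]
    refine (hRv σ _ _).2 (hRA σ _ _ fun i => hr σ (blk b i) (blk b' i) fun q j => ?_)
    have h4 := congrArg (cV q) h1
    have h5 : mQ (R q σ).1 * G.map (Int.cast : ℤ → ℚ_[q]) =
        G.map (Int.cast : ℤ → ℚ_[q]) * d8 ((r q σ).1.map fun x => (x : ℚ_[q])) := by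
      have h6 := congrArg (·.map (PadicInt.Coe.ringHom (p := q))) (hR q σ)
      simp only [Matrix.map_mul] at h6
      refine h6.trans (congrArg _ ?_)
      ext a b
      exact apply_ite ((↑) : ℤ_[q] → ℚ_[q]) _ _ _
    rw [cV_sub, cV_rho, cV_qV, cV_qV, h3, h3, cV_nsmul, mulVec_mulVec] at h4
    erw [h5] at h4
    rw [← mulVec_mulVec, ← mulVec_sub] at h4
    have h6 := congrArg (H.map (Int.cast : ℤ → ℚ_[q]) *ᵥ ·) h4
    simp only [mulVec_mulVec, zm_cast hHG, smul_mulVec, one_mulVec, mulVec_smul] at h6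
    have h7 := congrFun (smul_right_injective _ (Nat.cast_ne_zero.2 hD) h6) (i, j)
    have h8 := congrFun (d8_mulVec ((r q σ).1.map fun x => (x : ℚ_[q])) (fun i => (b i : ℚ_[q])) i) j
    rw [Pi.sub_apply] at h7
    refine (congrArg norm ((congrArg (· - _) h8.symm).trans h7)).trans_le ?_
    refine IsUltrametricDist.norm_sum_le_of_forall_le_of_nonneg zero_le_one fun k _ => ?_
    rw [norm_mul]
    exact mul_le_one₀ (Padic.norm_int_le_one _) (norm_nonneg _) (mem_TA_iff.1 ht q k)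
  · have h1 := zm_inter (hR q σ) c
    rw [aeval_algHom_apply] at h1
    refine ⟨fun h2 => d8_inj ?_, fun h2 => can q (h1.trans (by rw [h2, map_zero, Matrix.mul_zero]))⟩
    have h3 := congrArg (H.map (Int.cast : ℤ → ℤ_[q]) * ·) h1
    simp only [show aeval (R q σ).1 c = 0 from h2, Matrix.zero_mul, Matrix.mul_zero,
      ← Matrix.mul_assoc, zm_cast hHG, Matrix.smul_mul, Matrix.one_mul] at h3
    exact (smul_eq_zero.1 h3.symm).resolve_left (Nat.cast_ne_zero.2 hD)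
  · obtain ⟨R', h1, h2⟩ := hl _ _ (sim l σ) (hW σ)
    have h3 : (R l σ).1 = R'.1 := sub_eq_zero.1 (can l (by
      rw [Matrix.sub_mul, hR, h1]; exact sub_self _))
    exact h3 ▸ h2 c hσ

end

end Pool.Agent.RT
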