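import Pool.Agent.Lib.MP_e97e2b_nt.RT.Defs

/-! Conjugation of sections of every level, translation operators and the pairing. -/

set_option autoImplicit false

namespace Pool.Agent.RT

open Matrix MvPolynomial RG RG.B2
open _root_.M4 (InH Hol U rz ee E U_apply U_comm U_smul ee_add ee_zero ee_nat_mul ee_ne_zero ee_int)
open _root_.M4.Un (Rv Rc Ty Cj cj_pow hol_eval hol_loc s_hom s_map const_of_lat)

noncomputable section

variable [Dim] {K : IntermediateField ℚ ℂ} {α : Type} {τ : Mat} {Λ : AddSubgroup (ν → ℤ)} {D : ℕ}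
  {m : ℝ} {v : α → (ν → ℝ) → ℂ} {k : ℕ} {σ : GK K} {f g g' : (ν → ℝ) → ℂ} {a a' b b' : ν → ℝ}

/-- The translation by `a` acts on the sections of level `μ`. -/
def Adm (Λ : AddSubgroup (ν → ℤ)) (μ : ℝ) (a : ν → ℝ) : Prop :=
  ∀ n ∈ Λ, ∃ j : ℤ, μ * E a (rz n) = j

theorem zp_ty_pow (i : α) : Ty v k (v i ^ k) := M4.Un.Dat.ty_pow i

theorem zp_ty_smul (h : Ty v k f) (c : ℂ) : Ty v k (c • f) := fun w w' d hd => by
  rw [Pi.smul_apply, Pi.smul_apply, h w w' d hd, smul_eq_mul, smul_eq_mul, mul_left_comm]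

namespace Da

variable (h : Da K τ Λ D m v)
include h

theorem ex' (σ : GK K) (w' : ν → ℝ) : ∃ w c, Rc v σ w w' c := by
  obtain ⟨w, hw⟩ := h.ex σ⁻¹ w'
  exact ⟨w, hw.inv h.nz⟩

theorem cj_uniq (h1 : Cj v k σ f g) (h2 : Cj v k σ f g') : g = g' := funext fun w' => by
  obtain ⟨w, c, hc⟩ := h.ex' σ w'
  exact mul_left_cancel₀ (pow_ne_zero k (hc.ne h.nz)) ((h1 _ _ _ hc).symm.trans (h2 _ _ _ hc))

theorem shift {n : ν → ℤ} (hn : n ∈ Λ) (w : ν → ℝ) (i : α) :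
    v i (w + rz n) = ee (-(m * E (rz n) w / 2)) * v i w := by
  rw [← congrFun (h.law n hn i) w, U_apply, ← mul_assoc, ← ee_add, neg_add_cancel, ee_zero, one_mul]

theorem ty_iff : Ty v k f ↔ ∀ n ∈ Λ, U (k * m) (rz n) f = f := by
  have e : ∀ x w : ν → ℝ, ee (((k * m : ℝ) : ℂ) * E x w / 2) * ee (-(m * E x w / 2)) ^ k = 1 :=
    fun x w => by
      rw [← ee_nat_mul, ← ee_add, ← ee_zero]
      congr 1
      push_cast
      ring
  refine ⟨fun hf n hn => funext fun w => ?_, fun hf w w' c hc => ?_⟩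
  · rw [U_apply, hf _ _ _ (h.shift hn w), ← mul_assoc, e, one_mul]
  · obtain ⟨n, hn, e1⟩ := h.un 1 w w w' (Rv.one w) ⟨c, hc⟩
    obtain rfl : w = w' + rz n := by rw [← e1, add_sub_cancel]
    obtain ⟨i, hi⟩ := h.nz w'
    obtain rfl := mul_right_cancel₀ hi ((hc i).symm.trans (h.shift hn w' i))
    rw [← congrFun (hf n hn) w', U_apply, ← mul_assoc, mul_comm (_ ^ k), e, one_mul]

theorem zero (σ : GK K) : Rv v σ 0 0 := by
  obtain ⟨w, hw⟩ := h.ex σ 0
  simpa using h.sub σ _ _ _ _ hw hw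

theorem neg (h1 : Rv v σ a a') : Rv v σ (-a) (-a') := by
  simpa using h.sub σ _ _ _ _ (h.zero σ) h1

theorem add (h1 : Rv v σ a a') (h2 : Rv v σ b b') : Rv v σ (a + b) (a' + b') := by
  simpa using h.sub σ _ _ _ _ h1 (h.neg h2)

theorem hol_pow (k : ℕ) (i : α) : v i ^ k ∈ Hol τ (k * m) := by
  have h1 := hol_eval h.hol (isHomogeneous_X_pow (R := ℂ) i k)
  simp only [map_pow, eval_X] at h1
  exact h1

/-- The conjugate of a section is a section. -/
theorem cj_ex (σ : GK K) (hf : f ∈ Hol τ (k * m)) (ht : Ty v k f) :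
    ∃ g ∈ Hol τ (k * m), Ty v k g ∧ Cj v k σ f g := by
  choose s c hc using h.ex' σ
  have hj : Cj v k σ f fun w' => σ (f (s w')) / c w' ^ k := fun w w' d hd => by
    have h0 := (hc w').ne h.nz
    have h1 := hd.mul ((hc w').inv h.nz)
    rw [inv_mul_cancel] at h1
    rw [ht _ _ _ h1, map_mul, map_pow, map_mul, map_inv₀, ← AlgEquiv.mul_apply,
      ← AlgEquiv.mul_apply, mul_inv_cancel, AlgEquiv.one_apply, AlgEquiv.one_apply, mul_pow,
      inv_pow]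
    ring
  refine ⟨_, hol_loc h.inH fun x => ?_, fun w w' d hd => ?_, hj⟩
  · obtain ⟨e, P, Q, hP, hQ, h0, h1⟩ := h.rat k f hf ht (s x)
    have key : ∀ {R : MvPolynomial α ℂ} {j : ℕ}, R.IsHomogeneous j → ∀ w',
        σ (eval (fun a => v a (s w')) R) =
          c w' ^ j * eval (fun a => v a w') (map (σ : ℂ →+* ℂ) R) := fun hR w' => by
      rw [← s_hom (hR.map _)]
      exact (s_map (σ : ℂ →+* ℂ) _ _).trans (by simp only [← hc w' _, RingHom.coe_coe])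
    have h2 := hol_eval h.hol (hP.map (σ : ℂ →+* ℂ))
    rw [Nat.cast_add, add_mul, add_comm] at h2
    refine ⟨e * m, _, h2, _, hol_eval h.hol (hQ.map (σ : ℂ →+* ℂ)), fun e0 => h0 ?_, fun w => ?_⟩
    · rw [← map_eq_zero σ, key hQ, e0, mul_zero]
    · have h3 := congrArg σ (h1 (s w))
      have h4 := (hc w).ne h.nz
      rw [map_mul, key hQ, key hP] at h3
      field_simp
      apply mul_left_cancel₀ (pow_ne_zero e h4)
      linear_combination -h3
  · have h1 : Rc v σ (s w) w' (c w * d) := fun a => by rw [hc w a, hd a, mul_assoc]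
    have h2 := hj _ _ _ h1
    have h4 := (hc w).ne h.nz
    beta_reduce at h2 ⊢
    rw [h2, mul_pow, mul_assoc, mul_div_cancel_left₀ _ (pow_ne_zero k h4)]

theorem u_hol {μ : ℝ} (hf : f ∈ Hol τ μ) (a : ν → ℝ) : U μ a f ∈ Hol τ μ := M4.Hol.U h.inH.1 hf a

theorem u_ty (ht : Ty v k f) (ha : Adm Λ (k * m) a) : Ty v k (U (k * m) a f) :=
  h.ty_iff.2 fun n hn => by
    obtain ⟨j, hj⟩ := ha n hn
    rw [U_comm, h.ty_iff.1 ht n hn, ← Complex.ofReal_mul, hj, Complex.ofReal_intCast, ee_int,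
      one_smul]

/-- Conjugation commutes with related translations up to a scalar. -/
theorem km_ex (hr : Rv v σ a a') (ha : Adm Λ (k * m) a) (ha' : Adm Λ (k * m) a') :
    ∃ κ : ℂ, κ ≠ 0 ∧ ∀ f ∈ Hol τ (k * m), Ty v k f → ∀ g, Cj v k σ f g →
      Cj v k σ (U (k * m) a f) (κ • U (k * m) a' g) := by
  choose s c hc using h.ex' σ
  choose d hd using fun w' => h.add ⟨_, hc w'⟩ hr
  let r : (ν → ℝ) → ℂ := fun w' => σ (ee (((k * m : ℝ) : ℂ) * E a (s w') / 2)) * d w' ^ k /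
    (c w' ^ k * ee (((k * m : ℝ) : ℂ) * E a' w' / 2))
  have key : ∀ f g t, Cj v k σ f g → Cj v k σ (U (k * m) a f) t → ∀ w',
      t w' = r w' * U (k * m) a' g w' := fun f g t h1 h2 w' => by
    have h3 := h2 _ _ _ (hc w')
    have h4 := (hc w').ne h.nz
    have h5 := ee_ne_zero (((k * m : ℝ) : ℂ) * E a' w' / 2)
    rw [U_apply, map_mul, h1 _ _ _ (hd w')] at h3
    rw [U_apply]
    simp only [r]
    field_simp
    linear_combination -h3
  choose t ht1 ht2 ht3 using fun i =>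
    h.cj_ex σ (h.u_hol (h.hol_pow k i) a) (h.u_ty (zp_ty_pow i) ha)
  have hnz : ∀ w, ∃ i, U (k * m) a' (v i ^ k) w ≠ 0 := fun w => by
    obtain ⟨i, hi⟩ := h.nz (w + a')
    exact ⟨i, by rw [U_apply]; exact mul_ne_zero (ee_ne_zero _) (pow_ne_zero k hi)⟩
  have hr : r ∈ Hol τ 0 := M4.Hol.of_ratio h.inH (m := k * m) (f := t)
    (fun i => by simpa using ht1 i) (fun i => h.u_hol (h.hol_pow k i) _) hnz
    fun i => key _ _ _ (cj_pow i) (ht3 i)
  have hconst := const_of_lat h.inH h.D0 hr fun x n => by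
    have he := h.shift (h.mem n) x
    obtain ⟨i, hi⟩ := hnz (x + rz ((D : ℤ) • n))
    refine mul_right_cancel₀ hi ?_
    rw [← key _ _ _ (cj_pow i) (ht3 i), ht2 i _ _ _ he, key _ _ _ (cj_pow i) (ht3 i),
      h.u_ty (zp_ty_pow i) ha' _ _ _ he, mul_left_comm]
  refine ⟨r 0, div_ne_zero (mul_ne_zero ((map_ne_zero σ).2 (ee_ne_zero _))
    (pow_ne_zero k ((hd 0).ne h.nz))) (mul_ne_zero (pow_ne_zero k ((hc 0).ne h.nz)) (ee_ne_zero _)),
    fun f hf hft g hj => ?_⟩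
  obtain ⟨u, -, -, hu⟩ := h.cj_ex σ (h.u_hol hf a) (h.u_ty hft ha)
  rwa [show u = r 0 • U (k * m) a' g from funext fun w => by
    rw [key _ _ _ hj hu, hconst w, Pi.smul_apply, smul_eq_mul]] at hu

theorem pair (hr : Rv v σ a a') (hs : Rv v σ b b') (ha : Adm Λ (k * m) a) (ha' : Adm Λ (k * m) a')
    (hb : Adm Λ (k * m) b) (hb' : Adm Λ (k * m) b') :
    σ (ee (k * m * E a b : ℝ)) = ee (k * m * E a' b' : ℝ) := by
  obtain ⟨x, x0, hx⟩ := h.km_ex hr ha ha'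
  obtain ⟨y, y0, hy⟩ := h.km_ex hs hb hb'
  obtain ⟨i, hi⟩ := h.nz (0 + a' + b')
  have p0 := h.hol_pow k i
  have p1 : Ty v k (v i ^ k) := zp_ty_pow i
  have h1 := hy _ (h.u_hol p0 a) (h.u_ty p1 ha) _ (hx _ p0 p1 _ (cj_pow i))
  have h2 := (hx _ (h.u_hol p0 b) (h.u_ty p1 hb) _ (hy _ p0 p1 _ (cj_pow i))).smul
    (ee (((k * m : ℝ) : ℂ) * E a b))
  rw [← U_comm] at h2
  have h3 := congrFun (h.cj_uniq h1 h2) 0
  rw [U_smul, U_smul, U_comm _ b' a'] at h3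
  have h4 : U (k * m) a' (U (k * m) b' (v i ^ k)) 0 ≠ 0 := by
    rw [U_apply, U_apply]
    exact mul_ne_zero (ee_ne_zero _) (mul_ne_zero (ee_ne_zero _) (pow_ne_zero k hi))
  simp only [Pi.smul_apply, smul_eq_mul] at h3
  rw [Complex.ofReal_mul, Complex.ofReal_mul (k * m)]
  apply mul_right_cancel₀ (mul_ne_zero x0 (mul_ne_zero y0 h4))
  linear_combination -h3

end Da

omit [Dim] in
theorem z_pair [Dim] {α : Type} {τ : Mat} {Λ : AddSubgroup (ν → ℤ)} {D : ℕ} {m : ℝ}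
    {v : α → (ν → ℝ) → ℂ} (h : Da K τ Λ D m v) (σ : GK K) (k : ℕ) {a a' b b' : ν → ℝ}
    (ha : Rv v σ a a') (hb : Rv v σ b b')
    (hk : ∀ x ∈ ({a, a', b, b'} : Set (ν → ℝ)), ∀ n ∈ Λ, ∃ j : ℤ, k * m * E x (rz n) = j) :
    σ (ee (k * m * E a b : ℝ)) = ee (k * m * E a' b' : ℝ) :=
  h.pair ha hb (hk a (by simp)) (hk a' (by simp)) (hk b (by simp)) (hk b' (by simp))

end

end Pool.Agent.RT
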