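import Pool.Agent.Lib.MP_e97e2b_nt.RT.ZSeg

/-! The symmetrised coordinates: sections are quotients of forms, the Galois action. -/

set_option autoImplicit false

namespace Pool.Agent.RT

open MvPolynomial Function
open _root_.M4 (rz)
open _root_.M4.Un (Up Gr)

noncomputable section

theorem up_rat {α c m : Type} [Fintype α] [Fintype c] {U : (c → ℂ) → α → ℂ}
    {p : (m → ℝ) ≃ₗ[ℝ] (c → ℂ)} (h : Up U p)
    (hr : ∀ (k : ℕ) (s : (c → ℂ) → ℂ), Differentiable ℂ s →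
      (∀ z w (e : ℂ), U z = e • U w → s z = e ^ k * s w) → ∀ z₀,
      ∃ (e : ℕ) (P Q : MvPolynomial α ℂ), P.IsHomogeneous (e + k) ∧ Q.IsHomogeneous e ∧
        eval (U z₀) Q ≠ 0 ∧ ∀ z, s z * eval (U z) Q = eval (U z) P)
    (hn : ∀ z₀, ∃ (d : ℕ) (Ψ : α → MvPolynomial α ℂ), (∀ a, (Ψ a).IsHomogeneous d) ∧
      (∃ a, eval (U z₀) (Ψ a) ≠ 0) ∧ ∀ z, ∃ e : ℂ, ∀ a, eval (U z) (Ψ a) = e * U (-z) a)
    {E : (c → ℂ) → ℂ} (hE : Differentiable ℂ E) (hE0 : ∀ z, E z ≠ 0) {w : (c → ℂ) → α × α → ℂ}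
    (hw : ∀ z a, w z a = E z * U z a.1 * U (-z) a.2) (k : ℕ) (s : (c → ℂ) → ℂ)
    (hs : Differentiable ℂ s) (hs' : ∀ z z' (d : ℂ), w z = d • w z' → s z = d ^ k * s z')
    (z₀ : c → ℂ) : ∃ (e : ℕ) (P Q : MvPolynomial (α × α) ℂ), P.IsHomogeneous (e + k) ∧
      Q.IsHomogeneous e ∧ eval (w z₀) Q ≠ 0 ∧ ∀ z, s z * eval (w z) Q = eval (w z) P := by
  obtain ⟨d, Ψ, h1, ⟨a₀, h2⟩, h3⟩ := hn z₀
  choose t ht using h3
  have h4 : ∀ z, ∃ b, U (-z) b ≠ 0 := fun z => ne_iff.1 (h.ne (-z))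
  have h5 : ∀ b, Differentiable ℂ fun z => U (-z) b := fun b =>
    (differentiable_pi.1 h.hol b).comp differentiable_id.neg
  have h6 : Differentiable ℂ t := fun z => by
    obtain ⟨b, hb⟩ := h4 z
    refine (((h.ev (Ψ b)) z).mul ((h5 b z).inv hb)).congr_of_eventuallyEq ?_
    filter_upwards [(h5 b z).continuousAt.eventually_ne hb] with y hy
    rw [Pi.mul_apply, Pi.inv_apply, ht, mul_inv_cancel_right₀ hy]
  obtain ⟨e, P, Q, hP, hQ, h7, h8⟩ := hr ((d + 1) * k) (fun z => s z * (t z / E z) ^ k)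
    (by simpa only [div_eq_mul_inv] using hs.fun_mul ((h6.fun_mul (hE.fun_inv hE0)).fun_pow k))
    (fun z y r hr => by
      obtain ⟨n, hn⟩ := (h.fib z y).1 ⟨r, hr⟩
      obtain ⟨r', hr'⟩ := (h.fib (-z) (-y)).2 ⟨-n, by
        rw [show rz (-n) = -rz n from funext fun i => Int.cast_neg _, map_neg, ← hn]; ring⟩
      obtain ⟨b, hb⟩ := h4 y
      have a1 := ht z b
      rw [hr, M4.Gr.proja_smul (h1 b), ht, hr', Pi.smul_apply, smul_eq_mul, ← mul_assoc,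
        ← mul_assoc, mul_left_inj' hb] at a1
      rw [hs' z y (E z / E y * r * r') (funext fun a => by
        simp only [hw, hr, hr', Pi.smul_apply, smul_eq_mul]
        field_simp [hE0]), mul_right_comm, ← mul_pow, pow_mul, mul_left_comm, ← mul_pow, mul_comm]
      congr 2
      field_simp [hE0]
      linear_combination -r * a1) z₀
  obtain ⟨b, hb⟩ := h4 z₀
  have key : ∀ {j : ℕ} {F : MvPolynomial α ℂ}, F.IsHomogeneous j → ∀ z,
      eval (w z) (rename (·, b) F) = (E z * U (-z) b) ^ j * eval (U z) F := fun {j F} hF z => by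
    rw [eval_rename, ← M4.Gr.proja_smul hF]
    exact congrArg (eval · F) (funext fun a => by
      simp only [comp_apply, hw, Pi.smul_apply, smul_eq_mul]; ring)
  have hR : (Q * Ψ b ^ k).IsHomogeneous (e + d * k) := hQ.mul ((h1 b).pow k)
  refine ⟨e + d * k, rename (·, b) P, rename (·, b) (Q * Ψ b ^ k), ?_, hR.rename_isHomogeneous, ?_,
    fun z => ?_⟩
  · rw [add_assoc, ← add_one_mul]
    exact hP.rename_isHomogeneous
  · rw [key hR, map_mul, map_pow, ht]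
    rw [ht] at h2
    exact mul_ne_zero (pow_ne_zero _ (mul_ne_zero (hE0 _) hb))
      (mul_ne_zero h7 (pow_ne_zero _ (mul_ne_zero (left_ne_zero_of_mul h2) hb)))
  · rw [key hR, key hP, ← h8, map_mul, map_pow, ht, show t z * U (-z) b =
      (t z / E z) * (E z * U (-z) b) by field_simp [hE0], mul_pow (t z / E z)]
    ring

variable {K : IntermediateField ℚ ℂ} {g n : ℕ} {J : Set (MvPolynomial (Fin n) K)}
  {p : (κ g → ℝ) ≃ₗ[ℝ] (Fin g → ℂ)} {u : (Fin g → ℂ) → Fin n → ℂ} {E : (Fin 8 × Fin g → ℂ) → ℂ}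
  {w : (Fin 8 × Fin g → ℂ) → (Fin 8 → Fin n) × (Fin 8 → Fin n) → ℂ}

theorem sym_rat (h : Unif J p u) (hE : Differentiable ℂ E) (hE0 : ∀ z, E z ≠ 0)
    (hw : ∀ z a, w z a = E z * u8 u z a.1 * u8 u (-z) a.2) (k : ℕ) (s : (Fin 8 × Fin g → ℂ) → ℂ)
    (hs : Differentiable ℂ s) (hs' : ∀ z z' (d : ℂ), w z = d • w z' → s z = d ^ k * s z')
    (z₀ : Fin 8 × Fin g → ℂ) :
    ∃ (e : ℕ) (P Q : MvPolynomial ((Fin 8 → Fin n) × (Fin 8 → Fin n)) ℂ),
      P.IsHomogeneous (e + k) ∧ Q.IsHomogeneous e ∧ eval (w z₀) Q ≠ 0 ∧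
        ∀ z, s z * eval (w z) Q = eval (w z) P :=
  up_rat (seg_up h) (seg_rat h) (seg_neg h) hE hE0 hw k s hs hs' z₀

theorem sym_hol (h : Unif J p u) (hE : Differentiable ℂ E)
    (hw : ∀ z a, w z a = E z * u8 u z a.1 * u8 u (-z) a.2) (a : (Fin 8 → Fin n) × (Fin 8 → Fin n)) :
    Differentiable ℂ fun z => w z a := by
  simp only [hw]
  exact (hE.mul (differentiable_pi.1 (seg_up h).hol a.1)).mul
    ((differentiable_pi.1 (seg_up h).hol a.2).comp differentiable_id.neg)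

theorem sym_nz (h : Unif J p u) (hE0 : ∀ z, E z ≠ 0)
    (hw : ∀ z a, w z a = E z * u8 u z a.1 * u8 u (-z) a.2) (z : Fin 8 × Fin g → ℂ) : w z ≠ 0 := by
  obtain ⟨a, ha⟩ := ne_iff.1 ((seg_up h).ne z)
  obtain ⟨b, hb⟩ := ne_iff.1 ((seg_up h).ne (-z))
  exact ne_iff.2 ⟨(a, b), hw z (a, b) ▸ mul_ne_zero (mul_ne_zero (hE0 z) ha) hb⟩

theorem seg_ra (h : Unif J p u) (σ : GK K) (x y : Fin 8 × κ g → ℝ) :
    RA (p8 p) (u8 u) σ x y ↔ ∀ i, RA p u σ (blk x i) (blk y i) := by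
  simp only [RA, u8, map_prod]
  exact seg_iff (x := fun i b => σ (u (p (blk x i)) b)) (y := fun i => u (p (blk y i)))
    fun i e => seg_ne h _ (funext fun b => (map_eq_zero σ).1 (congrFun e b))

theorem sym_ra (h : Unif J p u) (hE0 : ∀ z, E z ≠ 0)
    (hw : ∀ z a, w z a = E z * u8 u z a.1 * u8 u (-z) a.2) {σ : GK K} (hσ : Gr (RA p u σ))
    (x y : Fin 8 × κ g → ℝ) : RA (p8 p) w σ x y ↔ ∀ i, RA p u σ (blk x i) (blk y i) := by
  refine ⟨fun ⟨c, hc⟩ => (seg_ra h σ x y).1 ?_, fun h1 => ?_⟩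
  · obtain ⟨b, hb⟩ := ne_iff.1 ((seg_up h).ne (-p8 p x))
    have h2 : σ (E (p8 p x) * u8 u (-p8 p x) b) ≠ 0 := (map_ne_zero σ).2 (mul_ne_zero (hE0 _) hb)
    refine ⟨c * E (p8 p y) * u8 u (-p8 p y) b / σ (E (p8 p x) * u8 u (-p8 p x) b), fun a => ?_⟩
    have h3 := hc (a, b)
    rw [hw, hw, mul_right_comm, map_mul] at h3
    rw [div_mul_eq_mul_div, eq_div_iff h2]
    linear_combination h3
  · obtain ⟨c, hc⟩ := (seg_ra h σ x y).2 h1
    obtain ⟨c', hc'⟩ := (seg_ra h σ (-x) (-y)).2 fun i => by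
      have h2 := hσ.sub _ _ _ _ hσ.zero (h1 i)
      rwa [zero_sub, zero_sub] at h2
    refine ⟨σ (E (p8 p x)) * c * c' / E (p8 p y), fun a => ?_⟩
    rw [map_neg, map_neg] at hc'
    rw [hw, hw, map_mul, map_mul, hc, hc']
    field_simp [hE0]

theorem sym_gr (h : Unif J p u) (hE0 : ∀ z, E z ≠ 0)
    (hw : ∀ z a, w z a = E z * u8 u z a.1 * u8 u (-z) a.2) {σ : GK K} (hσ : Gr (RA p u σ)) :
    Gr (RA (p8 p) w σ) := by
  have e := sym_ra h hE0 hw hσ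
  refine ⟨fun x => ?_, fun x y x' y' h1 h2 => (e _ _).2 fun i =>
    hσ.sub _ _ _ _ ((e _ _).1 h1 i) ((e _ _).1 h2 i), fun x y y' h1 h2 => ?_,
    fun x y m m' h1 => (e _ _).2 fun i => hσ.sh _ _ (blk m i) (blk m' i) ((e _ _).1 h1 i)⟩
  · choose y hy using fun i => hσ.ex (blk x i)
    exact ⟨fun a => y a.1 a.2, (e _ _).2 hy⟩
  · choose m hm using fun i => hσ.un _ _ _ ((e _ _).1 h1 i) ((e _ _).1 h2 i)
    exact ⟨fun a => m a.1 a.2, funext fun a => congrFun (hm a.1) a.2⟩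

end

end Pool.Agent.RT
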