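import Pool.Agent.Lib.MP_e97e2b_nt.RT.Defs
import Pool.Agent.Lib.MP_33b3f9_ag.Un.GMain

/-! The Segre embedding of the eighth power. -/

set_option autoImplicit false

namespace Pool.Agent.RT

open MvPolynomial Function
open _root_.M4 (rz)
open _root_.M4.Un (Up hom_comp rational)

noncomputable section

theorem m_eval {α K : Type} [Field K] [Algebra K ℂ] (P : MvPolynomial (α ⊕ α) K) (v w : α → ℂ) :
    eval v (aeval (Sum.elim X fun b => C (w b)) P : MvPolynomial α ℂ) = aeval (Sum.elim v w) P := by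
  induction P using MvPolynomial.induction_on with
  | C c => simp
  | add p q hp hq => simp only [map_add, hp, hq]
  | mul_X p i hp => cases i <;> simp [hp]

/-- The Segre map. -/
def u8 {c α : Type} (u : (c → ℂ) → α → ℂ) (z : Fin 8 × c → ℂ) (a : Fin 8 → α) : ℂ :=
  ∏ i, u (blk z i) (a i)

/-- Eight copies of the period map. -/
def p8 {m c : Type} (p : (m → ℝ) ≃ₗ[ℝ] (c → ℂ)) : (Fin 8 × m → ℝ) ≃ₗ[ℝ] (Fin 8 × c → ℂ) where
  toFun x y := p (blk x y.1) y.2
  invFun z y := p.symm (blk z y.1) y.2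
  map_add' x x' := funext fun y => congrFun (p.map_add (blk x y.1) (blk x' y.1)) y.2
  map_smul' r x := funext fun y => congrFun (p.map_smul r (blk x y.1)) y.2
  left_inv x := funext fun y => congrFun (p.symm_apply_apply (blk x y.1)) y.2
  right_inv z := funext fun y => congrFun (p.apply_symm_apply (blk z y.1)) y.2

theorem blk_p8 {m c : Type} (p : (m → ℝ) ≃ₗ[ℝ] (c → ℂ)) (x : Fin 8 × m → ℝ) (i : Fin 8) :
    blk (p8 p x) i = p (blk x i) := rfl

section Alg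

variable {α : Type}

theorem seg_upd (x : Fin 8 → α → ℂ) (a : Fin 8 → α) (i : Fin 8) (b : α) :
    ∏ j, x j (update a i b j) = (∏ j ∈ Finset.univ.erase i, x j (a j)) * x i b := by
  rw [← Finset.prod_erase_mul _ _ (Finset.mem_univ i), update_self]
  exact congrArg (· * x i b) (Finset.prod_congr rfl fun j hj => by
    rw [update_of_ne (Finset.ne_of_mem_erase hj)])

theorem seg_ex {x : Fin 8 → α → ℂ} (hx : ∀ i, x i ≠ 0) : ∃ a : Fin 8 → α, ∀ i, x i (a i) ≠ 0 := by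
  choose a ha using fun i => ne_iff.1 (hx i)
  exact ⟨a, ha⟩

theorem seg_iff {x y : Fin 8 → α → ℂ} (hx : ∀ i, x i ≠ 0) :
    (∃ c : ℂ, ∀ a : Fin 8 → α, ∏ i, x i (a i) = c * ∏ i, y i (a i)) ↔
      ∀ i, ∃ c : ℂ, ∀ b, x i b = c * y i b := by
  refine ⟨fun ⟨c, hc⟩ i => ?_, fun h => ?_⟩
  · obtain ⟨a, ha⟩ := seg_ex hx
    refine ⟨(∏ j ∈ Finset.univ.erase i, x j (a j))⁻¹ * (c * ∏ j ∈ Finset.univ.erase i, y j (a j)),
      fun b => ?_⟩
    rw [mul_assoc, eq_inv_mul_iff_mul_eq₀ (Finset.prod_ne_zero_iff.2 fun j _ => ha j), mul_assoc,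
      ← seg_upd, ← seg_upd, hc]
  · choose c hc using h
    exact ⟨∏ i, c i, fun a => by simp only [hc, Finset.prod_mul_distrib]⟩

theorem seg_rel (x : Fin 8 → α → ℂ) (a b : Fin 8 → α) :
    ∏ i, ∏ j, x j (update a i (b i) j) = (∏ j, x j (b j)) * (∏ j, x j (a j)) ^ 7 := by
  simp only [seg_upd, Finset.prod_mul_distrib]
  rw [mul_comm, Finset.prod_comm' (t' := Finset.univ) (s' := fun j => Finset.univ.erase j)
    (by simp [eq_comm]), ← Finset.prod_pow]
  simp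

variable {c : Type} {u : (c → ℂ) → α → ℂ}

theorem seg_map [Fintype α] (h0 : ∀ z, u z ≠ 0) (φ : Fin 8 → (c → ℂ) → c → ℂ)
    (z₀ : Fin 8 × c → ℂ) (h : ∀ i, ∃ Ψ : α → MvPolynomial α ℂ,
      (∃ a, eval (u (blk z₀ i)) (Ψ a) ≠ 0) ∧
        ∀ z (s : ℂ), ∃ e : ℂ, ∀ a, eval (s • u z) (Ψ a) = e * u (φ i z) a) :
    ∃ (d : ℕ) (Ψ : (Fin 8 → α) → MvPolynomial (Fin 8 → α) ℂ), (∀ a, (Ψ a).IsHomogeneous d) ∧
      (∃ a, eval (u8 u z₀) (Ψ a) ≠ 0) ∧ ∀ z, ∃ e : ℂ, ∀ a,
        eval (u8 u z) (Ψ a) = e * u8 u (fun y => φ y.1 (blk z y.1) y.2) a := by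
  choose Ψ h1 h2 using h
  choose a h1 using h1
  obtain ⟨a₀, h3⟩ := seg_ex fun i => h0 (blk z₀ i)
  let L : (Fin 8 × c → ℂ) → Fin 8 → ℂ := fun z i => ∏ j ∈ Finset.univ.erase i, u (blk z j) (a₀ j)
  let Φ : (Fin 8 → α) → MvPolynomial (Fin 8 → α) ℂ := fun b =>
    ∏ i, aeval (fun r => C (L z₀ i)⁻¹ * X (update a₀ i r)) (Ψ i (b i))
  have key : ∀ z (s : ℂ) b, eval (s • u8 u z) (Φ b) =
      ∏ i, eval (((L z₀ i)⁻¹ * s * L z i) • u (blk z i)) (Ψ i (b i)) := fun z s b => by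
    rw [map_prod]
    refine Finset.prod_congr rfl fun i _ => ?_
    refine (comp_aeval_apply _ (aeval (s • u8 u z)) (Ψ i (b i)) :).trans ?_
    refine congrArg (fun v => eval v (Ψ i (b i))) (funext fun r => ?_)
    simp only [map_mul, aeval_C, aeval_X, Pi.smul_apply, smul_eq_mul, u8, L, Algebra.algebraMap_self,
      RingHom.id_apply, seg_upd fun i => u (blk z i)]
    ring
  have h4 : eval (u8 u z₀) (Φ a) ≠ 0 := by
    rw [← one_smul ℂ (u8 u z₀), key]
    refine Finset.prod_ne_zero_iff.2 fun i _ => ?_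
    rw [mul_one, inv_mul_cancel₀ (Finset.prod_ne_zero_iff.2 fun j _ => h3 j), one_smul]
    exact h1 i
  rw [← sum_homogeneousComponent (Φ a), map_sum] at h4
  obtain ⟨d, -, hd⟩ := Finset.exists_ne_zero_of_sum_ne_zero h4
  refine ⟨d, fun a => homogeneousComponent d (Φ a), fun a => homogeneousComponent_isHomogeneous _ _,
    ⟨a, hd⟩, fun z => hom_comp ?_ (fun s => ?_) d⟩
  · obtain ⟨b, hb⟩ := seg_ex fun i => h0 (φ i (blk z i))
    exact ne_iff.2 ⟨b, Finset.prod_ne_zero_iff.2 fun i _ => hb i⟩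
  · choose e he using fun i => h2 i (blk z i) ((L z₀ i)⁻¹ * s * L z i)
    exact ⟨∏ i, e i, fun b => by
      rw [key, u8, ← Finset.prod_mul_distrib]
      exact Finset.prod_congr rfl fun i _ => he i (b i)⟩

end Alg

variable {K : IntermediateField ℚ ℂ} {g n : ℕ} {J : Set (MvPolynomial (Fin n) K)}
  {p : (κ g → ℝ) ≃ₗ[ℝ] (Fin g → ℂ)} {u : (Fin g → ℂ) → Fin n → ℂ}

theorem seg_ne (h : Unif J p u) (z : Fin g → ℂ) : u z ≠ 0 :=
  ((h.img (u z)).2 ⟨z, 1, one_ne_zero, (one_smul _ _).symm⟩).1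

theorem seg_prop (h : Unif J p u) (z w : Fin 8 × Fin g → ℂ) :
    (∃ c : ℂ, u8 u z = c • u8 u w) ↔ ∀ i, ∃ c : ℂ, u (blk z i) = c • u (blk w i) := by
  simp only [funext_iff]
  exact seg_iff (y := fun i => u (blk w i)) fun i => seg_ne h (blk z i)

theorem seg_up (h : Unif J p u) : Up (u8 u) (p8 p) := by
  have h1 : ∀ i a, Differentiable ℂ fun z : Fin 8 × Fin g → ℂ => u (blk z i) a := fun i a =>
    (differentiable_pi.1 h.hol a).comp (f := fun z => blk z i) (by unfold blk; fun_prop)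
  refine ⟨differentiable_pi.2 fun a z => (HasFDerivAt.finsetProd fun i _ =>
    (h1 i (a i) z).hasFDerivAt).differentiableAt, fun z => ?_, fun z w => ?_,
    fun z₀ w₀ => seg_map (seg_ne h) (fun i z => z - blk w₀ i) z₀ fun i => ?_⟩
  · obtain ⟨b, hb⟩ := seg_ex fun i => seg_ne h (blk z i)
    exact ne_iff.2 ⟨b, Finset.prod_ne_zero_iff.2 fun i _ => hb i⟩
  · rw [seg_prop h]
    simp only [h.inj]
    refine ⟨fun e => ?_, fun ⟨m, hm⟩ i => ⟨blk m i, congrArg (blk · i) hm⟩⟩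
    choose m hm using e
    exact ⟨fun y => m y.1 y.2, funext fun y => congrFun (hm y.1) y.2⟩
  · obtain ⟨Ψ, h0, hΨ⟩ := h.sub (blk z₀ i) (blk w₀ i)
    refine ⟨fun a => aeval (Sum.elim X fun b => C (u (blk w₀ i) b)) (Ψ a), ?_, fun z s => ?_⟩
    · simpa only [m_eval] using h0
    · simpa only [m_eval, one_smul] using hΨ z (blk w₀ i) s 1

theorem seg_eval {α : Type} (P : MvPolynomial (α ⊕ α) K) (v w : α → ℂ) :
    eval w (aeval (Sum.elim (fun b => C (v b)) X) P : MvPolynomial α ℂ) =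
      aeval (Sum.elim v w) P := by
  induction P using MvPolynomial.induction_on with
  | C c => simp
  | add p q hp hq => simp only [map_add, hp, hq]
  | mul_X p i hp => cases i <;> simp [hp]

theorem seg_neg (h : Unif J p u) (z₀ : Fin 8 × Fin g → ℂ) :
    ∃ (d : ℕ) (Ψ : (Fin 8 → Fin n) → MvPolynomial (Fin 8 → Fin n) ℂ),
      (∀ a, (Ψ a).IsHomogeneous d) ∧ (∃ a, eval (u8 u z₀) (Ψ a) ≠ 0) ∧
        ∀ z, ∃ c : ℂ, ∀ a, eval (u8 u z) (Ψ a) = c * u8 u (-z) a := by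
  refine seg_map (seg_ne h) (fun _ z => -z) z₀ fun i => ?_
  obtain ⟨Ψ, h0, hΨ⟩ := h.sub 0 (blk z₀ i)
  refine ⟨fun a => aeval (Sum.elim (fun b => C (u 0 b)) X) (Ψ a), ?_, fun z s => ?_⟩
  · simpa only [seg_eval] using h0
  · simpa only [seg_eval, one_smul, zero_sub] using hΨ 0 z 1 s

theorem seg_img (h : Unif J p u) (v : (Fin 8 → Fin n) → ℂ) (hv : v ≠ 0)
    (hF : ∀ F : MvPolynomial (Fin 8 → Fin n) ℂ, (∀ z (c : ℂ), eval (c • u8 u z) F = 0) →
      eval v F = 0) : ∃ z, ∃ c : ℂ, v = c • u8 u z := by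
  obtain ⟨a, ha⟩ := ne_iff.1 hv
  replace ha : v a ≠ 0 := ha
  have h1 : ∀ (i : Fin 8) (P : MvPolynomial (Fin n) K) (w : (Fin 8 → Fin n) → ℂ),
      eval w (aeval (fun r => X (update a i r)) P : MvPolynomial (Fin 8 → Fin n) ℂ) =
        aeval (fun r => w (update a i r)) P := fun i P w => by
    induction P using MvPolynomial.induction_on with
    | C c => simp
    | add p q hp hq => simp only [map_add, hp, hq]
    | mul_X p i hp => simp [hp]
  have h2 : ∀ i, ∃ z, ∃ c : ℂ, c ≠ 0 ∧ (fun r => v (update a i r)) = c • u z := fun i => by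
    refine (h.img _).1 ⟨ne_iff.2 ⟨a i, by simpa using ha⟩, fun P hP => ?_⟩
    have h3 := hF (X a * aeval (fun r => X (update a i r)) P) fun z c => by
      have h4 : ∀ r, (c • u8 u z) (update a i r) =
          ((c * ∏ j ∈ Finset.univ.erase i, u (blk z j) (a j)) • u (blk z i)) r := fun r => by
        simp only [Pi.smul_apply, smul_eq_mul, u8, seg_upd fun i => u (blk z i), mul_assoc]
      rw [map_mul, eval_X, h1, ← update_eq_self i a, mul_eq_zero]
      simp only [update_idem, h4]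
      by_cases h5 : c * ∏ j ∈ Finset.univ.erase i, u (blk z j) (a j) = 0
      · exact .inl (by rw [h5, zero_smul, Pi.zero_apply])
      · exact .inr (((h.img _).2 ⟨_, _, h5, rfl⟩).2 P hP)
    rw [map_mul, eval_X, h1] at h3
    exact (mul_eq_zero.1 h3).resolve_left ha
  choose z c _ hc using h2
  refine ⟨fun y => z y.1 y.2, (v a ^ 7)⁻¹ * ∏ i, c i, funext fun b => ?_⟩
  have h3 := hF (∏ i, X (update a i (b i)) - X b * X a ^ 7) fun z c => by
    simp only [map_sub, map_prod, map_mul, map_pow, eval_X, Pi.smul_apply, smul_eq_mul, u8,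
      Finset.prod_mul_distrib, seg_rel fun i => u (blk z i), Finset.prod_const, Finset.card_univ,
      Fintype.card_fin]
    ring
  simp only [map_sub, map_prod, map_mul, map_pow, eval_X, sub_eq_zero] at h3
  rw [Pi.smul_apply, smul_eq_mul, mul_assoc, eq_inv_mul_iff_mul_eq₀ (pow_ne_zero _ ha), mul_comm,
    ← h3, u8, ← Finset.prod_mul_distrib]
  exact Finset.prod_congr rfl fun i _ => congrFun (hc i) (b i)

theorem seg_rat (h : Unif J p u) (k : ℕ) (s : (Fin 8 × Fin g → ℂ) → ℂ) (hs : Differentiable ℂ s)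
    (hs' : ∀ z w (c : ℂ), u8 u z = c • u8 u w → s z = c ^ k * s w) (z₀ : Fin 8 × Fin g → ℂ) :
    ∃ (e : ℕ) (P Q : MvPolynomial (Fin 8 → Fin n) ℂ), P.IsHomogeneous (e + k) ∧
      Q.IsHomogeneous e ∧ eval (u8 u z₀) Q ≠ 0 ∧
        ∀ z, s z * eval (u8 u z) Q = eval (u8 u z) P :=
  rational (u8 u) (differentiable_pi.1 (seg_up h).hol) (seg_up h).ne (p8 p)
    {F | ∀ z (c : ℂ), eval (c • u8 u z) F = 0}
    (fun v hv => ⟨seg_img h v hv, fun ⟨z, c, e⟩ _ hF => e ▸ hF z c⟩) (seg_up h).fib (seg_up h).sub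
    k s hs hs' z₀

end

end Pool.Agent.RT
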